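import Mathlib
import Pool.Agent.Helper890.Cov.StG

open MeasureTheory Set Filter Topology Metric
open scoped RealInnerProductSpace Pointwise

namespace Pool.Agent.H878R2.Cov
open Pool.Agent.Helper890.Cov

theorem box_vol {n : ℕ} (b : OrthonormalBasis (Fin n) ℝ (E n)) (c a : Fin n → ℝ) (ha : ∀ i, 0 ≤ a i) :
    (volume : Measure (E n)).real {y | ∀ i, |⟪b i, y⟫ - c i| ≤ a i} = ∏ i, (2 * a i) := by
  have h1 : {y : E n | ∀ i, |⟪b i, y⟫ - c i| ≤ a i} =
      b.repr ⁻¹' ((@WithLp.ofLp 2 (Fin n → ℝ)) ⁻¹' (Icc (fun i => c i - a i) (fun i => c i + a i))) := by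
    ext y
    simp only [mem_ofPred_eq, mem_preimage, mem_Icc, Pi.le_def]
    constructor
    · intro h
      refine ⟨fun i => ?_, fun i => ?_⟩
      · have := abs_le.1 (h i)
        rw [b.repr_apply_apply]
        linarith [this.1]
      · have := abs_le.1 (h i)
        rw [b.repr_apply_apply]
        linarith [this.2]
    · rintro ⟨h2, h3⟩ i
      have e1 := h2 i
      have e2 := h3 i
      rw [b.repr_apply_apply] at e1 e2
      rw [abs_le]
      constructor <;> linarith
  have hm : MeasurableSet (Icc (fun i => c i - a i) (fun i => c i + a i)) := measurableSet_Icc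
  have h2 := (PiLp.volume_preserving_ofLp (Fin n)).measure_preimage hm.nullMeasurableSet
  have h3 := (b.measurePreserving_repr).measure_preimage
    ((PiLp.volume_preserving_ofLp (Fin n)).measurable hm).nullMeasurableSet
  rw [h1, Measure.real, h3, h2, Real.volume_Icc_pi_toReal]
  · refine Finset.prod_congr rfl fun i _ => ?_
    ring
  · intro i
    show c i - a i ≤ c i + a i
    linarith [ha i]

theorem ex_basis1 {n : ℕ} (hn : 1 ≤ n) {e : E n} (he : ‖e‖ = 1) :
    ∃ b : OrthonormalBasis (Fin n) ℝ (E n), b ⟨0, by omega⟩ = e := by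
  obtain ⟨b, hb⟩ := Orthonormal.exists_orthonormalBasis_extension_of_card_eq (𝕜 := ℝ) (E := E n)
    (ι := Fin n) (by simp) (v := fun _ => e) (s := {⟨0, by omega⟩}) (by
      rw [orthonormal_iff_ite]
      rintro ⟨i, hi⟩ ⟨j, hj⟩
      have hi' : i = ⟨0, by omega⟩ := hi
      have hj' : j = ⟨0, by omega⟩ := hj
      subst hi' hj'
      simp [he])
  exact ⟨b, hb _ rfl⟩

theorem ex_basis2 {n : ℕ} (hn : 2 ≤ n) {e f : E n} (he : ‖e‖ = 1) (hf : ‖f‖ = 1) (hef : ⟪e, f⟫ = 0) :
    ∃ b : OrthonormalBasis (Fin n) ℝ (E n), b ⟨0, by omega⟩ = e ∧ b ⟨1, by omega⟩ = f := by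
  obtain ⟨i₀, hi₀⟩ : ∃ i : Fin n, i = ⟨0, by omega⟩ := ⟨_, rfl⟩
  obtain ⟨i₁, hi₁⟩ : ∃ i : Fin n, i = ⟨1, by omega⟩ := ⟨_, rfl⟩
  have h10 : i₁ ≠ i₀ := by rw [hi₀, hi₁]; simp
  have hfe : ⟪f, e⟫ = 0 := by rw [real_inner_comm]; exact hef
  have hee : ⟪e, e⟫ = 1 := by rw [real_inner_self_eq_norm_sq, he, one_pow]
  have hff : ⟪f, f⟫ = 1 := by rw [real_inner_self_eq_norm_sq, hf, one_pow]
  obtain ⟨b, hb⟩ := Orthonormal.exists_orthonormalBasis_extension_of_card_eq (𝕜 := ℝ) (E := E n)
    (ι := Fin n) (by simp) (v := fun i => if i = i₀ then e else f)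
    (s := {i₀, i₁}) (by
      rw [orthonormal_iff_ite]
      rintro ⟨i, hi | hi⟩ ⟨j, hj | hj⟩
      · subst hi hj; simp [he]
      · have hj' : j = i₁ := hj
        subst hj'
        subst hi
        have h01 := h10.symm
        simp [hef, h10, h01] <;> exact fun h => h10 (congrArg Subtype.val h).symm
      · have hi' : i = i₁ := hi
        subst hi'
        subst hj
        simp [hfe, h10] <;> exact fun h => h10 (congrArg Subtype.val h)
      · have hi' : i = i₁ := hi
        have hj' : j = i₁ := hj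
        subst hi'
        subst hj'
        simp [hf, h10])
  refine ⟨b, ?_, ?_⟩
  · have := hb i₀ (Or.inl rfl)
    rw [← hi₀, this]
    simp
  · have := hb i₁ (Or.inr rfl)
    rw [← hi₁, this, if_neg h10]

theorem norm_le_sum {n : ℕ} (b : OrthonormalBasis (Fin n) ℝ (E n)) (y : E n) :
    ‖y‖ ≤ ∑ i, |⟪b i, y⟫| := by
  conv_lhs => rw [← b.sum_repr' y]
  refine (norm_sum_le _ _).trans (Finset.sum_le_sum fun i _ => ?_)
  rw [norm_smul, b.orthonormal.1 i, mul_one, Real.norm_eq_abs]

/-- lower bound for the volume of a plate -/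
theorem vol_low {n : ℕ} (hn : 1 ≤ n) {e : E n} (he : ‖e‖ = 1) {a r : ℝ} (ha : 0 ≤ a)
    (har : a ≤ r / n) (m : E n) {S : Set (E n)} (hSf : volume S ≠ ⊤)
    (hS : ∀ z : E n, |⟪e, z⟫| ≤ a → ‖z‖ ≤ r → m + z ∈ S) :
    (2 * a) * (2 * (r / n)) ^ (n - 1) ≤ (volume : Measure (E n)).real S := by
  have hn0 : (0 : ℝ) < n := by exact_mod_cast hn
  obtain ⟨b, hb⟩ := ex_basis1 hn he
  set i₀ : Fin n := ⟨0, by omega⟩ with hi₀
  set s : Fin n → ℝ := fun i => if i = i₀ then a else r / n with hs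
  have hr : 0 ≤ r / n := ha.trans har
  have hs0 : ∀ i, 0 ≤ s i := by
    intro i
    simp only [hs]
    split_ifs
    · exact ha
    · exact hr
  have h1 := box_vol b (fun i => ⟪b i, m⟫) s hs0
  have hsub : {y : E n | ∀ i, |⟪b i, y⟫ - ⟪b i, m⟫| ≤ s i} ⊆ S := by
    intro y hy
    have h2 : ∀ i, |⟪b i, y - m⟫| ≤ s i := by
      intro i
      rw [inner_sub_right]
      exact hy i
    have h3 : m + (y - m) ∈ S := by
      apply hS
      · rw [← hb]
        have := h2 i₀
        simpa [hs] using this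
      · refine (norm_le_sum b _).trans ((Finset.sum_le_sum fun i _ => h2 i).trans ?_)
        have h4 : ∀ i ∈ (Finset.univ : Finset (Fin n)), s i ≤ r / n := by
          intro i _
          simp only [hs]
          split_ifs
          · exact har
          · exact le_rfl
        refine (Finset.sum_le_sum h4).trans ?_
        rw [Finset.sum_const, Finset.card_univ, Fintype.card_fin, nsmul_eq_mul]
        apply le_of_eq
        field_simp
    rwa [add_sub_cancel] at h3
  have h5 : ∏ i, (2 * s i) = (2 * a) * (2 * (r / n)) ^ (n - 1) := by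
    rw [← Finset.mul_prod_erase Finset.univ (fun i => 2 * s i) (Finset.mem_univ i₀)]
    have h6 : ∀ i ∈ Finset.univ.erase i₀, 2 * s i = 2 * (r / n) := by
      intro i hi
      rw [Finset.mem_erase] at hi
      simp only [hs]
      rw [if_neg hi.1]
    have e0 : s i₀ = a := by simp [hs]
    rw [Finset.prod_congr rfl h6, Finset.prod_const, Finset.card_erase_of_mem (Finset.mem_univ _),
      Finset.card_univ, Fintype.card_fin, e0]
  rw [← h5, ← h1]
  exact measureReal_mono hsub hSf

/-- upper bound for the volume of a thin set -/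
theorem vol_up {n : ℕ} (hn : 2 ≤ n) {e f : E n} (he : ‖e‖ = 1) (hf : ‖f‖ = 1) (hef : ⟪e, f⟫ = 0)
    {a b' r β : ℝ} (ha : 0 ≤ a) (hb' : 0 ≤ b') (hr : 0 ≤ r) (p : E n) {S : Set (E n)}
    (hS : ∀ y ∈ S, |⟪e, y - p⟫| ≤ a ∧ |⟪f, y⟫ - β| ≤ b' ∧ ‖y - p‖ ≤ r) :
    (volume : Measure (E n)).real S ≤ (2 * a) * ((2 * b') * (2 * r) ^ (n - 2)) := by
  obtain ⟨b, hb0, hb1⟩ := ex_basis2 hn he hf hef
  set i₀ : Fin n := ⟨0, by omega⟩ with hi₀
  set i₁ : Fin n := ⟨1, by omega⟩ with hi₁
  have h10 : i₁ ≠ i₀ := by rw [hi₀, hi₁]; simp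
  set s : Fin n → ℝ := fun i => if i = i₀ then a else if i = i₁ then b' else r with hs
  set c : Fin n → ℝ := fun i => if i = i₁ then β else ⟪b i, p⟫ with hc
  have hs0 : ∀ i, 0 ≤ s i := by
    intro i
    simp only [hs]
    split_ifs
    · exact ha
    · exact hb'
    · exact hr
  have h1 := box_vol b c s hs0
  have hsub : S ⊆ {y : E n | ∀ i, |⟪b i, y⟫ - c i| ≤ s i} := by
    intro y hy i
    obtain ⟨y1, y2, y3⟩ := hS y hy
    by_cases hi0 : i = i₀
    · subst hi0
      have e1 : c i₀ = ⟪b i₀, p⟫ := by simp only [hc]; rw [if_neg h10.symm]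
      have e2 : s i₀ = a := by simp [hs]
      rw [e1, e2, ← inner_sub_right, hb0]
      exact y1
    · by_cases hi1 : i = i₁
      · subst hi1
        have e1 : c i₁ = β := by simp [hc]
        have e2 : s i₁ = b' := by simp only [hs]; rw [if_neg h10]; simp
        rw [e1, e2, hb1]
        exact y2
      · have e1 : c i = ⟪b i, p⟫ := by simp only [hc]; rw [if_neg hi1]
        have e2 : s i = r := by simp only [hs]; rw [if_neg hi0, if_neg hi1]
        rw [e1, e2, ← inner_sub_right]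
        refine (abs_real_inner_le_norm _ _).trans ?_
        rw [b.orthonormal.1 i, one_mul]
        exact y3
  have h5 : ∏ i, (2 * s i) = (2 * a) * ((2 * b') * (2 * r) ^ (n - 2)) := by
    rw [← Finset.mul_prod_erase Finset.univ (fun i => 2 * s i) (Finset.mem_univ i₀)]
    have hmem : i₁ ∈ Finset.univ.erase i₀ := by
      rw [Finset.mem_erase]; exact ⟨h10, Finset.mem_univ _⟩
    rw [← Finset.mul_prod_erase (Finset.univ.erase i₀) (fun i => 2 * s i) hmem]
    have e0 : s i₀ = a := by simp [hs]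
    have e1 : s i₁ = b' := by simp only [hs]; rw [if_neg h10]; simp
    have h6 : ∀ i ∈ (Finset.univ.erase i₀).erase i₁, 2 * s i = 2 * r := by
      intro i hi
      rw [Finset.mem_erase, Finset.mem_erase] at hi
      simp only [hs]
      rw [if_neg hi.2.1, if_neg hi.1]
    rw [Finset.prod_congr rfl h6, Finset.prod_const, Finset.card_erase_of_mem hmem,
      Finset.card_erase_of_mem (Finset.mem_univ _), Finset.card_univ, Fintype.card_fin, e0, e1]
    have e2 : n - 1 - 1 = n - 2 := by omega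
    rw [e2]
  have hfin : volume {y : E n | ∀ i, |⟪b i, y⟫ - c i| ≤ s i} ≠ ⊤ := by
    have hbd : {y : E n | ∀ i, |⟪b i, y⟫ - c i| ≤ s i} ⊆ closedBall 0 (∑ i, (|c i| + s i)) := by
      intro y hy
      rw [mem_closedBall_zero_iff]
      refine (norm_le_sum b y).trans (Finset.sum_le_sum fun i _ => ?_)
      have h7 := hy i
      have h8 : ⟪b i, y⟫ = c i + (⟪b i, y⟫ - c i) := by ring
      rw [h8]
      refine (abs_add_le _ _).trans ?_
      linarith
    exact ne_top_of_le_ne_top measure_closedBall_lt_top.ne (measure_mono hbd)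
  rw [← h5, ← h1]
  exact measureReal_mono hsub hfin

end Pool.Agent.H878R2.Cov
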