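import Mathlib
import Pool.Agent.Helper890.Cov.StG
import Pool.Agent.Helper890.Cov.JG1
import Pool.Agent.Helper890.Cov.JG3
import Pool.Agent.Helper890.Cov.JP

open MeasureTheory Set Filter Topology Metric
open scoped RealInnerProductSpace Pointwise

namespace Pool.Agent.H878R2.Cov
open Pool.Agent.Helper890.Cov

/-- working description of a convex body with the origin in its interior whose support function `h`
is of class `C^{1,1}` (with gradient `X`) and has a uniform lower quadratic bound -/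
structure Wk {n : ℕ} (K : Set (E n)) (h : E n → ℝ) (X : E n → E n) : Prop where
  compact : IsCompact K
  convex : Convex ℝ K
  zero_mem : (0 : E n) ∈ interior K
  grad : ∀ u, u ≠ 0 → HasFDerivAt h (innerSL ℝ (X u)) u
  mem : ∀ u, u ≠ 0 → X u ∈ K
  le : ∀ x ∈ K, ∀ u, ⟪x, u⟫ ≤ h u
  eq : ∀ u, u ≠ 0 → ⟪X u, u⟫ = h u
  charac : ∀ x, (∀ u, ⟪x, u⟫ ≤ h u) → x ∈ K
  homog : ∀ (r : ℝ) (u : E n), 0 ≤ r → h (r • u) = r * h u
  homogX : ∀ (r : ℝ) (u : E n), 0 < r → u ≠ 0 → X (r • u) = X u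
  quad : ∃ c C : ℝ, 0 < c ∧ ∀ u v : E n, ‖u‖ = 1 → ‖v‖ = 1 →
    c * ‖u - v‖ ^ 2 ≤ h v - ⟪X u, v⟫ ∧ h v - ⟪X u, v⟫ ≤ C * ‖u - v‖ ^ 2 ∧
    c * ‖u - v‖ ≤ ‖X u - X v‖ ∧ ‖X u - X v‖ ≤ C * ‖u - v‖

theorem Wk.of_good {n : ℕ} (hn : 2 ≤ n) {K : Set (E n)} {h : E n → ℝ} {X : E n → E n} (g : Good K h X) :
    Wk K h X :=
  ⟨g.compact, g.convex, g.zero_mem, g.grad, g.mem, g.le, g.eq, g.charac, g.homog, g.homogX,
    JG1.stG1 n hn K h X g⟩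

/-- regular directions -/
def Reg {n : ℕ} (X : E n → E n) (u : E n) : Prop := u ≠ 0 ∧ DifferentiableAt ℝ X u

theorem Reg.ne {n : ℕ} {X : E n → E n} {u : E n} (hu : Reg X u) : u ≠ 0 := hu.1
theorem Reg.diff {n : ℕ} {X : E n → E n} {u : E n} (hu : Reg X u) : DifferentiableAt ℝ X u := hu.2

theorem reg_of_good {n : ℕ} {K : Set (E n)} {h : E n → ℝ} {X : E n → E n} (g : Good K h X)
    {u : E n} (hu : u ≠ 0) : Reg X u := ⟨hu, JG3.stG3_diff g hu⟩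

section basic
variable {n : ℕ} {K : Set (E n)} {h : E n → ℝ} {X : E n → E n}

theorem Wk.reg_smul (g : Wk K h X) {u : E n} (hu : Reg X u) {r : ℝ} (hr : 0 < r) : Reg X (r • u) := by
  refine ⟨smul_ne_zero hr.ne' hu.ne, ?_⟩
  have h1 : (fun v => X (r⁻¹ • v)) =ᶠ[𝓝 (r • u)] X := by
    filter_upwards [isOpen_compl_singleton.mem_nhds (show r • u ∈ ({0}ᶜ : Set (E n)) from
      smul_ne_zero hr.ne' hu.ne)] with v hv
    exact g.homogX _ _ (inv_pos.2 hr) hv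
  refine DifferentiableAt.congr_of_eventuallyEq ?_ h1.symm
  have h2 : DifferentiableAt ℝ X (r⁻¹ • (r • u)) := by
    rw [smul_smul, inv_mul_cancel₀ hr.ne', one_smul]; exact hu.diff
  exact h2.comp (r • u) (by fun_prop)

theorem Wk.fderiv_smul (g : Wk K h X) {r : ℝ} (hr : 0 < r) {u : E n} (hu : u ≠ 0) :
    r • fderiv ℝ X (r • u) = fderiv ℝ X u := by
  rw [← fderiv_comp_smul]
  apply Filter.EventuallyEq.fderiv_eq
  have h1 : ({0}ᶜ : Set (E n)) ∈ 𝓝 u := isOpen_compl_singleton.mem_nhds hu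
  filter_upwards [h1] with v hv
  exact g.homogX r v hr hv

theorem Wk.radial (g : Wk K h X) {u : E n} (hu : Reg X u) : fderiv ℝ X u u = 0 := by
  have h1 : HasFDerivAt X (fderiv ℝ X u) ((1 : ℝ) • u) := by
    rw [one_smul]
    exact hu.diff.hasFDerivAt
  have h2 : HasDerivAt (fun r : ℝ => r • u) u 1 := by
    have := (hasDerivAt_id (1 : ℝ)).smul_const u
    simpa using this
  have h3 : HasDerivAt (fun r : ℝ => X (r • u)) (fderiv ℝ X u u) 1 :=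
    HasFDerivAt.comp_hasDerivAt (f := fun r : ℝ => r • u) (l := X) (1 : ℝ) h1 h2
  have h4 : HasDerivAt (fun r : ℝ => X (r • u)) 0 1 := by
    have h5 : HasDerivAt (fun _ : ℝ => X u) 0 (1 : ℝ) := hasDerivAt_const _ _
    refine h5.congr_of_eventuallyEq ?_
    have h6 : Ioi (0 : ℝ) ∈ 𝓝 (1 : ℝ) := Ioi_mem_nhds one_pos
    filter_upwards [h6] with r hr
    exact g.homogX r u hr hu.ne
  exact h3.unique h4

theorem Wk.symm (g : Wk K h X) {u : E n} (hu : Reg X u) (w w' : E n) :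
    ⟪fderiv ℝ X u w, w'⟫ = ⟪w, fderiv ℝ X u w'⟫ := by
  have h1 : ∀ᶠ y in 𝓝 u, HasFDerivAt h (innerSL ℝ (X y)) y := by
    filter_upwards [isOpen_compl_singleton.mem_nhds (show u ∈ ({0}ᶜ : Set (E n)) from hu.ne)] with y hy
    exact g.grad y hy
  have h2 : HasFDerivAt (fun y => innerSL ℝ (X y)) ((innerSL ℝ : E n →L[ℝ] E n →L[ℝ] ℝ).comp (fderiv ℝ X u)) u :=
    (innerSL ℝ : E n →L[ℝ] E n →L[ℝ] ℝ).hasFDerivAt.comp u hu.diff.hasFDerivAt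
  have h3 := second_derivative_symmetric_of_eventually h1 h2 w w'
  simp only [ContinuousLinearMap.comp_apply, innerSL_apply_apply] at h3
  rw [h3, real_inner_comm]

/-- Lipschitz constant of `X` in terms of directions -/
theorem nrm_lip {u v : E n} (hu : u ≠ 0) (hv : v ≠ 0) :
    ‖‖u‖⁻¹ • u - ‖v‖⁻¹ • v‖ ≤ 2 * ‖u - v‖ / ‖u‖ := by
  have hu0 : 0 < ‖u‖ := norm_pos_iff.2 hu
  have hv0 : 0 < ‖v‖ := norm_pos_iff.2 hv
  have e : ‖u‖⁻¹ • u - ‖v‖⁻¹ • v = ‖u‖⁻¹ • (u - v) + (‖u‖⁻¹ - ‖v‖⁻¹) • v := by module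
  rw [e]
  refine (norm_add_le _ _).trans ?_
  rw [norm_smul, norm_smul, norm_inv, norm_norm]
  have h1 : ‖‖u‖⁻¹ - ‖v‖⁻¹‖ * ‖v‖ ≤ ‖u‖⁻¹ * ‖u - v‖ := by
    have e2 : ‖u‖⁻¹ - ‖v‖⁻¹ = ‖u‖⁻¹ * (‖v‖ - ‖u‖) * ‖v‖⁻¹ := by field_simp
    rw [e2, norm_mul, norm_mul, norm_inv, norm_inv, norm_norm, norm_norm, mul_assoc,
      inv_mul_cancel₀ hv0.ne', mul_one]
    gcongr
    rw [norm_sub_rev u v]
    exact abs_norm_sub_norm_le v u
  calc ‖u‖⁻¹ * ‖u - v‖ + ‖‖u‖⁻¹ - ‖v‖⁻¹‖ * ‖v‖ ≤ ‖u‖⁻¹ * ‖u - v‖ + ‖u‖⁻¹ * ‖u - v‖ := by gcongr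
    _ = 2 * ‖u - v‖ / ‖u‖ := by field_simp; ring

theorem nrm_norm {u : E n} (hu : u ≠ 0) : ‖‖u‖⁻¹ • u‖ = 1 := by
  have hu0 : 0 < ‖u‖ := norm_pos_iff.2 hu
  rw [norm_smul, norm_inv, norm_norm, inv_mul_cancel₀ hu0.ne']

theorem Wk.X_nrm (g : Wk K h X) {u : E n} (hu : u ≠ 0) : X (‖u‖⁻¹ • u) = X u :=
  g.homogX _ _ (inv_pos.2 (norm_pos_iff.2 hu)) hu

theorem Wk.lip (g : Wk K h X) : ∃ C : ℝ, 0 ≤ C ∧ ∀ u v : E n, u ≠ 0 → v ≠ 0 →
    ‖X u - X v‖ ≤ C * (‖u - v‖ / ‖u‖) := by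
  obtain ⟨c, C, hc, hq⟩ := g.quad
  refine ⟨2 * |C|, by positivity, fun u v hu hv => ?_⟩
  have h1 := (hq _ _ (nrm_norm hu) (nrm_norm hv)).2.2.2
  rw [g.X_nrm hu, g.X_nrm hv] at h1
  have h2 := nrm_lip hu hv
  calc ‖X u - X v‖ ≤ C * ‖‖u‖⁻¹ • u - ‖v‖⁻¹ • v‖ := h1
    _ ≤ |C| * (2 * ‖u - v‖ / ‖u‖) := by
        refine mul_le_mul (le_abs_self C) h2 (norm_nonneg _) (abs_nonneg _)
    _ = 2 * |C| * (‖u - v‖ / ‖u‖) := by ring

theorem Wk.lipOn (g : Wk K h X) : ∃ C : ℝ, 0 ≤ C ∧ ∀ r : ℝ, 0 < r →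
    LipschitzOnWith (Real.toNNReal (C / r)) X {u | r < ‖u‖} := by
  obtain ⟨C, hC, hl⟩ := g.lip
  refine ⟨C, hC, fun r hr => ?_⟩
  refine LipschitzOnWith.of_dist_le_mul fun u hu v hv => ?_
  have hu' : r < ‖u‖ := hu
  have hv' : r < ‖v‖ := hv
  have hu0 : u ≠ 0 := norm_pos_iff.1 (hr.trans hu')
  have hv0 : v ≠ 0 := norm_pos_iff.1 (hr.trans hv')
  rw [dist_eq_norm, dist_eq_norm, Real.coe_toNNReal _ (by positivity)]
  refine (hl u v hu0 hv0).trans ?_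
  rw [div_mul_eq_mul_div, ← mul_div_assoc]
  gcongr

theorem Wk.contX (g : Wk K h X) : ContinuousOn X {0}ᶜ := by
  obtain ⟨C, hC, hl⟩ := g.lipOn
  intro u hu
  have hu0 : 0 < ‖u‖ := norm_pos_iff.2 hu
  have h1 : {v : E n | ‖u‖ / 2 < ‖v‖} ∈ 𝓝 u :=
    (isOpen_lt continuous_const continuous_norm).mem_nhds (by simp only [mem_ofPred_eq]; linarith)
  exact ((hl (‖u‖ / 2) (by positivity)).continuousOn.continuousAt h1).continuousWithinAt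

theorem Wk.pos_quant (g : Wk K h X) : ∃ m : ℝ, 0 < m ∧ ∀ u, ‖u‖ = 1 → Reg X u → ∀ w, ⟪w, u⟫ = 0 →
    m * ‖w‖ ^ 2 ≤ ⟪fderiv ℝ X u w, w⟫ := by
  obtain ⟨c, C, hc, hq⟩ := g.quad
  refine ⟨2 * c, by positivity, fun u hu hr w hw => ?_⟩
  have hu0 := hr.ne
  -- the function of t
  have hline : HasDerivAt (fun t : ℝ => u + t • w) w 0 := by
    simpa using ((hasDerivAt_id (0:ℝ)).smul_const w).const_add u
  have hd : HasDerivAt (fun t : ℝ => X (u + t • w)) (fderiv ℝ X u w) 0 := by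
    have hX : HasFDerivAt X (fderiv ℝ X u) (u + (0:ℝ) • w) := by
      rw [zero_smul, add_zero]; exact hr.diff.hasFDerivAt
    exact hX.comp_hasDerivAt 0 hline
  have hslope := hasDerivAt_iff_tendsto_slope_zero.1 hd
  have hslope2 : Tendsto (fun t : ℝ => ⟪t⁻¹ • (X (u + (0 + t) • w) - X (u + (0:ℝ) • w)), w⟫) (𝓝[>] 0)
      (𝓝 ⟪fderiv ℝ X u w, w⟫) :=
    (hslope.mono_left (nhdsWithin_mono _ fun t (ht : 0 < t) => ht.ne')).inner tendsto_const_nhds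
  have hN : Tendsto (fun t : ℝ => 2 * c * ‖w‖ ^ 2 / Real.sqrt (1 + t ^ 2 * ‖w‖ ^ 2)) (𝓝[>] 0)
      (𝓝 (2 * c * ‖w‖ ^ 2)) := by
    have h1 : ContinuousAt (fun t : ℝ => 2 * c * ‖w‖ ^ 2 / Real.sqrt (1 + t ^ 2 * ‖w‖ ^ 2)) 0 := by
      refine ContinuousAt.div (by fun_prop) (by fun_prop) ?_
      simp
    have h2 := h1.tendsto
    simp only [ne_eq, OfNat.ofNat_ne_zero, not_false_eq_true, zero_pow, zero_mul, add_zero,
      Real.sqrt_one, div_one] at h2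
    exact h2.mono_left nhdsWithin_le_nhds
  refine le_of_tendsto_of_tendsto hN hslope2 ?_
  filter_upwards [self_mem_nhdsWithin] with t ht
  have ht0 : 0 < t := ht
  simp only [zero_add, zero_smul, add_zero]
  set y : E n := u + t • w with hy
  have hyu : ⟪y, u⟫ = 1 := by
    rw [hy, inner_add_left, real_inner_smul_left, hw, real_inner_self_eq_norm_sq, hu]; ring
  have hy0 : y ≠ 0 := by
    intro h0; rw [h0, inner_zero_left] at hyu; exact zero_ne_one hyu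
  have hyn : ‖y‖ ^ 2 = 1 + t ^ 2 * ‖w‖ ^ 2 := by
    rw [hy, norm_add_sq_real, hu, real_inner_smul_right, real_inner_comm, hw, norm_smul,
      Real.norm_of_nonneg ht0.le]
    ring
  have hyp : 0 < ‖y‖ := norm_pos_iff.2 hy0
  have hys : Real.sqrt (1 + t ^ 2 * ‖w‖ ^ 2) = ‖y‖ := by
    rw [← hyn]; exact Real.sqrt_sq hyp.le
  rw [hys]
  set v : E n := ‖y‖⁻¹ • y with hv
  have hv1 : ‖v‖ = 1 := nrm_norm hy0
  have hXv : X v = X y := g.X_nrm hy0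
  have hv0 : v ≠ 0 := by intro h0; rw [h0, norm_zero] at hv1; exact zero_ne_one hv1
  have k1 := (hq u v hu hv1).1
  have k2 := (hq v u hv1 hu).1
  rw [norm_sub_rev v u] at k2
  have hdist : ‖u - v‖ ^ 2 = 2 - 2 * ‖y‖⁻¹ := by
    rw [norm_sub_sq_real, hu, hv1, hv, real_inner_smul_right, real_inner_comm, hyu]; ring
  rw [hdist] at k1 k2
  rw [hXv] at k2
  have e1 : h v = ‖y‖⁻¹ * ⟪X y, y⟫ := by
    rw [← g.eq v hv0, hXv, hv, real_inner_smul_right]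
  have e2 : ⟪X u, v⟫ = ‖y‖⁻¹ * ⟪X u, y⟫ := by rw [hv, real_inner_smul_right]
  rw [e1, e2] at k1
  rw [← g.eq u hu0] at k2
  have k1' : c * (2 * ‖y‖ - 2) ≤ ⟪X y, y⟫ - ⟪X u, y⟫ := by
    have := mul_le_mul_of_nonneg_left k1 hyp.le
    have e3 : ‖y‖ * (c * (2 - 2 * ‖y‖⁻¹)) = c * (2 * ‖y‖ - 2) := by field_simp
    have e4 : ‖y‖ * (‖y‖⁻¹ * ⟪X y, y⟫ - ‖y‖⁻¹ * ⟪X u, y⟫) = ⟪X y, y⟫ - ⟪X u, y⟫ := by field_simp
    rw [e3, e4] at this
    exact this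
  have e5 : ⟪X y - X u, t • w⟫ = ⟪X y, y⟫ - ⟪X u, y⟫ + (⟪X u, u⟫ - ⟪X y, u⟫) := by
    have : t • w = y - u := by rw [hy]; abel
    rw [this, inner_sub_left, inner_sub_right, inner_sub_right]; ring
  have e6 : t * ⟪X y - X u, w⟫ = ⟪X y, y⟫ - ⟪X u, y⟫ + (⟪X u, u⟫ - ⟪X y, u⟫) := by
    rw [← e5, real_inner_smul_right]
  have k3 : c * (2 * ‖y‖ - 2) + c * (2 - 2 * ‖y‖⁻¹) ≤ t * ⟪X y - X u, w⟫ := by
    rw [e6]; linarith
  have e7 : c * (2 * ‖y‖ - 2) + c * (2 - 2 * ‖y‖⁻¹) = t ^ 2 * (2 * c * ‖w‖ ^ 2 / ‖y‖) := by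
    have : t ^ 2 * ‖w‖ ^ 2 = ‖y‖ ^ 2 - 1 := by rw [hyn]; ring
    have e8 : t ^ 2 * (2 * c * ‖w‖ ^ 2 / ‖y‖) = 2 * c * (t ^ 2 * ‖w‖ ^ 2) / ‖y‖ := by ring
    rw [e8, this]
    field_simp
    ring
  rw [e7] at k3
  rw [real_inner_smul_left]
  have k4 : t * (2 * c * ‖w‖ ^ 2 / ‖y‖) ≤ ⟪X y - X u, w⟫ := by
    have : t * (t * (2 * c * ‖w‖ ^ 2 / ‖y‖)) ≤ t * ⟪X y - X u, w⟫ := by
      calc t * (t * (2 * c * ‖w‖ ^ 2 / ‖y‖)) = t ^ 2 * (2 * c * ‖w‖ ^ 2 / ‖y‖) := by ring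
        _ ≤ _ := k3
    exact le_of_mul_le_mul_left this ht0
  rw [← div_eq_inv_mul, le_div_iff₀ ht0]
  linarith

theorem Wk.pos (g : Wk K h X) {u : E n} (hu : Reg X u) : ∀ w, w ≠ 0 → ⟪w, u⟫ = 0 → 0 < ⟪fderiv ℝ X u w, w⟫ := by
  obtain ⟨m, hm, hq⟩ := g.pos_quant
  intro w hw hwu
  have hn : 0 < ‖u‖ := norm_pos_iff.2 hu.ne
  have h1 := hq (‖u‖⁻¹ • u) (nrm_norm hu.ne) (g.reg_smul hu (inv_pos.2 hn)) w
    (by rw [real_inner_smul_right, hwu, mul_zero])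
  have h2 := g.fderiv_smul (inv_pos.2 hn) hu.ne
  rw [← h2, smul_apply, real_inner_smul_left]
  have : 0 < m * ‖w‖ ^ 2 := by
    have := norm_pos_iff.2 hw
    positivity
  have h3 : 0 < ‖u‖⁻¹ := inv_pos.2 hn
  exact mul_pos h3 (this.trans_le h1)

theorem Wk.fderiv_bound (g : Wk K h X) : ∃ C : ℝ, 0 ≤ C ∧ ∀ u, ‖u‖ = 1 → ‖fderiv ℝ X u‖ ≤ C := by
  obtain ⟨C, hC, hl⟩ := g.lipOn
  refine ⟨C / (1 / 2), by positivity, fun u hu => ?_⟩
  have h1 : {v : E n | (1:ℝ) / 2 < ‖v‖} ∈ 𝓝 u :=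
    (isOpen_lt continuous_const continuous_norm).mem_nhds (by simp only [mem_ofPred_eq]; rw [hu]; norm_num)
  have h2 := norm_fderiv_le_of_lipschitzOn ℝ h1 (hl (1 / 2) (by norm_num))
  rwa [Real.coe_toNNReal _ (by positivity)] at h2

theorem Wk.hpos (g : Wk K h X) {u : E n} (hu : u ≠ 0) : 0 < h u := by
  have hnu : 0 < ‖u‖ := norm_pos_iff.mpr hu
  obtain ⟨ε, hε, hball⟩ := Metric.isOpen_iff.mp isOpen_interior 0 g.zero_mem
  have hmem : (ε / (2 * ‖u‖)) • u ∈ K := by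
    apply interior_subset
    apply hball
    rw [mem_ball_zero_iff, norm_smul, Real.norm_eq_abs, abs_of_pos (by positivity)]
    have : ε / (2 * ‖u‖) * ‖u‖ = ε / 2 := by field_simp
    rw [this]
    linarith
  have h1 := g.le _ hmem u
  rw [real_inner_smul_left, real_inner_self_eq_norm_sq] at h1
  have h2 : 0 < ε / (2 * ‖u‖) * ‖u‖ ^ 2 := by positivity
  linarith

theorem Wk.conth (g : Wk K h X) : Continuous h := by
  rw [continuous_iff_continuousAt]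
  intro u
  by_cases hu : u = 0
  · subst hu
    have h0 : h 0 = 0 := by
      have := g.homog 0 0 le_rfl
      simpa using this
    obtain ⟨C, hC⟩ := g.compact.isBounded.exists_norm_le
    have hb : ∀ u : E n, ‖h u‖ ≤ |C| * ‖u‖ := by
      intro u
      by_cases hu : u = 0
      · rw [hu, h0]
        simp
      · rw [← g.eq u hu]
        refine (norm_inner_le_norm (𝕜 := ℝ) _ _).trans ?_
        exact mul_le_mul_of_nonneg_right ((hC _ (g.mem u hu)).trans (le_abs_self C))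
          (norm_nonneg _)
    show Tendsto h (𝓝 0) (𝓝 (h 0))
    rw [h0]
    refine squeeze_zero_norm hb ?_
    have h1 : Continuous fun u : E n => |C| * ‖u‖ := by fun_prop
    have h2 := h1.tendsto 0
    simpa using h2
  · exact (g.grad u hu).continuousAt

end basic

end Pool.Agent.H878R2.Cov
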