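import Mathlib
import Pool.Agent.H878R2.Cov.Wk

open MeasureTheory Set Filter Topology Metric
open scoped RealInnerProductSpace Pointwise

namespace Pool.Agent.H878R2.Cov
open Pool.Agent.Helper890.Cov

section
variable {n : ℕ} {K : Set (E n)} {h : E n → ℝ} {X : E n → E n}

theorem BB_inner (X : E n → E n) (u w : E n) :
    ⟪BB X u w, w⟫ = ‖u‖ * ⟪fderiv ℝ X u w, w⟫ + (‖u‖ ^ 2)⁻¹ * ⟪u, w⟫ ^ 2 := by
  have e1 : BB X u w = ‖u‖ • fderiv ℝ X u w + (‖u‖ ^ 2)⁻¹ • (⟪u, w⟫ • u) := rfl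
  rw [e1, inner_add_left, real_inner_smul_left, real_inner_smul_left, real_inner_smul_left]
  ring

theorem BB_smul (g : Wk K h X) {r : ℝ} (hr : 0 < r) {u : E n} (hu : u ≠ 0) : BB X (r • u) = BB X u := by
  unfold BB
  have e1 : ‖r • u‖ = r * ‖u‖ := by
    rw [norm_smul, Real.norm_eq_abs, abs_of_pos hr]
  have e2 := g.fderiv_smul hr hu
  have hnu : ‖u‖ ≠ 0 := norm_ne_zero_iff.mpr hu
  congr 1
  · rw [← e2, e1, smul_smul, mul_comm]
  · ext1 w
    simp only [smul_apply, ContinuousLinearMap.smulRight_apply,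
      innerSL_apply_apply, real_inner_smul_left, smul_smul]
    congr 1
    rw [e1]
    field_simp

theorem curv_smul (g : Wk K h X) {r : ℝ} (hr : 0 < r) {u : E n} (hu : u ≠ 0) :
    curv X (r • u) = curv X u := by
  unfold curv; rw [BB_smul g hr hu]

/-- uniform ellipticity of `BB` -/
theorem BB_bounds (g : Wk K h X) : ∃ m M : ℝ, 0 < m ∧ 0 < M ∧ (∀ u, u ≠ 0 → ‖BB X u‖ ≤ M) ∧
    ∀ u, Reg X u → ∀ w, m * ‖w‖ ^ 2 ≤ ⟪BB X u w, w⟫ := by
  obtain ⟨m, hm, hq⟩ := g.pos_quant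
  obtain ⟨C, hC, hb⟩ := g.fderiv_bound
  refine ⟨min m 1, C + 1, lt_min hm one_pos, by positivity, ?_, ?_⟩
  · intro u hu
    have hn : 0 < ‖u‖ := norm_pos_iff.2 hu
    rw [← BB_smul g (inv_pos.2 hn) hu]
    set v := ‖u‖⁻¹ • u with hv
    have hv1 : ‖v‖ = 1 := nrm_norm hu
    unfold BB
    rw [hv1]
    simp only [one_smul, one_pow, inv_one]
    refine (norm_add_le _ _).trans (add_le_add (hb v hv1) ?_)
    rw [ContinuousLinearMap.norm_smulRight_apply, innerSL_apply_norm, hv1, one_mul]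
  · intro u hu w
    have hn : 0 < ‖u‖ := norm_pos_iff.2 hu.ne
    rw [← BB_smul g (inv_pos.2 hn) hu.ne]
    have hr := g.reg_smul hu (inv_pos.2 hn)
    set v := ‖u‖⁻¹ • u with hv
    have hv1 : ‖v‖ = 1 := nrm_norm hu.ne
    rw [BB_inner, hv1]
    simp only [one_mul, one_pow, inv_one]
    set α : ℝ := ⟪v, w⟫ with hα
    set w' : E n := w - α • v with hw'
    have hwu : ⟪w', v⟫ = 0 := by
      rw [hw', inner_sub_left, real_inner_smul_left, real_inner_self_eq_norm_sq, hα, hv1,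
        real_inner_comm]
      ring
    have hD : fderiv ℝ X v w = fderiv ℝ X v w' := by
      rw [hw', map_sub, map_smul, g.radial hr, smul_zero, sub_zero]
    have e3 : w = w' + α • v := by rw [hw']; abel
    have e2 : ⟪fderiv ℝ X v w, w⟫ = ⟪fderiv ℝ X v w', w'⟫ := by
      rw [hD]
      conv_lhs => rw [e3]
      rw [inner_add_right, real_inner_smul_right, g.symm hr w' v, g.radial hr,
        inner_zero_right, mul_zero, add_zero]
    have e4 : ‖w‖ ^ 2 = ‖w'‖ ^ 2 + α ^ 2 := by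
      conv_lhs => rw [e3]
      rw [norm_add_sq_real, real_inner_smul_right, hwu, norm_smul, hv1, Real.norm_eq_abs, mul_one,
        sq_abs]
      ring
    rw [e2, e4]
    have k1 := hq v hv1 hr w' hwu
    have k2 : min m 1 * ‖w'‖ ^ 2 ≤ m * ‖w'‖ ^ 2 := by gcongr; exact min_le_left _ _
    have k3 : min m 1 * α ^ 2 ≤ 1 * α ^ 2 := by gcongr; exact min_le_right _ _
    nlinarith

theorem det_bounds (n : ℕ) (m M : ℝ) (hm : 0 < m) : ∃ c C : ℝ, 0 < c ∧ 0 < C ∧ ∀ B : E n →L[ℝ] E n,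
    ‖B‖ ≤ M → (∀ w, m * ‖w‖ ^ 2 ≤ ⟪B w, w⟫) → c ≤ B.det ∧ B.det ≤ C := by
  have hp : ProperSpace (E n →L[ℝ] E n) := FiniteDimensional.proper ℝ _
  set S : Set (E n →L[ℝ] E n) := closedBall 0 M ∩ {B | ∀ w, m * ‖w‖ ^ 2 ≤ ⟪B w, w⟫} with hS
  have hSc : IsCompact S := by
    refine (isCompact_closedBall _ _).inter_right ?_
    have : {B : E n →L[ℝ] E n | ∀ w, m * ‖w‖ ^ 2 ≤ ⟪B w, w⟫} = ⋂ w, {B | m * ‖w‖ ^ 2 ≤ ⟪B w, w⟫} := by
      ext B; simp
    rw [this]
    exact isClosed_iInter fun w => isClosed_le continuous_const (by fun_prop)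
  obtain ⟨c, hc, hmin⟩ := hSc.exists_forall_le' (f := fun B => ContinuousLinearMap.det B)
    ContinuousLinearMap.continuous_det.continuousOn (a := 0) (by
      intro B hB
      refine JG3.stG3_det_pos B fun w hw => ?_
      have h1 : 0 < m * ‖w‖ ^ 2 := by have := norm_pos_iff.2 hw; positivity
      exact h1.trans_le (hB.2 w))
  obtain ⟨C, hC⟩ := hSc.exists_bound_of_continuousOn (f := fun B => ContinuousLinearMap.det B)
    ContinuousLinearMap.continuous_det.continuousOn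
  refine ⟨c, max C 1, hc, lt_of_lt_of_le one_pos (le_max_right _ _), fun B hB1 hB2 => ?_⟩
  have hBS : B ∈ S := ⟨by simpa using hB1, hB2⟩
  exact ⟨hmin B hBS, (le_abs_self _).trans ((hC B hBS).trans (le_max_left _ _))⟩

theorem curv_nonreg (hn : 2 ≤ n) (X : E n → E n) {u : E n} (hu : ¬ DifferentiableAt ℝ X u) :
    curv X u = 0 := by
  unfold curv BB
  rw [fderiv_zero_of_not_differentiableAt hu]
  have e0 : ‖u‖ • (0 : E n →L[ℝ] E n) + (‖u‖ ^ 2)⁻¹ • (innerSL ℝ u).smulRight u =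
      (‖u‖ ^ 2)⁻¹ • (innerSL ℝ u).smulRight u := by
    ext1 w; simp
  rw [e0]
  have hk : ∃ w : E n, w ≠ 0 ∧ ⟪u, w⟫ = 0 := by
    by_contra hcon
    push Not at hcon
    have h1 : Module.finrank ℝ (E n) ≤ 1 := by
      have h2 : (ℝ ∙ u)ᗮ = ⊥ := by
        rw [Submodule.eq_bot_iff]
        intro w hw
        by_contra hw0
        refine hcon w hw0 ?_
        exact Submodule.mem_orthogonal_singleton_iff_inner_right.1 hw
      have h3 : (ℝ ∙ u) = ⊤ := by
        rwa [Submodule.orthogonal_eq_bot_iff] at h2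
      rw [← finrank_top, ← h3]
      refine (finrank_span_le_card ({u} : Set (E n))).trans ?_
      simp
    rw [finrank_euclideanSpace_fin] at h1
    omega
  obtain ⟨w, hw0, hw⟩ := hk
  have h2 : ((((‖u‖ ^ 2)⁻¹ • (innerSL ℝ u).smulRight u : E n →L[ℝ] E n)) : E n →ₗ[ℝ] E n) w = 0 := by
    have : ((‖u‖ ^ 2)⁻¹ • (innerSL ℝ u).smulRight u : E n →L[ℝ] E n) w = (‖u‖ ^ 2)⁻¹ • (⟪u, w⟫ • u) := rfl
    show ((‖u‖ ^ 2)⁻¹ • (innerSL ℝ u).smulRight u : E n →L[ℝ] E n) w = 0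
    rw [this, hw, zero_smul, smul_zero]
  by_contra hne
  have h3 : LinearMap.ker ((((‖u‖ ^ 2)⁻¹ • (innerSL ℝ u).smulRight u : E n →L[ℝ] E n)) : E n →ₗ[ℝ] E n) = ⊥ := by
    have hunit : IsUnit (LinearMap.det ((((‖u‖ ^ 2)⁻¹ • (innerSL ℝ u).smulRight u : E n →L[ℝ] E n)) : E n →ₗ[ℝ] E n)) :=
      isUnit_iff_ne_zero.2 hne
    exact LinearMap.ker_eq_bot'.2 fun x hx => by
      have := (LinearMap.equivOfDetNeZero _ hne).injective (a₁ := x) (a₂ := 0) (by
        rw [map_zero]; exact hx)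
      exact this
  exact hw0 (by
    have : w ∈ LinearMap.ker ((((‖u‖ ^ 2)⁻¹ • (innerSL ℝ u).smulRight u : E n →L[ℝ] E n)) : E n →ₗ[ℝ] E n) := h2
    rw [h3] at this
    simpa using this)

theorem curv_bounds (hn : 2 ≤ n) (g : Wk K h X) : ∃ c C : ℝ, 0 < c ∧ 0 < C ∧
    (∀ u, Reg X u → c ≤ curv X u) ∧ ∀ u, u ≠ 0 → 0 ≤ curv X u ∧ curv X u ≤ C := by
  obtain ⟨m, M, hm, hM, h1, h2⟩ := BB_bounds g
  obtain ⟨c, C, hc, hC, h3⟩ := det_bounds n m M hm
  refine ⟨c, C, hc, hC, fun u hu => (h3 _ (h1 u hu.ne) (h2 u hu)).1, fun u hu => ?_⟩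
  by_cases hd : DifferentiableAt ℝ X u
  · obtain ⟨k1, k2⟩ := h3 _ (h1 u hu) (h2 u ⟨hu, hd⟩)
    exact ⟨hc.le.trans k1, k2⟩
  · rw [curv_nonreg hn X hd]
    exact ⟨le_rfl, hC.le⟩

theorem curv_pos (hn : 2 ≤ n) (g : Wk K h X) {u : E n} (hu : Reg X u) : 0 < curv X u := by
  obtain ⟨c, C, hc, hC, h1, h2⟩ := curv_bounds hn g
  exact hc.trans_le (h1 u hu)

theorem curv_meas (X : E n → E n) : Measurable (curv X) := by
  have h1 : Measurable (fun u => BB X u) := by
    have h2 : Measurable (fderiv ℝ X) := measurable_fderiv ℝ X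
    have h3 : Measurable (fun u : E n => (innerSL ℝ u).smulRight u) := by
      have : Continuous (fun u : E n => (innerSL ℝ u).smulRight u) := by fun_prop
      exact this.measurable
    have h4 : Measurable (fun u : E n => ‖u‖) := continuous_norm.measurable
    exact (h4.smul h2).add ((h4.pow_const 2).inv.smul h3)
  exact ContinuousLinearMap.continuous_det.measurable.comp h1

theorem Xmeas (g : Wk K h X) : Measurable X := by
  exact measurable_of_continuousOn_compl_singleton 0 g.contX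

/-- almost every direction is regular -/
theorem ae_reg (hn : 1 ≤ n) (g : Wk K h X) : ∀ᵐ u : E n, Reg X u := by
  obtain ⟨C, hC, hl⟩ := g.lipOn
  have h1 : ∀ k : ℕ, ∀ᵐ u : E n, u ∈ {v : E n | 1 / ((k:ℝ) + 1) < ‖v‖} → DifferentiableAt ℝ X u := by
    intro k
    have h2 := (hl (1 / ((k:ℝ) + 1)) (by positivity)).ae_differentiableWithinAt_of_mem (μ := volume)
    filter_upwards [h2] with u hu hmem
    have ho : IsOpen {v : E n | 1 / ((k:ℝ) + 1) < ‖v‖} := isOpen_lt continuous_const continuous_norm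
    exact (hu hmem).differentiableAt (ho.mem_nhds hmem)
  rw [← ae_all_iff] at h1
  have : Nonempty (Fin n) := ⟨⟨0, by omega⟩⟩
  have h0 : ∀ᵐ u : E n, u ≠ 0 := by
    have : (volume : Measure (E n)) {0} = 0 := measure_singleton 0
    exact compl_mem_ae_iff.2 this
  filter_upwards [h1, h0] with u hu hu0
  obtain ⟨k, hk⟩ := exists_nat_one_div_lt (norm_pos_iff.2 hu0)
  exact ⟨hu0, hu k hk⟩

/-- from a.e. in space to a.e. on the sphere, for scale invariant properties -/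
theorem ae_sph (hn : 2 ≤ n) {p : E n → Prop} (hp : ∀ᵐ u : E n, p u)
    (hs : ∀ (r : ℝ) (u : E n), 0 < r → u ≠ 0 → p (r • u) → p u) : ∀ᵐ v : sphere (0 : E n) 1 ∂(sph n), p (v : E n) := by
  obtain ⟨s, hsub, hsm, hs0⟩ := exists_measurable_superset_of_null (ae_iff.1 hp)
  have hP := (JP.stP n hn).2.2 (s.indicator 1) (measurable_one.indicator hsm)
  rw [lintegral_indicator_one hsm, hs0] at hP
  have hm : Measurable fun v : sphere (0 : E n) 1 =>
      (∫⁻ r in Ioi (0 : ℝ), ENNReal.ofReal (r ^ (n - 1)) * s.indicator (1 : E n → ENNReal) (r • (v : E n))) := by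
    refine Measurable.lintegral_prod_right' (f := fun q : sphere (0 : E n) 1 × ℝ =>
      ENNReal.ofReal (q.2 ^ (n - 1)) * s.indicator (1 : E n → ENNReal) (q.2 • (q.1 : E n))) ?_
    refine Measurable.mul (by fun_prop) ?_
    refine (measurable_one.indicator hsm).comp ?_
    exact (by fun_prop : Continuous fun q : sphere (0 : E n) 1 × ℝ => q.2 • (q.1 : E n)).measurable
  have h1 := (lintegral_eq_zero_iff hm).1 hP.symm
  filter_upwards [h1] with v hv
  by_contra hcon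
  have h2 : ∀ r ∈ Ioi (0:ℝ), ENNReal.ofReal (r ^ (n - 1)) * s.indicator (1 : E n → ENNReal) (r • (v : E n)) =
      ENNReal.ofReal (r ^ (n - 1)) := by
    intro r hr
    have hr0 : 0 < r := hr
    have hv0 : (v : E n) ≠ 0 := by
      intro h0
      have := norm_eq_of_mem_sphere v
      rw [h0, norm_zero] at this
      exact zero_ne_one this
    have : r • (v : E n) ∈ s := hsub fun h3 => hcon (hs r v hr0 hv0 h3)
    rw [indicator_of_mem this]
    simp
  rw [Pi.zero_apply, setLIntegral_congr_fun measurableSet_Ioi h2] at hv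
  have h3 : ∀ᵐ r ∂(volume.restrict (Ioi (0:ℝ))), ENNReal.ofReal (r ^ (n - 1)) = 0 := by
    have := (lintegral_eq_zero_iff (by fun_prop)).1 hv
    exact this
  rw [ae_restrict_iff' measurableSet_Ioi] at h3
  have h4 : (volume : Measure ℝ) (Ioi 0) = 0 := by
    refine measure_mono_null ?_ (ae_iff.1 h3)
    intro r hr
    have hr0 : 0 < r := hr
    simp only [Classical.not_imp, mem_ofPred_eq]
    refine ⟨hr, ?_⟩
    rw [ENNReal.ofReal_eq_zero, not_le]
    positivity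
  simp at h4

theorem ae_reg_sph (hn : 2 ≤ n) (g : Wk K h X) : ∀ᵐ v : sphere (0 : E n) 1 ∂(sph n), Reg X (v : E n) := by
  refine ae_sph hn (ae_reg (by omega) g) fun r u hr hu h1 => ?_
  have := g.reg_smul h1 (inv_pos.2 hr)
  rwa [smul_smul, inv_mul_cancel₀ hr.ne', one_smul] at this

theorem ae_neg {p : E n → Prop} (hp : ∀ᵐ u : E n, p u) : ∀ᵐ u : E n, p (-u) :=
  (Measure.measurePreserving_neg (volume : Measure (E n))).quasiMeasurePreserving.ae hp

theorem ae_reg_neg_sph (hn : 2 ≤ n) (g : Wk K h X) : ∀ᵐ v : sphere (0 : E n) 1 ∂(sph n), Reg X (-(v : E n)) := by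
  refine ae_sph (p := fun u => Reg X (-u)) hn (ae_neg (ae_reg (by omega) g)) fun r u hr hu h1 => ?_
  have := g.reg_smul h1 (inv_pos.2 hr)
  rwa [smul_neg, smul_smul, inv_mul_cancel₀ hr.ne', one_smul] at this

end

end Pool.Agent.H878R2.Cov
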