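import Mathlib
import Pool.Agent.H878R2.Cov.Cv
import Pool.Agent.Helper890.Cov.JG5
import Pool.Agent.Helper890.Cov.JG5a

open MeasureTheory Set Filter Topology Metric
open scoped RealInnerProductSpace Pointwise

namespace Pool.Agent.H878R2.Cov
open Pool.Agent.Helper890.Cov Pool.Agent.Helper890.Cov.JG5

theorem w5_psd {n : ℕ} {K : Set (E n)} {h : E n → ℝ} {X : E n → E n} (hG : Wk K h X)
    {u : E n} (hreg : Reg X u) (hu : ‖u‖ = 1) (x : E n) : 0 ≤ ⟪fderiv ℝ X u x, x⟫ := by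
  have hu0 : u ≠ 0 := by rintro rfl; simp at hu
  have huu : ⟪u, u⟫ = 1 := by rw [real_inner_self_eq_norm_sq, hu]; norm_num
  set w := x - ⟪x, u⟫ • u with hw
  have hwu : ⟪w, u⟫ = 0 := by
    rw [hw, inner_sub_left, real_inner_smul_left, huu]; ring
  have hx : x = w + ⟪x, u⟫ • u := by rw [hw]; abel
  have h1 : fderiv ℝ X u x = fderiv ℝ X u w := by
    conv_lhs => rw [hx]
    rw [map_add, map_smul, hG.radial hreg, smul_zero, add_zero]
  have h2 : ⟪fderiv ℝ X u w, u⟫ = 0 := by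
    rw [hG.symm hreg, hG.radial hreg, inner_zero_right]
  have h3 : ⟪fderiv ℝ X u x, x⟫ = ⟪fderiv ℝ X u w, w⟫ := by
    rw [h1]
    conv_lhs => rw [hx]
    rw [inner_add_right, real_inner_smul_right, h2, mul_zero, add_zero]
  rw [h3]
  by_cases hw0 : w = 0
  · rw [hw0]; simp
  · exact (hG.pos hreg w hw0 hwu).le

theorem w5_taylor {n : ℕ} {K : Set (E n)} {h : E n → ℝ} {X : E n → E n} (hG : Wk K h X)
    {u : E n} (hreg : Reg X u) (hu : ‖u‖ = 1) (δ : ℝ) (hδ : 0 < δ) :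
    ∃ r : ℝ, 0 < r ∧ ∀ v, ‖v - u‖ < r →
      |h v - ⟪X u, v⟫ - (1 / 2) * ⟪fderiv ℝ X u (v - u), v - u⟫| ≤ δ * ‖v - u‖ ^ 2 := by
  have hu0 : u ≠ 0 := by rintro rfl; simp at hu
  set D := fderiv ℝ X u with hD
  have hlo := hreg.diff.hasFDerivAt.isLittleO
  have hev := hlo.def hδ
  rw [Metric.eventually_nhds_iff] at hev
  obtain ⟨r, hr, hball⟩ := hev
  refine ⟨min r (1 / 2), lt_min hr (by norm_num), ?_⟩
  intro v hv
  have hvr : ‖v - u‖ < r := lt_of_lt_of_le hv (min_le_left _ _)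
  have hvh : ‖v - u‖ < 1 / 2 := lt_of_lt_of_le hv (min_le_right _ _)
  set ψ : E n → ℝ := fun v => h v - ⟪X u, v⟫ - (1 / 2) * ⟪D (v - u), v - u⟫ with hψ
  have hder : ∀ y ∈ closedBall u ‖v - u‖, HasFDerivWithinAt ψ (innerSL ℝ (X y - X u - D (y - u)))
      (closedBall u ‖v - u‖) y := by
    intro y hy
    rw [mem_closedBall, dist_eq_norm] at hy
    have hy0 : y ≠ 0 := by
      rintro rfl
      rw [zero_sub, norm_neg, hu] at hy
      linarith
    have e1 : HasFDerivAt h (innerSL ℝ (X y)) y := hG.grad y hy0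
    have e2 : HasFDerivAt (fun v : E n => ⟪X u, v⟫) (innerSL ℝ (X u)) y :=
      (innerSL ℝ (X u)).hasFDerivAt
    have e3 : HasFDerivAt (fun v : E n => v - u) (ContinuousLinearMap.id ℝ (E n)) y :=
      (hasFDerivAt_id y).sub_const u
    have e4 : HasFDerivAt (fun v : E n => D (v - u)) (D.comp (ContinuousLinearMap.id ℝ (E n))) y :=
      D.hasFDerivAt.comp y e3
    have e5 := e4.inner ℝ e3
    have e6 := (e1.sub e2).sub (e5.const_mul (1 / 2))
    refine (e6.congr_fderiv ?_).hasFDerivWithinAt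
    ext w
    simp only [sub_apply, smul_apply,
      ContinuousLinearMap.comp_apply, ContinuousLinearMap.prod_apply, fderivInnerCLM_apply,
      innerSL_apply_apply, ContinuousLinearMap.id_apply, smul_eq_mul, ContinuousLinearMap.coe_comp',
      Function.comp_apply]
    rw [inner_sub_left, inner_sub_left]
    have h7 : ⟪D w, y - u⟫ = ⟪D (y - u), w⟫ := by
      rw [hG.symm hreg, real_inner_comm]
    rw [h7]
    ring
  have hbound : ∀ y ∈ closedBall u ‖v - u‖,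
      ‖innerSL ℝ (X y - X u - D (y - u))‖ ≤ δ * ‖v - u‖ := by
    intro y hy
    rw [mem_closedBall] at hy
    have h1 := hball (lt_of_le_of_lt hy hvr)
    rw [innerSL_apply_norm]
    rw [dist_eq_norm] at hy
    calc ‖X y - X u - D (y - u)‖ ≤ δ * ‖y - u‖ := h1
      _ ≤ δ * ‖v - u‖ := mul_le_mul_of_nonneg_left hy hδ.le
  have hmv := (convex_closedBall u ‖v - u‖).norm_image_sub_le_of_norm_hasFDerivWithin_le
    hder hbound (mem_closedBall_self (norm_nonneg _))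
    (show v ∈ closedBall u ‖v - u‖ by rw [mem_closedBall, dist_eq_norm])
  have hψu : ψ u = 0 := by
    simp only [hψ, sub_self, map_zero, inner_zero_left, mul_zero, sub_zero]
    rw [hG.eq u hu0, sub_self]
  rw [hψu, sub_zero, Real.norm_eq_abs] at hmv
  calc |h v - ⟪X u, v⟫ - (1 / 2) * ⟪D (v - u), v - u⟫| = |ψ v| := rfl
    _ ≤ δ * ‖v - u‖ * ‖v - u‖ := hmv
    _ = δ * ‖v - u‖ ^ 2 := by ring

theorem w5_out {n : ℕ} {K : Set (E n)} {h : E n → ℝ} {X : E n → E n} (hG : Wk K h X)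
    {u : E n} (hreg : Reg X u) (hu : ‖u‖ = 1) (w η : E n) (s : ℝ) (hwu : ⟪w, u⟫ = 0) (hηu : ⟪η, u⟫ = 0)
    (hη : fderiv ℝ X u η = w) (hs : s < (1 / 2) * ⟪w, η⟫) :
    ∃ r : ℝ, 0 < r ∧ ∀ t : ℝ, 0 < t → t < r → X u + t • w - (t ^ 2 * s) • u ∉ K := by
  have hu0 : u ≠ 0 := by rintro rfl; simp at hu
  have huu : ⟪u, u⟫ = 1 := by rw [real_inner_self_eq_norm_sq, hu]; norm_num
  set gap := (1 / 2) * ⟪w, η⟫ - s with hgap
  have hgap0 : 0 < gap := by linarith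
  obtain ⟨r, hr, hT⟩ := w5_taylor hG hreg hu (gap / (2 * (‖η‖ ^ 2 + 1))) (by positivity)
  refine ⟨r / (‖η‖ + 1), by positivity, ?_⟩
  intro t ht htr hmem
  have h1 := hG.le _ hmem (u + t • η)
  have h2 : ‖(u + t • η) - u‖ = t * ‖η‖ := by
    rw [add_sub_cancel_left, norm_smul, Real.norm_eq_abs, abs_of_pos ht]
  have h3 : ‖(u + t • η) - u‖ < r := by
    rw [h2]
    have h4 : t * (‖η‖ + 1) < r := by
      rwa [lt_div_iff₀ (by positivity)] at htr
    nlinarith [norm_nonneg η]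
  have h4 := hT _ h3
  rw [h2, add_sub_cancel_left] at h4
  have h5 : ⟪fderiv ℝ X u (t • η), t • η⟫ = t ^ 2 * ⟪w, η⟫ := by
    rw [map_smul, hη, real_inner_smul_left, real_inner_smul_right]; ring
  rw [h5] at h4
  have h6 := (abs_le.1 h4).2
  have h7 : ⟪X u + t • w - (t ^ 2 * s) • u, u + t • η⟫ =
      ⟪X u, u + t • η⟫ + t ^ 2 * ⟪w, η⟫ - t ^ 2 * s := by
    rw [inner_sub_left, inner_add_left, real_inner_smul_left, real_inner_smul_left,
      inner_add_right w, inner_add_right u, real_inner_smul_right, real_inner_smul_right, hwu, huu,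
      real_inner_comm η u, hηu]
    ring
  rw [h7] at h1
  have h8 : gap / (2 * (‖η‖ ^ 2 + 1)) * (t * ‖η‖) ^ 2 ≤ t ^ 2 * (gap / 2) := by
    have h9 : gap / (2 * (‖η‖ ^ 2 + 1)) * (t * ‖η‖) ^ 2 =
        t ^ 2 * (gap / 2) * (‖η‖ ^ 2 / (‖η‖ ^ 2 + 1)) := by
      field_simp
    rw [h9]
    have h10 : ‖η‖ ^ 2 / (‖η‖ ^ 2 + 1) ≤ 1 := by
      rw [div_le_one (by positivity)]; linarith
    exact mul_le_of_le_one_right (by positivity) h10
  have h11 : 0 < t ^ 2 * (gap / 2) := by positivity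
  have h12 : t ^ 2 * gap = t ^ 2 * ((1 / 2) * ⟪w, η⟫ - s) := by rw [hgap]
  nlinarith

theorem w5_in {n : ℕ} {K : Set (E n)} {h : E n → ℝ} {X : E n → E n} (hG : Wk K h X)
    {u : E n} (hreg : Reg X u) (hu : ‖u‖ = 1) (c : ℝ) (hc : 0 < c)
    (hc1 : ∀ v : E n, ‖v‖ = 1 → c * ‖u - v‖ ^ 2 ≤ h v - ⟪X u, v⟫)
    (w η : E n) (s : ℝ) (hwu : ⟪w, u⟫ = 0)
    (hη : fderiv ℝ X u η = w) (hs : (1 / 2) * ⟪w, η⟫ < s) :
    ∃ r : ℝ, 0 < r ∧ ∀ t : ℝ, 0 < t → t < r → X u + t • w - (t ^ 2 * s) • u ∈ K := by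
  have hu0 : u ≠ 0 := by rintro rfl; simp at hu
  have huu : ⟪u, u⟫ = 1 := by rw [real_inner_self_eq_norm_sq, hu]; norm_num
  set gap := s - (1 / 2) * ⟪w, η⟫ with hgap
  have hgap0 : 0 < gap := by linarith
  set M : ℝ := (‖w‖ + |s| + 1) / c + 1 with hM
  have hM1 : 1 ≤ M := by
    have : 0 ≤ (‖w‖ + |s| + 1) / c := by positivity
    linarith
  have hMc : ‖w‖ + |s| ≤ c * M := by
    have : c * M = ‖w‖ + |s| + 1 + c := by rw [hM]; field_simp
    linarith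
  obtain ⟨r, hr, hT⟩ := w5_taylor hG hreg hu (gap / (4 * M ^ 2)) (by positivity)
  set r1 : ℝ := r / M with hr1
  set r2 : ℝ := √(gap / (|s| * M ^ 2 + 1)) with hr2
  have hr2pos : 0 < r2 := Real.sqrt_pos.2 (by positivity)
  refine ⟨min r1 r2, lt_min (by positivity) hr2pos, ?_⟩
  intro t ht htr
  have ht1 : t < r1 := lt_of_lt_of_le htr (min_le_left _ _)
  have ht2 : t < r2 := lt_of_lt_of_le htr (min_le_right _ _)
  have htM : t * M < r := by rwa [hr1, lt_div_iff₀ (by positivity)] at ht1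
  have ht2' : t ^ 2 * (|s| * M ^ 2) ≤ gap := by
    have h1 : t ^ 2 < r2 ^ 2 := by
      apply pow_lt_pow_left₀ ht2 ht.le (by norm_num)
    rw [hr2, Real.sq_sqrt (by positivity), lt_div_iff₀ (by positivity)] at h1
    nlinarith [sq_nonneg t]
  -- unit vectors
  have key : ∀ v : E n, ‖v‖ = 1 → ⟪X u + t • w - (t ^ 2 * s) • u, v⟫ ≤ h v := by
    intro v hv
    set a := v - u with ha
    have hva : v = u + a := by rw [ha]; abel
    have huv : ⟪u, v⟫ = 1 - ‖a‖ ^ 2 / 2 := by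
      have h1 : ‖a‖ ^ 2 = ‖v‖ ^ 2 - 2 * ⟪v, u⟫ + ‖u‖ ^ 2 := norm_sub_sq_real v u
      rw [hv, hu, real_inner_comm] at h1
      linarith
    have hwv : ⟪w, v⟫ = ⟪w, a⟫ := by rw [hva, inner_add_right, hwu, zero_add]
    have hexp : ⟪X u + t • w - (t ^ 2 * s) • u, v⟫ =
        ⟪X u, v⟫ + t * ⟪w, a⟫ - t ^ 2 * s * (1 - ‖a‖ ^ 2 / 2) := by
      rw [inner_sub_left, inner_add_left, real_inner_smul_left, real_inner_smul_left, hwv, huv]
    rw [hexp]
    have hna : ‖u - v‖ = ‖a‖ := by rw [ha, norm_sub_rev]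
    have ha2 : ‖a‖ ≤ 2 := by
      calc ‖a‖ ≤ ‖v‖ + ‖u‖ := norm_sub_le _ _
        _ = 2 := by rw [hv, hu]; norm_num
    have huv1 : |1 - ‖a‖ ^ 2 / 2| ≤ 1 := by
      rw [abs_le]; constructor <;> nlinarith [norm_nonneg a]
    rcases le_total (M * t) ‖a‖ with hcase | hcase
    · -- far
      have h1 := hc1 v hv
      rw [hna] at h1
      have h2 : t * ⟪w, a⟫ ≤ t * (‖w‖ * ‖a‖) :=
        mul_le_mul_of_nonneg_left (real_inner_le_norm w a) ht.le
      have h3 : -(t ^ 2 * s * (1 - ‖a‖ ^ 2 / 2)) ≤ t ^ 2 * |s| := by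
        have h4 : |t ^ 2 * s * (1 - ‖a‖ ^ 2 / 2)| ≤ t ^ 2 * |s| := by
          rw [abs_mul, abs_mul, abs_of_nonneg (sq_nonneg t)]
          exact mul_le_of_le_one_right (by positivity) huv1
        exact (neg_le_abs _).trans h4
      have hta : t ≤ ‖a‖ := by nlinarith
      have h5 : t * (‖w‖ * ‖a‖) + t ^ 2 * |s| ≤ (‖w‖ + |s|) * (t * ‖a‖) := by
        have h6 : t ^ 2 * |s| ≤ |s| * (t * ‖a‖) := by
          have : t * t ≤ t * ‖a‖ := mul_le_mul_of_nonneg_left hta ht.le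
          nlinarith [abs_nonneg s]
        nlinarith
      have h7 : (‖w‖ + |s|) * (t * ‖a‖) ≤ c * M * (t * ‖a‖) :=
        mul_le_mul_of_nonneg_right hMc (by positivity)
      have h8 : c * M * (t * ‖a‖) ≤ c * ‖a‖ ^ 2 := by
        have : (M * t) * ‖a‖ ≤ ‖a‖ * ‖a‖ := mul_le_mul_of_nonneg_right hcase (norm_nonneg a)
        nlinarith
      linarith
    · -- near
      have hav : ‖v - u‖ < r := by
        calc ‖v - u‖ ≤ M * t := hcase
          _ < r := by linarith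
      have h1 := (abs_le.1 (hT v hav)).1
      have h2 : 0 ≤ ⟪fderiv ℝ X u (a - t • η), a - t • η⟫ := w5_psd hG hreg hu _
      have h3 : ⟪fderiv ℝ X u (a - t • η), a - t • η⟫ =
          ⟪fderiv ℝ X u a, a⟫ - 2 * t * ⟪w, a⟫ + t ^ 2 * ⟪w, η⟫ := by
        exact g5_quad (fderiv ℝ X u) (hG.symm hreg) a η w t hη
      rw [h3] at h2
      have hsq : ‖a‖ ^ 2 ≤ M ^ 2 * t ^ 2 := by
        calc ‖a‖ ^ 2 ≤ (M * t) ^ 2 := pow_le_pow_left₀ (norm_nonneg a) hcase 2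
          _ = M ^ 2 * t ^ 2 := by ring
      have h4 : gap / (4 * M ^ 2) * ‖v - u‖ ^ 2 ≤ gap / 4 * t ^ 2 := by
        have : gap / (4 * M ^ 2) * (M ^ 2 * t ^ 2) = gap / 4 * t ^ 2 := by
          field_simp
        rw [← this]
        exact mul_le_mul_of_nonneg_left hsq (by positivity)
      have h5 : t ^ 2 * s * (‖a‖ ^ 2 / 2) ≤ t ^ 2 * (gap / 2) := by
        have h6 : s * ‖a‖ ^ 2 ≤ |s| * (M ^ 2 * t ^ 2) :=
          (mul_le_mul_of_nonneg_right (le_abs_self s) (sq_nonneg _)).trans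
            (mul_le_mul_of_nonneg_left hsq (abs_nonneg s))
        have h7 : s * ‖a‖ ^ 2 ≤ gap := by
          calc s * ‖a‖ ^ 2 ≤ |s| * (M ^ 2 * t ^ 2) := h6
            _ = t ^ 2 * (|s| * M ^ 2) := by ring
            _ ≤ gap := ht2'
        nlinarith [sq_nonneg t]
      have h8 : t ^ 2 * gap = t ^ 2 * s - t ^ 2 * ((1 / 2) * ⟪w, η⟫) := by rw [hgap]; ring
      have h9 : 0 < t ^ 2 * gap := by positivity
      have h1' : -(gap / (4 * M ^ 2) * ‖v - u‖ ^ 2) ≤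
        h v - ⟪X u, v⟫ - 1 / 2 * ⟪fderiv ℝ X u a, a⟫ := h1
      nlinarith
  apply hG.charac
  intro v
  by_cases hv0 : v = 0
  · subst hv0
    rw [inner_zero_right]
    have := hG.homog 0 (0 : E n) le_rfl
    rw [zero_smul, zero_mul] at this
    rw [this]
  · have hvn : 0 < ‖v‖ := norm_pos_iff.2 hv0
    have h1 := key (‖v‖⁻¹ • v) (by rw [norm_smul, norm_inv, norm_norm, inv_mul_cancel₀ hvn.ne'])
    rw [real_inner_smul_right, hG.homog _ _ (by positivity)] at h1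
    exact le_of_mul_le_mul_left h1 (by positivity)

theorem w5_bdd {n : ℕ} {K : Set (E n)} {h : E n → ℝ} {X : E n → E n} (hG : Wk K h X)
    {u : E n} (hreg : Reg X u) (hu : ‖u‖ = 1) :
    ∃ C r : ℝ, 0 < r ∧ ∀ t : ℝ, 0 < t → t < r → ∀ (w : E n) (s : ℝ), ⟪w, u⟫ = 0 → s ≤ 1 →
      X u + t • w - (t ^ 2 * s) • u ∈ K → ‖w‖ ≤ C ∧ 0 ≤ s := by
  have hu0 : u ≠ 0 := by rintro rfl; simp at hu
  have huu : ⟪u, u⟫ = 1 := by rw [real_inner_self_eq_norm_sq, hu]; norm_num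
  obtain ⟨r, hr, hT⟩ := w5_taylor hG hreg hu 1 one_pos
  refine ⟨2 + ‖fderiv ℝ X u‖, r, hr, ?_⟩
  intro t ht htr w s hwu hs hmem
  have hs0 : 0 ≤ s := by
    have h1 := hG.le _ hmem u
    rw [inner_sub_left, inner_add_left, real_inner_smul_left, real_inner_smul_left, hwu, huu,
      hG.eq u hu0] at h1
    have h2 : 0 ≤ t ^ 2 * s := by linarith
    exact nonneg_of_mul_nonneg_right h2 (by positivity)
  refine ⟨?_, hs0⟩
  by_cases hw : w = 0
  · rw [hw, norm_zero]; positivity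
  have hwn : 0 < ‖w‖ := norm_pos_iff.2 hw
  set θ : E n := ‖w‖⁻¹ • w with hθ
  have hθn : ‖θ‖ = 1 := by rw [hθ, norm_smul, norm_inv, norm_norm, inv_mul_cancel₀ hwn.ne']
  have hθu : ⟪θ, u⟫ = 0 := by rw [hθ, real_inner_smul_left, hwu, mul_zero]
  have hwθ : ⟪w, θ⟫ = ‖w‖ := by
    rw [hθ, real_inner_smul_right, real_inner_self_eq_norm_sq]; field_simp
  clear_value θ
  have h1 := hG.le _ hmem (u + t • θ)
  have h2 : ‖(u + t • θ) - u‖ = t := by
    rw [add_sub_cancel_left, norm_smul, Real.norm_eq_abs, abs_of_pos ht, hθn, mul_one]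
  have h4 := (abs_le.1 (hT (u + t • θ) (by rw [h2]; exact htr))).2
  rw [h2, add_sub_cancel_left] at h4
  have h5 : ⟪fderiv ℝ X u (t • θ), t • θ⟫ = t ^ 2 * ⟪fderiv ℝ X u θ, θ⟫ := by
    rw [map_smul, real_inner_smul_left, real_inner_smul_right]; ring
  have h5b : ⟪fderiv ℝ X u θ, θ⟫ ≤ ‖fderiv ℝ X u‖ := by
    calc ⟪fderiv ℝ X u θ, θ⟫ ≤ ‖fderiv ℝ X u θ‖ * ‖θ‖ := real_inner_le_norm _ _
      _ ≤ ‖fderiv ℝ X u‖ * ‖θ‖ * ‖θ‖ :=
        mul_le_mul_of_nonneg_right ((fderiv ℝ X u).le_opNorm θ) (norm_nonneg _)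
      _ = ‖fderiv ℝ X u‖ := by rw [hθn]; ring
  rw [h5] at h4
  have h7 : ⟪X u + t • w - (t ^ 2 * s) • u, u + t • θ⟫ =
      ⟪X u, u + t • θ⟫ + t ^ 2 * ‖w‖ - t ^ 2 * s := by
    rw [inner_sub_left, inner_add_left, real_inner_smul_left, real_inner_smul_left,
      inner_add_right w, inner_add_right u, real_inner_smul_right, real_inner_smul_right, hwu, huu,
      real_inner_comm θ u, hθu, hwθ]
    ring
  rw [h7] at h1
  have ht2 : 0 < t ^ 2 := by positivity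
  have h8 : t ^ 2 * ‖w‖ ≤ t ^ 2 * (2 + ‖fderiv ℝ X u‖) := by
    have h9 : t ^ 2 * s ≤ t ^ 2 * 1 := mul_le_mul_of_nonneg_left hs ht2.le
    have h10 : t ^ 2 * ⟪fderiv ℝ X u θ, θ⟫ ≤ t ^ 2 * ‖fderiv ℝ X u‖ :=
      mul_le_mul_of_nonneg_left h5b ht2.le
    have h11 : 0 ≤ t ^ 2 * ‖fderiv ℝ X u‖ := by positivity
    linarith
  exact le_of_mul_le_mul_left h8 ht2

theorem w5_scale {n : ℕ} {K : Set (E n)} {h : E n → ℝ} {X : E n → E n} (hG : Wk K h X)
    {u : E n} (hu : ‖u‖ = 1) (ε : ℝ) (hε : 0 < ε) :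
    (volume : Measure (E n)).real {x | x ∈ K ∧ h u - ε ≤ ⟪x, u⟫} / ε ^ kap n =
      (volume : Measure (E n)).real {y | X u + √ε • (y - ⟪y, u⟫ • u) - (ε * ⟪y, u⟫) • u ∈ K ∧
        ⟪y, u⟫ ≤ 1} := by
  have hu0 : u ≠ 0 := by rintro rfl; simp at hu
  have huu : ⟪u, u⟫ = 1 := by rw [real_inner_self_eq_norm_sq, hu]; norm_num
  obtain ⟨L, hL, hdet⟩ := g5_detL hu (√ε)
  have hsε : 0 < √ε := Real.sqrt_pos.2 hε
  have hs2 : √ε ^ 2 = ε := Real.sq_sqrt hε.le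
  rw [hs2] at hL
  have hset : {y : E n | X u + √ε • (y - ⟪y, u⟫ • u) - (ε * ⟪y, u⟫) • u ∈ K ∧ ⟪y, u⟫ ≤ 1} =
      L ⁻¹' ((fun z => X u + z) ⁻¹' {x | x ∈ K ∧ h u - ε ≤ ⟪x, u⟫}) := by
    ext y
    have h1 : X u + L y = X u + √ε • (y - ⟪y, u⟫ • u) - (ε * ⟪y, u⟫) • u := by
      rw [hL, add_sub_assoc]
    have h2 : ⟪X u + L y, u⟫ = h u - ε * ⟪y, u⟫ := by
      rw [h1, inner_sub_left, inner_add_left, real_inner_smul_left, real_inner_smul_left,
        inner_sub_left, real_inner_smul_left, huu, hG.eq u hu0]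
      ring
    change _ ↔ (X u + L y ∈ K ∧ h u - ε ≤ ⟪X u + L y, u⟫)
    rw [h2, h1]
    refine and_congr_right fun _ => ?_
    constructor
    · intro h3; nlinarith
    · intro h3
      have h4 : ε * ⟪y, u⟫ ≤ ε * 1 := by linarith
      exact le_of_mul_le_mul_left h4 hε
  have hdet0 : LinearMap.det L ≠ 0 := by
    rw [hdet, neg_ne_zero]; positivity
  rw [hset, measureReal_def, measureReal_def, Measure.addHaar_preimage_linearMap volume hdet0,
    measure_preimage_add, ENNReal.toReal_mul, ENNReal.toReal_ofReal (abs_nonneg _), hdet]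
  have h5 : |(-(√ε ^ (n + 1)))⁻¹| = (ε ^ kap n)⁻¹ := by
    rw [abs_inv, abs_neg, abs_of_pos (by positivity)]
    congr 1
    rw [Real.sqrt_eq_rpow, ← Real.rpow_natCast, ← Real.rpow_mul hε.le, kap]
    congr 1
    push_cast
    ring
  rw [h5, div_eq_inv_mul]

theorem wG5 {n : ℕ} (hn : 2 ≤ n) {K : Set (E n)} {h : E n → ℝ} {X : E n → E n} (hG : Wk K h X)
    {u : E n} (hreg : Reg X u) (hu : ‖u‖ = 1) :
    Tendsto (fun ε : ℝ => (volume : Measure (E n)).real {x | x ∈ K ∧ h u - ε ≤ ⟪x, u⟫} / ε ^ kap n)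
      (𝓝[>] 0) (𝓝 (cc n * Real.sqrt (curv X u) / Real.Gamma (kap n + 1))) := by
  have hu0 : u ≠ 0 := by rintro rfl; simp at hu
  have huu : ⟪u, u⟫ = 1 := by rw [real_inner_self_eq_norm_sq, hu]; norm_num
  obtain ⟨c, C, hc, hcC⟩ := hG.quad
  -- the operator
  set B : E n →ₗ[ℝ] E n := (BB X u).toLinearMap with hB
  have hBapp : ∀ x, B x = fderiv ℝ X u x + ⟪u, x⟫ • u := by
    intro x
    change (BB X u) x = _
    simp [BB, hu]
  have hBsym : ∀ x y, ⟪B x, y⟫ = ⟪x, B y⟫ := by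
    intro x y
    rw [hBapp, hBapp, inner_add_left, inner_add_right, hG.symm hreg, real_inner_smul_left,
      real_inner_smul_right, real_inner_comm u x]
    ring
  have hBu : B u = u := by rw [hBapp, hG.radial hreg, huu, zero_add, one_smul]
  have hBpos : ∀ x, x ≠ 0 → 0 < ⟪B x, x⟫ := by
    intro x hx
    rw [hBapp, inner_add_left, real_inner_smul_left]
    by_cases h0 : ⟪u, x⟫ = 0
    · rw [h0, zero_mul, add_zero]
      exact hG.pos hreg x hx (by rw [real_inner_comm]; exact h0)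
    · have h2 := w5_psd hG hreg hu x
      have h4 : 0 < ⟪u, x⟫ * ⟪u, x⟫ := mul_self_pos.2 h0
      linarith
  obtain ⟨R, R', hRR', hR'R, hRR, hRsym, hRu⟩ := g5_exists_sqrt B hBsym hBpos u hBu
  have hR'u : R' u = u := by
    conv_lhs => rw [← hRu]
    rw [hR'R]
  have hR'sym : ∀ x y, ⟪R' x, y⟫ = ⟪x, R' y⟫ := by
    intro x y
    conv_lhs => rw [← hRR' y]
    rw [← hRsym, hRR']
  have hR'uu : ∀ y, ⟪R' y, u⟫ = ⟪y, u⟫ := fun y => by rw [hR'sym, hR'u]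
  -- the model
  set S0 : Set (E n) := {y | ‖R' y - ⟪R' y, u⟫ • u‖ ^ 2 / 2 ≤ ⟪R' y, u⟫ ∧ ⟪R' y, u⟫ ≤ 1} with hS0
  have hR'c : Continuous R' := R'.continuous_of_finiteDimensional
  have hS0vol : (volume : Measure (E n)).real S0 =
      cc n * √(curv X u) / Real.Gamma (kap n + 1) := by
    have hS0im : S0 = R '' {z | ‖z - ⟪z, u⟫ • u‖ ^ 2 / 2 ≤ ⟪z, u⟫ ∧ ⟪z, u⟫ ≤ 1} := by
      ext y
      constructor
      · intro hy
        exact ⟨R' y, hy, hRR' y⟩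
      · rintro ⟨z, hz, rfl⟩
        change ‖R' (R z) - ⟪R' (R z), u⟫ • u‖ ^ 2 / 2 ≤ ⟪R' (R z), u⟫ ∧ ⟪R' (R z), u⟫ ≤ 1
        rw [hR'R]
        exact hz
    have hdet : |LinearMap.det R| = √(curv X u) := by
      have h2 : LinearMap.det R * LinearMap.det R = curv X u := by
        rw [← LinearMap.det_comp]
        have : R ∘ₗ R = B := LinearMap.ext hRR
        rw [this]
        rfl
      rw [← h2, Real.sqrt_mul_self_eq_abs]
    rw [hS0im, measureReal_def, Measure.addHaar_image_linearMap, ENNReal.toReal_mul,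
      ENNReal.toReal_ofReal (abs_nonneg _), ← measureReal_def, JG5a.stG5a n hn u hu, hdet]
    ring
  -- the rescaled caps
  set S : ℝ → Set (E n) := fun ε =>
    {y | X u + √ε • (y - ⟪y, u⟫ • u) - (ε * ⟪y, u⟫) • u ∈ K ∧ ⟪y, u⟫ ≤ 1} with hS
  have hSm : ∀ ε, MeasurableSet (S ε) := by
    intro ε
    apply IsClosed.measurableSet
    have hc1 : Continuous (fun y : E n => X u + √ε • (y - ⟪y, u⟫ • u) - (ε * ⟪y, u⟫) • u) := by
      fun_prop
    have hc2 : Continuous (fun y : E n => ⟪y, u⟫) := by fun_prop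
    exact (hG.compact.isClosed.preimage hc1).inter (isClosed_le hc2 continuous_const)
  have hS0m : MeasurableSet S0 := by
    apply IsClosed.measurableSet
    have hc1 : Continuous (fun y : E n => ‖R' y - ⟪R' y, u⟫ • u‖ ^ 2 / 2) := by fun_prop
    have hc2 : Continuous (fun y : E n => ⟪R' y, u⟫) := by fun_prop
    exact (isClosed_le hc1 hc2).inter (isClosed_le hc2 continuous_const)
  obtain ⟨C', r, hr, hbdd⟩ := w5_bdd hG hreg hu
  have hsqrt : Tendsto (fun ε : ℝ => √ε) (𝓝[>] 0) (𝓝[>] 0) := by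
    apply tendsto_nhdsWithin_iff.2
    refine ⟨?_, ?_⟩
    · have h2 : Tendsto (fun ε : ℝ => √ε) (𝓝 0) (𝓝 (√0)) := Real.continuous_sqrt.tendsto 0
      rw [Real.sqrt_zero] at h2
      exact h2.mono_left nhdsWithin_le_nhds
    · filter_upwards [self_mem_nhdsWithin] with ε hε
      exact Real.sqrt_pos.2 hε
  have hlt : ∀ r : ℝ, 0 < r → ∀ᶠ ε : ℝ in 𝓝[>] 0, 0 < ε ∧ √ε < r := by
    intro r hr
    have h2 : ∀ᶠ t : ℝ in 𝓝[>] 0, t < r :=
      nhdsWithin_le_nhds (Iio_mem_nhds hr)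
    filter_upwards [hsqrt.eventually h2, self_mem_nhdsWithin] with ε h4 h5
    exact ⟨h5, h4⟩
  have hSsub : ∀ᶠ ε : ℝ in 𝓝[>] 0, S ε ⊆ closedBall 0 (C' + 1) := by
    filter_upwards [hlt r hr] with ε hε
    intro y hy
    obtain ⟨hy1, hy2⟩ := hy
    have h2 : ⟪y - ⟪y, u⟫ • u, u⟫ = 0 := by
      rw [inner_sub_left, real_inner_smul_left, huu]; ring
    have h4 := hbdd (√ε) (Real.sqrt_pos.2 hε.1) hε.2 (y - ⟪y, u⟫ • u) ⟪y, u⟫ h2 hy2
      (by rw [Real.sq_sqrt hε.1.le]; exact hy1)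
    rw [mem_closedBall_zero_iff]
    calc ‖y‖ = ‖(y - ⟪y, u⟫ • u) + ⟪y, u⟫ • u‖ := by rw [sub_add_cancel]
      _ ≤ ‖y - ⟪y, u⟫ • u‖ + ‖⟪y, u⟫ • u‖ := norm_add_le _ _
      _ ≤ C' + 1 := by
        apply add_le_add h4.1
        rw [norm_smul, hu, mul_one, Real.norm_eq_abs, abs_of_nonneg h4.2]
        exact hy2
  have hlim : ∀ᵐ y ∂(volume : Measure (E n)), ∀ᶠ ε in 𝓝[>] (0 : ℝ), y ∈ S ε ↔ y ∈ S0 := by
    have hnull := g5_null R' hu hR'u
    rw [← compl_mem_ae_iff] at hnull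
    filter_upwards [hnull] with y hy
    set s := ⟪y, u⟫ with hs
    set w := y - s • u with hw
    have hwu : ⟪w, u⟫ = 0 := by
      rw [hw, inner_sub_left, real_inner_smul_left, huu]; ring
    set η := R' (R' w) with hη
    have hηu : ⟪η, u⟫ = 0 := by rw [hη, hR'uu, hR'uu, hwu]
    have hBη : B η = w := by rw [← hRR, hη, hRR', hRR']
    have hDη : fderiv ℝ X u η = w := by
      rw [hBapp, real_inner_comm, hηu, zero_smul, add_zero] at hBη
      exact hBη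
    have hQ : ‖R' y - ⟪R' y, u⟫ • u‖ ^ 2 / 2 = (1 / 2) * ⟪w, η⟫ := by
      have h2 : R' y - ⟪R' y, u⟫ • u = R' w := by
        rw [hw, map_sub, map_smul, hR'u, hR'uu]
      have h4 : ⟪R' w, R' w⟫ = ⟪w, η⟫ := hR'sym w (R' w)
      rw [h2, ← real_inner_self_eq_norm_sq, h4]
      ring
    have hne : ¬ (‖R' y - ⟪R' y, u⟫ • u‖ ^ 2 / 2 = ⟪R' y, u⟫) := hy
    have hS0iff : y ∈ S0 ↔ ((1 / 2) * ⟪w, η⟫ ≤ s ∧ s ≤ 1) := by
      change (‖R' y - ⟪R' y, u⟫ • u‖ ^ 2 / 2 ≤ ⟪R' y, u⟫ ∧ ⟪R' y, u⟫ ≤ 1) ↔ _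
      rw [hQ, hR'uu]
    rw [hQ, hR'uu] at hne
    rcases lt_or_gt_of_ne hne with hlt1 | hgt1
    · obtain ⟨r1, hr1, hin⟩ := w5_in hG hreg hu c hc (fun v hv => (hcC u v hu hv).1) w η s hwu hDη hlt1
      filter_upwards [hlt r1 hr1] with ε hε
      rw [hS0iff]
      constructor
      · intro hyS
        exact ⟨hlt1.le, hyS.2⟩
      · intro hyS
        refine ⟨?_, hyS.2⟩
        have h2 := hin (√ε) (Real.sqrt_pos.2 hε.1) hε.2
        rw [Real.sq_sqrt hε.1.le] at h2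
        exact h2
    · obtain ⟨r1, hr1, hout⟩ := w5_out hG hreg hu w η s hwu hηu hDη hgt1
      filter_upwards [hlt r1 hr1] with ε hε
      rw [hS0iff]
      constructor
      · intro hyS
        have h2 := hout (√ε) (Real.sqrt_pos.2 hε.1) hε.2
        rw [Real.sq_sqrt hε.1.le] at h2
        exact absurd hyS.1 h2
      · intro hyS
        exact absurd hyS.1 (not_le.2 hgt1)
  have hfin : (volume : Measure (E n)) (closedBall 0 (C' + 1)) ≠ ⊤ :=
    (isCompact_closedBall _ _).measure_lt_top.ne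
  have hmeas := tendsto_measure_of_ae_tendsto_indicator (𝓝[>] (0 : ℝ)) hS0m hSm
    isClosed_closedBall.measurableSet hfin hSsub hlim
  have hS0fin : (volume : Measure (E n)) S0 ≠ ⊤ := by
    have h2 : (volume : Measure (E n)) S0 ≤ (volume : Measure (E n)) (closedBall 0 (C' + 1)) := by
      apply le_of_tendsto hmeas
      filter_upwards [hSsub] with ε hε
      exact measure_mono hε
    exact (lt_of_le_of_lt h2 (lt_top_iff_ne_top.2 hfin)).ne
  have hreal := (ENNReal.tendsto_toReal hS0fin).comp hmeas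
  rw [← hS0vol]
  refine hreal.congr' ?_
  filter_upwards [self_mem_nhdsWithin] with ε hε
  exact (w5_scale hG hu ε hε).symm



end Pool.Agent.H878R2.Cov
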