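import Mathlib
import Pool.Agent.H878R2.Cov.G4
import Pool.Agent.H878R2.Cov.G5
import Pool.Agent.Helper890.Cov.JG10

open MeasureTheory Set Filter Topology Metric
open scoped RealInnerProductSpace Pointwise

namespace Pool.Agent.H878R2.Cov
open Pool.Agent.Helper890.Cov Pool.Agent.Helper890.Cov.JG10

theorem w10_rep {n : ℕ} {K : Set (E n)} {h : E n → ℝ} {X : E n → E n} (hG : Wk K h X)
    {u : E n} {T : ℝ} (hT : 0 < T) :
    ((T ^ kap n : ℝ) : ℂ) * ∫ x in K, (Real.Gamma (kap n + 1) : ℂ) *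
      (1 + Complex.I * ((T * (h u - ⟪x, u⟫) : ℝ) : ℂ)) ^ (-((kap n + 1 : ℝ) : ℂ)) =
    (Real.Gamma (kap n + 1) : ℂ) * ∫ s in Ioi (0 : ℝ),
      (g10l (kap n) s * ((s ^ kap n : ℝ) : ℂ)) *
        (((volume : Measure (E n)).real {x | x ∈ K ∧ h u - s / T ≤ ⟪x, u⟫} / (s / T) ^ kap n : ℝ) : ℂ) := by
  haveI : IsFiniteMeasure (volume.restrict K : Measure (E n)) :=
    ⟨by rw [Measure.restrict_apply_univ]; exact hG.compact.measure_lt_top⟩
  have h1 := g10_fubini' (volume.restrict K : Measure (E n)) (y := fun x => h u - ⟪x, u⟫)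
    (by fun_prop) (by
      refine (ae_restrict_iff' hG.compact.isClosed.measurableSet).2 (Eventually.of_forall ?_)
      intro x hx
      have := hG.le x hx u
      linarith) (g10_kap_pos n).le hT
  rw [integral_const_mul]
  have h2 : ∫ x in K, (1 + Complex.I * ((T * (h u - ⟪x, u⟫) : ℝ) : ℂ)) ^ (-((kap n + 1 : ℝ) : ℂ)) =
      ∫ x in K, g10L (kap n) (T * (h u - ⟪x, u⟫)) := rfl
  rw [h2, mul_left_comm, h1]
  simp_rw [g10_V]

theorem wG10 {n : ℕ} (hn : 2 ≤ n) {K : Set (E n)} {h : E n → ℝ} {X : E n → E n} (hG : Wk K h X) :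
    (∃ C : ℝ, ∀ u : E n, ‖u‖ = 1 → ∀ T : ℝ, 0 < T →
    ‖((T ^ kap n : ℝ) : ℂ) * ∫ x in K, (Real.Gamma (kap n + 1) : ℂ) *
      (1 + Complex.I * ((T * (h u - ⟪x, u⟫) : ℝ) : ℂ)) ^ (-((kap n + 1 : ℝ) : ℂ))‖ ≤ C) ∧
  ∀ u : E n, ‖u‖ = 1 → Reg X u → Tendsto (fun T : ℝ => ((T ^ kap n : ℝ) : ℂ) * ∫ x in K, (Real.Gamma (kap n + 1) : ℂ) *
      (1 + Complex.I * ((T * (h u - ⟪x, u⟫) : ℝ) : ℂ)) ^ (-((kap n + 1 : ℝ) : ℂ))) atTop
    (𝓝 ((cc n * Real.sqrt (curv X u) : ℝ) * Complex.exp (Complex.I * (ph n : ℂ)))) := by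
  obtain ⟨C0, hC0⟩ := wG4 hn hG
  have hκ := g10_kap_pos n
  have hΓ : 0 < Real.Gamma (kap n + 1) := Real.Gamma_pos_of_pos (by linarith)
  -- the bound of the integrand
  have hbd : ∀ u : E n, ‖u‖ = 1 → ∀ T : ℝ, 0 < T → ∀ s ∈ Ioi (0 : ℝ),
      ‖(g10l (kap n) s * ((s ^ kap n : ℝ) : ℂ)) *
        (((volume : Measure (E n)).real {x | x ∈ K ∧ h u - s / T ≤ ⟪x, u⟫} / (s / T) ^ kap n : ℝ) : ℂ)‖ ≤
      (kap n + 1) * (1 + s ^ 2)⁻¹ * |C0| := by
    intro u hu T hT s hs
    have hs0 : (0 : ℝ) < s := hs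
    rw [norm_mul, norm_mul, Complex.norm_real, Complex.norm_real, Real.norm_eq_abs,
      Real.norm_eq_abs, abs_of_nonneg (Real.rpow_nonneg hs0.le _)]
    have hsT : 0 < s / T := div_pos hs0 hT
    have hp : 0 < (s / T) ^ kap n := Real.rpow_pos_of_pos hsT _
    refine mul_le_mul (g10_bound hκ.le hs0.le) ?_ (abs_nonneg _) (by positivity)
    rw [abs_of_nonneg (div_nonneg measureReal_nonneg hp.le), div_le_iff₀ hp]
    exact (hC0 u hu _ hsT).trans (mul_le_mul_of_nonneg_right (le_abs_self _) hp.le)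
  have hbi : Integrable (fun s : ℝ => (kap n + 1) * (1 + s ^ 2)⁻¹ * |C0|)
      (volume.restrict (Ioi (0 : ℝ))) :=
    ((integrable_inv_one_add_sq.const_mul (kap n + 1)).mul_const _).integrableOn
  refine ⟨⟨Real.Gamma (kap n + 1) * ∫ s in Ioi (0 : ℝ), (kap n + 1) * (1 + s ^ 2)⁻¹ * |C0|, ?_⟩, ?_⟩
  · intro u hu T hT
    rw [w10_rep hG hT, norm_mul, Complex.norm_real, Real.norm_eq_abs, abs_of_pos hΓ]
    refine mul_le_mul_of_nonneg_left ?_ hΓ.le
    refine norm_integral_le_of_norm_le hbi ?_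
    exact (ae_restrict_iff' measurableSet_Ioi).2 (Eventually.of_forall fun s hs => hbd u hu T hT s hs)
  · intro u hu hreg
    have hlim : Tendsto (fun T : ℝ => ∫ s in Ioi (0 : ℝ),
      (g10l (kap n) s * ((s ^ kap n : ℝ) : ℂ)) *
        (((volume : Measure (E n)).real {x | x ∈ K ∧ h u - s / T ≤ ⟪x, u⟫} / (s / T) ^ kap n : ℝ) : ℂ))
        atTop (𝓝 (∫ s in Ioi (0 : ℝ), (g10l (kap n) s * ((s ^ kap n : ℝ) : ℂ)) *
          ((cc n * Real.sqrt (curv X u) / Real.Gamma (kap n + 1) : ℝ) : ℂ))) := by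
      refine tendsto_integral_filter_of_dominated_convergence
        (fun s : ℝ => (kap n + 1) * (1 + s ^ 2)⁻¹ * |C0|) ?_ ?_ hbi ?_
      · filter_upwards [eventually_gt_atTop 0] with T hT
        have hmono : Monotone (fun ε : ℝ =>
            (volume : Measure (E n)).real {x | x ∈ K ∧ h u - ε ≤ ⟪x, u⟫}) := by
          intro a b hab
          refine measureReal_mono ?_ ?_
          · rintro x ⟨hx1, hx2⟩
            exact ⟨hx1, by linarith⟩
          · exact ((measure_mono (fun x hx => hx.1)).trans_lt hG.compact.measure_lt_top).ne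
        have hm1 : Measurable (fun s : ℝ =>
            (volume : Measure (E n)).real {x | x ∈ K ∧ h u - s / T ≤ ⟪x, u⟫}) :=
          hmono.measurable.comp (measurable_id.div_const T)
        have hm2 : Measurable (fun s : ℝ => (s / T) ^ kap n) :=
          (Real.continuous_rpow_const hκ.le).measurable.comp (measurable_id.div_const T)
        have hm3 : Measurable (fun s : ℝ => g10l (kap n) s * ((s ^ kap n : ℝ) : ℂ)) :=
          (g10_continuous_l _).measurable.mul
            (Complex.measurable_ofReal.comp (Real.continuous_rpow_const hκ.le).measurable)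
        exact (hm3.mul (Complex.measurable_ofReal.comp (hm1.div hm2))).aestronglyMeasurable
      · filter_upwards [eventually_gt_atTop 0] with T hT
        exact (ae_restrict_iff' measurableSet_Ioi).2
          (Eventually.of_forall fun s hs => hbd u hu T hT s hs)
      · refine (ae_restrict_iff' measurableSet_Ioi).2 (Eventually.of_forall fun s hs => ?_)
        have hs0 : (0 : ℝ) < s := hs
        refine Tendsto.const_mul _ ?_
        refine (Complex.continuous_ofReal.tendsto _).comp ?_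
        have ht : Tendsto (fun T : ℝ => s / T) atTop (𝓝[>] 0) := by
          rw [tendsto_nhdsWithin_iff]
          refine ⟨tendsto_const_nhds.div_atTop tendsto_id, ?_⟩
          filter_upwards [eventually_gt_atTop 0] with T hT
          exact div_pos hs0 hT
        exact (wG5 hn hG hreg hu).comp ht
    rw [integral_mul_const, g10_integral_phi hκ.le] at hlim
    have hlim2 := hlim.const_mul (Real.Gamma (kap n + 1) : ℂ)
    have hval : (Real.Gamma (kap n + 1) : ℂ) *
        (Complex.exp (Complex.I * ((-(Real.pi * kap n / 2) : ℝ) : ℂ)) *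
          ((cc n * Real.sqrt (curv X u) / Real.Gamma (kap n + 1) : ℝ) : ℂ)) =
        (cc n * Real.sqrt (curv X u) : ℝ) * Complex.exp (Complex.I * (ph n : ℂ)) := by
      have hΓ' : (Real.Gamma (kap n + 1) : ℂ) ≠ 0 := Complex.ofReal_ne_zero.2 hΓ.ne'
      unfold ph
      rw [Complex.ofReal_div (cc n * Real.sqrt (curv X u))]
      generalize Complex.exp (Complex.I * ((-(Real.pi * kap n / 2) : ℝ) : ℂ)) = e
      field_simp
    rw [hval] at hlim2
    refine hlim2.congr' ?_
    filter_upwards [eventually_gt_atTop 0] with T hT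
    rw [w10_rep hG hT]



end Pool.Agent.H878R2.Cov
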