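import Mathlib
import Pool.Agent.H878R2.Cov.Cv
import Pool.Agent.Helper890.Cov.JG6

open MeasureTheory Set Filter Topology Metric
open scoped RealInnerProductSpace Pointwise

namespace Pool.Agent.H878R2.Cov
open Pool.Agent.Helper890.Cov Pool.Agent.Helper890.Cov.JG6

theorem lip_null {n : ℕ} {C : NNReal} {f : E n → E n} {s : Set (E n)} (hf : LipschitzOnWith C f s)
    (hs : (volume : Measure (E n)) s = 0) : (volume : Measure (E n)) (f '' s) = 0 := by
  have hfin : Module.finrank ℝ (E n) = n := by simp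
  have hh : (Measure.hausdorffMeasure (n : ℝ) : Measure (E n)).IsAddHaarMeasure := by
    have := isAddHaarMeasure_hausdorffMeasure (E := E n)
    rwa [hfin] at this
  have h1 : (Measure.hausdorffMeasure (n : ℝ) : Measure (E n)) s = 0 :=
    (Measure.absolutelyContinuous_isAddHaarMeasure (Measure.hausdorffMeasure (n : ℝ) : Measure (E n)) volume) hs
  have h2 := hf.hausdorffMeasure_image_le (d := (n : ℝ)) (Nat.cast_nonneg n)
  rw [h1, mul_zero, nonpos_iff_eq_zero] at h2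
  exact (Measure.absolutelyContinuous_isAddHaarMeasure volume (Measure.hausdorffMeasure (n : ℝ) : Measure (E n))) h2

section g6
variable {n : ℕ} {K : Set (E n)} {h : E n → ℝ} {X : E n → E n}

theorem w6_orth (G : Wk K h X) {u : E n} (hu : Reg X u) (w : E n) :
    ⟪u, fderiv ℝ X u w⟫ = 0 := by
  rw [real_inner_comm, G.symm hu w u, G.radial hu, inner_zero_right]

theorem w6_deriv {u : E n} (hu : Reg X u) :
    HasFDerivAt (fun x : E n => ‖x‖ • X x) (DP X u) u :=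
  (g6_norm hu.ne).smul hu.diff.hasFDerivAt

theorem w6_comp (G : Wk K h X) {u : E n} (hu : Reg X u) :
    DP X u = (ContinuousLinearMap.id ℝ (E n) +
      (‖u‖⁻¹ • innerSL ℝ u).smulRight (X u - ‖u‖⁻¹ • u)).comp (BB X u) := by
  have hn : ‖u‖ ≠ 0 := norm_ne_zero_iff.2 hu.ne
  ext1 w
  simp only [DP, BB, ContinuousLinearMap.comp_apply, add_apply,
    smul_apply, ContinuousLinearMap.smulRight_apply, innerSL_apply_apply,
    ContinuousLinearMap.id_apply, smul_eq_mul, inner_add_right, inner_smul_right,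
    w6_orth G hu w, real_inner_self_eq_norm_sq]
  have e : ‖u‖⁻¹ * (‖u‖ * 0 + (‖u‖ ^ 2)⁻¹ * (⟪u, w⟫ * ‖u‖ ^ 2)) = ‖u‖⁻¹ * ⟪u, w⟫ := by
    field_simp
    ring
  rw [e, smul_sub, smul_smul, smul_smul]
  have e2 : ‖u‖⁻¹ * ⟪u, w⟫ * ‖u‖⁻¹ = (‖u‖ ^ 2)⁻¹ * ⟪u, w⟫ := by
    field_simp
  rw [e2]
  abel

theorem w6_detDP (G : Wk K h X) {u : E n} (hu : Reg X u) :
    (DP X u).det = h u / ‖u‖ * curv X u := by
  have hn : ‖u‖ ≠ 0 := norm_ne_zero_iff.2 hu.ne
  rw [w6_comp G hu]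
  have : ((ContinuousLinearMap.id ℝ (E n) +
      (‖u‖⁻¹ • innerSL ℝ u).smulRight (X u - ‖u‖⁻¹ • u)).comp (BB X u)).det =
      (ContinuousLinearMap.id ℝ (E n) +
      (‖u‖⁻¹ • innerSL ℝ u).smulRight (X u - ‖u‖⁻¹ • u)).det * (BB X u).det :=
    LinearMap.det_comp _ _
  rw [this, g6_det, curv]
  congr 1
  simp only [smul_apply, innerSL_apply_apply, smul_eq_mul, inner_sub_right,
    inner_smul_right, real_inner_self_eq_norm_sq]
  rw [real_inner_comm, G.eq u hu.ne]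
  field_simp
  ring

theorem w6_inj (G : Wk K h X) :
    InjOn (fun x : E n => ‖x‖ • X x) {0}ᶜ := by
  obtain ⟨c, C, hc, hb⟩ := G.quad
  have key : ∀ a b : E n, a ≠ 0 → b ≠ 0 → ‖a‖ • X a = ‖b‖ • X b → ‖a‖ ≤ ‖b‖ := by
    intro a b ha hb' hab
    have e1 : ‖a‖ * h a = ‖b‖ * ⟪X b, a⟫ := by
      rw [← G.eq a ha, ← real_inner_smul_left, ← real_inner_smul_left, hab]
    have e2 : ⟪X b, a⟫ ≤ h a := G.le _ (G.mem b hb') a
    have e3 : ‖a‖ * h a ≤ ‖b‖ * h a := by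
      rw [e1]; exact mul_le_mul_of_nonneg_left e2 (norm_nonneg _)
    exact le_of_mul_le_mul_right e3 (G.hpos ha)
  intro a ha b hb' hab
  have ha0 : a ≠ 0 := ha
  have hb0 : b ≠ 0 := hb'
  have hab' : ‖a‖ • X a = ‖b‖ • X b := hab
  have hr : ‖a‖ = ‖b‖ := le_antisymm (key a b ha0 hb0 hab') (key b a hb0 ha0 hab'.symm)
  have hna : ‖a‖ ≠ 0 := norm_ne_zero_iff.2 ha0
  have hX : X a = X b := by
    rw [← hr] at hab'
    exact smul_right_injective _ hna hab'
  have h4 := (hb (‖a‖⁻¹ • a) (‖b‖⁻¹ • b) (nrm_norm ha0) (nrm_norm hb0)).2.2.1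
  rw [G.X_nrm ha0, G.X_nrm hb0, hX, sub_self, norm_zero] at h4
  have h5 : ‖‖a‖⁻¹ • a - ‖b‖⁻¹ • b‖ = 0 := by
    have : 0 ≤ ‖‖a‖⁻¹ • a - ‖b‖⁻¹ • b‖ := norm_nonneg _
    nlinarith
  have h6 : ‖a‖⁻¹ • a = ‖b‖⁻¹ • b := sub_eq_zero.1 (norm_eq_zero.1 h5)
  rw [← hr] at h6
  exact smul_right_injective _ (inv_ne_zero hna) h6

theorem w6_lip (G : Wk K h X) : ∃ C : NNReal, LipschitzOnWith C (fun x : E n => ‖x‖ • X x) {0}ᶜ := by
  obtain ⟨C, hC, hl⟩ := G.lip
  obtain ⟨R, hR⟩ := G.compact.isBounded.exists_norm_le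
  refine ⟨Real.toNNReal (|R| + C), LipschitzOnWith.of_dist_le_mul fun u hu v hv => ?_⟩
  have hu0 : u ≠ 0 := hu
  have hv0 : v ≠ 0 := hv
  have hvn : 0 < ‖v‖ := norm_pos_iff.2 hv0
  rw [dist_eq_norm, dist_eq_norm, Real.coe_toNNReal _ (by positivity)]
  have e : ‖u‖ • X u - ‖v‖ • X v = (‖u‖ - ‖v‖) • X u + ‖v‖ • (X u - X v) := by module
  rw [e]
  refine (norm_add_le _ _).trans ?_
  rw [norm_smul, norm_smul, norm_norm]
  have h1 : ‖X u‖ ≤ |R| := (hR _ (G.mem u hu0)).trans (le_abs_self R)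
  have h2 : ‖X u - X v‖ ≤ C * (‖u - v‖ / ‖v‖) := by
    rw [norm_sub_rev, norm_sub_rev u v]; exact hl v u hv0 hu0
  have h3 : ‖‖u‖ - ‖v‖‖ ≤ ‖u - v‖ := abs_norm_sub_norm_le u v
  calc ‖‖u‖ - ‖v‖‖ * ‖X u‖ + ‖v‖ * ‖X u - X v‖ ≤ ‖u - v‖ * |R| + ‖v‖ * (C * (‖u - v‖ / ‖v‖)) := by gcongr
    _ = (|R| + C) * ‖u - v‖ := by field_simp

theorem w6_sub (G : Wk K h X) :
    (fun x : E n => ‖x‖ • X x) '' (ball 0 1 \ {0}) ⊆ K := by
  rintro _ ⟨u, ⟨hu, hu0⟩, rfl⟩
  have hu0' : u ≠ 0 := hu0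
  have hu1 : ‖u‖ < 1 := by simpa using hu
  have := G.convex (interior_subset G.zero_mem) (G.mem u hu0') (a := 1 - ‖u‖) (b := ‖u‖)
    (by linarith) (norm_nonneg _) (by ring)
  simpa using this

theorem w6_surj (G : Wk K h X) :
    interior K \ {0} ⊆ (fun x : E n => ‖x‖ • X x) '' (ball 0 1 \ {0}) := by
  have hpos : ∀ u, u ≠ 0 → 0 < h u := fun u hu => G.hpos hu
  have hcont := G.conth
  rintro x ⟨hx, hx0⟩
  have hx0' : x ≠ 0 := hx0
  have hnx : 0 < ‖x‖ := norm_pos_iff.2 hx0'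
  have hsn : ∀ v ∈ sphere (0 : E n) 1, v ≠ 0 := by
    rintro v hv rfl
    simp at hv
  obtain ⟨v0, hv0, hmax⟩ := (isCompact_sphere (0 : E n) 1).exists_isMaxOn
    (f := fun v => ⟪x, v⟫ / h v) ⟨‖x‖⁻¹ • x, by
      rw [mem_sphere_zero_iff_norm, norm_smul, norm_inv, norm_norm]; field_simp⟩ (by
      apply ContinuousOn.div (by fun_prop) hcont.continuousOn
      intro v hv
      exact (hpos v (hsn v hv)).ne')
  have hv0' : v0 ≠ 0 := hsn v0 hv0
  have hv1 : ‖v0‖ = 1 := by simpa using hv0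
  set ρ : ℝ := ⟪x, v0⟫ / h v0 with hρ
  have hb : ∀ u : E n, ⟪x, u⟫ ≤ ρ * h u := by
    intro u
    by_cases hu : u = 0
    · subst hu
      have : h 0 = 0 := by
        have := G.homog 0 0 le_rfl
        simpa using this
      rw [this]; simp
    · have hnu : 0 < ‖u‖ := norm_pos_iff.2 hu
      have hm : ‖u‖⁻¹ • u ∈ sphere (0 : E n) 1 := by
        rw [mem_sphere_zero_iff_norm, norm_smul, norm_inv, norm_norm]; field_simp
      have h5 : ⟪x, ‖u‖⁻¹ • u⟫ / h (‖u‖⁻¹ • u) ≤ ρ := hmax hm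
      rw [G.homog _ _ (by positivity), inner_smul_right,
        mul_div_mul_left _ _ (by positivity : (‖u‖⁻¹ : ℝ) ≠ 0), div_le_iff₀ (hpos u hu)] at h5
      exact h5
  have hρ0 : 0 < ρ := by
    have h5 := hb x
    rw [real_inner_self_eq_norm_sq] at h5
    have h6 := hpos x hx0'
    by_contra hneg
    push Not at hneg
    nlinarith [mul_nonneg (neg_nonneg.2 hneg) h6.le, sq_pos_of_pos hnx]
  have heq : ⟪x, v0⟫ = ρ * h v0 := by
    rw [hρ, div_mul_cancel₀ _ (hpos v0 hv0').ne']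
  have hX : X v0 = ρ⁻¹ • x := by
    have hd : HasFDerivAt (fun u => h u - ⟪ρ⁻¹ • x, u⟫) (innerSL ℝ (X v0) - innerSL ℝ (ρ⁻¹ • x)) v0 :=
      (G.grad v0 hv0').sub (innerSL ℝ (ρ⁻¹ • x)).hasFDerivAt
    have hmin : IsLocalMin (fun u => h u - ⟪ρ⁻¹ • x, u⟫) v0 := by
      refine Eventually.of_forall fun u => ?_
      have h7 : h v0 - ⟪ρ⁻¹ • x, v0⟫ = 0 := by
        rw [real_inner_smul_left, heq]
        field_simp
        ring
      have h8 : ⟪ρ⁻¹ • x, u⟫ ≤ h u := by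
        rw [real_inner_smul_left, inv_mul_le_iff₀ hρ0]
        exact hb u
      show h v0 - ⟪ρ⁻¹ • x, v0⟫ ≤ h u - ⟪ρ⁻¹ • x, u⟫
      linarith
    have h9 := hmin.hasFDerivAt_eq_zero hd
    have h10 : innerSL ℝ (X v0) = innerSL ℝ (ρ⁻¹ • x) := sub_eq_zero.1 h9
    have h11 : ∀ w, ⟪X v0, w⟫ = ⟪ρ⁻¹ • x, w⟫ := fun w => by
      have := congrArg (fun f : E n →L[ℝ] ℝ => f w) h10
      simpa [real_inner_smul_left] using this
    exact ext_inner_right ℝ h11
  have hρ1 : ρ < 1 := by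
    have hnh : K ∈ 𝓝 x := mem_interior_iff_mem_nhds.1 hx
    have hcx : Tendsto (fun r : ℝ => (1 + r) • x) (𝓝 0) (𝓝 x) := by
      have : Continuous (fun r : ℝ => (1 + r) • x) := by fun_prop
      simpa using this.tendsto 0
    have hev := hcx.eventually hnh
    have hev2 : ∀ᶠ r : ℝ in 𝓝[>] 0, (1 + r) • x ∈ K := hev.filter_mono nhdsWithin_le_nhds
    obtain ⟨r, hr, hr0⟩ := (hev2.and self_mem_nhdsWithin).exists
    have hr0' : 0 < r := hr0
    have h12 := G.le _ hr v0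
    rw [real_inner_smul_left, heq] at h12
    have h13 := hpos v0 hv0'
    by_contra hge
    push Not at hge
    nlinarith [mul_pos hr0' h13, mul_le_mul_of_nonneg_right hge h13.le,
      mul_nonneg (mul_nonneg hr0'.le hρ0.le) h13.le, mul_pos (mul_pos hr0' hρ0) h13]
  refine ⟨ρ • v0, ⟨?_, ?_⟩, ?_⟩
  · rw [mem_ball_zero_iff, norm_smul, hv1, mul_one, Real.norm_of_nonneg hρ0.le]
    exact hρ1
  · intro hc
    have : ρ • v0 = 0 := hc
    rcases smul_eq_zero.1 this with h | h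
    · exact hρ0.ne' h
    · exact hv0' h
  · show ‖ρ • v0‖ • X (ρ • v0) = x
    rw [G.homogX ρ v0 hρ0 hv0', norm_smul, hv1, mul_one, Real.norm_of_nonneg hρ0.le, hX, smul_smul,
      mul_inv_cancel₀ hρ0.ne', one_smul]

theorem reg_meas (X : E n → E n) : MeasurableSet {u | Reg X u} := by
  have h1 : {u | Reg X u} = {0}ᶜ ∩ {u | DifferentiableAt ℝ X u} := by
    ext u; rfl
  rw [h1]
  exact (measurableSet_singleton 0).compl.inter (measurableSet_of_differentiableAt ℝ X)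

end g6

theorem wG6 {n : ℕ} (hn : 2 ≤ n) {K : Set (E n)} {h : E n → ℝ} {X : E n → E n} (G : Wk K h X)
    (g : E n → ℂ) :
    ∫ x in K, g x = ∫ η in ball (0 : E n) 1, (h η / ‖η‖ * curv X η) • g (‖η‖ • X η) := by
  have : Nonempty (Fin n) := ⟨⟨0, by omega⟩⟩
  have : Nontrivial (E n) := inferInstance
  set A : Set (E n) := ball (0 : E n) 1 ∩ {u | Reg X u} with hA
  have hms : MeasurableSet A := measurableSet_ball.inter (reg_meas X)
  have hch := integral_image_eq_integral_abs_det_fderiv_smul (volume : Measure (E n)) hms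
    (f := fun x : E n => ‖x‖ • X x) (f' := DP X)
    (fun x hx => (w6_deriv (show Reg X x from hx.2)).hasFDerivWithinAt)
    ((w6_inj G).mono fun x hx => (show Reg X x from hx.2).ne) g
  have hnull : (volume : Measure (E n)) ((ball (0 : E n) 1 \ {0}) \ A) = 0 := by
    refine measure_mono_null ?_ (ae_iff.1 (ae_reg (by omega) G))
    rintro u ⟨⟨h1, h2⟩, h3⟩
    exact fun h4 => h3 ⟨h1, h4⟩
  have hnull2 : (volume : Measure (E n)) ((fun x : E n => ‖x‖ • X x) '' ((ball (0 : E n) 1 \ {0}) \ A)) = 0 := by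
    obtain ⟨C, hC⟩ := w6_lip G
    exact lip_null (hC.mono fun x hx => hx.1.2) hnull
  have hAsub : A ⊆ ball 0 1 \ {0} := fun x hx => ⟨hx.1, (show Reg X x from hx.2).ne⟩
  have hae : (fun x : E n => ‖x‖ • X x) '' A =ᵐ[volume] K := by
    refine HasSubset.Subset.eventuallyLE ((image_mono hAsub).trans (w6_sub G)) |>.antisymm ?_
    rw [ae_le_set]
    have hsub : K \ (fun x : E n => ‖x‖ • X x) '' A ⊆ (frontier K ∪ {0}) ∪
        (fun x : E n => ‖x‖ • X x) '' ((ball (0 : E n) 1 \ {0}) \ A) := by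
      rintro x ⟨hxK, hxn⟩
      by_cases hx0 : x = 0
      · left; right; exact hx0
      · by_cases hxi : x ∈ interior K
        · right
          obtain ⟨u, hu, rfl⟩ := w6_surj G ⟨hxi, hx0⟩
          exact ⟨u, ⟨hu, fun h => hxn ⟨u, h, rfl⟩⟩, rfl⟩
        · left; left
          exact ⟨subset_closure hxK, hxi⟩
    refine measure_mono_null hsub ?_
    rw [measure_union_null_iff, measure_union_null_iff]
    exact ⟨⟨G.convex.addHaar_frontier volume, measure_singleton 0⟩, hnull2⟩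
  rw [← setIntegral_congr_set hae, hch]
  have hae2 : A =ᵐ[volume] ball (0 : E n) 1 := by
    have e1 : (ball (0 : E n) 1 \ {0} : Set (E n)) =ᵐ[volume] ball (0 : E n) 1 :=
      diff_null_ae_eq_self (measure_singleton 0)
    refine Filter.EventuallyEq.trans ?_ e1
    refine HasSubset.Subset.eventuallyLE hAsub |>.antisymm ?_
    rw [ae_le_set]; exact hnull
  rw [← setIntegral_congr_set hae2]
  refine setIntegral_congr_fun hms fun u hu => ?_
  have hu0 : Reg X u := hu.2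
  show |(DP X u).det| • g (‖u‖ • X u) = (h u / ‖u‖ * curv X u) • g (‖u‖ • X u)
  rw [w6_detDP G hu0, abs_of_pos]
  have := G.hpos hu0.ne
  have := curv_pos hn G hu0
  have := norm_pos_iff.2 hu0.ne
  positivity

end Pool.Agent.H878R2.Cov
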