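import Mathlib
import Pool.Agent.H878R2.Cov.G6

open MeasureTheory Set Filter Topology Metric
open scoped RealInnerProductSpace Pointwise

namespace Pool.Agent.H878R2.Cov
open Pool.Agent.Helper890.Cov

theorem sph_ne {n : ℕ} (v : sphere (0 : E n) 1) : (v : E n) ≠ 0 := by
  intro h0
  have := norm_eq_of_mem_sphere v
  rw [h0, norm_zero] at this
  exact zero_ne_one this

instance sph_fin (n : ℕ) : IsFiniteMeasure (sph n) := by unfold sph; infer_instance

instance sph_compact (n : ℕ) : CompactSpace (sphere (0 : E n) 1) :=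
  isCompact_iff_compactSpace.mp (isCompact_sphere _ _)

theorem curv_meas_sph {n : ℕ} (X : E n → E n) : Measurable (fun v : sphere (0 : E n) 1 => curv X (v : E n)) :=
  (curv_meas X).comp measurable_subtype_coe

theorem curv_meas_sph_neg {n : ℕ} (X : E n → E n) : Measurable (fun v : sphere (0 : E n) 1 => curv X (-(v : E n))) :=
  (curv_meas X).comp measurable_subtype_coe.neg

/-- a bounded measurable function on the sphere times `curv` is integrable -/
theorem integrable_sph {n : ℕ} {F : Type*} [NormedAddCommGroup F] {f : sphere (0 : E n) 1 → F}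
    (hf : AEStronglyMeasurable f (sph n)) (C : ℝ) (hC : ∀ v, ‖f v‖ ≤ C) : Integrable f (sph n) :=
  Integrable.mono' (integrable_const C) hf (Eventually.of_forall hC)

theorem w7_F {n : ℕ} {K : Set (E n)} {h : E n → ℝ} {X : E n → E n} (hG : Wk K h X)
    (G : E n → ℂ) (v : E n) (hv : ‖v‖ = 1) (r : ℝ) (hr : 0 < r) :
    (h (r • v) / ‖r • v‖ * curv X (r • v)) • G (‖r • v‖ • X (r • v)) =
      (h v * curv X v) • G (r • X v) := by
  have hv0 : v ≠ 0 := by
    intro h0
    rw [h0, norm_zero] at hv
    exact zero_ne_one hv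
  have hn : ‖r • v‖ = r := by rw [norm_smul, hv, mul_one, Real.norm_of_nonneg hr.le]
  rw [hn, hG.homog r v hr.le, curv_smul hG hr hv0, hG.homogX r v hr hv0,
    mul_div_cancel_left₀ _ hr.ne']

theorem w7_int {n : ℕ} (hn : 2 ≤ n) {K : Set (E n)} {h : E n → ℝ} {X : E n → E n} (hG : Wk K h X)
    (G : E n → ℂ) (hGc : Continuous G) :
    Integrable ((ball (0 : E n) 1).indicator
      (fun η => (h η / ‖η‖ * curv X η) • G (‖η‖ • X η))) := by
  obtain ⟨c1, c2, hc1, hc2, -, hcb⟩ := curv_bounds hn hG
  rw [integrable_indicator_iff measurableSet_ball]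
  have hset : (ball (0 : E n) 1 \ {0} : Set (E n)) ⊆ {0}ᶜ := fun x hx => hx.2
  have hsph : (sphere (0 : E n) 1 : Set (E n)) ⊆ {0}ᶜ := by
    intro x hx h0
    rw [Set.mem_singleton_iff] at h0
    rw [mem_sphere_zero_iff_norm, h0, norm_zero] at hx
    exact zero_ne_one hx
  have hmeas : Measurable (fun η : E n => (h η / ‖η‖ * curv X η) • G (‖η‖ • X η)) := by
    refine Measurable.smul ((hG.conth.measurable.div measurable_norm).mul (curv_meas X)) ?_
    exact hGc.measurable.comp (measurable_norm.smul (Xmeas hG))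
  obtain ⟨C1, hC1⟩ := (isCompact_sphere (0 : E n) 1).exists_bound_of_continuousOn
    (f := fun v => h v) (hG.conth.continuousOn)
  obtain ⟨C2, hC2⟩ := ((isCompact_Icc (a := (0 : ℝ)) (b := 1)).prod
    (isCompact_sphere (0 : E n) 1)).exists_bound_of_continuousOn
    (f := fun p : ℝ × E n => G (p.1 • X p.2)) (by
      apply hGc.comp_continuousOn
      apply ContinuousOn.smul continuous_fst.continuousOn
      exact hG.contX.comp continuous_snd.continuousOn (fun p hp => hsph hp.2))
  have hio : IntegrableOn (fun η : E n => (h η / ‖η‖ * curv X η) • G (‖η‖ • X η))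
      (ball (0 : E n) 1 \ {0}) := by
    have hfin : volume (ball (0 : E n) 1 \ {0}) ≠ ⊤ :=
      ne_top_of_le_ne_top measure_ball_lt_top.ne (measure_mono Set.diff_subset)
    refine Integrable.mono' (g := fun _ => (C1 * c2) * C2) (integrableOn_const hfin) ?_ ?_
    · exact hmeas.aestronglyMeasurable
    · rw [ae_restrict_iff' (measurableSet_ball.diff (measurableSet_singleton 0))]
      refine Filter.Eventually.of_forall fun η hη => ?_
      have hη0 : η ≠ 0 := hset hη
      have hpos : 0 < ‖η‖ := norm_pos_iff.mpr hη0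
      have hη1 : ‖η‖ < 1 := mem_ball_zero_iff.mp hη.1
      set v : E n := ‖η‖⁻¹ • η with hvdef
      have hv1 : ‖v‖ = 1 := by
        rw [hvdef, norm_smul, norm_inv, norm_norm, inv_mul_cancel₀ hpos.ne']
      have hv0 : v ≠ 0 := by rw [← norm_pos_iff, hv1]; exact one_pos
      have hηv : η = ‖η‖ • v := by
        rw [hvdef, smul_smul, mul_inv_cancel₀ hpos.ne', one_smul]
      have hF := w7_F hG G v hv1 ‖η‖ hpos
      rw [← hηv] at hF
      rw [hF, norm_smul]
      have hvs : v ∈ sphere (0 : E n) 1 := mem_sphere_zero_iff_norm.mpr hv1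
      have h1 := hC1 v hvs
      have h2 := hC2 (‖η‖, v) ⟨⟨hpos.le, hη1.le⟩, hvs⟩
      have h3 : ‖h v * curv X v‖ ≤ C1 * c2 := by
        rw [norm_mul]
        refine mul_le_mul h1 ?_ (norm_nonneg _) (le_trans (norm_nonneg _) h1)
        rw [Real.norm_of_nonneg (hcb v hv0).1]
        exact (hcb v hv0).2
      exact mul_le_mul h3 h2 (norm_nonneg _) (le_trans (norm_nonneg _) h3)
  apply hio.congr_set_ae
  have hpos : 0 < n := by omega
  haveI : Nontrivial (E n) := by
    refine ⟨EuclideanSpace.single (⟨0, hpos⟩ : Fin n) (1 : ℝ), 0, fun h1 => ?_⟩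
    have h2 := congrArg (fun x : E n => x ⟨0, hpos⟩) h1
    simp at h2
  exact (diff_null_ae_eq_self (measure_singleton (0 : E n))).symm

theorem w7_radial (n : ℕ) (hn : 2 ≤ n)
    (K : Set (E n)) (h : E n → ℝ) (X : E n → E n) (hG : Wk K h X) (g : E n → ℂ)
    (hg : ContDiff ℝ 1 g) :
    ∫ x in K, ((n : ℂ) * g x + fderiv ℝ g x x) =
      ∫ v : sphere (0 : E n) 1, (h v * curv X v) • g (X v) ∂(sph n) := by
  have hgc : Continuous g := hg.continuous
  have hdc : Continuous (fderiv ℝ g) := hg.continuous_fderiv (by norm_num)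
  have hGc : Continuous (fun x => (n : ℂ) * g x + fderiv ℝ g x x) :=
    (continuous_const.mul hgc).add (hdc.clm_apply continuous_id)
  rw [wG6 hn hG (fun x => (n : ℂ) * g x + fderiv ℝ g x x),
    ← integral_indicator measurableSet_ball,
    (JP.stP n hn).2.1 _ (w7_int hn hG _ hGc)]
  apply integral_congr_ae
  refine Filter.Eventually.of_forall fun v => ?_
  beta_reduce
  have hv1 : ‖(v : E n)‖ = 1 := mem_sphere_zero_iff_norm.mp v.2
  have hstep : ∀ r ∈ Ioi (0 : ℝ), ((r ^ (n - 1) : ℝ) : ℂ) *
      (ball (0 : E n) 1).indicator (fun η => (h η / ‖η‖ * curv X η) •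
        ((n : ℂ) * g (‖η‖ • X η) + fderiv ℝ g (‖η‖ • X η) (‖η‖ • X η))) (r • (v : E n)) =
      (Iio (1 : ℝ)).indicator (fun r => (h v * curv X v) • (((r ^ (n - 1) : ℝ) : ℂ) *
        ((n : ℂ) * g (r • X v) + fderiv ℝ g (r • X v) (r • X v)))) r := by
    intro r hr
    have hr0 : 0 < r := hr
    have hnr : ‖r • (v : E n)‖ = r := by
      rw [norm_smul, hv1, mul_one, Real.norm_of_nonneg hr0.le]
    by_cases hr1 : r < 1
    · rw [Set.indicator_of_mem (by rw [mem_ball_zero_iff, hnr]; exact hr1),
        Set.indicator_of_mem (show r ∈ Iio (1 : ℝ) from hr1)]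
      have hF := w7_F hG (fun x => (n : ℂ) * g x + fderiv ℝ g x x) v hv1 r hr0
      beta_reduce at hF
      rw [hF, mul_smul_comm]
    · rw [Set.indicator_of_notMem (by rw [mem_ball_zero_iff, hnr]; exact hr1),
        Set.indicator_of_notMem (show r ∉ Iio (1 : ℝ) from hr1), mul_zero]
  rw [setIntegral_congr_fun measurableSet_Ioi hstep, setIntegral_indicator measurableSet_Iio,
    Ioi_inter_Iio, ← integral_Ioc_eq_integral_Ioo, ← intervalIntegral.integral_of_le zero_le_one,
    intervalIntegral.integral_smul]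
  congr 1
  have hderiv : ∀ r ∈ uIcc (0 : ℝ) 1, HasDerivAt (fun r : ℝ => ((r ^ n : ℝ) : ℂ) * g (r • X v))
      (((r ^ (n - 1) : ℝ) : ℂ) * ((n : ℂ) * g (r • X v) + fderiv ℝ g (r • X v) (r • X v))) r := by
    intro r _
    have h1 : HasDerivAt (fun r : ℝ => ((r ^ n : ℝ) : ℂ)) (((n * r ^ (n - 1) : ℝ)) : ℂ) r :=
      (hasDerivAt_pow n r).ofReal_comp
    have h2 : HasDerivAt (fun r : ℝ => g (r • X v)) (fderiv ℝ g (r • X v) (X v)) r := by
      have h3 : HasDerivAt (fun r : ℝ => r • X (v : E n)) (X v) r := by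
        simpa using (hasDerivAt_id r).smul_const (X (v : E n))
      exact ((hg.differentiable (by norm_num)) (r • X v)).hasFDerivAt.comp_hasDerivAt r h3
    have h4 := h1.mul h2
    refine HasDerivAt.congr_deriv h4 ?_
    symm
    rw [map_smul]
    have h5 : r ^ n = r ^ (n - 1) * r := by
      rw [← pow_succ]
      congr 1
      omega
    rw [h5]
    push_cast
    rw [Complex.real_smul]
    ring
  rw [intervalIntegral.integral_eq_sub_of_hasDerivAt hderiv]
  · simp only [one_pow, one_smul, Complex.ofReal_one, one_mul]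
    rw [zero_pow (by omega)]
    simp
  · apply Continuous.intervalIntegrable
    apply Continuous.mul
    · exact Complex.continuous_ofReal.comp (continuous_pow _)
    · have hc : Continuous (fun r : ℝ => r • X (v : E n)) := continuous_id.smul continuous_const
      exact hGc.comp hc

theorem w7_tr {n : ℕ} {K : Set (E n)} {h : E n → ℝ} {X : E n → E n} (hG : Wk K h X)
    (e : E n) (he : -e ∈ interior K) :
    Wk ((fun x => x + e) '' K) (fun u => h u + ⟪e, u⟫) (fun u => X u + e) := by
  refine ⟨?_, ?_, ?_, ?_, ?_, ?_, ?_, ?_, ?_, ?_, ?_⟩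
  · exact hG.compact.image (continuous_id.add continuous_const)
  · have h0 : (fun x : E n => x + e) '' K = (fun x => e + x) '' K :=
      Set.image_congr (fun x _ => add_comm x e)
    rw [h0]
    exact hG.convex.translate e
  · have h1 : (fun x : E n => x + e) '' interior K ⊆ interior ((fun x => x + e) '' K) :=
      (isOpenMap_add_right e).image_interior_subset K
    exact h1 ⟨-e, he, by simp⟩
  · intro u hu
    have h1 := hG.grad u hu
    have h2 : HasFDerivAt (fun u : E n => (⟪e, u⟫ : ℝ)) (innerSL ℝ e) u :=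
      (innerSL ℝ e).hasFDerivAt
    have h3 := h1.add h2
    exact h3.congr_fderiv (map_add _ _ _).symm
  · intro u hu
    exact ⟨X u, hG.mem u hu, rfl⟩
  · rintro _ ⟨x, hx, rfl⟩ u
    beta_reduce
    rw [inner_add_left]
    have := hG.le x hx u
    linarith
  · intro u hu
    rw [inner_add_left, hG.eq u hu]
  · intro x hx
    refine ⟨x - e, hG.charac _ (fun u => ?_), by simp⟩
    have := hx u
    rw [inner_sub_left]
    linarith
  · intro r u hr
    beta_reduce
    rw [hG.homog r u hr, inner_smul_right]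
    ring
  · intro r u hr hu
    beta_reduce
    rw [hG.homogX r u hr hu]
  · obtain ⟨c, C, hc, hq⟩ := hG.quad
    refine ⟨c, C, hc, fun u v hu hv => ?_⟩
    obtain ⟨q1, q2, q3, q4⟩ := hq u v hu hv
    have e1 : h v + ⟪e, v⟫ - ⟪X u + e, v⟫ = h v - ⟪X u, v⟫ := by rw [inner_add_left]; ring
    have e2 : X u + e - (X v + e) = X u - X v := by abel
    rw [e1, e2]
    exact ⟨q1, q2, q3, q4⟩

theorem wG7 {n : ℕ} (hn : 2 ≤ n) {K : Set (E n)} {h : E n → ℝ} {X : E n → E n} (hG : Wk K h X)
    (g : E n → ℂ) (e : E n) (hg : ContDiff ℝ 1 g) :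
    ∫ x in K, fderiv ℝ g x e = ∫ v : sphere (0 : E n) 1, (⟪(v : E n), e⟫ * curv X v) • g (X v) ∂(sph n) := by
  obtain ⟨c1, c2, hc1, hc2, -, hcb⟩ := curv_bounds hn hG
  have hgc : Continuous g := hg.continuous
  have hdc : Continuous (fderiv ℝ g) := hg.continuous_fderiv (by norm_num)
  -- a small translation
  obtain ⟨ρ, hρ, hρe⟩ : ∃ ρ : ℝ, 0 < ρ ∧ -(ρ • e) ∈ interior K := by
    have hc : Continuous (fun ρ : ℝ => -(ρ • e)) := (continuous_id.smul continuous_const).neg
    have hopen : IsOpen ((fun ρ : ℝ => -(ρ • e)) ⁻¹' interior K) :=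
      isOpen_interior.preimage hc
    have h0 : (0 : ℝ) ∈ (fun ρ : ℝ => -(ρ • e)) ⁻¹' interior K := by
      simpa using hG.zero_mem
    obtain ⟨ε, hε, hball⟩ := Metric.isOpen_iff.mp hopen 0 h0
    refine ⟨ε / 2, by positivity, ?_⟩
    apply hball
    rw [Metric.mem_ball, Real.dist_eq, sub_zero, abs_of_pos (by positivity)]
    linarith
  have hG' := w7_tr hG (ρ • e) hρe
  have hr1 := w7_radial n hn K h X hG g hg
  have hg' : ContDiff ℝ 1 (fun x => g (x - ρ • e)) := hg.comp (contDiff_id.sub contDiff_const)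
  have hr2 := w7_radial n hn _ _ _ hG' (fun x => g (x - ρ • e)) hg'
  have hcurv' : ∀ u, curv (fun u => X u + ρ • e) u = curv X u := by
    intro u
    have hfd : fderiv ℝ (fun u => X u + ρ • e) u = fderiv ℝ X u := fderiv_add_const _
    unfold curv BB
    rw [hfd]
  have hfd2 : ∀ x, fderiv ℝ (fun x => g (x - ρ • e)) x = fderiv ℝ g (x - ρ • e) := by
    intro x
    have h4 : HasFDerivAt (fun x : E n => x - ρ • e) (ContinuousLinearMap.id ℝ (E n)) x :=
      (hasFDerivAt_id x).sub_const _
    have h5 := ((hg.differentiable (by norm_num)) (x - ρ • e)).hasFDerivAt.comp x h4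
    have h6' := h5.fderiv
    rw [ContinuousLinearMap.comp_id] at h6'
    exact h6'
  have hemb : MeasurableEmbedding (fun x : E n => x + ρ • e) :=
    (Homeomorph.addRight (ρ • e)).measurableEmbedding
  have hmp : MeasurePreserving (fun x : E n => x + ρ • e) volume volume :=
    measurePreserving_add_right volume (ρ • e)
  rw [hmp.setIntegral_image_emb hemb] at hr2
  simp only [hfd2, add_sub_cancel_right, hcurv', map_add] at hr2
  have hK : MeasurableSet K := hG.compact.isClosed.measurableSet
  have hi1 : IntegrableOn (fun x => (n : ℂ) * g x + fderiv ℝ g x x) K :=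
    ((continuous_const.mul hgc).add (hdc.clm_apply continuous_id)).continuousOn.integrableOn_compact
      hG.compact
  have hi0 : IntegrableOn (fun x => fderiv ℝ g x e) K :=
    (hdc.clm_apply continuous_const).continuousOn.integrableOn_compact hG.compact
  have hi2 : IntegrableOn (fun x => ρ • fderiv ℝ g x e) K := Integrable.smul ρ hi0
  have hL : ∫ x in K, ((n : ℂ) * g x + (fderiv ℝ g x x + fderiv ℝ g x (ρ • e))) =
      (∫ x in K, ((n : ℂ) * g x + fderiv ℝ g x x)) + ρ • ∫ x in K, fderiv ℝ g x e := by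
    rw [← integral_smul, ← integral_add hi1 hi2]
    apply integral_congr_ae
    refine Filter.Eventually.of_forall fun x => ?_
    simp only [map_smul]
    ring
  -- integrability on the sphere
  have hsc : Continuous (fun v : sphere (0 : E n) 1 => (v : E n)) := continuous_subtype_val
  have hcs := curv_meas_sph X
  have hXs : Continuous (fun v : sphere (0 : E n) 1 => X v) :=
    hG.contX.comp_continuous hsc fun v => sph_ne v
  have hhs : Continuous (fun v : sphere (0 : E n) 1 => h v) := hG.conth.comp hsc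
  have his : Continuous (fun v : sphere (0 : E n) 1 => (⟪(v : E n), e⟫ : ℝ)) :=
    hsc.inner continuous_const
  have hgX : Continuous (fun v : sphere (0 : E n) 1 => g (X v)) := hgc.comp hXs
  have key : ∀ φ : sphere (0 : E n) 1 → ℝ, Continuous φ →
      Integrable (fun v : sphere (0 : E n) 1 => (φ v * curv X v) • g (X v)) (sph n) := by
    intro φ hφ
    obtain ⟨B1, hB1⟩ := isCompact_univ.exists_bound_of_continuousOn (hφ.continuousOn (s := univ))
    obtain ⟨B2, hB2⟩ := isCompact_univ.exists_bound_of_continuousOn (hgX.continuousOn (s := univ))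
    refine integrable_sph ((hφ.measurable.mul hcs).smul hgX.measurable).aestronglyMeasurable
      (B1 * c2 * B2) fun v => ?_
    have b1 := hB1 v (mem_univ v)
    have b2 := hB2 v (mem_univ v)
    have b3 := hcb v (sph_ne v)
    rw [norm_smul, norm_mul, Real.norm_of_nonneg b3.1]
    have b4 : ‖φ v‖ * curv X v ≤ B1 * c2 :=
      mul_le_mul b1 b3.2 b3.1 ((norm_nonneg _).trans b1)
    exact mul_le_mul b4 b2 (norm_nonneg _) ((mul_nonneg (norm_nonneg _) b3.1).trans b4)
  have hj1 : Integrable (fun v : sphere (0 : E n) 1 => (h v * curv X v) • g (X v)) (sph n) :=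
    key _ hhs
  have hj2 : Integrable (fun v : sphere (0 : E n) 1 => (⟪(v : E n), e⟫ * curv X v) • g (X v))
      (sph n) := key _ his
  have hR : ∫ v : sphere (0 : E n) 1, ((h v + ⟪ρ • e, (v : E n)⟫) * curv X v) • g (X v) ∂(sph n) =
      (∫ v : sphere (0 : E n) 1, (h v * curv X v) • g (X v) ∂(sph n)) +
        ρ • ∫ v : sphere (0 : E n) 1, (⟪(v : E n), e⟫ * curv X v) • g (X v) ∂(sph n) := by
    have hj3 : Integrable (fun v : sphere (0 : E n) 1 =>
        ρ • ((⟪(v : E n), e⟫ * curv X v) • g (X v))) (sph n) := hj2.smul ρ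
    rw [← integral_smul, ← integral_add hj1 hj3]
    apply integral_congr_ae
    refine Filter.Eventually.of_forall fun v => ?_
    beta_reduce
    rw [real_inner_smul_left, real_inner_comm, smul_smul, ← add_smul]
    congr 1
    ring
  rw [hL, hR, hr1] at hr2
  have hfin := add_left_cancel hr2
  exact smul_right_injective ℂ hρ.ne' hfin

end Pool.Agent.H878R2.Cov
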