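import Mathlib
import Pool.Agent.H878R2.Cov.G7
import Pool.Agent.Helper890.Cov.JG8a

open MeasureTheory Set Filter Topology Metric
open scoped RealInnerProductSpace Pointwise

namespace Pool.Agent.H878R2.Cov
open Pool.Agent.Helper890.Cov Pool.Agent.Helper890.Cov.JG8a

theorem w8a_low {n : ℕ} {K : Set (E n)} {h : E n → ℝ} {X : E n → E n}
    (hG : Wk K h X) :
    ∃ c : ℝ, 0 < c ∧ ∀ v η : E n, ‖v‖ = 1 → η ≠ 0 →
      c * ‖η - v‖ ^ 2 ≤ ‖X v - X η‖ ^ 2 + (‖η‖ - 1) ^ 2 := by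
  obtain ⟨c1, C, hc1, H⟩ := hG.quad
  refine ⟨min (1 / 2) (c1 ^ 2 / 2), by positivity, fun v η hv hη => ?_⟩
  have hη0 : 0 < ‖η‖ := norm_pos_iff.2 hη
  set u : E n := ‖η‖⁻¹ • η with hu
  have hu1 : ‖u‖ = 1 := by
    rw [hu, norm_smul, norm_inv, norm_norm]
    exact inv_mul_cancel₀ hη0.ne'
  have hu0 : u ≠ 0 := by
    intro h0
    rw [h0, norm_zero] at hu1
    exact zero_ne_one hu1
  have hηu : η = ‖η‖ • u := by
    rw [hu, smul_smul, mul_inv_cancel₀ hη0.ne', one_smul]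
  have hX : X η = X u := by
    conv_lhs => rw [hηu]
    exact hG.homogX _ _ hη0 hu0
  have h2 := (H u v hu1 hv).2.2.1
  have h3 : ‖η - v‖ ≤ |‖η‖ - 1| + ‖u - v‖ := by
    have e : η - v = (‖η‖ - 1) • u + (u - v) := by
      rw [sub_smul, one_smul, ← hηu]
      abel
    rw [e]
    refine (norm_add_le _ _).trans ?_
    rw [norm_smul, hu1, mul_one, Real.norm_eq_abs]
  have h4 : ‖η - v‖ ^ 2 ≤ 2 * (‖η‖ - 1) ^ 2 + 2 * ‖u - v‖ ^ 2 := by
    have h5 : ‖η - v‖ ^ 2 ≤ (|‖η‖ - 1| + ‖u - v‖) ^ 2 :=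
      pow_le_pow_left₀ (norm_nonneg _) h3 2
    have h6 : |‖η‖ - 1| ^ 2 = (‖η‖ - 1) ^ 2 := sq_abs _
    nlinarith [sq_nonneg (|‖η‖ - 1| - ‖u - v‖)]
  have h5 : c1 ^ 2 * ‖u - v‖ ^ 2 ≤ ‖X v - X η‖ ^ 2 := by
    rw [hX, norm_sub_rev (X v), ← mul_pow]
    exact pow_le_pow_left₀ (by positivity) h2 2
  have m1 : min (1 / 2) (c1 ^ 2 / 2) ≤ 1 / 2 := min_le_left _ _
  have m2 : min (1 / 2) (c1 ^ 2 / 2) ≤ c1 ^ 2 / 2 := min_le_right _ _
  have m0 : 0 ≤ min (1 / 2) (c1 ^ 2 / 2) := by positivity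
  have h6 := mul_le_mul_of_nonneg_left h4 m0
  have h7 := mul_le_mul_of_nonneg_right m1 (sq_nonneg (‖η‖ - 1))
  have h8 := mul_le_mul_of_nonneg_right m2 (sq_nonneg ‖u - v‖)
  nlinarith

theorem w8a_meas {n : ℕ} {K : Set (E n)} {h : E n → ℝ} {X : E n → E n} (hG : Wk K h X) (v : E n) (T : ℝ) :
    Measurable (stG8a_F X v T) := by
  unfold stG8a_F
  have h1 := curv_meas X
  have h2 := Xmeas hG
  exact h1.mul (Real.continuous_exp.measurable.comp
    ((((measurable_const.sub h2).norm.pow_const 2).add ((measurable_norm.sub_const 1).pow_const 2)).const_mul _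
      |>.div_const 4 |>.neg))

theorem w8a_Fle {n : ℕ} {X : E n → E n} {c M : ℝ} {v η : E n} (hη : η ≠ 0)
    (hpos : ∀ u : E n, u ≠ 0 → 0 ≤ curv X u) (hM : ∀ η : E n, η ≠ 0 → curv X η ≤ M)
    (hlow : c * ‖η - v‖ ^ 2 ≤ ‖X v - X η‖ ^ 2 + (‖η‖ - 1) ^ 2) (T : ℝ) :
    ‖stG8a_F X v T η‖ ≤ M * Real.exp (-(T ^ 2 * (c * ‖η - v‖ ^ 2) / 4)) := by
  unfold stG8a_F
  rw [Real.norm_of_nonneg (mul_nonneg (hpos η hη) (Real.exp_pos _).le)]
  refine mul_le_mul (hM η hη) (Real.exp_le_exp.2 ?_) (Real.exp_pos _).le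
    ((hpos η hη).trans (hM η hη))
  have := mul_le_mul_of_nonneg_left hlow (sq_nonneg T)
  linarith

theorem w8a_int {n : ℕ} (hn : 2 ≤ n) {K : Set (E n)} {h : E n → ℝ} {X : E n → E n} (hG : Wk K h X)
    (hpos : ∀ u : E n, u ≠ 0 → 0 ≤ curv X u) {c M : ℝ} (hc0 : 0 < c)
    (hM : ∀ η : E n, η ≠ 0 → curv X η ≤ M) {v : E n}
    (hlow : ∀ η : E n, η ≠ 0 → c * ‖η - v‖ ^ 2 ≤ ‖X v - X η‖ ^ 2 + (‖η‖ - 1) ^ 2) {T : ℝ}
    (hT : 0 < T) : Integrable (stG8a_F X v T) := by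
  have hb : 0 < c * T ^ 2 / 4 := by positivity
  have hg := ((stG8a_gaussInt (n := n) hb).comp_sub_right v).const_mul M
  refine hg.mono' (w8a_meas hG v T).aestronglyMeasurable ?_
  filter_upwards [stG8a_aene hn (0 : E n)] with η hη
  refine (w8a_Fle hη hpos hM (hlow η hη) T).trans (le_of_eq ?_)
  congr 2
  ring

theorem w8a_bdd {n : ℕ} (hn : 2 ≤ n) {K : Set (E n)} {h : E n → ℝ} {X : E n → E n} (hG : Wk K h X) :
    ∃ C : ℝ, ∀ v : sphere (0 : E n) 1, ∀ T : ℝ, 1 ≤ T →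
      T ^ ((n : ℝ) - 1) * ∫ v' : sphere (0 : E n) 1, curv X v' *
        Real.exp (-(T ^ 2 * ‖X v - X v'‖ ^ 2 / 4)) ∂(sph n) ≤ C := by
  obtain ⟨c1, M, hc1, hM0, -, hcb⟩ := curv_bounds hn hG
  have hpos : ∀ u : E n, u ≠ 0 → 0 ≤ curv X u := fun u hu => (hcb u hu).1
  have hM : ∀ u : E n, u ≠ 0 → curv X u ≤ M := fun u hu => (hcb u hu).2
  obtain ⟨c, hc0, hlow⟩ := w8a_low hG
  obtain ⟨hA1, hA2⟩ := stG8a_radial n hn
  have hbi : Integrable (fun y : E n => M * Real.exp (-(c / 4) * ‖y‖ ^ 2)) :=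
    (stG8a_gaussInt (by positivity)).const_mul M
  refine ⟨(∫ y : E n, M * Real.exp (-(c / 4) * ‖y‖ ^ 2)) / Real.exp (-(1 / 4)), fun v T hT => ?_⟩
  have hT0 : 0 < T := by linarith
  have hv : ‖(v : E n)‖ = 1 := mem_sphere_zero_iff_norm.1 v.2
  have hlow' : ∀ η : E n, η ≠ 0 → c * ‖η - v‖ ^ 2 ≤ ‖X v - X η‖ ^ 2 + (‖η‖ - 1) ^ 2 :=
    fun η hη => hlow v η hv hη
  have hint := w8a_int hn hG hpos hc0 hM hlow' hT0
  have hmain : T ^ ((n : ℝ) - 1) *
        ∫ v' : sphere (0 : E n) 1, curv X v' * Real.exp (-(T ^ 2 * ‖X v - X v'‖ ^ 2 / 4)) ∂(sph n) =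
      (∫ y : E n, stG8a_F X v T ((v : E n) + T⁻¹ • y)) / (T * ∫ r in Ioi (0 : ℝ),
        r ^ (n - 1) * Real.exp (-(T ^ 2 * (r - 1) ^ 2 / 4))) := by
    have hApos := lt_of_lt_of_le (Real.exp_pos _) (hA1 T hT)
    rw [eq_div_iff hApos.ne', stG8a_sub X v hT0, stG8a_polar hn JP.stP v
      (fun r u hr hu => curv_smul hG hr hu) hG.homogX hint]
    have e1 : T ^ ((n : ℝ) - 1) = T ^ (n - 1) := by
      rw [← Real.rpow_natCast, Nat.cast_sub (by omega)]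
      simp
    have e2 : T ^ n = T ^ (n - 1) * T := by
      rw [← pow_succ]
      congr 1
      omega
    rw [e1, e2]
    ring
  rw [hmain]
  have hI : 0 ≤ ∫ y : E n, M * Real.exp (-(c / 4) * ‖y‖ ^ 2) :=
    integral_nonneg fun y => by positivity
  refine div_le_div₀ hI ?_ (Real.exp_pos _) (hA1 T hT)
  have hFi : Integrable (fun y : E n => stG8a_F X v T (v + T⁻¹ • y)) := by
    have h1 := hint.comp_add_left (v : E n)
    exact (integrable_comp_smul_iff (volume : Measure (E n)) (fun z => stG8a_F X v T (v + z))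
      (inv_ne_zero hT0.ne')).2 h1
  refine integral_mono_ae hFi hbi ?_
  filter_upwards [stG8a_aene hn (-(T • (v : E n)))] with y hy
  have hη : (v : E n) + T⁻¹ • y ≠ 0 := by
    intro h0
    apply hy
    have h1 : T • ((v : E n) + T⁻¹ • y) = 0 := by rw [h0, smul_zero]
    rw [smul_add, smul_smul, mul_inv_cancel₀ hT0.ne', one_smul] at h1
    exact eq_neg_of_add_eq_zero_right h1
  refine (le_abs_self _).trans ((w8a_Fle hη hpos hM (hlow' _ hη) T).trans (le_of_eq ?_))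
  rw [add_sub_cancel_left, norm_smul, norm_inv, Real.norm_of_nonneg hT0.le]
  congr 2
  field_simp

/-- the half space Gaussian moment -/
theorem g8_const {n : ℕ} (hn : 2 ≤ n) {v : E n} (hv : ‖v‖ = 1) :
    ∫ y : E n, max (-⟪y, v⟫) 0 * Real.exp (-(‖y‖ ^ 2 / 4)) = 2 * (4 * Real.pi) ^ (((n : ℝ) - 1) / 2) := by
  obtain ⟨m, rfl⟩ : ∃ m, n = m + 1 := ⟨n - 1, by omega⟩
  obtain ⟨b, hb0⟩ : ∃ b : OrthonormalBasis (Fin (m + 1)) ℝ (E (m + 1)), b 0 = v := by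
    have hon : Orthonormal ℝ (({0} : Set (Fin (m + 1))).domRestrict (fun _ => v)) := by
      constructor
      · intro i; simpa using hv
      · intro i j hij
        exact absurd (Subtype.ext ((i.2 : (i : Fin (m + 1)) = 0).trans (j.2 : (j : Fin (m + 1)) = 0).symm)) hij
    obtain ⟨b, hb⟩ := hon.exists_orthonormalBasis_extension_of_card_eq (by simp)
    exact ⟨b, hb 0 rfl⟩
  have hfm : MeasurePreserving (fun y : E (m + 1) => WithLp.ofLp (b.repr y)) :=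
    (PiLp.volume_preserving_ofLp (Fin (m + 1))).comp b.measurePreserving_repr
  set φ : Fin (m + 1) → ℝ → ℝ := fun i s =>
    if i = 0 then max (-s) 0 * Real.exp (-(1 / 4) * s ^ 2) else Real.exp (-(1 / 4) * s ^ 2) with hφ
  have hφc : ∀ i, Continuous (φ i) := by
    intro i
    by_cases hi : i = 0
    · have : φ i = fun s => max (-s) 0 * Real.exp (-(1 / 4) * s ^ 2) := by
        funext s; simp [hφ, hi]
      rw [this]; fun_prop
    · have : φ i = fun s => Real.exp (-(1 / 4) * s ^ 2) := by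
        funext s; simp [hφ, hi]
      rw [this]; fun_prop
  have e1 : ∀ y : E (m + 1), max (-⟪y, v⟫) 0 * Real.exp (-(‖y‖ ^ 2 / 4)) =
      ∏ i, φ i ((WithLp.ofLp (b.repr y)) i) := by
    intro y
    have hc : ∀ i, (WithLp.ofLp (b.repr y)) i = ⟪b i, y⟫ := fun i => b.repr_apply_apply y i
    rw [Fin.prod_univ_succ]
    have e2 : ‖y‖ ^ 2 = ⟪b 0, y⟫ ^ 2 + ∑ i : Fin m, ⟪b i.succ, y⟫ ^ 2 := by
      rw [← Fin.sum_univ_succ (fun i => ⟪b i, y⟫ ^ 2)]
      exact (b.sum_sq_inner_right y).symm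
    have e3 : ∀ i : Fin m, φ i.succ ((WithLp.ofLp (b.repr y)) i.succ) =
        Real.exp (-(1 / 4) * ⟪b i.succ, y⟫ ^ 2) := by
      intro i
      simp only [hφ, Fin.succ_ne_zero, if_false]
      rw [hc]
    rw [Finset.prod_congr rfl fun i _ => e3 i, ← Real.exp_sum]
    simp only [hφ, if_true]
    rw [hc, mul_assoc, ← Real.exp_add, e2, hb0, real_inner_comm v y, ← Finset.mul_sum]
    congr 2
    ring
  have e4 : ∫ y : E (m + 1), max (-⟪y, v⟫) 0 * Real.exp (-(‖y‖ ^ 2 / 4)) =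
      ∫ x : Fin (m + 1) → ℝ, ∏ i, φ i (x i) := by
    rw [← hfm.map_eq, integral_map hfm.measurable.aemeasurable]
    · exact integral_congr_ae (Eventually.of_forall e1)
    · refine Continuous.aestronglyMeasurable ?_
      exact continuous_finsetProd _ fun i _ => (hφc i).comp (continuous_apply i)
  rw [e4, integral_fintype_prod_volume_eq_prod, Fin.prod_univ_succ]
  have e5 : ∀ i : Fin m, ∫ s, φ i.succ s = Real.sqrt (4 * Real.pi) := by
    intro i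
    have : φ i.succ = fun s => Real.exp (-(1 / 4) * s ^ 2) := by
      funext s; simp [hφ, Fin.succ_ne_zero]
    rw [this, integral_gaussian]
    congr 1
    ring
  rw [Finset.prod_congr rfl fun i _ => e5 i, Finset.prod_const, Finset.card_univ, Fintype.card_fin]
  have e6 : ∫ s, φ 0 s = 2 := by
    have h1 : ∫ s, φ 0 s = ∫ s in Ioi (0:ℝ), s * Real.exp (-(1 / 4) * s ^ 2) := by
      rw [← integral_neg_eq_self (φ 0) volume, ← integral_indicator measurableSet_Ioi]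
      congr 1
      funext s
      simp only [hφ, if_true, neg_neg]
      by_cases hs : s ∈ Ioi (0:ℝ)
      · rw [indicator_of_mem hs, max_eq_left (le_of_lt hs), neg_sq]
      · rw [indicator_of_notMem hs, max_eq_right (not_lt.1 hs), zero_mul]
    rw [h1]
    have h2 := integral_mul_cexp_neg_mul_sq (b := (1 / 4 : ℂ)) (by norm_num)
    have h3 : ∫ r : ℝ in Ioi 0, (r : ℂ) * Complex.exp (-(1 / 4 : ℂ) * (r : ℂ) ^ 2) =
        ((∫ s in Ioi (0:ℝ), s * Real.exp (-(1 / 4) * s ^ 2) : ℝ) : ℂ) := by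
      rw [← integral_complex_ofReal]
      congr 1
      funext s
      push_cast
      rfl
    rw [h3] at h2
    have h4 : ((2 * (1 / 4 : ℂ))⁻¹) = ((2 : ℝ) : ℂ) := by norm_num
    rw [h4] at h2
    exact_mod_cast h2
  rw [e6]
  congr 1
  have e7 : (((m + 1 : ℕ) : ℝ) - 1) / 2 = (1 / 2) * (m : ℝ) := by push_cast; ring
  rw [e7, Real.rpow_mul (by positivity), ← Real.sqrt_eq_rpow, Real.rpow_natCast]

end Pool.Agent.H878R2.Cov
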