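import Mathlib
import Pool.Agent.H878R2.Cov.G8a

open MeasureTheory Set Filter Topology Metric
open scoped RealInnerProductSpace Pointwise

namespace Pool.Agent.H878R2.Cov
open Pool.Agent.Helper890.Cov Pool.Agent.Helper890.Cov.JG8a

theorem g8_gauss_deriv {n : ℕ} (a v : E n) (T : ℝ) :
    ContDiff ℝ 1 (fun x : E n => ((Real.exp (-(T ^ 2 * ‖x - a‖ ^ 2 / 4)) : ℝ) : ℂ)) ∧
    ∀ x, fderiv ℝ (fun x : E n => ((Real.exp (-(T ^ 2 * ‖x - a‖ ^ 2 / 4)) : ℝ) : ℂ)) x v =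
      ((-(T ^ 2 / 2) * ⟪x - a, v⟫ * Real.exp (-(T ^ 2 * ‖x - a‖ ^ 2 / 4)) : ℝ) : ℂ) := by
  constructor
  · refine Complex.ofRealCLM.contDiff.comp (Real.contDiff_exp.comp ?_)
    exact ((contDiff_const.mul ((contDiff_id.sub contDiff_const).norm_sq ℝ)).div_const 4).neg
  · intro x
    have h1 : HasFDerivAt (fun x : E n => x - a) (ContinuousLinearMap.id ℝ (E n)) x :=
      (hasFDerivAt_id x).sub_const a
    have h2 : HasFDerivAt (fun x : E n => ‖x - a‖ ^ 2) (2 • innerSL ℝ (x - a)) x := by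
      have := (hasStrictFDerivAt_norm_sq (x - a)).hasFDerivAt.comp x h1
      rwa [ContinuousLinearMap.comp_id] at this
    have h3 := (h2.const_mul (-(T ^ 2 / 4))).exp
    have h4 := Complex.ofRealCLM.hasFDerivAt.comp x h3
    have e : (fun x : E n => ((Real.exp (-(T ^ 2 * ‖x - a‖ ^ 2 / 4)) : ℝ) : ℂ)) =
        (Complex.ofRealCLM ∘ fun x : E n => Real.exp (-(T ^ 2 / 4) * ‖x - a‖ ^ 2)) := by
      funext x
      simp only [Function.comp_apply, Complex.ofRealCLM_apply]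
      congr 2
      ring
    rw [e, h4.fderiv]
    simp only [ContinuousLinearMap.comp_apply, smul_apply, innerSL_apply_apply, smul_eq_mul,
      Complex.ofRealCLM_apply, nsmul_eq_mul]
    congr 1
    have e2 : -(T ^ 2 / 4) * ‖x - a‖ ^ 2 = -(T ^ 2 * ‖x - a‖ ^ 2 / 4) := by ring
    rw [e2]
    push_cast
    ring

theorem g8_J {n : ℕ} (hn : 2 ≤ n) {K : Set (E n)} {h : E n → ℝ} {X : E n → E n} (hG : Wk K h X)
    {v : E n} (hv : ‖v‖ = 1) {T : ℝ} (hT : 0 < T) :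
    T ^ ((n : ℝ) - 1) * ∫ v' : sphere (0 : E n) 1, ⟪(v' : E n), v⟫ * curv X v' *
        Real.exp (-(T ^ 2 * ‖X v - X v'‖ ^ 2 / 4)) ∂(sph n) =
      1 / 2 * ∫ y : E n, K.indicator (fun _ => (1:ℝ)) (X v + T⁻¹ • y) *
        (max (-⟪y, v⟫) 0 * Real.exp (-(‖y‖ ^ 2 / 4))) := by
  have hv0 : v ≠ 0 := by rw [← norm_pos_iff, hv]; exact one_pos
  obtain ⟨hg1, hg2⟩ := g8_gauss_deriv (X v) v T
  have h7 := wG7 hn hG _ v hg1
  simp only [hg2] at h7
  have e1 : ∫ x in K, ((-(T ^ 2 / 2) * ⟪x - X v, v⟫ * Real.exp (-(T ^ 2 * ‖x - X v‖ ^ 2 / 4)) : ℝ) : ℂ) =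
      ((∫ x in K, (-(T ^ 2 / 2) * ⟪x - X v, v⟫ * Real.exp (-(T ^ 2 * ‖x - X v‖ ^ 2 / 4)) : ℝ) : ℝ) : ℂ) :=
    integral_complex_ofReal
  have e2 : ∫ v' : sphere (0 : E n) 1, (⟪(v' : E n), v⟫ * curv X v') •
      (((Real.exp (-(T ^ 2 * ‖X v' - X v‖ ^ 2 / 4)) : ℝ) : ℂ)) ∂(sph n) =
      ((∫ v' : sphere (0 : E n) 1, ⟪(v' : E n), v⟫ * curv X v' *
        Real.exp (-(T ^ 2 * ‖X v - X v'‖ ^ 2 / 4)) ∂(sph n) : ℝ) : ℂ) := by
    rw [← integral_complex_ofReal]
    congr 1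
    funext v'
    rw [norm_sub_rev (X v') (X v), Complex.real_smul]
    push_cast
    ring
  rw [e1, e2] at h7
  have h8 : ∫ x in K, (-(T ^ 2 / 2) * ⟪x - X v, v⟫ * Real.exp (-(T ^ 2 * ‖x - X v‖ ^ 2 / 4)) : ℝ) =
      ∫ v' : sphere (0 : E n) 1, ⟪(v' : E n), v⟫ * curv X v' *
        Real.exp (-(T ^ 2 * ‖X v - X v'‖ ^ 2 / 4)) ∂(sph n) := by exact_mod_cast h7
  rw [← h8, ← integral_indicator hG.compact.isClosed.measurableSet]
  set F : E n → ℝ := K.indicator fun x => (-(T ^ 2 / 2) * ⟪x - X v, v⟫ * Real.exp (-(T ^ 2 * ‖x - X v‖ ^ 2 / 4)) : ℝ) with hF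
  have s2 := integral_add_left_eq_self (μ := (volume : Measure (E n))) F (X v)
  have s3 := Measure.integral_comp_smul (volume : Measure (E n)) (fun z => F (X v + z)) T⁻¹
  rw [finrank_euclideanSpace_fin, inv_pow, inv_inv, abs_of_pos (pow_pos hT n), smul_eq_mul, s2] at s3
  have e3 : ∫ y : E n, F (X v + T⁻¹ • y) = T / 2 * ∫ y : E n, K.indicator (fun _ => (1:ℝ)) (X v + T⁻¹ • y) *
        (max (-⟪y, v⟫) 0 * Real.exp (-(‖y‖ ^ 2 / 4))) := by
    rw [← integral_const_mul]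
    congr 1
    funext y
    by_cases hy : X v + T⁻¹ • y ∈ K
    · rw [hF, indicator_of_mem hy, indicator_of_mem hy, add_sub_cancel_left, real_inner_smul_left,
        norm_smul, norm_inv, Real.norm_of_nonneg hT.le]
      have h9 := hG.le _ hy v
      rw [inner_add_left, real_inner_smul_left, hG.eq v hv0] at h9
      have h10 : ⟪y, v⟫ ≤ 0 := by
        have : T⁻¹ * ⟪y, v⟫ ≤ 0 := by linarith
        exact nonpos_of_mul_nonpos_right this (inv_pos.2 hT)
      rw [max_eq_left (by linarith)]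
      have e4 : T ^ 2 * (T⁻¹ * ‖y‖) ^ 2 / 4 = ‖y‖ ^ 2 / 4 := by field_simp
      rw [e4]
      field_simp
    · rw [hF, indicator_of_notMem hy, indicator_of_notMem hy, zero_mul, mul_zero]
  rw [e3] at s3
  have e5 : T ^ ((n : ℝ) - 1) = T ^ n / T := by
    rw [Real.rpow_sub hT, Real.rpow_one, Real.rpow_natCast]
  rw [e5]
  have : T ^ n / T * ∫ (x : E n), F x = (T ^ n * ∫ (x : E n), F x) / T := by ring
  rw [this, ← s3]
  field_simp

theorem g8_dom {n : ℕ} : Integrable (fun y : E n => 2 * Real.exp (-(1 / 8) * ‖y‖ ^ 2)) :=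
  (stG8a_gaussInt (by norm_num)).const_mul 2

theorem g8_dom_le {n : ℕ} (v y : E n) (hv : ‖v‖ = 1) :
    max (-⟪y, v⟫) 0 * Real.exp (-(‖y‖ ^ 2 / 4)) ≤ 2 * Real.exp (-(1 / 8) * ‖y‖ ^ 2) := by
  have h1 : max (-⟪y, v⟫) 0 ≤ ‖y‖ := by
    refine max_le ?_ (norm_nonneg _)
    have := abs_real_inner_le_norm y v
    rw [hv, mul_one] at this
    exact (neg_le_abs _).trans this
  have h2 : ‖y‖ ≤ 2 * Real.exp (‖y‖ ^ 2 / 8) := by
    have := Real.add_one_le_exp (‖y‖ ^ 2 / 8)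
    nlinarith [sq_nonneg (‖y‖ - 2)]
  calc max (-⟪y, v⟫) 0 * Real.exp (-(‖y‖ ^ 2 / 4))
      ≤ (2 * Real.exp (‖y‖ ^ 2 / 8)) * Real.exp (-(‖y‖ ^ 2 / 4)) := by
        gcongr; exact h1.trans h2
    _ = 2 * Real.exp (-(1 / 8) * ‖y‖ ^ 2) := by
        rw [mul_assoc, ← Real.exp_add]
        congr 2
        ring

theorem g8_Jlim {n : ℕ} (hn : 2 ≤ n) {K : Set (E n)} {h : E n → ℝ} {X : E n → E n} (hG : Wk K h X)
    {v : E n} (hv : ‖v‖ = 1) :
    Tendsto (fun T : ℝ => T ^ ((n : ℝ) - 1) * ∫ v' : sphere (0 : E n) 1, ⟪(v' : E n), v⟫ * curv X v' *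
        Real.exp (-(T ^ 2 * ‖X v - X v'‖ ^ 2 / 4)) ∂(sph n)) atTop
      (𝓝 ((4 * Real.pi) ^ (((n : ℝ) - 1) / 2))) := by
  have hv0 : v ≠ 0 := by rw [← norm_pos_iff, hv]; exact one_pos
  obtain ⟨c, C, hc, hq⟩ := hG.quad
  have hKm := hG.compact.isClosed.measurableSet
  have hlim : Tendsto (fun T : ℝ => ∫ y : E n, K.indicator (fun _ => (1:ℝ)) (X v + T⁻¹ • y) *
        (max (-⟪y, v⟫) 0 * Real.exp (-(‖y‖ ^ 2 / 4)))) atTop
      (𝓝 (∫ y : E n, (max (-⟪y, v⟫) 0 * Real.exp (-(‖y‖ ^ 2 / 4))))) := by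
    have hind : ∀ z : E n, 0 ≤ K.indicator (fun _ => (1:ℝ)) z ∧ K.indicator (fun _ => (1:ℝ)) z ≤ 1 := by
      intro z
      by_cases hz : z ∈ K
      · rw [indicator_of_mem hz]; exact ⟨zero_le_one, le_rfl⟩
      · rw [indicator_of_notMem hz]; exact ⟨le_rfl, zero_le_one⟩
    apply tendsto_integral_filter_of_dominated_convergence (fun y : E n => 2 * Real.exp (-(1 / 8) * ‖y‖ ^ 2))
    · refine Eventually.of_forall fun T => ?_
      refine Measurable.aestronglyMeasurable ?_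
      refine Measurable.mul ?_ ?_
      · exact (measurable_const.indicator hKm).comp (by fun_prop)
      · exact (by fun_prop : Continuous fun y : E n => max (-⟪y, v⟫) 0 * Real.exp (-(‖y‖ ^ 2 / 4))).measurable
    · refine Eventually.of_forall fun T => ae_of_all _ fun y => ?_
      have h1 : 0 ≤ max (-⟪y, v⟫) 0 * Real.exp (-(‖y‖ ^ 2 / 4)) := by positivity
      rw [Real.norm_of_nonneg (mul_nonneg (hind _).1 h1)]
      calc _ ≤ 1 * (max (-⟪y, v⟫) 0 * Real.exp (-(‖y‖ ^ 2 / 4))) :=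
            mul_le_mul_of_nonneg_right (hind _).2 h1
        _ ≤ _ := by rw [one_mul]; exact g8_dom_le v y hv
    · exact g8_dom
    · refine ae_of_all _ fun y => ?_
      rcases le_or_gt 0 ⟪y, v⟫ with hy | hy
      · have : max (-⟪y, v⟫) 0 = 0 := max_eq_right (by linarith)
        rw [this]
        simp
      · have hyn : 0 < ‖y‖ := by
          rw [norm_pos_iff]; rintro rfl; rw [inner_zero_left] at hy; exact lt_irrefl _ hy
        set s₀ : ℝ := 4 * c * (-⟪y, v⟫) / ‖y‖ ^ 2 with hs₀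
        have hs₀p : 0 < s₀ := by
          have : 0 < -⟪y, v⟫ := by linarith
          positivity
        refine tendsto_const_nhds.congr' ?_
        filter_upwards [eventually_ge_atTop (s₀⁻¹), eventually_gt_atTop (0:ℝ)] with T hT hT0
        have hs : T⁻¹ ≤ s₀ := inv_le_of_inv_le₀ hs₀p hT
        have hsp : 0 < T⁻¹ := inv_pos.2 hT0
        have hmem : X v + T⁻¹ • y ∈ K := by
          apply hG.charac
          have key : ∀ u : E n, ‖u‖ = 1 → ⟪X v + T⁻¹ • y, u⟫ ≤ h u := by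
            intro u hu
            have k1 := (hq v u hv hu).1
            rw [inner_add_left, real_inner_smul_left]
            have k2 : ⟪y, u⟫ ≤ ⟪y, v⟫ + ‖y‖ * ‖v - u‖ := by
              have e : u = v + (u - v) := by abel
              have : ⟪y, u⟫ = ⟪y, v⟫ + ⟪y, u - v⟫ := by rw [inner_sub_right]; ring
              rw [this, norm_sub_rev]
              have := real_inner_le_norm y (u - v)
              linarith
            have k3 : T⁻¹ * ⟪y, u⟫ ≤ T⁻¹ * (⟪y, v⟫ + ‖y‖ * ‖v - u‖) := by gcongr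
            have k4 : T⁻¹ * ‖y‖ ^ 2 ≤ 4 * c * (-⟪y, v⟫) := by
              rw [hs₀, le_div_iff₀ (by positivity)] at hs
              exact hs
            have k5 : 0 ≤ (2 * c * ‖v - u‖ - T⁻¹ * ‖y‖) ^ 2 := sq_nonneg _
            have k6 : 4 * c * (T⁻¹ * ‖y‖ * ‖v - u‖) ≤ 4 * c * (c * ‖v - u‖ ^ 2) + T⁻¹ * (T⁻¹ * ‖y‖ ^ 2) := by
              nlinarith
            have k7 : T⁻¹ * (T⁻¹ * ‖y‖ ^ 2) ≤ T⁻¹ * (4 * c * (-⟪y, v⟫)) := by gcongr
            have k8 : 4 * c * (T⁻¹ * ⟪y, v⟫ + T⁻¹ * ‖y‖ * ‖v - u‖) ≤ 4 * c * (c * ‖v - u‖ ^ 2) := by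
              nlinarith
            have k9 : T⁻¹ * ⟪y, v⟫ + T⁻¹ * ‖y‖ * ‖v - u‖ ≤ c * ‖v - u‖ ^ 2 :=
              le_of_mul_le_mul_left k8 (by positivity)
            nlinarith
          intro u
          by_cases hu0 : u = 0
          · subst hu0
            rw [inner_zero_right]
            have := hG.homog 0 (0 : E n) le_rfl
            rw [zero_smul, zero_mul] at this
            rw [this]
          · have hun : 0 < ‖u‖ := norm_pos_iff.2 hu0
            have h1 := key (‖u‖⁻¹ • u) (nrm_norm hu0)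
            rw [real_inner_smul_right, hG.homog _ _ (by positivity)] at h1
            exact le_of_mul_le_mul_left h1 (by positivity)
        rw [indicator_of_mem hmem, one_mul]
  rw [g8_const hn hv] at hlim
  have h2 := hlim.const_mul (1 / 2)
  have e : 1 / 2 * (2 * (4 * Real.pi) ^ (((n : ℝ) - 1) / 2)) = (4 * Real.pi) ^ (((n : ℝ) - 1) / 2) := by ring
  rw [e] at h2
  refine h2.congr' ?_
  filter_upwards [eventually_gt_atTop (0:ℝ)] with T hT
  exact (g8_J hn hG hv hT).symm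

theorem wG8a {n : ℕ} (hn : 2 ≤ n) {K : Set (E n)} {h : E n → ℝ} {X : E n → E n} (hG : Wk K h X)
    (v : sphere (0 : E n) 1) : Tendsto (fun T : ℝ => T ^ ((n : ℝ) - 1) *
      ∫ v' : sphere (0 : E n) 1, curv X v' * Real.exp (-(T ^ 2 * ‖X v - X v'‖ ^ 2 / 4)) ∂(sph n)) atTop
      (𝓝 ((4 * Real.pi) ^ (((n : ℝ) - 1) / 2))) := by
  have hv : ‖(v : E n)‖ = 1 := norm_eq_of_mem_sphere v
  obtain ⟨c1, M, hc1, hM0, -, hcb⟩ := curv_bounds hn hG
  obtain ⟨c, C, hc, hq⟩ := hG.quad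
  obtain ⟨B, hB⟩ := w8a_bdd hn hG
  have hXs : Continuous (fun v : sphere (0 : E n) 1 => X v) :=
    hG.contX.comp_continuous continuous_subtype_val fun v => sph_ne v
  have hint : ∀ T : ℝ, Integrable (fun v' : sphere (0 : E n) 1 =>
      curv X v' * Real.exp (-(T ^ 2 * ‖X v - X v'‖ ^ 2 / 4))) (sph n) := by
    intro T
    refine integrable_sph ((curv_meas_sph X).mul ?_).aestronglyMeasurable (M * 1) fun v' => ?_
    · have hc1 : Continuous fun v' : sphere (0 : E n) 1 => ‖X v - X v'‖ := (continuous_const.sub hXs).norm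
      exact (Real.continuous_exp.comp ((continuous_const.mul (hc1.pow 2)).div_const 4).neg).measurable
    · rw [norm_mul, Real.norm_of_nonneg (hcb v' (sph_ne v')).1, Real.norm_of_nonneg (Real.exp_pos _).le]
      refine mul_le_mul (hcb v' (sph_ne v')).2 ?_ (Real.exp_pos _).le hM0.le
      rw [Real.exp_le_one_iff]
      have : 0 ≤ T ^ 2 * ‖X v - X v'‖ ^ 2 / 4 := by positivity
      linarith
  have hint2 : ∀ T : ℝ, Integrable (fun v' : sphere (0 : E n) 1 =>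
      ⟪(v' : E n), (v : E n)⟫ * curv X v' * Real.exp (-(T ^ 2 * ‖X v - X v'‖ ^ 2 / 4))) (sph n) := by
    intro T
    have h1 : Measurable fun v' : sphere (0 : E n) 1 => (⟪(v' : E n), (v : E n)⟫ : ℝ) :=
      (by fun_prop : Continuous fun v' : sphere (0 : E n) 1 => (⟪(v' : E n), (v : E n)⟫ : ℝ)).measurable
    have h2 := (hint T).bdd_mul (c := 1) h1.aestronglyMeasurable (ae_of_all _ fun v' => by
      have := abs_real_inner_le_norm (v' : E n) (v : E n)
      rw [hv, norm_eq_of_mem_sphere v', mul_one] at this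
      exact this)
    refine h2.congr (ae_of_all _ fun v' => ?_)
    ring
  -- the difference
  set D : ℝ → ℝ := fun T => T ^ ((n : ℝ) - 1) * ∫ v' : sphere (0 : E n) 1, (1 - ⟪(v' : E n), (v : E n)⟫) *
    (curv X v' * Real.exp (-(T ^ 2 * ‖X v - X v'‖ ^ 2 / 4))) ∂(sph n) with hD
  have hint3 : ∀ T : ℝ, Integrable (fun v' : sphere (0 : E n) 1 => (1 - ⟪(v' : E n), (v : E n)⟫) *
    (curv X v' * Real.exp (-(T ^ 2 * ‖X v - X v'‖ ^ 2 / 4)))) (sph n) := by
    intro T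
    refine ((hint T).sub (hint2 T)).congr (ae_of_all _ fun v' => ?_)
    simp only [Pi.sub_apply]
    ring
  have hdec : ∀ T : ℝ, T ^ ((n : ℝ) - 1) *
      ∫ v' : sphere (0 : E n) 1, curv X v' * Real.exp (-(T ^ 2 * ‖X v - X v'‖ ^ 2 / 4)) ∂(sph n) =
      T ^ ((n : ℝ) - 1) * (∫ v' : sphere (0 : E n) 1, ⟪(v' : E n), (v : E n)⟫ * curv X v' *
        Real.exp (-(T ^ 2 * ‖X v - X v'‖ ^ 2 / 4)) ∂(sph n)) + D T := by
    intro T
    rw [hD, ← mul_add, ← integral_add (hint2 T) (hint3 T)]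
    congr 1
    refine integral_congr_ae (ae_of_all _ fun v' => ?_)
    simp only
    ring
  have hone : ∀ v' : sphere (0 : E n) 1, 1 - ⟪(v' : E n), (v : E n)⟫ = ‖(v : E n) - v'‖ ^ 2 / 2 := by
    intro v'
    rw [norm_sub_sq_real, hv, norm_eq_of_mem_sphere v', real_inner_comm]
    ring
  have hD0 : ∀ T : ℝ, 0 < T → 0 ≤ D T := by
    intro T hT
    refine mul_nonneg (Real.rpow_nonneg hT.le _) (integral_nonneg fun v' => ?_)
    simp only [Pi.zero_apply]
    rw [hone v']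
    exact mul_nonneg (by positivity) (mul_nonneg (hcb v' (sph_ne v')).1 (Real.exp_pos _).le)
  have hs2 : (1:ℝ) ≤ Real.sqrt 2 := by
    rw [Real.one_le_sqrt]; norm_num
  have hs2p : (0:ℝ) < Real.sqrt 2 := by positivity
  have hDle : ∀ T : ℝ, Real.sqrt 2 ≤ T → D T ≤ 4 / (c ^ 2 * T ^ 2) * (Real.sqrt 2 ^ ((n : ℝ) - 1) * B) := by
    intro T hT
    have hT0 : 0 < T := by linarith
    set T' : ℝ := T / Real.sqrt 2 with hT'
    have hT'1 : 1 ≤ T' := by rw [hT', le_div_iff₀ hs2p]; linarith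
    have hT'p : 0 < T' := by linarith
    have hTT' : T = Real.sqrt 2 * T' := by rw [hT']; field_simp
    have hT'2 : T' ^ 2 = T ^ 2 / 2 := by
      rw [hT', div_pow, Real.sq_sqrt (by norm_num)]
    have h1 : D T ≤ T ^ ((n : ℝ) - 1) * ∫ v' : sphere (0 : E n) 1, 4 / (c ^ 2 * T ^ 2) *
        (curv X v' * Real.exp (-(T' ^ 2 * ‖X v - X v'‖ ^ 2 / 4))) ∂(sph n) := by
      refine mul_le_mul_of_nonneg_left ?_ (Real.rpow_nonneg hT0.le _)
      refine integral_mono (hint3 T) ((hint T').const_mul _) fun v' => ?_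
      simp only
      rw [hone v']
      have hl := (hq (v : E n) v' hv (norm_eq_of_mem_sphere v')).2.2.1
      have hl2 : c ^ 2 * ‖(v : E n) - v'‖ ^ 2 ≤ ‖X v - X v'‖ ^ 2 := by
        rw [← mul_pow]; exact pow_le_pow_left₀ (by positivity) hl 2
      set d := ‖X v - X v'‖ ^ 2 with hd
      have hd0 : 0 ≤ d := by positivity
      have hexp : T ^ 2 * d * Real.exp (-(T ^ 2 * d / 4)) ≤ 8 * Real.exp (-(T' ^ 2 * d / 4)) := by
        rw [hT'2]
        have k1 := Real.add_one_le_exp (T ^ 2 * d / 8)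
        have k2 : T ^ 2 * d ≤ 8 * Real.exp (T ^ 2 * d / 8) := by linarith
        calc T ^ 2 * d * Real.exp (-(T ^ 2 * d / 4)) ≤
              8 * Real.exp (T ^ 2 * d / 8) * Real.exp (-(T ^ 2 * d / 4)) := by gcongr
          _ = 8 * Real.exp (-(T ^ 2 / 2 * d / 4)) := by
              rw [mul_assoc, ← Real.exp_add]
              congr 2
              ring
      have hcv := (hcb v' (sph_ne v')).1
      have k3 : ‖(v : E n) - v'‖ ^ 2 / 2 ≤ d / (2 * c ^ 2) := by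
        rw [div_le_div_iff₀ (by norm_num) (by positivity)]
        linarith
      calc ‖(v : E n) - v'‖ ^ 2 / 2 * (curv X v' * Real.exp (-(T ^ 2 * d / 4)))
          ≤ d / (2 * c ^ 2) * (curv X v' * Real.exp (-(T ^ 2 * d / 4))) :=
            mul_le_mul_of_nonneg_right k3 (mul_nonneg hcv (Real.exp_pos _).le)
        _ = curv X v' / (2 * c ^ 2 * T ^ 2) * (T ^ 2 * d * Real.exp (-(T ^ 2 * d / 4))) := by
            field_simp
        _ ≤ curv X v' / (2 * c ^ 2 * T ^ 2) * (8 * Real.exp (-(T' ^ 2 * d / 4))) := by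
            gcongr
        _ = 4 / (c ^ 2 * T ^ 2) * (curv X v' * Real.exp (-(T' ^ 2 * d / 4))) := by
            field_simp
            ring
    refine h1.trans ?_
    rw [integral_const_mul]
    have e1 : T ^ ((n : ℝ) - 1) = Real.sqrt 2 ^ ((n : ℝ) - 1) * T' ^ ((n : ℝ) - 1) := by
      rw [hTT', Real.mul_rpow hs2p.le hT'p.le]
    rw [e1]
    have h2 := hB v T' hT'1
    have e2 : Real.sqrt 2 ^ ((n : ℝ) - 1) * T' ^ ((n : ℝ) - 1) * (4 / (c ^ 2 * T ^ 2) *
        ∫ v' : sphere (0 : E n) 1, curv X v' * Real.exp (-(T' ^ 2 * ‖X v - X v'‖ ^ 2 / 4)) ∂(sph n)) =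
        4 / (c ^ 2 * T ^ 2) * (Real.sqrt 2 ^ ((n : ℝ) - 1) * (T' ^ ((n : ℝ) - 1) *
        ∫ v' : sphere (0 : E n) 1, curv X v' * Real.exp (-(T' ^ 2 * ‖X v - X v'‖ ^ 2 / 4)) ∂(sph n))) := by
      ring
    rw [e2]
    gcongr
  have hDlim : Tendsto D atTop (𝓝 0) := by
    have h3 : Tendsto (fun T : ℝ => 4 / (c ^ 2 * T ^ 2) * (Real.sqrt 2 ^ ((n : ℝ) - 1) * B)) atTop (𝓝 0) := by
      have h4 : Tendsto (fun T : ℝ => c ^ 2 * T ^ 2) atTop atTop :=
        (tendsto_pow_atTop (by norm_num)).const_mul_atTop (by positivity)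
      have h5 := (h4.const_div_atTop 4).mul_const (Real.sqrt 2 ^ ((n : ℝ) - 1) * B)
      rwa [zero_mul] at h5
    refine tendsto_of_tendsto_of_tendsto_of_le_of_le' tendsto_const_nhds h3 ?_ ?_
    · filter_upwards [eventually_gt_atTop (0:ℝ)] with T hT
      exact hD0 T hT
    · filter_upwards [eventually_ge_atTop (Real.sqrt 2)] with T hT
      exact hDle T hT
  have := (g8_Jlim hn hG hv).add hDlim
  rw [add_zero] at this
  exact this.congr fun T => (hdec T).symm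

end Pool.Agent.H878R2.Cov
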