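import Mathlib
import Pool.Agent.H878R2.Cov.G8b
import Pool.Agent.Helper890.Cov.JG8

open MeasureTheory Set Filter Topology Metric
open scoped RealInnerProductSpace Pointwise

namespace Pool.Agent.H878R2.Cov
open Pool.Agent.Helper890.Cov Pool.Agent.Helper890.Cov.JG8

theorem w8_int1 {S : Type} [MeasurableSpace S] (σ : Measure S) [IsFiniteMeasure σ]
    (f : S → ℝ) (hf : Measurable f) (M : ℝ) (hfM : ∀ v, |f v| ≤ M) : Integrable f σ :=
  Integrable.mono' (integrable_const M) hf.aestronglyMeasurable (Eventually.of_forall hfM)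

theorem w8_int2R {S : Type} [TopologicalSpace S] [CompactSpace S] [MeasurableSpace S]
    [BorelSpace S] [SecondCountableTopology S] (σ : Measure S) [IsFiniteMeasure σ]
    (f : S → ℝ) (hf : Measurable f) (M : ℝ) (hfM : ∀ v, |f v| ≤ M) (φ : S × S → ℝ) (hφ : Continuous φ) :
    Integrable (fun p : S × S => f p.1 * f p.2 * φ p) (σ.prod σ) := by
  have h1 : Integrable (fun p : S × S => f p.1 * f p.2) (σ.prod σ) :=
    (w8_int1 σ f hf M hfM).mul_prod (w8_int1 σ f hf M hfM)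
  obtain ⟨C, hC⟩ := isCompact_univ.exists_bound_of_continuousOn (hφ.continuousOn (s := univ))
  have h2 := h1.bdd_mul (c := C) hφ.aestronglyMeasurable (ae_of_all _ fun p => hC p (mem_univ p))
  refine h2.congr (ae_of_all _ fun p => ?_)
  ring

theorem w8_int2 {S : Type} [TopologicalSpace S] [CompactSpace S] [MeasurableSpace S]
    [BorelSpace S] [SecondCountableTopology S] (σ : Measure S) [IsFiniteMeasure σ]
    (f : S → ℝ) (hf : Measurable f) (M : ℝ) (hfM : ∀ v, |f v| ≤ M) (φ : S × S → ℂ) (hφ : Continuous φ) :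
    Integrable (fun p : S × S => ((f p.1 * f p.2 : ℝ) : ℂ) * φ p) (σ.prod σ) := by
  have h1 : Integrable (fun p : S × S => ((f p.1 * f p.2 : ℝ) : ℂ)) (σ.prod σ) :=
    ((w8_int1 σ f hf M hfM).mul_prod (w8_int1 σ f hf M hfM)).ofReal
  obtain ⟨C, hC⟩ := isCompact_univ.exists_bound_of_continuousOn (hφ.continuousOn (s := univ))
  have h2 := h1.bdd_mul (c := C) hφ.aestronglyMeasurable (ae_of_all _ fun p => hC p (mem_univ p))
  refine h2.congr (ae_of_all _ fun p => ?_)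
  ring

theorem w8_B {S : Type} [TopologicalSpace S] [CompactSpace S] [MeasurableSpace S]
    [BorelSpace S] [SecondCountableTopology S] {n : ℕ} (σ : Measure S) [IsFiniteMeasure σ]
    (V Y : S → E n) (f : S → ℝ) (hV : Continuous V) (hY : Continuous Y) (hf : Measurable f) (M : ℝ) (hfM : ∀ v, |f v| ≤ M)
    (Φ : E n → ℂ)
    (hΦ : ∀ ξ e : E n, Complex.I * ((⟪ξ, e⟫ : ℝ) : ℂ) * Φ ξ =
      ∫ v, (⟪V v, e⟫ * f v) • Complex.exp (Complex.I * ((⟪ξ, Y v⟫ : ℝ) : ℂ)) ∂σ) (ξ : E n) :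
    ((‖ξ‖ ^ 2 * ‖Φ ξ‖ ^ 2 : ℝ) : ℂ) = ∫ p : S × S, ((⟪V p.1, V p.2⟫ * f p.1 * f p.2 : ℝ) : ℂ) *
      Complex.exp (Complex.I * ((⟪Y p.1 - Y p.2, ξ⟫ : ℝ) : ℂ)) ∂(σ.prod σ) := by
  have hj : ∀ j : Fin n, ((((ξ j) ^ 2 * ‖Φ ξ‖ ^ 2 : ℝ)) : ℂ) =
      ∫ p : S × S, ((V p.1 j * V p.2 j * (f p.1 * f p.2) : ℝ) : ℂ) *
      Complex.exp (Complex.I * ((⟪Y p.1 - Y p.2, ξ⟫ : ℝ) : ℂ)) ∂(σ.prod σ) := by
    intro j
    have h1 := hΦ ξ (EuclideanSpace.single j 1)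
    have hin : ∀ x : E n, ⟪x, (EuclideanSpace.single j (1 : ℝ) : E n)⟫ = x j := by
      intro x
      rw [EuclideanSpace.inner_single_right]
      simp
    rw [hin] at h1
    simp only [hin] at h1
    obtain ⟨J, hJ⟩ : ∃ J : ℂ, J = ∫ v, (V v j * f v) •
      Complex.exp (Complex.I * ((⟪ξ, Y v⟫ : ℝ) : ℂ)) ∂σ := ⟨_, rfl⟩
    rw [← hJ] at h1
    have h2 : ((((ξ j) ^ 2 * ‖Φ ξ‖ ^ 2 : ℝ)) : ℂ) = J * (starRingEnd ℂ) J := by
      rw [← h1, map_mul, map_mul, Complex.conj_I, Complex.conj_ofReal]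
      have h3 : Φ ξ * (starRingEnd ℂ) (Φ ξ) = ((‖Φ ξ‖ ^ 2 : ℝ) : ℂ) := by
        rw [Complex.mul_conj, Complex.normSq_eq_norm_sq]
      push_cast at h3 ⊢
      linear_combination (-((ξ j : ℂ) ^ 2)) * h3 +
        ((ξ j : ℂ) ^ 2 * (Φ ξ * (starRingEnd ℂ) (Φ ξ))) * Complex.I_mul_I
    have h3 : (starRingEnd ℂ) J = ∫ v, (V v j * f v) •
      Complex.exp (-(Complex.I * ((⟪ξ, Y v⟫ : ℝ) : ℂ))) ∂σ := by
      rw [hJ, ← integral_conj]
      refine integral_congr_ae (Eventually.of_forall fun v => ?_)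
      simp only [Complex.real_smul, map_mul, Complex.conj_ofReal, ← Complex.exp_conj,
        Complex.conj_I, neg_mul]
    rw [h2, h3, hJ, ← integral_prod_mul]
    refine integral_congr_ae (Eventually.of_forall fun p => ?_)
    simp only [Complex.real_smul]
    have h4 : Complex.exp (Complex.I * ((⟪Y p.1 - Y p.2, ξ⟫ : ℝ) : ℂ)) =
        Complex.exp (Complex.I * ((⟪ξ, Y p.1⟫ : ℝ) : ℂ)) *
          Complex.exp (-(Complex.I * ((⟪ξ, Y p.2⟫ : ℝ) : ℂ))) := by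
      rw [← Complex.exp_add, real_inner_comm, inner_sub_right]
      congr 1
      push_cast
      ring
    rw [h4]
    push_cast
    ring
  have hs : ((‖ξ‖ ^ 2 * ‖Φ ξ‖ ^ 2 : ℝ) : ℂ) = ∑ j : Fin n, ((((ξ j) ^ 2 * ‖Φ ξ‖ ^ 2 : ℝ)) : ℂ) := by
    rw [EuclideanSpace.real_norm_sq_eq, Finset.sum_mul]
    push_cast
    rfl
  rw [hs, Finset.sum_congr rfl (fun j _ => hj j), ← integral_finsetSum]
  · refine integral_congr_ae (Eventually.of_forall fun p => ?_)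
    simp only
    rw [← Finset.sum_mul]
    congr 1
    rw [j25770_inner, Finset.sum_mul, Finset.sum_mul]
    push_cast
    refine Finset.sum_congr rfl fun j _ => ?_
    ring
  · intro j _
    refine (w8_int2 σ f hf M hfM (fun p : S × S => ((V p.1 j * V p.2 j : ℝ) : ℂ) *
      Complex.exp (Complex.I * ((⟪Y p.1 - Y p.2, ξ⟫ : ℝ) : ℂ))) (by fun_prop)).congr
      (Eventually.of_forall fun p => ?_)
    simp only
    push_cast
    ring

theorem w8_C {S : Type} [TopologicalSpace S] [CompactSpace S] [MeasurableSpace S]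
    [BorelSpace S] [SecondCountableTopology S] {n : ℕ} (σ : Measure S) [IsFiniteMeasure σ]
    (V Y : S → E n) (f : S → ℝ) (hV : Continuous V) (hY : Continuous Y) (hf : Measurable f) (M : ℝ) (hfM : ∀ v, |f v| ≤ M)
    (Φ : E n → ℂ)
    (hΦ : ∀ ξ e : E n, Complex.I * ((⟪ξ, e⟫ : ℝ) : ℂ) * Φ ξ =
      ∫ v, (⟪V v, e⟫ * f v) • Complex.exp (Complex.I * ((⟪ξ, Y v⟫ : ℝ) : ℂ)) ∂σ) (T : ℝ)
    (hT : 0 < T) :
    ∫ ξ : E n, Real.exp (-(‖ξ‖ ^ 2 / T ^ 2)) * (‖ξ‖ ^ 2 * ‖Φ ξ‖ ^ 2) =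
      ∫ p : S × S, (⟪V p.1, V p.2⟫ * f p.1 * f p.2) * ((Real.pi * T ^ 2) ^ ((n : ℝ) / 2) *
        Real.exp (-(T ^ 2 * ‖Y p.1 - Y p.2‖ ^ 2 / 4))) ∂(σ.prod σ) := by
  apply Complex.ofReal_injective
  rw [← integral_complex_ofReal, ← integral_complex_ofReal]
  have h1 : ∀ ξ : E n, ((Real.exp (-(‖ξ‖ ^ 2 / T ^ 2)) * (‖ξ‖ ^ 2 * ‖Φ ξ‖ ^ 2) : ℝ) : ℂ) =
      ∫ p : S × S, ((Real.exp (-(‖ξ‖ ^ 2 / T ^ 2)) : ℝ) : ℂ) *
        (((⟪V p.1, V p.2⟫ * f p.1 * f p.2 : ℝ) : ℂ) *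
        Complex.exp (Complex.I * ((⟪Y p.1 - Y p.2, ξ⟫ : ℝ) : ℂ))) ∂(σ.prod σ) := by
    intro ξ
    rw [integral_const_mul, ← w8_B σ V Y f hV hY hf M hfM Φ hΦ ξ]
    push_cast
    rfl
  simp only [h1]
  have hint : Integrable (Function.uncurry fun (ξ : E n) (p : S × S) =>
      ((Real.exp (-(‖ξ‖ ^ 2 / T ^ 2)) : ℝ) : ℂ) *
        (((⟪V p.1, V p.2⟫ * f p.1 * f p.2 : ℝ) : ℂ) *
        Complex.exp (Complex.I * ((⟪Y p.1 - Y p.2, ξ⟫ : ℝ) : ℂ)))) (volume.prod (σ.prod σ)) := by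
    have hb : 0 < ((((T ^ 2)⁻¹ : ℝ)) : ℂ).re := by rw [Complex.ofReal_re]; positivity
    have i1 : Integrable (fun ξ : E n => ((Real.exp (-(‖ξ‖ ^ 2 / T ^ 2)) : ℝ) : ℂ)) := by
      have i2 := GaussianFourier.integrable_cexp_neg_mul_sq_norm_add (V := E n) hb 0 0
      refine i2.congr (Eventually.of_forall fun ξ => ?_)
      simp only
      rw [Complex.ofReal_exp]
      congr 1
      push_cast
      ring
    have i3 : Integrable (fun p : S × S => ((⟪V p.1, V p.2⟫ * f p.1 * f p.2 : ℝ) : ℂ))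
        (σ.prod σ) := by
      refine (w8_int2 σ f hf M hfM (fun p : S × S => ((⟪V p.1, V p.2⟫ : ℝ) : ℂ)) (by fun_prop)).congr
        (Eventually.of_forall fun p => ?_)
      simp only
      push_cast
      ring
    have i4 := i1.mul_prod i3
    refine i4.mono ?_ (Eventually.of_forall fun z => ?_)
    · refine Measurable.aestronglyMeasurable ?_
      unfold Function.uncurry
      have m1 : Measurable fun a : E n × (S × S) => f a.2.1 := hf.comp (measurable_fst.comp measurable_snd)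
      have m2 : Measurable fun a : E n × (S × S) => f a.2.2 := hf.comp (measurable_snd.comp measurable_snd)
      have c1 : Continuous fun a : E n × (S × S) => ((Real.exp (-(‖a.1‖ ^ 2 / T ^ 2)) : ℝ) : ℂ) := by fun_prop
      have c2 : Continuous fun a : E n × (S × S) => (⟪V a.2.1, V a.2.2⟫ : ℝ) := by fun_prop
      have c3 : Continuous fun a : E n × (S × S) =>
        Complex.exp (Complex.I * ((⟪Y a.2.1 - Y a.2.2, a.1⟫ : ℝ) : ℂ)) := by fun_prop
      exact c1.measurable.mul ((Complex.measurable_ofReal.comp ((c2.measurable.mul m1).mul m2)).mul c3.measurable)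
    · simp only [Function.uncurry]
      rw [norm_mul, norm_mul, norm_mul]
      have h5 : ‖Complex.exp (Complex.I * ((⟪Y z.2.1 - Y z.2.2, z.1⟫ : ℝ) : ℂ))‖ = 1 := by
        rw [mul_comm, Complex.norm_exp_ofReal_mul_I]
      rw [h5, mul_one]
  rw [integral_integral_swap hint]
  refine integral_congr_ae (Eventually.of_forall fun p => ?_)
  simp only
  have h6 : (fun ξ : E n => ((Real.exp (-(‖ξ‖ ^ 2 / T ^ 2)) : ℝ) : ℂ) *
        (((⟪V p.1, V p.2⟫ * f p.1 * f p.2 : ℝ) : ℂ) *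
        Complex.exp (Complex.I * ((⟪Y p.1 - Y p.2, ξ⟫ : ℝ) : ℂ)))) = fun ξ : E n =>
      ((⟪V p.1, V p.2⟫ * f p.1 * f p.2 : ℝ) : ℂ) * (((Real.exp (-(‖ξ‖ ^ 2 / T ^ 2)) : ℝ) : ℂ) *
        Complex.exp (Complex.I * ((⟪Y p.1 - Y p.2, ξ⟫ : ℝ) : ℂ))) := by
    funext ξ; ring
  rw [h6, integral_const_mul, j25770_gauss T hT]
  push_cast
  rfl

theorem w8_cont {S : Type} [TopologicalSpace S] [CompactSpace S] [MeasurableSpace S]
    [BorelSpace S] [SecondCountableTopology S] {n : ℕ} (σ : Measure S) [IsFiniteMeasure σ]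
    (Y : S → E n) (f : S → ℝ) (hY : Continuous Y) (hf : Measurable f) (T : ℝ) :
    AEStronglyMeasurable (fun v => ∫ v', f v' * Real.exp (-(T ^ 2 * ‖Y v - Y v'‖ ^ 2 / 4)) ∂σ) σ := by
  have h1 : StronglyMeasurable (fun p : S × S =>
      f p.2 * Real.exp (-(T ^ 2 * ‖Y p.1 - Y p.2‖ ^ 2 / 4))) := by
    refine Measurable.stronglyMeasurable ?_
    exact (hf.comp measurable_snd).mul
      (by fun_prop : Continuous fun p : S × S => Real.exp (-(T ^ 2 * ‖Y p.1 - Y p.2‖ ^ 2 / 4))).measurable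
  exact h1.integral_prod_right'.aestronglyMeasurable

theorem w8_D {S : Type} [TopologicalSpace S] [CompactSpace S] [MeasurableSpace S]
    [BorelSpace S] [SecondCountableTopology S] {n : ℕ} (σ : Measure S) [IsFiniteMeasure σ]
    (V Y : S → E n) (f : S → ℝ) (hV : Continuous V) (hY : Continuous Y) (hf : Measurable f) (M : ℝ) (hfM : ∀ v, |f v| ≤ M)
    (hVn : ∀ v, ‖V v‖ = 1) (hf0 : ∀ v, 0 ≤ f v) (T : ℝ) (hT : 0 < T) :
    T⁻¹ * ∫ p : S × S, (⟪V p.1, V p.2⟫ * f p.1 * f p.2) * ((Real.pi * T ^ 2) ^ ((n : ℝ) / 2) *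
        Real.exp (-(T ^ 2 * ‖Y p.1 - Y p.2‖ ^ 2 / 4))) ∂(σ.prod σ) ≤
      Real.pi ^ ((n : ℝ) / 2) * ∫ v, f v * (T ^ ((n : ℝ) - 1) *
        ∫ v', f v' * Real.exp (-(T ^ 2 * ‖Y v - Y v'‖ ^ 2 / 4)) ∂σ) ∂σ := by
  obtain ⟨c, hc⟩ : ∃ c : ℝ, c = (Real.pi * T ^ 2) ^ ((n : ℝ) / 2) := ⟨_, rfl⟩
  have hc0 : 0 ≤ c := by rw [hc]; positivity
  rw [← hc]
  have h1 : ∫ p : S × S, (⟪V p.1, V p.2⟫ * f p.1 * f p.2) * (c *
        Real.exp (-(T ^ 2 * ‖Y p.1 - Y p.2‖ ^ 2 / 4))) ∂(σ.prod σ) ≤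
      ∫ p : S × S, c * (f p.1 * (f p.2 * Real.exp (-(T ^ 2 * ‖Y p.1 - Y p.2‖ ^ 2 / 4))))
        ∂(σ.prod σ) := by
    apply integral_mono
    · refine (w8_int2R σ f hf M hfM (fun p : S × S => ⟪V p.1, V p.2⟫ *
        (c * Real.exp (-(T ^ 2 * ‖Y p.1 - Y p.2‖ ^ 2 / 4)))) (by fun_prop)).congr
        (Eventually.of_forall fun p => ?_)
      simp only
      ring
    · refine (w8_int2R σ f hf M hfM (fun p : S × S =>
        (c * Real.exp (-(T ^ 2 * ‖Y p.1 - Y p.2‖ ^ 2 / 4)))) (by fun_prop)).congr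
        (Eventually.of_forall fun p => ?_)
      simp only
      ring
    · intro p
      simp only
      have h2 : ⟪V p.1, V p.2⟫ ≤ 1 := by
        have := real_inner_le_norm (V p.1) (V p.2)
        rw [hVn, hVn] at this
        linarith
      have h3 : 0 ≤ c * (f p.1 * (f p.2 * Real.exp (-(T ^ 2 * ‖Y p.1 - Y p.2‖ ^ 2 / 4)))) :=
        mul_nonneg hc0 (mul_nonneg (hf0 _) (mul_nonneg (hf0 _) (Real.exp_pos _).le))
      have h4 := mul_le_mul_of_nonneg_right h2 h3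
      linarith
  have h5 : ∫ p : S × S, c * (f p.1 * (f p.2 * Real.exp (-(T ^ 2 * ‖Y p.1 - Y p.2‖ ^ 2 / 4))))
        ∂(σ.prod σ) = c * ∫ v, f v * ∫ v', f v' * Real.exp (-(T ^ 2 * ‖Y v - Y v'‖ ^ 2 / 4)) ∂σ
        ∂σ := by
    rw [integral_const_mul]
    congr 1
    rw [integral_prod]
    · refine integral_congr_ae (Eventually.of_forall fun v => ?_)
      simp only
      rw [integral_const_mul]
    · refine (w8_int2R σ f hf M hfM (fun p : S × S =>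
        (Real.exp (-(T ^ 2 * ‖Y p.1 - Y p.2‖ ^ 2 / 4)))) (by fun_prop)).congr
        (Eventually.of_forall fun p => ?_)
      simp only
      ring
  have h6 : ∫ v, f v * (T ^ ((n : ℝ) - 1) *
        ∫ v', f v' * Real.exp (-(T ^ 2 * ‖Y v - Y v'‖ ^ 2 / 4)) ∂σ) ∂σ =
      T ^ ((n : ℝ) - 1) * ∫ v, f v * ∫ v', f v' * Real.exp (-(T ^ 2 * ‖Y v - Y v'‖ ^ 2 / 4)) ∂σ
        ∂σ := by
    rw [← integral_const_mul]
    refine integral_congr_ae (Eventually.of_forall fun v => ?_)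
    simp only
    ring
  rw [h6, ← mul_assoc, ← j25770_const T hT, ← hc, mul_assoc, ← h5]
  exact mul_le_mul_of_nonneg_left h1 (by positivity)

theorem w8_lim {S : Type} [TopologicalSpace S] [CompactSpace S] [MeasurableSpace S]
    [BorelSpace S] [SecondCountableTopology S] {n : ℕ} (σ : Measure S) [IsFiniteMeasure σ]
    (Y : S → E n) (f : S → ℝ) (hY : Continuous Y) (hf : Measurable f) (M : ℝ) (hfM : ∀ v, |f v| ≤ M)
    (hf0 : ∀ v, 0 ≤ f v) (C L : ℝ)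
    (hC : ∀ v : S, ∀ T : ℝ, 1 ≤ T → T ^ ((n : ℝ) - 1) *
      ∫ v', f v' * Real.exp (-(T ^ 2 * ‖Y v - Y v'‖ ^ 2 / 4)) ∂σ ≤ C)
    (hL : ∀ v : S, Tendsto (fun T : ℝ => T ^ ((n : ℝ) - 1) *
      ∫ v', f v' * Real.exp (-(T ^ 2 * ‖Y v - Y v'‖ ^ 2 / 4)) ∂σ) atTop (𝓝 L)) :
    Tendsto (fun T : ℝ => ∫ v, f v * (T ^ ((n : ℝ) - 1) *
        ∫ v', f v' * Real.exp (-(T ^ 2 * ‖Y v - Y v'‖ ^ 2 / 4)) ∂σ) ∂σ) atTop
      (𝓝 (∫ v, f v * L ∂σ)) := by
  apply tendsto_integral_filter_of_dominated_convergence (fun v => f v * C)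
  · refine Eventually.of_forall fun T => ?_
    apply AEStronglyMeasurable.mul
    · exact hf.aestronglyMeasurable
    · exact (w8_cont σ Y f hY hf T).const_mul _
  · filter_upwards [eventually_ge_atTop (1 : ℝ)] with T hT
    refine Eventually.of_forall fun v => ?_
    have h1 : 0 ≤ T ^ ((n : ℝ) - 1) *
        ∫ v', f v' * Real.exp (-(T ^ 2 * ‖Y v - Y v'‖ ^ 2 / 4)) ∂σ := by
      apply mul_nonneg (by positivity)
      apply integral_nonneg
      intro v'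
      exact mul_nonneg (hf0 _) (Real.exp_pos _).le
    rw [Real.norm_eq_abs, abs_of_nonneg (mul_nonneg (hf0 v) h1)]
    exact mul_le_mul_of_nonneg_left (hC v T hT) (hf0 v)
  · exact (w8_int1 σ f hf M hfM).mul_const C
  · refine Eventually.of_forall fun v => ?_
    exact (hL v).const_mul _

theorem w8_bd {S : Type} [TopologicalSpace S] [CompactSpace S] [MeasurableSpace S]
    [BorelSpace S] [SecondCountableTopology S] {n : ℕ} (hn : 2 ≤ n) (σ : Measure S)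
    [IsFiniteMeasure σ] (Y : S → E n) (f : S → ℝ) (hY : Continuous Y) (hf : Measurable f) (M : ℝ) (hfM : ∀ v, |f v| ≤ M)
    (hf0 : ∀ v, 0 ≤ f v) (C : ℝ)
    (hC : ∀ v : S, ∀ T : ℝ, 1 ≤ T → T ^ ((n : ℝ) - 1) *
      ∫ v', f v' * Real.exp (-(T ^ 2 * ‖Y v - Y v'‖ ^ 2 / 4)) ∂σ ≤ C) :
    ∃ C' : ℝ, ∀ T : ℝ, 0 < T → ∫ v, f v * (T ^ ((n : ℝ) - 1) *
        ∫ v', f v' * Real.exp (-(T ^ 2 * ‖Y v - Y v'‖ ^ 2 / 4)) ∂σ) ∂σ ≤ C' := by
  obtain ⟨D, hD⟩ : ∃ D : ℝ, D = max C (∫ v', f v' ∂σ) := ⟨_, rfl⟩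
  have hfint : Integrable f σ := w8_int1 σ f hf M hfM
  have hmain : ∀ T : ℝ, 0 < T → ∀ v, T ^ ((n : ℝ) - 1) *
      ∫ v', f v' * Real.exp (-(T ^ 2 * ‖Y v - Y v'‖ ^ 2 / 4)) ∂σ ≤ D := by
    intro T hT v
    rcases le_total 1 T with h | h
    · exact (hC v T h).trans (by rw [hD]; exact le_max_left _ _)
    · have hn1 : (0 : ℝ) ≤ (n : ℝ) - 1 := by
        have : (2 : ℝ) ≤ n := by exact_mod_cast hn
        linarith
      have h1 : T ^ ((n : ℝ) - 1) ≤ 1 := Real.rpow_le_one hT.le h hn1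
      have h2 : 0 ≤ ∫ v', f v' * Real.exp (-(T ^ 2 * ‖Y v - Y v'‖ ^ 2 / 4)) ∂σ := by
        apply integral_nonneg
        intro v'
        exact mul_nonneg (hf0 _) (Real.exp_pos _).le
      have h3 : ∫ v', f v' * Real.exp (-(T ^ 2 * ‖Y v - Y v'‖ ^ 2 / 4)) ∂σ ≤ ∫ v', f v' ∂σ := by
        apply integral_mono
        · refine (w8_int1 σ _ (hf.mul (by fun_prop : Continuous fun v' : S =>
              Real.exp (-(T ^ 2 * ‖Y v - Y v'‖ ^ 2 / 4))).measurable) M fun v' => ?_)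
          rw [abs_mul, abs_of_pos (Real.exp_pos _)]
          have hM0 : 0 ≤ M := (abs_nonneg _).trans (hfM v')
          have h4 : Real.exp (-(T ^ 2 * ‖Y v - Y v'‖ ^ 2 / 4)) ≤ 1 := by
            rw [Real.exp_le_one_iff]
            have : 0 ≤ T ^ 2 * ‖Y v - Y v'‖ ^ 2 / 4 := by positivity
            linarith
          calc _ ≤ M * 1 := mul_le_mul (hfM v') h4 (Real.exp_pos _).le hM0
            _ = M := mul_one M
        · exact hfint
        · intro v'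
          simp only
          have h4 : Real.exp (-(T ^ 2 * ‖Y v - Y v'‖ ^ 2 / 4)) ≤ 1 := by
            rw [Real.exp_le_one_iff]
            have : 0 ≤ T ^ 2 * ‖Y v - Y v'‖ ^ 2 / 4 := by positivity
            linarith
          have := mul_le_mul_of_nonneg_left h4 (hf0 v')
          linarith
      calc T ^ ((n : ℝ) - 1) * ∫ v', f v' * Real.exp (-(T ^ 2 * ‖Y v - Y v'‖ ^ 2 / 4)) ∂σ
          ≤ 1 * ∫ v', f v' * Real.exp (-(T ^ 2 * ‖Y v - Y v'‖ ^ 2 / 4)) ∂σ :=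
            mul_le_mul_of_nonneg_right h1 h2
        _ ≤ ∫ v', f v' ∂σ := by rw [one_mul]; exact h3
        _ ≤ D := by rw [hD]; exact le_max_right _ _
  have hD0 : 0 ≤ D := by
    rw [hD]
    exact le_max_of_le_right (integral_nonneg hf0)
  refine ⟨∫ v, f v * D ∂σ, fun T hT => ?_⟩
  apply integral_mono_of_nonneg
  · refine Eventually.of_forall fun v => ?_
    apply mul_nonneg (hf0 v)
    apply mul_nonneg (by positivity)
    apply integral_nonneg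
    intro v'
    exact mul_nonneg (hf0 _) (Real.exp_pos _).le
  · exact hfint.mul_const D
  · refine Eventually.of_forall fun v => ?_
    exact mul_le_mul_of_nonneg_left (hmain T hT v) (hf0 v)

theorem wG8 {n : ℕ} (hn : 2 ≤ n) {K : Set (E n)} {h : E n → ℝ} {X : E n → E n} (hG : Wk K h X) :
    (∃ C : ℝ, ∀ T : ℝ, 0 < T → T⁻¹ * ∫ ξ : E n, Real.exp (-(‖ξ‖ ^ 2 / T ^ 2)) * (‖ξ‖ ^ 2 * ‖FK K ξ‖ ^ 2) ≤ C) ∧
    ∀ η : ℝ, 0 < η → ∀ᶠ T : ℝ in atTop,
    T⁻¹ * ∫ ξ : E n, Real.exp (-(‖ξ‖ ^ 2 / T ^ 2)) * (‖ξ‖ ^ 2 * ‖FK K ξ‖ ^ 2) ≤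
      Real.sqrt Real.pi * (2 * Real.pi) ^ ((n : ℝ) - 1) * (∫ v : sphere (0 : E n) 1, curv X v ∂(sph n)) + η := by
  obtain ⟨c1, M, hc1, hM0, -, hcb⟩ := curv_bounds hn hG
  have hXc := hG.contX
  have hne : ∀ v : sphere (0 : E n) 1, (v : E n) ≠ 0 := by
    intro v hv
    have := v.2
    rw [mem_sphere_zero_iff_norm, hv, norm_zero] at this
    norm_num at this
  have hfc : Measurable (fun v : sphere (0 : E n) 1 => curv X (v : E n)) := curv_meas_sph X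
  have hfM : ∀ v : sphere (0 : E n) 1, |curv X (v : E n)| ≤ M := fun v => by
    rw [abs_of_nonneg (hcb _ (hne v)).1]; exact (hcb _ (hne v)).2
  have hYc : Continuous (fun v : sphere (0 : E n) 1 => X (v : E n)) :=
    hXc.comp_continuous continuous_subtype_val (fun v => hne v)
  have hVc : Continuous (fun v : sphere (0 : E n) 1 => (v : E n)) := continuous_subtype_val
  have hf0 : ∀ v : sphere (0 : E n) 1, 0 ≤ curv X (v : E n) := fun v => (hcb _ (hne v)).1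
  have hVn : ∀ v : sphere (0 : E n) 1, ‖(v : E n)‖ = 1 := fun v => by
    have := v.2
    rwa [mem_sphere_zero_iff_norm] at this
  have hΦ : ∀ ξ e : E n, Complex.I * ((⟪ξ, e⟫ : ℝ) : ℂ) * FK K ξ =
      ∫ v : sphere (0 : E n) 1, (⟪(v : E n), e⟫ * curv X v) •
        Complex.exp (Complex.I * ((⟪ξ, X v⟫ : ℝ) : ℂ)) ∂(sph n) := by
    intro ξ e
    have hcd : ContDiff ℝ 1 (fun x : E n => Complex.exp (Complex.I * ((⟪ξ, x⟫ : ℝ) : ℂ))) := by
      apply ContDiff.cexp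
      apply ContDiff.mul contDiff_const
      exact Complex.ofRealCLM.contDiff.comp (contDiff_const.inner ℝ contDiff_id)
    rw [← wG7 hn hG _ e hcd]
    simp only [j25770_fd]
    rw [integral_const_mul]
    rfl
  obtain ⟨C, hC⟩ := w8a_bdd hn hG
  have hL := wG8a hn hG
  have key : ∀ T : ℝ, 0 < T →
      T⁻¹ * ∫ ξ : E n, Real.exp (-(‖ξ‖ ^ 2 / T ^ 2)) * (‖ξ‖ ^ 2 * ‖FK K ξ‖ ^ 2) ≤
      Real.pi ^ ((n : ℝ) / 2) * ∫ v : sphere (0 : E n) 1, curv X v * (T ^ ((n : ℝ) - 1) *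
        ∫ v' : sphere (0 : E n) 1, curv X v' *
          Real.exp (-(T ^ 2 * ‖X v - X v'‖ ^ 2 / 4)) ∂(sph n)) ∂(sph n) := by
    intro T hT
    rw [w8_C (sph n) (fun v : sphere (0 : E n) 1 => (v : E n))
      (fun v : sphere (0 : E n) 1 => X (v : E n)) (fun v : sphere (0 : E n) 1 => curv X (v : E n))
      hVc hYc hfc M hfM (FK K) hΦ T hT]
    exact w8_D (sph n) (fun v : sphere (0 : E n) 1 => (v : E n))
      (fun v : sphere (0 : E n) 1 => X (v : E n)) (fun v : sphere (0 : E n) 1 => curv X (v : E n))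
      hVc hYc hfc M hfM hVn hf0 T hT
  constructor
  · obtain ⟨C', hC'⟩ := w8_bd hn (sph n)
      (fun v : sphere (0 : E n) 1 => X (v : E n)) (fun v : sphere (0 : E n) 1 => curv X (v : E n))
      hYc hfc M hfM hf0 C hC
    refine ⟨Real.pi ^ ((n : ℝ) / 2) * C', fun T hT => (key T hT).trans ?_⟩
    exact mul_le_mul_of_nonneg_left (hC' T hT) (by positivity)
  · intro η hη
    have h1 := w8_lim (sph n)
      (fun v : sphere (0 : E n) 1 => X (v : E n)) (fun v : sphere (0 : E n) 1 => curv X (v : E n))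
      hYc hfc M hfM hf0 C _ hC hL
    have h2 := h1.const_mul (Real.pi ^ ((n : ℝ) / 2))
    have h3 : Real.pi ^ ((n : ℝ) / 2) * ∫ v : sphere (0 : E n) 1, curv X v *
        (4 * Real.pi) ^ (((n : ℝ) - 1) / 2) ∂(sph n) =
        Real.sqrt Real.pi * (2 * Real.pi) ^ ((n : ℝ) - 1) *
          (∫ v : sphere (0 : E n) 1, curv X v ∂(sph n)) := by
      rw [integral_mul_const, ← j25770_const2]
      ring
    rw [h3] at h2
    have h4 := h2.eventually_lt_const (u := Real.sqrt Real.pi * (2 * Real.pi) ^ ((n : ℝ) - 1) *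
          (∫ v : sphere (0 : E n) 1, curv X v ∂(sph n)) + η) (by linarith)
    filter_upwards [h4, eventually_gt_atTop (0 : ℝ)] with T hT hT0
    exact (key T hT0).trans (le_of_lt hT)



end Pool.Agent.H878R2.Cov
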