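import Mathlib
import Pool.Agent.H878R2.Cov.G8
import Pool.Agent.Helper890.Cov.JG9

open MeasureTheory Set Filter Topology Metric
open scoped RealInnerProductSpace Pointwise

namespace Pool.Agent.H878R2.Cov
open Pool.Agent.Helper890.Cov Pool.Agent.Helper890.Cov.JG9

theorem wG9 {n : ℕ} (hn : 2 ≤ n) {K : Set (E n)} {h : E n → ℝ} {X : E n → E n} (hgood : Wk K h X) :
    ∀ η : ℝ, 0 < η → ∀ᶠ T : ℝ in atTop,
    T⁻¹ * ∫ ξ : E n, Real.exp (-(‖ξ‖ / T)) * (‖ξ‖ ^ 2 * ‖FK K ξ‖ ^ 2) ≤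
      2 * (2 * Real.pi) ^ ((n : ℝ) - 1) * (∫ v : sphere (0 : E n) 1, curv X v ∂(sph n)) + η := by
  obtain ⟨⟨C, hC⟩, hL⟩ := wG8 hn hgood
  have hK := hgood.compact
  have hcont := g9_cont hK
  have hpi : 0 < Real.sqrt Real.pi := Real.sqrt_pos.2 Real.pi_pos
  have key := g9_core (volume : Measure (E n)) (fun ξ => ‖ξ‖) (fun ξ => ‖ξ‖ ^ 2 * ‖FK K ξ‖ ^ 2)
    (by fun_prop) (by
      apply Continuous.measurable; fun_prop) (fun ξ => norm_nonneg _) (fun ξ => by positivity)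
    (fun ξ h0 => by
      have h0' : ‖ξ‖ = 0 := h0
      simp [h0']) (by
      intro τ hτ
      have hb : 0 < 1 / (2 * τ ^ 2) := by positivity
      refine Integrable.mono' ((g9_int (n := n) hb).const_mul (2 * τ ^ 2 * (volume : Measure (E n)).real K ^ 2)) ?_ ?_
      · apply Continuous.aestronglyMeasurable; fun_prop
      · refine Filter.Eventually.of_forall fun ξ => ?_
        have hB := g9_bound hK ξ
        rw [Real.norm_of_nonneg (by positivity)]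
        have e0 : ‖ξ‖ ^ 2 / (2 * τ ^ 2) ≤ Real.exp (‖ξ‖ ^ 2 / (2 * τ ^ 2)) := by
          have := Real.add_one_le_exp (‖ξ‖ ^ 2 / (2 * τ ^ 2))
          linarith
        have e1 : ‖ξ‖ ^ 2 ≤ 2 * τ ^ 2 * Real.exp (‖ξ‖ ^ 2 / (2 * τ ^ 2)) := by
          rwa [div_le_iff₀' (by positivity)] at e0
        calc Real.exp (-(‖ξ‖ ^ 2 / τ ^ 2)) * (‖ξ‖ ^ 2 * ‖FK K ξ‖ ^ 2)
            ≤ Real.exp (-(‖ξ‖ ^ 2 / τ ^ 2)) * ((2 * τ ^ 2 * Real.exp (‖ξ‖ ^ 2 / (2 * τ ^ 2))) * (volume : Measure (E n)).real K ^ 2) := by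
              gcongr
          _ = 2 * τ ^ 2 * (volume : Measure (E n)).real K ^ 2 * (Real.exp (-(‖ξ‖ ^ 2 / τ ^ 2)) * Real.exp (‖ξ‖ ^ 2 / (2 * τ ^ 2))) := by ring
          _ = 2 * τ ^ 2 * (volume : Measure (E n)).real K ^ 2 * Real.exp (-(1 / (2 * τ ^ 2) * ‖ξ‖ ^ 2)) := by
              rw [← Real.exp_add]
              congr 2
              field_simp
              ring)
    C (Real.sqrt Real.pi * (2 * Real.pi) ^ ((n : ℝ) - 1) * (∫ v : sphere (0 : E n) 1, curv X v ∂(sph n))) hC hL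
  intro η hη
  filter_upwards [key η hη] with T hT
  refine hT.trans (le_of_eq ?_)
  congr 1
  field_simp



end Pool.Agent.H878R2.Cov
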