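import Mathlib
import Pool.Agent.H878R2.Cov.G9
import Pool.Agent.H878R2.Cov.G10
import Pool.Agent.Helper890.Cov.JG11

open MeasureTheory Set Filter Topology Metric
open scoped RealInnerProductSpace Pointwise

namespace Pool.Agent.H878R2.Cov
open Pool.Agent.Helper890.Cov Pool.Agent.Helper890.Cov.JG11

section
variable {n : ℕ} {K : Set (E n)} {h : E n → ℝ} {X : E n → E n}

theorem w11_bd (hn : 2 ≤ n) (hG : Wk K h X) : (∀ u : E n, u ≠ 0 → 0 ≤ curv X u) ∧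
    ∃ C : ℝ, 0 ≤ C ∧ ∀ ξ : E n, ξ ≠ 0 → curv X ξ ≤ C := by
  obtain ⟨c1, M, hc1, hM0, -, hcb⟩ := curv_bounds hn hG
  exact ⟨fun u hu => (hcb u hu).1, M, hM0.le, fun u hu => (hcb u hu).2⟩

theorem w11_M1_polar (hn : 2 ≤ n) (hG : Wk K h X) (r : ℝ) (hr : 0 < r)
    (v : E n) (hv : ‖v‖ = 1) :
    M1 h X (r • v) = ((cc n * r ^ (-kap n) : ℝ) : ℂ) *
      ((Real.sqrt (curv X v) : ℂ) * Complex.exp (Complex.I * (((r * h v + ph n : ℝ)) : ℂ))) := by
  have hv0 : v ≠ 0 := by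
    rintro rfl
    simp at hv
  unfold M1
  rw [curv_smul hG hr hv0, hG.homog r v hr.le, norm_smul, hv, mul_one, Real.norm_eq_abs, abs_of_pos hr]

theorem w11_M1_meas (hn : 2 ≤ n) (hG : Wk K h X) :
    AEStronglyMeasurable (M1 h X) volume := by
  unfold M1
  refine (Measurable.mul ?_ (Measurable.mul ?_ ?_)).aestronglyMeasurable
  · exact Complex.measurable_ofReal.comp ((measurable_norm.pow_const _).const_mul _)
  · exact Complex.measurable_ofReal.comp (curv_meas X).sqrt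
  · have := hG.conth
    exact (by fun_prop : Continuous fun ξ : E n => Complex.exp (Complex.I * (((h ξ + ph n : ℝ)) : ℂ))).measurable

theorem w11_M1_sq (hn : 2 ≤ n) (hG : Wk K h X) :
    ∃ C : ℝ, 0 ≤ C ∧ ∀ T : ℝ, ∀ ξ : E n, ξ ≠ 0 → W T ξ * ‖M1 h X ξ‖ ^ 2 ≤
      C * (Real.exp (-(‖ξ‖ / T)) * ‖ξ‖ ^ (1 - (n : ℝ))) := by
  obtain ⟨hp, C, hC0, hC⟩ := w11_bd hn hG
  refine ⟨cc n ^ 2 * C, by positivity, fun T ξ hξ => ?_⟩
  have hnξ : 0 < ‖ξ‖ := norm_pos_iff.2 hξ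
  rw [g11_M1_norm, W, mul_pow, mul_pow, Real.sq_sqrt (hp ξ hξ)]
  have h1 : ‖ξ‖ ^ 2 * (‖ξ‖ ^ (-kap n)) ^ 2 = ‖ξ‖ ^ (1 - (n : ℝ)) := by
    rw [← Real.rpow_natCast (‖ξ‖ ^ (-kap n)), ← Real.rpow_mul hnξ.le, ← Real.rpow_natCast ‖ξ‖ 2,
      ← Real.rpow_add hnξ]
    congr 1
    unfold kap
    push_cast
    ring
  have h2 : 0 ≤ Real.exp (-(‖ξ‖ / T)) * ‖ξ‖ ^ (1 - (n : ℝ)) := by positivity
  calc Real.exp (-(‖ξ‖ / T)) * ‖ξ‖ ^ 2 * (cc n ^ 2 * (‖ξ‖ ^ (-kap n)) ^ 2 * curv X ξ)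
      = (cc n ^ 2 * curv X ξ) * (Real.exp (-(‖ξ‖ / T)) * (‖ξ‖ ^ 2 * (‖ξ‖ ^ (-kap n)) ^ 2)) := by ring
    _ = (cc n ^ 2 * curv X ξ) * (Real.exp (-(‖ξ‖ / T)) * ‖ξ‖ ^ (1 - (n : ℝ))) := by rw [h1]
    _ ≤ _ := by
      apply mul_le_mul_of_nonneg_right _ h2
      apply mul_le_mul_of_nonneg_left (hC ξ hξ) (by positivity)

theorem w11_intM (hn : 2 ≤ n) (hG : Wk K h X) (T : ℝ) (hT : 0 < T) :
    Integrable (fun ξ : E n => W T ξ * ‖M1 h X ξ‖ ^ 2) := by
  obtain ⟨C, hC0, hC⟩ := w11_M1_sq hn hG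
  refine Integrable.mono' ((g11_w JP.stP n hn T hT (1 - (n:ℝ)) (by linarith)).const_mul C) ?_ ?_
  · exact (g11_W_cont T).aestronglyMeasurable.mul ((w11_M1_meas hn hG).norm.pow 2)
  · filter_upwards [g11_ae_ne hn] with ξ hξ
    rw [Real.norm_of_nonneg (mul_nonneg (g11_W_nonneg T ξ) (by positivity))]
    exact hC T ξ hξ

theorem w11_intF (hn : 2 ≤ n) (hG : Wk K h X) (T : ℝ) (hT : 0 < T) :
    Integrable (fun ξ : E n => W T ξ * ‖FK K ξ‖ ^ 2) := by
  obtain ⟨hFc, ⟨C, hC0, hC⟩, _⟩ := g11_FK K hG.compact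
  have h1 := (g11_w JP.stP n hn T hT 2 (by
    have : (0:ℝ) ≤ n := Nat.cast_nonneg n
    linarith)).const_mul (C ^ 2)
  refine Integrable.mono' h1 ?_ ?_
  · exact ((g11_W_cont T).mul (hFc.norm.pow 2)).aestronglyMeasurable
  · refine Filter.Eventually.of_forall fun ξ => ?_
    rw [Real.norm_of_nonneg (mul_nonneg (g11_W_nonneg T ξ) (by positivity))]
    unfold W
    rw [Real.rpow_two, mul_comm (C ^ 2)]
    exact mul_le_mul_of_nonneg_left (pow_le_pow_left₀ (norm_nonneg _) (hC ξ) 2) (by positivity)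

theorem w11_M (hn : 2 ≤ n) (hG : Wk K h X) (T : ℝ) (hT : 0 < T) :
    ∫ ξ : E n, W T ξ * ‖M1 h X ξ‖ ^ 2 =
      T * (cc n ^ 2 * ∫ v : sphere (0 : E n) 1, curv X v ∂(sph n)) := by
  rw [(JP.stP n hn).1 _ (w11_intM hn hG T hT), ← integral_const_mul, ← integral_const_mul]
  congr 1
  funext v
  have hv := g11_sph_norm v
  have hp : 0 ≤ curv X (v : E n) := (w11_bd hn hG).1 _ (sph_ne v)
  have h1 : ∫ r in Ioi (0 : ℝ), r ^ (n - 1) * (W T (r • (v : E n)) * ‖M1 h X (r • (v : E n))‖ ^ 2) =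
      ∫ r in Ioi (0 : ℝ), (cc n ^ 2 * curv X (v : E n)) * Real.exp (-(1 / T) * r) := by
    refine setIntegral_congr_fun measurableSet_Ioi fun r hr => ?_
    have hr' : (0:ℝ) < r := hr
    rw [g11_W_polar T r hr' (v : E n) hv, w11_M1_polar hn hG r hr' (v : E n) hv, norm_mul, norm_mul,
      Complex.norm_real, Complex.norm_real, mul_comm Complex.I,
      Complex.norm_exp_ofReal_mul_I, mul_one, Real.norm_of_nonneg (Real.sqrt_nonneg _),
      Real.norm_of_nonneg (mul_nonneg (g11_cc n).1 (Real.rpow_nonneg hr'.le _)), mul_pow, mul_pow,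
      Real.sq_sqrt hp]
    have h2 := (g11_pow hn r hr').2
    have h3 : -(1 / T) * r = -(r / T) := by ring
    rw [h3]
    calc r ^ (n - 1) * (Real.exp (-(r / T)) * r ^ 2 * (cc n ^ 2 * (r ^ (-kap n)) ^ 2 * curv X (v : E n)))
        = (r ^ (n - 1) * r ^ 2 * (r ^ (-kap n)) ^ 2) *
          ((cc n ^ 2 * curv X (v : E n)) * Real.exp (-(r / T))) := by ring
      _ = _ := by rw [h2, one_mul]
  rw [h1, integral_const_mul, integral_exp_mul_Ioi (by
    have : 0 < 1 / T := by positivity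
    linarith)]
  simp only [mul_zero, Real.exp_zero]
  field_simp

theorem w11_MM_eq (hn : 2 ≤ n) (hG : Wk K h X) (T : ℝ) (hT : 0 < T) :
    ((T⁻¹ : ℝ) : ℂ) * ∫ ξ : E n, ((W T ξ : ℝ) : ℂ) * (M1 h X ξ * M1 h X (-ξ)) =
      ∫ v : sphere (0 : E n) 1, (((cc n ^ 2 * (Real.sqrt (curv X (v : E n)) *
        Real.sqrt (curv X (-(v : E n)))) : ℝ) : ℂ) * Complex.exp (Complex.I * ((2 * ph n : ℝ) : ℂ))) *
        (1 - Complex.I * ((T * (h (v : E n) + h (-(v : E n))) : ℝ) : ℂ))⁻¹ ∂(sph n) := by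
  have hm := w11_M1_meas hn hG
  have hi := w11_intM hn hG T hT
  have hi2 : Integrable (fun ξ : E n => W T ξ * ‖M1 h X (-ξ)‖ ^ 2) := by
    have := hi.comp_neg
    refine this.congr (Filter.Eventually.of_forall fun ξ => ?_)
    simp [W]
  have hint := g11_intProd T (M1 h X) (fun ξ => M1 h X (-ξ)) hm (g11_neg_meas _ hm) hi hi2
  rw [(JP.stP n hn).2.1 _ hint, ← integral_const_mul]
  congr 1
  funext v
  have hv := g11_sph_norm v
  have hv' : ‖-(v : E n)‖ = 1 := by rw [norm_neg, hv]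
  have h1 : ∫ r in Ioi (0 : ℝ), ((r ^ (n - 1) : ℝ) : ℂ) * (((W T (r • (v : E n)) : ℝ) : ℂ) *
      (M1 h X (r • (v : E n)) * M1 h X (-(r • (v : E n))))) =
      ∫ r in Ioi (0 : ℝ), (((cc n ^ 2 * (Real.sqrt (curv X (v : E n)) *
        Real.sqrt (curv X (-(v : E n)))) : ℝ) : ℂ) * Complex.exp (Complex.I * ((2 * ph n : ℝ) : ℂ))) *
        Complex.exp ((-(T⁻¹ : ℂ) + Complex.I * ((h (v : E n) + h (-(v : E n)) : ℝ) : ℂ)) * (r : ℂ)) := by
    refine setIntegral_congr_fun measurableSet_Ioi fun r hr => ?_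
    have hr' : (0:ℝ) < r := hr
    rw [← smul_neg, g11_W_polar T r hr' (v : E n) hv, w11_M1_polar hn hG r hr' (v : E n) hv,
      w11_M1_polar hn hG r hr' (-(v : E n)) hv']
    have h2 := (g11_pow hn r hr').2
    have h2' : ((r ^ (n - 1) : ℝ) : ℂ) * ((r ^ 2 : ℝ) : ℂ) * ((((r ^ (-kap n) : ℝ) : ℂ))) ^ 2 = 1 := by
      rw [← Complex.ofReal_pow, ← Complex.ofReal_mul, ← Complex.ofReal_mul, h2, Complex.ofReal_one]
    have h4 : Complex.exp ((-(T⁻¹ : ℂ) + Complex.I * ((h (v : E n) + h (-(v : E n)) : ℝ) : ℂ)) * (r : ℂ)) *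
        Complex.exp (Complex.I * ((2 * ph n : ℝ) : ℂ)) =
        ((Real.exp (-(r / T)) : ℝ) : ℂ) * Complex.exp (Complex.I * (((r * h v + ph n : ℝ)) : ℂ)) *
          Complex.exp (Complex.I * (((r * h (-(v : E n)) + ph n : ℝ)) : ℂ)) := by
      rw [Complex.ofReal_exp, ← Complex.exp_add, ← Complex.exp_add, ← Complex.exp_add]
      congr 1
      push_cast
      ring
    push_cast at h2' h4 ⊢
    linear_combination ((cc n : ℂ) ^ 2 * (Real.sqrt (curv X (v : E n)) : ℂ) *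
        (Real.sqrt (curv X (-(v : E n))) : ℂ) * (Complex.exp (-(↑r / ↑T)) *
          Complex.exp (Complex.I * (↑r * ↑(h (v : E n)) + ↑(ph n))) *
          Complex.exp (Complex.I * (↑r * ↑(h (-(v : E n))) + ↑(ph n))))) * h2' -
      ((cc n : ℂ) ^ 2 * (Real.sqrt (curv X (v : E n)) : ℂ) *
        (Real.sqrt (curv X (-(v : E n))) : ℂ)) * h4
  rw [h1, integral_const_mul, integral_exp_mul_complex_Ioi (by simpa using hT)]
  simp only [Complex.ofReal_zero, mul_zero, Complex.exp_zero]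
  rw [mul_left_comm]
  congr 1
  have hTC : (T : ℂ) ≠ 0 := by exact_mod_cast hT.ne'
  have hne : (1 - Complex.I * ((T * (h (v : E n) + h (-(v : E n))) : ℝ) : ℂ)) ≠ 0 := by
    intro h0
    have := congrArg Complex.re h0
    simp at this
  have hne2 : (-(T⁻¹ : ℂ) + Complex.I * ((h (v : E n) + h (-(v : E n)) : ℝ) : ℂ)) ≠ 0 := by
    intro h0
    have := congrArg Complex.re h0
    simp at this
    exact hT.ne' this
  have hrel : (-(T⁻¹ : ℂ) + Complex.I * ((h (v : E n) + h (-(v : E n)) : ℝ) : ℂ)) =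
      -(T⁻¹ : ℂ) * (1 - Complex.I * ((T * (h (v : E n) + h (-(v : E n))) : ℝ) : ℂ)) := by
    push_cast
    field_simp
    ring
  rw [hrel]
  push_cast
  push_cast at hne
  field_simp

theorem w11_MM (hn : 2 ≤ n) (hG : Wk K h X) :
    Tendsto (fun T : ℝ => ((T⁻¹ : ℝ) : ℂ) * ∫ ξ : E n, ((W T ξ : ℝ) : ℂ) *
      (M1 h X ξ * M1 h X (-ξ))) atTop (𝓝 0) := by
  obtain ⟨hp, C, hC0, hC⟩ := w11_bd hn hG
  have hhc := hG.conth
  have hhpos : ∀ u, u ≠ 0 → 0 < h u := fun u hu => hG.hpos hu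
  have hne : ∀ v : sphere (0 : E n) 1, (v : E n) ≠ 0 := by
    intro v hv
    have := g11_sph_norm v
    rw [hv] at this
    simp at this
  have hwpos : ∀ v : sphere (0 : E n) 1, 0 < h (v : E n) + h (-(v : E n)) := fun v =>
    add_pos (hhpos _ (hne v)) (hhpos _ (neg_ne_zero.2 (hne v)))
  have hev : (fun T : ℝ => ((T⁻¹ : ℝ) : ℂ) * ∫ ξ : E n, ((W T ξ : ℝ) : ℂ) *
      (M1 h X ξ * M1 h X (-ξ))) =ᶠ[atTop] fun T : ℝ =>
      ∫ v : sphere (0 : E n) 1, (((cc n ^ 2 * (Real.sqrt (curv X (v : E n)) *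
        Real.sqrt (curv X (-(v : E n)))) : ℝ) : ℂ) * Complex.exp (Complex.I * ((2 * ph n : ℝ) : ℂ))) *
        (1 - Complex.I * ((T * (h (v : E n) + h (-(v : E n))) : ℝ) : ℂ))⁻¹ ∂(sph n) := by
    filter_upwards [Filter.eventually_gt_atTop 0] with T hT
    exact w11_MM_eq hn hG T hT
  rw [tendsto_congr' hev]
  have hnorm : ∀ (T : ℝ) (v : sphere (0 : E n) 1),
      (1:ℝ) ≤ ‖(1 - Complex.I * ((T * (h (v : E n) + h (-(v : E n))) : ℝ) : ℂ))‖ := by
    intro T v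
    have := Complex.abs_re_le_norm (1 - Complex.I * ((T * (h (v : E n) + h (-(v : E n))) : ℝ) : ℂ))
    simpa using this
  have hlim : ∫ v : sphere (0 : E n) 1, (0:ℂ) ∂(sph n) = 0 := by simp
  rw [← hlim]
  refine tendsto_integral_filter_of_dominated_convergence (fun _ => cc n ^ 2 * (C + C)) ?_ ?_
    (integrable_const _) ?_
  · refine Filter.Eventually.of_forall fun T => Measurable.aestronglyMeasurable ?_
    refine Measurable.mul (Measurable.mul ?_ measurable_const) (Continuous.measurable (Continuous.inv₀ ?_ ?_))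
    · exact Complex.measurable_ofReal.comp (((curv_meas_sph X).sqrt.mul (curv_meas_sph_neg X).sqrt).const_mul _)
    · fun_prop
    · intro v h0
      have := hnorm T v
      rw [h0, norm_zero] at this
      linarith
  · refine Filter.Eventually.of_forall fun T => Filter.Eventually.of_forall fun v => ?_
    rw [norm_mul, norm_mul, Complex.norm_real, mul_comm Complex.I,
      Complex.norm_exp_ofReal_mul_I, mul_one, norm_inv]
    have h1 : ‖(1 - ((T * (h (v : E n) + h (-(v : E n))) : ℝ) : ℂ) * Complex.I)‖⁻¹ ≤ 1 := by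
      rw [mul_comm]
      exact inv_le_one_of_one_le₀ (hnorm T v)
    have h2 : Real.sqrt (curv X (v : E n)) * Real.sqrt (curv X (-(v : E n))) ≤ C + C := by
      have a1 := hC _ (hne v)
      have a2 := hC _ (neg_ne_zero.2 (hne v))
      have b1 := Real.sq_sqrt (hp _ (hne v))
      have b2 := Real.sq_sqrt (hp _ (neg_ne_zero.2 (hne v)))
      nlinarith [sq_nonneg (Real.sqrt (curv X (v : E n)) - Real.sqrt (curv X (-(v : E n))))]
    have h3 : ‖cc n ^ 2 * (Real.sqrt (curv X (v : E n)) * Real.sqrt (curv X (-(v : E n))))‖ ≤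
        cc n ^ 2 * (C + C) := by
      rw [Real.norm_of_nonneg (by positivity)]
      exact mul_le_mul_of_nonneg_left h2 (by positivity)
    calc _ ≤ cc n ^ 2 * (C + C) * 1 :=
          mul_le_mul h3 (by simpa [mul_comm] using h1) (by positivity) (by positivity)
      _ = _ := mul_one _
  · refine Filter.Eventually.of_forall fun v => ?_
    have h1 : Tendsto (fun T : ℝ => ‖(1 - Complex.I * ((T * (h (v : E n) + h (-(v : E n))) : ℝ) : ℂ))‖) atTop atTop := by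
      refine tendsto_atTop_mono (f := fun T : ℝ => T * (h (v : E n) + h (-(v : E n)))) (fun T => ?_)
        (tendsto_id.atTop_mul_const (hwpos v))
      have := Complex.abs_im_le_norm (1 - Complex.I * ((T * (h (v : E n) + h (-(v : E n))) : ℝ) : ℂ))
      refine le_trans ?_ this
      simp only [Complex.sub_im, Complex.one_im, Complex.mul_im, Complex.I_re, Complex.I_im,
        Complex.ofReal_re, Complex.ofReal_im, zero_mul, one_mul, zero_add, zero_sub, abs_neg]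
      exact le_abs_self _
    have h2 : Tendsto (fun T : ℝ => (1 - Complex.I * ((T * (h (v : E n) + h (-(v : E n))) : ℝ) : ℂ))⁻¹) atTop (𝓝 0) := by
      rw [tendsto_zero_iff_norm_tendsto_zero]
      simp only [norm_inv]
      exact h1.inv_tendsto_atTop
    have h3 := h2.const_mul (((cc n ^ 2 * (Real.sqrt (curv X (v : E n)) *
        Real.sqrt (curv X (-(v : E n)))) : ℝ) : ℂ) * Complex.exp (Complex.I * ((2 * ph n : ℝ) : ℂ)))
    rw [mul_zero] at h3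
    exact h3

theorem w11_inner (hn : 2 ≤ n) (hG : Wk K h X) (T : ℝ) (hT : 0 < T) (v : E n) :
    ∫ r in Ioi (0:ℝ), ((r ^ kap n : ℝ) : ℂ) * (((Real.exp (-(r/T)) : ℝ) : ℂ) *
        Complex.exp (-(Complex.I * ((r * h v : ℝ) : ℂ))) * FK K (r • v)) =
      ((T ^ (kap n + 1) : ℝ) : ℂ) * ∫ x in K, (Real.Gamma (kap n + 1) : ℂ) *
      (1 + Complex.I * ((T * (h v - ⟪x, v⟫) : ℝ) : ℂ)) ^ (-((kap n + 1 : ℝ) : ℂ)) := by
  have hk : 0 < kap n := by unfold kap; positivity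
  have hfin : IsFiniteMeasure ((volume : Measure (E n)).restrict K) :=
    ⟨by rw [Measure.restrict_apply_univ]; exact hG.compact.measure_lt_top⟩
  have hTC : (T : ℂ) ≠ 0 := by exact_mod_cast hT.ne'
  have h1 : ∀ r : ℝ, ((r ^ kap n : ℝ) : ℂ) * (((Real.exp (-(r/T)) : ℝ) : ℂ) *
        Complex.exp (-(Complex.I * ((r * h v : ℝ) : ℂ))) * FK K (r • v)) =
      ∫ x in K, ((r ^ kap n : ℝ) : ℂ) * Complex.exp (-((((T⁻¹ : ℝ) : ℂ) +
        Complex.I * ((h v - ⟪x, v⟫ : ℝ) : ℂ)) * (r : ℂ))) := by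
    intro r
    unfold FK
    rw [← integral_const_mul, ← integral_const_mul]
    congr 1
    funext x
    rw [Complex.ofReal_exp, ← Complex.exp_add, ← Complex.exp_add]
    congr 2
    rw [real_inner_smul_left, real_inner_comm]
    push_cast
    field_simp
    ring
  have hint : Integrable (Function.uncurry (fun (r : ℝ) (x : E n) => ((r ^ kap n : ℝ) : ℂ) *
      Complex.exp (-((((T⁻¹ : ℝ) : ℂ) + Complex.I * ((h v - ⟪x, v⟫ : ℝ) : ℂ)) * (r : ℂ)))))
      ((volume.restrict (Ioi (0:ℝ))).prod ((volume : Measure (E n)).restrict K)) := by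
    have hb := (g11_lap (kap n) (by linarith) ((T⁻¹ : ℝ) : ℂ) (by simpa using hT)).1.norm
    have hb2 := hb.mul_prod (integrable_const (μ := (volume : Measure (E n)).restrict K) (1:ℝ))
    refine Integrable.mono' hb2 ?_ ?_
    · refine Measurable.aestronglyMeasurable (Measurable.mul ?_ ?_)
      · exact Complex.measurable_ofReal.comp (measurable_fst.pow_const _)
      · exact Continuous.measurable (by fun_prop)
    · refine Filter.Eventually.of_forall fun z => ?_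
      simp only [Function.uncurry, norm_mul, Complex.norm_exp, mul_one]
      apply le_of_eq
      congr 2
      simp
  calc _ = ∫ r in Ioi (0:ℝ), ∫ x in K, ((r ^ kap n : ℝ) : ℂ) * Complex.exp (-((((T⁻¹ : ℝ) : ℂ) +
        Complex.I * ((h v - ⟪x, v⟫ : ℝ) : ℂ)) * (r : ℂ))) := by simp_rw [h1]
    _ = ∫ x in K, ∫ r in Ioi (0:ℝ), ((r ^ kap n : ℝ) : ℂ) * Complex.exp (-((((T⁻¹ : ℝ) : ℂ) +
        Complex.I * ((h v - ⟪x, v⟫ : ℝ) : ℂ)) * (r : ℂ))) := integral_integral_swap hint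
    _ = _ := by
      rw [← integral_const_mul]
      congr 1
      funext x
      have hz : 0 < (((T⁻¹ : ℝ) : ℂ) + Complex.I * ((h v - ⟪x, v⟫ : ℝ) : ℂ)).re := by
        simpa using hT
      rw [(g11_lap (kap n) (by linarith) _ hz).2]
      have hne : (1 + Complex.I * ((T * (h v - ⟪x, v⟫) : ℝ) : ℂ)) ≠ 0 := by
        intro h0
        have := congrArg Complex.re h0
        simp at this
      have hz2 : (((T⁻¹ : ℝ) : ℂ) + Complex.I * ((h v - ⟪x, v⟫ : ℝ) : ℂ)) =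
          ((T⁻¹ : ℝ) : ℂ) * (1 + Complex.I * ((T * (h v - ⟪x, v⟫) : ℝ) : ℂ)) := by
        push_cast
        field_simp
      rw [hz2, g11_cpow T hT (kap n + 1) _ hne]
      ring

theorem w11_FM_eq (hn : 2 ≤ n) (hG : Wk K h X) (T : ℝ) (hT : 0 < T) :
    ((T⁻¹ : ℝ) : ℂ) * ∫ ξ : E n, ((W T ξ : ℝ) : ℂ) * (FK K ξ * (starRingEnd ℂ) (M1 h X ξ)) =
      ∫ v : sphere (0 : E n) 1, ((cc n * Real.sqrt (curv X (v : E n)) : ℝ) : ℂ) *
        Complex.exp (-(Complex.I * (ph n : ℂ))) *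
        (((T ^ kap n : ℝ) : ℂ) * ∫ x in K, (Real.Gamma (kap n + 1) : ℂ) *
      (1 + Complex.I * ((T * (h (v : E n) - ⟪x, (v : E n)⟫) : ℝ) : ℂ)) ^
        (-((kap n + 1 : ℝ) : ℂ))) ∂(sph n) := by
  have hm := w11_M1_meas hn hG
  have hi := w11_intM hn hG T hT
  obtain ⟨hFc, _, _⟩ := g11_FK K hG.compact
  have hmc : AEStronglyMeasurable (fun ξ => (starRingEnd ℂ) (M1 h X ξ)) volume :=
    Complex.continuous_conj.comp_aestronglyMeasurable hm
  have hint := g11_intProd T (FK K) (fun ξ => (starRingEnd ℂ) (M1 h X ξ))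
    hFc.aestronglyMeasurable hmc (w11_intF hn hG T hT) (by
      refine hi.congr (Filter.Eventually.of_forall fun ξ => ?_)
      simp)
  rw [(JP.stP n hn).2.1 _ hint, ← integral_const_mul]
  congr 1
  funext v
  have hv := g11_sph_norm v
  have h1 : ∫ r in Ioi (0 : ℝ), ((r ^ (n - 1) : ℝ) : ℂ) * (((W T (r • (v : E n)) : ℝ) : ℂ) *
      (FK K (r • (v : E n)) * (starRingEnd ℂ) (M1 h X (r • (v : E n))))) =
      ∫ r in Ioi (0 : ℝ), (((cc n * Real.sqrt (curv X (v : E n)) : ℝ) : ℂ) *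
        Complex.exp (-(Complex.I * (ph n : ℂ)))) *
        (((r ^ kap n : ℝ) : ℂ) * (((Real.exp (-(r/T)) : ℝ) : ℂ) *
        Complex.exp (-(Complex.I * ((r * h (v : E n) : ℝ) : ℂ))) * FK K (r • (v : E n)))) := by
    refine setIntegral_congr_fun measurableSet_Ioi fun r hr => ?_
    have hr' : (0:ℝ) < r := hr
    rw [g11_W_polar T r hr' (v : E n) hv, w11_M1_polar hn hG r hr' (v : E n) hv]
    have h2 := (g11_pow hn r hr').1
    have h2' : ((r ^ (n - 1) : ℝ) : ℂ) * ((r ^ 2 : ℝ) : ℂ) * (((r ^ (-kap n) : ℝ) : ℂ)) =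
        ((r ^ kap n : ℝ) : ℂ) := by
      rw [← Complex.ofReal_mul, ← Complex.ofReal_mul, h2]
    have h4 : (starRingEnd ℂ) (Complex.exp (Complex.I * (((r * h (v : E n) + ph n : ℝ)) : ℂ))) =
        Complex.exp (-(Complex.I * (ph n : ℂ))) *
          Complex.exp (-(Complex.I * ((r * h (v : E n) : ℝ) : ℂ))) := by
      rw [← Complex.exp_conj, map_mul, Complex.conj_I, Complex.conj_ofReal, ← Complex.exp_add]
      congr 1
      push_cast
      ring
    rw [map_mul, map_mul, Complex.conj_ofReal, Complex.conj_ofReal, h4, ← h2']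
    push_cast
    ring
  rw [h1, integral_const_mul, w11_inner hn hG T hT (v : E n), mul_left_comm]
  congr 1
  rw [← mul_assoc]
  congr 1
  rw [← Complex.ofReal_mul]
  congr 1
  rw [Real.rpow_add hT, Real.rpow_one]
  field_simp

theorem w11_FM (hn : 2 ≤ n) (hG : Wk K h X) :
    Tendsto (fun T : ℝ => ((T⁻¹ : ℝ) : ℂ) * ∫ ξ : E n, ((W T ξ : ℝ) : ℂ) *
      (FK K ξ * (starRingEnd ℂ) (M1 h X ξ))) atTop
      (𝓝 ((cc n ^ 2 * ∫ v : sphere (0 : E n) 1, curv X v ∂(sph n) : ℝ) : ℂ)) := by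
  obtain ⟨hp, C, hC0, hC⟩ := w11_bd hn hG
  have hhc := hG.conth
  obtain ⟨⟨C', hC'⟩, hlim⟩ := wG10 hn hG
  have hfinK : IsFiniteMeasure ((volume : Measure (E n)).restrict K) :=
    ⟨by rw [Measure.restrict_apply_univ]; exact hG.compact.measure_lt_top⟩
  have hne : ∀ v : sphere (0 : E n) 1, (v : E n) ≠ 0 := by
    intro v hv
    have := g11_sph_norm v
    rw [hv] at this
    simp at this
  have hev : (fun T : ℝ => ((T⁻¹ : ℝ) : ℂ) * ∫ ξ : E n, ((W T ξ : ℝ) : ℂ) *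
      (FK K ξ * (starRingEnd ℂ) (M1 h X ξ))) =ᶠ[atTop] fun T : ℝ =>
      ∫ v : sphere (0 : E n) 1, ((cc n * Real.sqrt (curv X (v : E n)) : ℝ) : ℂ) *
        Complex.exp (-(Complex.I * (ph n : ℂ))) *
        (((T ^ kap n : ℝ) : ℂ) * ∫ x in K, (Real.Gamma (kap n + 1) : ℂ) *
      (1 + Complex.I * ((T * (h (v : E n) - ⟪x, (v : E n)⟫) : ℝ) : ℂ)) ^
        (-((kap n + 1 : ℝ) : ℂ))) ∂(sph n) := by
    filter_upwards [Filter.eventually_gt_atTop 0] with T hT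
    exact w11_FM_eq hn hG T hT
  rw [tendsto_congr' hev]
  have hval : ∫ v : sphere (0 : E n) 1, ((cc n * Real.sqrt (curv X (v : E n)) : ℝ) : ℂ) *
        Complex.exp (-(Complex.I * (ph n : ℂ))) *
        (((cc n * Real.sqrt (curv X (v : E n)) : ℝ) : ℂ) * Complex.exp (Complex.I * (ph n : ℂ))) ∂(sph n) =
      ((cc n ^ 2 * ∫ v : sphere (0 : E n) 1, curv X v ∂(sph n) : ℝ) : ℂ) := by
    rw [← integral_const_mul, ← integral_complex_ofReal]
    congr 1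
    funext v
    have h5 : Complex.exp (-(Complex.I * (ph n : ℂ))) * Complex.exp (Complex.I * (ph n : ℂ)) = 1 := by
      rw [← Complex.exp_add, neg_add_cancel, Complex.exp_zero]
    have h6 : ((Real.sqrt (curv X (v : E n)) : ℝ) : ℂ) ^ 2 = ((curv X (v : E n) : ℝ) : ℂ) := by
      rw [← Complex.ofReal_pow, Real.sq_sqrt (hp _ (hne v))]
    push_cast
    rw [← h6]
    linear_combination ((cc n : ℂ) ^ 2 * ((Real.sqrt (curv X (v : E n)) : ℝ) : ℂ) ^ 2) * h5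
  rw [← hval]
  refine tendsto_integral_filter_of_dominated_convergence (fun _ => cc n * Real.sqrt C * C') ?_ ?_
    (integrable_const _) ?_
  · refine Filter.Eventually.of_forall fun T => ?_
    refine AEStronglyMeasurable.mul (Measurable.aestronglyMeasurable ?_)
      (AEStronglyMeasurable.mul aestronglyMeasurable_const ?_)
    · exact (Complex.measurable_ofReal.comp ((curv_meas_sph X).sqrt.const_mul _)).mul measurable_const
    · refine StronglyMeasurable.aestronglyMeasurable ?_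
      refine StronglyMeasurable.integral_prod_right (f := fun (v : sphere (0 : E n) 1) (x : E n) =>
        (Real.Gamma (kap n + 1) : ℂ) * (1 + Complex.I * ((T * (h (v : E n) - ⟪x, (v : E n)⟫) : ℝ) : ℂ)) ^
        (-((kap n + 1 : ℝ) : ℂ))) ?_
      refine Measurable.stronglyMeasurable ?_
      refine Measurable.const_mul ?_ _
      refine Measurable.pow_const ?_ _
      exact Continuous.measurable (by fun_prop)
  · filter_upwards [Filter.eventually_gt_atTop 0] with T hT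
    refine Filter.Eventually.of_forall fun v => ?_
    have hv := g11_sph_norm v
    have h7 := hC' (v : E n) hv T hT
    have h8 : ‖Complex.exp (-(Complex.I * (ph n : ℂ)))‖ = 1 := by
      rw [Complex.norm_exp]
      simp
    rw [norm_mul, norm_mul, h8, mul_one, Complex.norm_real, Real.norm_of_nonneg
      (mul_nonneg (g11_cc n).1 (Real.sqrt_nonneg _))]
    refine mul_le_mul ?_ h7 (norm_nonneg _) (mul_nonneg (g11_cc n).1 (Real.sqrt_nonneg _))
    exact mul_le_mul_of_nonneg_left (Real.sqrt_le_sqrt (hC _ (hne v))) (g11_cc n).1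
  · filter_upwards [ae_reg_sph hn hG] with v hv
    exact (hlim (v : E n) (g11_sph_norm v) hv).const_mul _

theorem wG11 (hn : 2 ≤ n) (hG : Wk K h X) :
  (∀ T : ℝ, 0 < T → Integrable (fun ξ : E n => Real.exp (-(‖ξ‖ / T)) * (‖ξ‖ ^ 2 * ‖FK K ξ - Mhat h X ξ‖ ^ 2))) ∧
  Tendsto (fun T : ℝ => T⁻¹ * ∫ ξ : E n, Real.exp (-(‖ξ‖ / T)) * (‖ξ‖ ^ 2 * ‖FK K ξ - Mhat h X ξ‖ ^ 2))
    atTop (𝓝 0) := by
  have hm := w11_M1_meas hn hG
  have hmn := g11_neg_meas _ hm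
  obtain ⟨hFc, _, hFneg⟩ := g11_FK K hG.compact
  have hFm : AEStronglyMeasurable (FK K) volume := hFc.aestronglyMeasurable
  have hmc : AEStronglyMeasurable (fun ξ => (starRingEnd ℂ) (M1 h X ξ)) volume :=
    Complex.continuous_conj.comp_aestronglyMeasurable hm
  have hWneg : ∀ T : ℝ, ∀ ξ : E n, W T (-ξ) = W T ξ := by
    intro T ξ
    unfold W
    rw [norm_neg]
  have hexp : ∀ T : ℝ, ∀ ξ : E n, Real.exp (-(‖ξ‖ / T)) * (‖ξ‖ ^ 2 * ‖FK K ξ - Mhat h X ξ‖ ^ 2) =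
      W T ξ * ‖FK K ξ‖ ^ 2 + W T ξ * ‖M1 h X ξ‖ ^ 2 + W T ξ * ‖M1 h X (-ξ)‖ ^ 2 -
      2 * (((W T ξ : ℝ) : ℂ) * (FK K ξ * (starRingEnd ℂ) (M1 h X ξ))).re -
      2 * (((W T ξ : ℝ) : ℂ) * (FK K ξ * M1 h X (-ξ))).re +
      2 * (((W T ξ : ℝ) : ℂ) * (M1 h X ξ * M1 h X (-ξ))).re := by
    intro T ξ
    rw [g11_split, g11_expand, Complex.re_ofReal_mul, Complex.re_ofReal_mul, Complex.re_ofReal_mul,
      W]
    ring
  have hI : ∀ T : ℝ, 0 < T →
      Integrable (fun ξ : E n => W T ξ * ‖FK K ξ‖ ^ 2) ∧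
      Integrable (fun ξ : E n => W T ξ * ‖M1 h X ξ‖ ^ 2) ∧
      Integrable (fun ξ : E n => W T ξ * ‖M1 h X (-ξ)‖ ^ 2) ∧
      Integrable (fun ξ : E n => ((W T ξ : ℝ) : ℂ) * (FK K ξ * (starRingEnd ℂ) (M1 h X ξ))) ∧
      Integrable (fun ξ : E n => ((W T ξ : ℝ) : ℂ) * (FK K ξ * M1 h X (-ξ))) ∧
      Integrable (fun ξ : E n => ((W T ξ : ℝ) : ℂ) * (M1 h X ξ * M1 h X (-ξ))) := by
    intro T hT
    have i1 := w11_intF hn hG T hT
    have i2 := w11_intM hn hG T hT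
    have i3 : Integrable (fun ξ : E n => W T ξ * ‖M1 h X (-ξ)‖ ^ 2) := by
      refine i2.comp_neg.congr (Filter.Eventually.of_forall fun ξ => ?_)
      simp only [hWneg]
    refine ⟨i1, i2, i3, g11_intProd T _ _ hFm hmc i1 ?_, g11_intProd T _ _ hFm hmn i1 i3,
      g11_intProd T _ _ hm hmn i2 i3⟩
    refine i2.congr (Filter.Eventually.of_forall fun ξ => ?_)
    simp
  have hInt : ∀ T : ℝ, 0 < T → Integrable (fun ξ : E n => Real.exp (-(‖ξ‖ / T)) *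
      (‖ξ‖ ^ 2 * ‖FK K ξ - Mhat h X ξ‖ ^ 2)) := by
    intro T hT
    obtain ⟨i1, i2, i3, i4, i5, i6⟩ := hI T hT
    have := ((((i1.add i2).add i3).sub (i4.re.const_mul 2)).sub (i5.re.const_mul 2)).add
      (i6.re.const_mul 2)
    exact this.congr (Filter.Eventually.of_forall fun ξ => (hexp T ξ).symm)
  refine ⟨hInt, ?_⟩
  set S : ℝ := ∫ v : sphere (0 : E n) 1, curv X v ∂(sph n) with hS
  have hD : ∀ T : ℝ, 0 < T → T⁻¹ * ∫ ξ : E n, Real.exp (-(‖ξ‖ / T)) *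
      (‖ξ‖ ^ 2 * ‖FK K ξ - Mhat h X ξ‖ ^ 2) =
      T⁻¹ * (∫ ξ : E n, Real.exp (-(‖ξ‖ / T)) * (‖ξ‖ ^ 2 * ‖FK K ξ‖ ^ 2)) + 2 * (cc n ^ 2 * S) -
      4 * (((T⁻¹ : ℝ) : ℂ) * ∫ ξ : E n, ((W T ξ : ℝ) : ℂ) *
        (FK K ξ * (starRingEnd ℂ) (M1 h X ξ))).re +
      2 * (((T⁻¹ : ℝ) : ℂ) * ∫ ξ : E n, ((W T ξ : ℝ) : ℂ) * (M1 h X ξ * M1 h X (-ξ))).re := by
    intro T hT
    obtain ⟨i1, i2, i3, i4, i5, i6⟩ := hI T hT
    have e0 : ∫ ξ : E n, Real.exp (-(‖ξ‖ / T)) * (‖ξ‖ ^ 2 * ‖FK K ξ‖ ^ 2) =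
        ∫ ξ : E n, W T ξ * ‖FK K ξ‖ ^ 2 := by
      congr 1
      funext ξ
      rw [W]
      ring
    have e3 : ∫ ξ : E n, W T ξ * ‖M1 h X (-ξ)‖ ^ 2 = ∫ ξ : E n, W T ξ * ‖M1 h X ξ‖ ^ 2 := by
      rw [← integral_neg_eq_self (fun ξ : E n => W T ξ * ‖M1 h X ξ‖ ^ 2)]
      simp only [hWneg]
    have e5 : ∫ ξ : E n, ((W T ξ : ℝ) : ℂ) * (FK K ξ * M1 h X (-ξ)) =
        (starRingEnd ℂ) (∫ ξ : E n, ((W T ξ : ℝ) : ℂ) * (FK K ξ * (starRingEnd ℂ) (M1 h X ξ))) := by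
      rw [← integral_neg_eq_self, ← integral_conj]
      congr 1
      funext ξ
      rw [neg_neg, hWneg, hFneg, map_mul, map_mul, Complex.conj_ofReal, Complex.conj_conj]
    have r4 : ∫ ξ : E n, (((W T ξ : ℝ) : ℂ) * (FK K ξ * (starRingEnd ℂ) (M1 h X ξ))).re =
        (∫ ξ : E n, ((W T ξ : ℝ) : ℂ) * (FK K ξ * (starRingEnd ℂ) (M1 h X ξ))).re := integral_re i4
    have r5 : ∫ ξ : E n, (((W T ξ : ℝ) : ℂ) * (FK K ξ * M1 h X (-ξ))).re =
        (∫ ξ : E n, ((W T ξ : ℝ) : ℂ) * (FK K ξ * M1 h X (-ξ))).re := integral_re i5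
    have r6 : ∫ ξ : E n, (((W T ξ : ℝ) : ℂ) * (M1 h X ξ * M1 h X (-ξ))).re =
        (∫ ξ : E n, ((W T ξ : ℝ) : ℂ) * (M1 h X ξ * M1 h X (-ξ))).re := integral_re i6
    have i4' : Integrable (fun ξ : E n => (((W T ξ : ℝ) : ℂ) *
      (FK K ξ * (starRingEnd ℂ) (M1 h X ξ))).re) := i4.re
    have i5' : Integrable (fun ξ : E n => (((W T ξ : ℝ) : ℂ) * (FK K ξ * M1 h X (-ξ))).re) := i5.re
    have i6' : Integrable (fun ξ : E n => (((W T ξ : ℝ) : ℂ) * (M1 h X ξ * M1 h X (-ξ))).re) := i6.re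
    have j1 : Integrable (fun ξ : E n => W T ξ * ‖FK K ξ‖ ^ 2 + W T ξ * ‖M1 h X ξ‖ ^ 2) := i1.add i2
    have j2 : Integrable (fun ξ : E n => W T ξ * ‖FK K ξ‖ ^ 2 + W T ξ * ‖M1 h X ξ‖ ^ 2 +
      W T ξ * ‖M1 h X (-ξ)‖ ^ 2) := j1.add i3
    have j3 : Integrable (fun ξ : E n => W T ξ * ‖FK K ξ‖ ^ 2 + W T ξ * ‖M1 h X ξ‖ ^ 2 +
      W T ξ * ‖M1 h X (-ξ)‖ ^ 2 -
      2 * (((W T ξ : ℝ) : ℂ) * (FK K ξ * (starRingEnd ℂ) (M1 h X ξ))).re) :=
      j2.sub (i4'.const_mul 2)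
    have j4 : Integrable (fun ξ : E n => W T ξ * ‖FK K ξ‖ ^ 2 + W T ξ * ‖M1 h X ξ‖ ^ 2 +
      W T ξ * ‖M1 h X (-ξ)‖ ^ 2 -
      2 * (((W T ξ : ℝ) : ℂ) * (FK K ξ * (starRingEnd ℂ) (M1 h X ξ))).re -
      2 * (((W T ξ : ℝ) : ℂ) * (FK K ξ * M1 h X (-ξ))).re) := j3.sub (i5'.const_mul 2)
    simp_rw [hexp T]
    rw [integral_add j4 (i6'.const_mul 2), integral_sub j3 (i5'.const_mul 2),
      integral_sub j2 (i4'.const_mul 2), integral_add j1 i3,
      integral_add i1 i2, integral_const_mul, integral_const_mul, integral_const_mul, r4, r5, r6,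
      e5, e3, e0, w11_M hn hG T hT, Complex.conj_re, Complex.re_ofReal_mul,
      Complex.re_ofReal_mul, ← hS]
    field_simp
    ring
  have hx := (Complex.continuous_re.tendsto _).comp (w11_FM hn hG)
  have hy := (Complex.continuous_re.tendsto _).comp (w11_MM hn hG)
  rw [Complex.ofReal_re] at hx
  rw [Complex.zero_re] at hy
  rw [Metric.tendsto_nhds]
  intro η hη
  have hcc := (g11_cc n).2
  filter_upwards [wG9 hn hG (η / 4) (by positivity), Filter.eventually_gt_atTop 0,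
    (tendsto_order.1 hx).1 (cc n ^ 2 * S - η / 16) (by linarith),
    (tendsto_order.1 hy).2 (η / 8) (by positivity)] with T h1 hT h2 h3'
  have hnn : 0 ≤ T⁻¹ * ∫ ξ : E n, Real.exp (-(‖ξ‖ / T)) *
      (‖ξ‖ ^ 2 * ‖FK K ξ - Mhat h X ξ‖ ^ 2) := by
    refine mul_nonneg (inv_nonneg.2 hT.le) (integral_nonneg fun ξ => ?_)
    positivity
  rw [Real.dist_eq, sub_zero, abs_of_nonneg hnn, hD T hT]
  simp only [Function.comp_apply] at h2 h3'
  rw [← hcc, ← hS] at h1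
  linarith

end

end Pool.Agent.H878R2.Cov
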