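import Mathlib
import Pool.Agent.H878R2.Cov.G11
import Pool.Agent.Helper890.Cov.JF0
import Pool.Agent.Helper890.Cov.JF3

open MeasureTheory Set Filter Topology Metric
open scoped RealInnerProductSpace Pointwise

namespace Pool.Agent.H878R2.Cov
open Pool.Agent.Helper890.Cov Pool.Agent.Helper890.Cov.JF3

/-- from a.e. on the sphere to a.e. in space -/
theorem ae_of_sph {n : ℕ} (hn : 2 ≤ n) {p : E n → Prop} (hm : MeasurableSet {u | p u})
    (hp : ∀ᵐ v : sphere (0 : E n) 1 ∂(sph n), p (v : E n))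
    (hs : ∀ (r : ℝ) (u : E n), 0 < r → u ≠ 0 → p u → p (r • u)) : ∀ᵐ u : E n, p u := by
  have hP := (JP.stP n hn).2.2 ({u | p u}ᶜ.indicator 1) (measurable_one.indicator hm.compl)
  rw [lintegral_indicator_one hm.compl] at hP
  have h0 : ∫⁻ v : sphere (0 : E n) 1, (∫⁻ r in Ioi (0 : ℝ), ENNReal.ofReal (r ^ (n - 1)) *
      {u | p u}ᶜ.indicator (1 : E n → ENNReal) (r • (v : E n))) ∂(sph n) = 0 := by
    rw [lintegral_eq_zero_of_ae_eq_zero]
    filter_upwards [hp] with v hv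
    have h1 : ∀ r ∈ Ioi (0:ℝ), ENNReal.ofReal (r ^ (n - 1)) *
      {u | p u}ᶜ.indicator (1 : E n → ENNReal) (r • (v : E n)) = 0 := by
      intro r hr
      have h2 : r • (v : E n) ∉ {u | p u}ᶜ := fun h => h (hs r v hr (sph_ne v) hv)
      rw [indicator_of_notMem h2, mul_zero]
    rw [setLIntegral_congr_fun measurableSet_Ioi h1]
    simp
  rw [h0] at hP
  exact hP

theorem wF3 {n : ℕ} (hn : 2 ≤ n) {K H : Set (E n)} {hK hH : E n → ℝ} {XK XH : E n → E n}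
    (gK : Wk K hK XK) (gH : Wk H hH XH) (hcov : ∀ x, covg K x = covg H x)
    (hw : ∀ u, u ≠ 0 → hK u + hK (-u) = hH u + hH (-u)) :
    ∀ᵐ u : E n, curv XK u + curv XK (-u) = curv XH u + curv XH (-u) ∧
      curv XK u * curv XK (-u) = curv XH u * curv XH (-u) := by
  haveI : Nonempty (Fin n) := ⟨⟨0, by omega⟩⟩
  have cK := curv_meas XK
  have cH := curv_meas XH
  obtain ⟨pK, CK, hCK0, hCK'⟩ := w11_bd hn gK
  obtain ⟨pH, CH, hCH0, hCH'⟩ := w11_bd hn gH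
  have hCK : ∀ u : E n, u ≠ 0 → |curv XK u| ≤ CK := fun u hu => by
    rw [abs_of_nonneg (pK u hu)]; exact hCK' u hu
  have hCH : ∀ u : E n, u ≠ 0 → |curv XH u| ≤ CH := fun u hu => by
    rw [abs_of_nonneg (pH u hu)]; exact hCH' u hu
  have oK : ∀ (r : ℝ) (u : E n), 0 < r → u ≠ 0 → curv XK (r • u) = curv XK u :=
    fun r u hr hu => curv_smul gK hr hu
  have oH : ∀ (r : ℝ) (u : E n), 0 < r → u ≠ 0 → curv XH (r • u) = curv XH u :=
    fun r u hr hu => curv_smul gH hr hu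
  have hcK := gK.conth
  have hcH := gH.conth
  have hpK : ∀ u : E n, u ≠ 0 → 0 < hK u := fun u hu => gK.hpos hu
  have cKn : Measurable (fun v => curv XK (-v)) := cK.comp measurable_neg
  have cHn : Measurable (fun v => curv XH (-v)) := cH.comp measurable_neg
  have oKn : ∀ (r : ℝ) (u : E n), 0 < r → u ≠ 0 → curv XK (-(r • u)) = curv XK (-u) := by
    intro r u hr hu
    rw [← smul_neg]
    exact oK r (-u) hr (neg_ne_zero.2 hu)
  have oHn : ∀ (r : ℝ) (u : E n), 0 < r → u ≠ 0 → curv XH (-(r • u)) = curv XH (-u) := by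
    intro r u hr hu
    rw [← smul_neg]
    exact oH r (-u) hr (neg_ne_zero.2 hu)
  let D0 : E n → ℝ := fun v => curv XK v + curv XK (-v) - (curv XH v + curv XH (-v))
  let D1 : E n → ℝ := fun v =>
    √(curv XK v) * √(curv XK (-v)) - √(curv XH v) * √(curv XH (-v))
  let w : E n → ℝ := fun v => hK v + hK (-v)
  have cD0 : Measurable D0 := (cK.add cKn).sub (cH.add cHn)
  have cD1 : Measurable D1 := (cK.sqrt.mul cKn.sqrt).sub (cH.sqrt.mul cHn.sqrt)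
  have cw : Continuous w := hcK.add (hcK.comp continuous_neg)
  have oD0 : ∀ (r : ℝ) (u : E n), 0 < r → u ≠ 0 → D0 (r • u) = D0 u := by
    intro r u hr hu
    simp only [D0]
    rw [oK r u hr hu, oKn r u hr hu, oH r u hr hu, oHn r u hr hu]
  have oD1 : ∀ (r : ℝ) (u : E n), 0 < r → u ≠ 0 → D1 (r • u) = D1 u := by
    intro r u hr hu
    simp only [D1]
    rw [oK r u hr hu, oKn r u hr hu, oH r u hr hu, oHn r u hr hu]
  have ow : ∀ (r : ℝ) (u : E n), 0 < r → w (r • u) = r * w u := by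
    intro r u hr
    simp only [w]
    rw [← smul_neg, gK.homog r u hr.le, gK.homog r (-u) hr.le]
    ring
  let α : ℝ := 2 * ph n
  let N : E n → ℝ := fun ξ => D0 ξ + 2 * D1 ξ * Real.cos (w ξ + α)
  have cN : Measurable N := cD0.add ((cD1.const_mul 2).mul
    (Real.continuous_cos.comp (cw.add continuous_const)).measurable)
  obtain ⟨B0, hB0⟩ : ∃ C, ∀ u, u ≠ 0 → |D0 u| ≤ C := by
    refine ⟨2 * CK + 2 * CH, fun u hu => ?_⟩
    have a1 := hCK' u hu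
    have a2 := hCK' (-u) (neg_ne_zero.2 hu)
    have a3 := hCH' u hu
    have a4 := hCH' (-u) (neg_ne_zero.2 hu)
    have b1 := pK u hu
    have b2 := pK (-u) (neg_ne_zero.2 hu)
    have b3 := pH u hu
    have b4 := pH (-u) (neg_ne_zero.2 hu)
    simp only [D0]
    rw [abs_le]
    constructor <;> linarith
  obtain ⟨B1, hB1⟩ : ∃ C, ∀ u, u ≠ 0 → |D1 u| ≤ C := by
    refine ⟨CK + CH, fun u hu => ?_⟩
    have a1 := hCK' u hu
    have a2 := hCK' (-u) (neg_ne_zero.2 hu)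
    have a3 := hCH' u hu
    have a4 := hCH' (-u) (neg_ne_zero.2 hu)
    have b1 := pK u hu
    have b2 := pK (-u) (neg_ne_zero.2 hu)
    have b3 := pH u hu
    have b4 := pH (-u) (neg_ne_zero.2 hu)
    have k1 : √(curv XK u) * √(curv XK (-u)) ≤ CK := by
      nlinarith [sq_nonneg (√(curv XK u) - √(curv XK (-u))), Real.sq_sqrt b1, Real.sq_sqrt b2]
    have k2 : √(curv XH u) * √(curv XH (-u)) ≤ CH := by
      nlinarith [sq_nonneg (√(curv XH u) - √(curv XH (-u))), Real.sq_sqrt b3, Real.sq_sqrt b4]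
    have k3 : 0 ≤ √(curv XK u) * √(curv XK (-u)) := by positivity
    have k4 : 0 ≤ √(curv XH u) * √(curv XH (-u)) := by positivity
    simp only [D1]
    rw [abs_le]
    constructor <;> linarith
  let SK : E n → ℝ := fun ξ => curv XK ξ + curv XK (-ξ) +
    2 * (√(curv XK ξ) * √(curv XK (-ξ))) * Real.cos (hK ξ + hK (-ξ) + 2 * ph n)
  let SH : E n → ℝ := fun ξ => curv XH ξ + curv XH (-ξ) +
    2 * (√(curv XH ξ) * √(curv XH (-ξ))) * Real.cos (hH ξ + hH (-ξ) + 2 * ph n)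
  have hSN : ∀ ξ, ξ ≠ 0 → SK ξ - SH ξ = N ξ := by
    intro ξ hξ
    simp only [SK, SH, N, D0, D1, w, α]
    rw [← hw ξ hξ]
    ring
  have hcc : 0 < cc n := by unfold cc; positivity
  let S0 : ℝ := 4 * CK + 4 * CH
  let C1 : ℝ := 4 * S0 / cc n ^ 2
  have hpt : ∀ ξ : E n, ξ ≠ 0 → (‖ξ‖ ^ (n - 1))⁻¹ * N ξ ^ 2 ≤
      C1 * (‖ξ‖ ^ 2 * ‖FK K ξ - Mhat hK XK ξ‖ ^ 2) +
      C1 * (‖ξ‖ ^ 2 * ‖FK H ξ - Mhat hH XH ξ‖ ^ 2) := by
    intro ξ hξ
    have hξn : -ξ ≠ 0 := neg_ne_zero.2 hξ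
    have hnξ : 0 < ‖ξ‖ := norm_pos_iff.2 hξ
    have m1 : ‖Mhat hK XK ξ‖ ^ 2 = (cc n * ‖ξ‖ ^ (-kap n)) ^ 2 * SK ξ :=
      stF3_Mhat hK XK ξ (pK ξ hξ) (pK _ hξn)
    have m2 : ‖Mhat hH XH ξ‖ ^ 2 = (cc n * ‖ξ‖ ^ (-kap n)) ^ 2 * SH ξ :=
      stF3_Mhat hH XH ξ (pH ξ hξ) (pH _ hξn)
    have e1 : |‖Mhat hK XK ξ‖ - ‖FK K ξ‖| ≤ ‖FK K ξ - Mhat hK XK ξ‖ := by
      rw [norm_sub_rev]
      exact abs_norm_sub_norm_le _ _
    have e2 : |‖Mhat hH XH ξ‖ - ‖FK K ξ‖| ≤ ‖FK H ξ - Mhat hH XH ξ‖ := by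
      rw [stF3_FK JF0.stF0 (by omega) K H gK.compact gH.compact hcov ξ, norm_sub_rev]
      exact abs_norm_sub_norm_le _ _
    have hS : SK ξ + SH ξ ≤ S0 := by
      have s1 : SK ξ ≤ 4 * CK := stF3_Sb (pK ξ hξ) (pK _ hξn)
        ((le_abs_self _).trans (hCK ξ hξ)) ((le_abs_self _).trans (hCK _ hξn))
      have s2 : SH ξ ≤ 4 * CH := stF3_Sb (pH ξ hξ) (pH _ hξn)
        ((le_abs_self _).trans (hCH ξ hξ)) ((le_abs_self _).trans (hCH _ hξn))
      simp only [S0]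
      linarith
    have b := stF3_alg (c := cc n * ‖ξ‖ ^ (-kap n)) (by positivity) (norm_nonneg _)
      (norm_nonneg _) e1 e2 m1 m2 hS
    rw [hSN ξ hξ] at b
    have r := stF3_rpow (n := n) ‖ξ‖ hnξ
    have e3 : ‖ξ‖ ^ (n + 1) = ‖ξ‖ ^ (n - 1) * ‖ξ‖ ^ 2 := by
      rw [← pow_add]
      congr 1
      omega
    have q : 0 < ‖ξ‖ ^ (n - 1) := by positivity
    have b2 : cc n ^ 2 * N ξ ^ 2 ≤ 4 * S0 * (‖FK K ξ - Mhat hK XK ξ‖ ^ 2 +
        ‖FK H ξ - Mhat hH XH ξ‖ ^ 2) * ‖ξ‖ ^ (n + 1) := by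
      calc cc n ^ 2 * N ξ ^ 2
          = cc n ^ 2 * N ξ ^ 2 * ((‖ξ‖ ^ (-kap n)) ^ 2 * ‖ξ‖ ^ (n + 1)) := by rw [r, mul_one]
        _ = ((cc n * ‖ξ‖ ^ (-kap n)) ^ 2 * N ξ ^ 2) * ‖ξ‖ ^ (n + 1) := by ring
        _ ≤ _ := mul_le_mul_of_nonneg_right b (by positivity)
    rw [e3] at b2
    have b3 := mul_le_mul_of_nonneg_left b2
      (show 0 ≤ (cc n ^ 2)⁻¹ * (‖ξ‖ ^ (n - 1))⁻¹ by positivity)
    have l1 : (cc n ^ 2)⁻¹ * (‖ξ‖ ^ (n - 1))⁻¹ * (cc n ^ 2 * N ξ ^ 2) =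
        (‖ξ‖ ^ (n - 1))⁻¹ * N ξ ^ 2 := by
      field_simp
    have l2 : (cc n ^ 2)⁻¹ * (‖ξ‖ ^ (n - 1))⁻¹ * (4 * S0 * (‖FK K ξ - Mhat hK XK ξ‖ ^ 2 +
        ‖FK H ξ - Mhat hH XH ξ‖ ^ 2) * (‖ξ‖ ^ (n - 1) * ‖ξ‖ ^ 2)) =
        C1 * (‖ξ‖ ^ 2 * ‖FK K ξ - Mhat hK XK ξ‖ ^ 2) +
        C1 * (‖ξ‖ ^ 2 * ‖FK H ξ - Mhat hH XH ξ‖ ^ 2) := by
      simp only [C1]
      field_simp
    rw [l1, l2] at b3
    exact b3
  let G : ℝ → E n → ℝ := fun T ξ => Real.exp (-(‖ξ‖ / T)) * ((‖ξ‖ ^ (n - 1))⁻¹ * N ξ ^ 2)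
  let gK' : ℝ → E n → ℝ := fun T ξ =>
    Real.exp (-(‖ξ‖ / T)) * (‖ξ‖ ^ 2 * ‖FK K ξ - Mhat hK XK ξ‖ ^ 2)
  let gH' : ℝ → E n → ℝ := fun T ξ =>
    Real.exp (-(‖ξ‖ / T)) * (‖ξ‖ ^ 2 * ‖FK H ξ - Mhat hH XH ξ‖ ^ 2)
  obtain ⟨iK, tK⟩ := wG11 hn gK
  obtain ⟨iH, tH⟩ := wG11 hn gH
  have hae : ∀ᵐ ξ : E n, ξ ≠ 0 := by
    have := (measure_eq_zero_iff_ae_notMem (μ := (volume : Measure (E n)))).1
      (measure_singleton (0 : E n))
    filter_upwards [this] with ξ hξ h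
    exact hξ h
  have hGle : ∀ T, ∀ ξ, ξ ≠ 0 → G T ξ ≤ C1 * gK' T ξ + C1 * gH' T ξ := by
    intro T ξ hξ
    have := mul_le_mul_of_nonneg_left (hpt ξ hξ) (Real.exp_pos (-(‖ξ‖ / T))).le
    simp only [G, gK', gH']
    calc _ ≤ _ := this
      _ = _ := by ring
  have hG0 : ∀ T ξ, 0 ≤ G T ξ := by
    intro T ξ
    simp only [G]
    positivity
  have hGm : ∀ T, AEStronglyMeasurable (G T) volume := by
    intro T
    refine Measurable.aestronglyMeasurable ?_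
    refine Measurable.mul (Continuous.measurable (by fun_prop)) ?_
    exact (measurable_norm.pow_const _).inv.mul (cN.pow_const 2)
  have hGi : ∀ T, 0 < T → Integrable (G T) := by
    intro T hT
    refine Integrable.mono' (((iK T hT).const_mul C1).add ((iH T hT).const_mul C1)) (hGm T) ?_
    filter_upwards [hae] with ξ hξ
    rw [Real.norm_eq_abs, abs_of_nonneg (hG0 T ξ)]
    exact hGle T ξ hξ
  have hGint : ∀ T, 0 < T → ∫ ξ, G T ξ ≤ C1 * (∫ ξ, gK' T ξ) + C1 * ∫ ξ, gH' T ξ := by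
    intro T hT
    rw [← integral_const_mul, ← integral_const_mul,
      ← integral_add ((iK T hT).const_mul C1) ((iH T hT).const_mul C1)]
    apply integral_mono_ae (hGi T hT) (((iK T hT).const_mul C1).add ((iH T hT).const_mul C1))
    filter_upwards [hae] with ξ hξ
    exact hGle T ξ hξ
  have hvne : ∀ v : sphere (0 : E n) 1, (v : E n) ≠ 0 := by
    intro v h
    have := v.2
    rw [h] at this
    simp at this
  let R : ℝ → E n → ℝ := fun T v =>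
    4 * D0 v * D1 v * ((T⁻¹ * Real.cos α - w v * Real.sin α) / (T⁻¹ ^ 2 + w v ^ 2)) +
      2 * D1 v ^ 2 * ((T⁻¹ * Real.cos (2 * α) - (2 * w v) * Real.sin (2 * α)) /
        (T⁻¹ ^ 2 + (2 * w v) ^ 2))
  have hpol : ∀ T, 0 < T → ∫ ξ, G T ξ =
      ∫ v : sphere (0 : E n) 1, (T * (D0 v ^ 2 + 2 * D1 v ^ 2) + R T v) ∂(sph n) := by
    intro T hT
    rw [(JP.stP n hn).1 (G T) (hGi T hT)]
    congr 1
    funext v
    have hv := hvne v
    have hnv : ‖(v : E n)‖ = 1 := by simpa using v.2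
    have e := stF3_rad T⁻¹ (w v) α (D0 v) (D1 v) (inv_pos.2 hT)
    rw [inv_inv] at e
    refine Eq.trans ?_ e
    apply setIntegral_congr_fun measurableSet_Ioi
    intro r hr
    have hr' : 0 < r := hr
    have hnr : ‖r • (v : E n)‖ = r := by
      rw [norm_smul, hnv, mul_one, Real.norm_of_nonneg hr'.le]
    simp only [G, N]
    rw [hnr, oD0 r v hr' hv, oD1 r v hr' hv, ow r v hr']
    have q2 : -(r / T) = -(T⁻¹ * r) := by ring
    rw [q2]
    have q : r ^ (n - 1) ≠ 0 := by positivity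
    field_simp
  have cs : ∀ F : E n → ℝ, Measurable F →
      Measurable (fun v : sphere (0 : E n) 1 => F v) := fun F hF => hF.comp measurable_subtype_coe
  have cD0s := cs D0 cD0
  have cD1s := cs D1 cD1
  have cws : Measurable (fun v : sphere (0 : E n) 1 => w v) := cs w cw.measurable
  have hPc : Measurable (fun v : sphere (0 : E n) 1 => D0 v ^ 2 + 2 * D1 v ^ 2) :=
    (cD0s.pow_const 2).add ((cD1s.pow_const 2).const_mul 2)
  have hRc : ∀ T, 0 < T → Measurable (fun v : sphere (0 : E n) 1 => R T v) := by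
    intro T hT
    refine Measurable.add ?_ ?_
    · refine ((cD0s.const_mul 4).mul cD1s).mul (Measurable.div ?_ ?_)
      · exact measurable_const.sub (cws.mul_const _)
      · exact measurable_const.add (cws.pow_const 2)
    · refine ((cD1s.pow_const 2).const_mul 2).mul (Measurable.div ?_ ?_)
      · exact measurable_const.sub ((cws.const_mul 2).mul_const _)
      · exact measurable_const.add ((cws.const_mul 2).pow_const 2)
  have hPi : Integrable (fun v : sphere (0 : E n) 1 => D0 v ^ 2 + 2 * D1 v ^ 2) (sph n) := by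
    refine integrable_sph hPc.aestronglyMeasurable (B0 ^ 2 + 2 * B1 ^ 2) fun v => ?_
    have b0 := hB0 v (hvne v)
    have b1 := hB1 v (hvne v)
    have c0 : D0 v ^ 2 ≤ B0 ^ 2 := by rw [← sq_abs (D0 v)]; exact pow_le_pow_left₀ (abs_nonneg _) b0 2
    have c1 : D1 v ^ 2 ≤ B1 ^ 2 := by rw [← sq_abs (D1 v)]; exact pow_le_pow_left₀ (abs_nonneg _) b1 2
    rw [Real.norm_of_nonneg (by positivity)]
    linarith
  obtain ⟨w0, hw0, hwle⟩ : ∃ w0 : ℝ, 0 < w0 ∧ ∀ v ∈ sphere (0 : E n) 1, w0 ≤ w v := by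
    refine (isCompact_sphere (0 : E n) 1).exists_forall_le' cw.continuousOn (a := 0) ?_
    intro v hv
    have hv0 := hvne ⟨v, hv⟩
    exact add_pos (hpK v hv0) (hpK (-v) (neg_ne_zero.2 hv0))
  let CR : ℝ := 4 * B0 * B1 * (2 / w0) + 2 * B1 ^ 2 * (2 / w0)
  have hR : ∀ T, 0 < T → ∀ v : sphere (0 : E n) 1, ‖R T v‖ ≤ CR := by
    intro T hT v
    have b0 := hB0 v (hvne v)
    have b1 := hB1 v (hvne v)
    have n0 : 0 ≤ B0 := (abs_nonneg _).trans b0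
    have n1 : 0 ≤ B1 := (abs_nonneg _).trans b1
    have c1 := stF3_oscbd T⁻¹ (w v) w0 α (inv_pos.2 hT) hw0 (hwle v v.2)
    have c2 := stF3_oscbd T⁻¹ (2 * w v) w0 (2 * α) (inv_pos.2 hT) hw0
      (by linarith [hwle v v.2])
    rw [Real.norm_eq_abs]
    refine (abs_add_le _ _).trans (add_le_add ?_ ?_)
    · rw [abs_mul, abs_mul, abs_mul, abs_of_pos (show (0 : ℝ) < 4 by norm_num)]
      exact mul_le_mul (mul_le_mul (mul_le_mul_of_nonneg_left b0 (by norm_num)) b1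
        (abs_nonneg _) (by positivity)) c1 (abs_nonneg _) (by positivity)
    · rw [abs_mul, abs_mul, abs_pow, abs_of_pos (show (0 : ℝ) < 2 by norm_num)]
      exact mul_le_mul (mul_le_mul_of_nonneg_left (pow_le_pow_left₀ (abs_nonneg _) b1 2)
        (by norm_num)) c2 (abs_nonneg _) (by positivity)
  have hRi : ∀ T, 0 < T → Integrable (fun v : sphere (0 : E n) 1 => R T v) (sph n) := fun T hT =>
    integrable_sph (hRc T hT).aestronglyMeasurable CR (hR T hT)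
  have hmain : ∀ T : ℝ, 0 < T →
      ∫ v : sphere (0 : E n) 1, (D0 v ^ 2 + 2 * D1 v ^ 2) ∂(sph n) ≤
      C1 * (T⁻¹ * ∫ ξ, gK' T ξ) + C1 * (T⁻¹ * ∫ ξ, gH' T ξ) +
        T⁻¹ * (CR * (sph n).real univ) := by
    intro T hT
    have e1 := hpol T hT
    rw [integral_add (hPi.const_mul T) (hRi T hT), integral_const_mul] at e1
    have e2 : ‖∫ v : sphere (0 : E n) 1, R T v ∂(sph n)‖ ≤ CR * (sph n).real univ :=
      norm_integral_le_of_norm_le_const (Eventually.of_forall (hR T hT))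
    have e3 := hGint T hT
    rw [Real.norm_eq_abs] at e2
    have e4 := (abs_le.1 e2).1
    have e5 : T * ∫ v : sphere (0 : E n) 1, (D0 v ^ 2 + 2 * D1 v ^ 2) ∂(sph n) ≤
        C1 * (∫ ξ, gK' T ξ) + C1 * (∫ ξ, gH' T ξ) + CR * (sph n).real univ := by
      linarith
    have e6 := mul_le_mul_of_nonneg_left e5 (inv_nonneg.2 hT.le)
    rw [← mul_assoc, inv_mul_cancel₀ hT.ne', one_mul] at e6
    linarith
  have hlim : Tendsto (fun T : ℝ => C1 * (T⁻¹ * ∫ ξ, gK' T ξ) + C1 * (T⁻¹ * ∫ ξ, gH' T ξ) +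
      T⁻¹ * (CR * (sph n).real univ)) atTop
      (𝓝 (C1 * 0 + C1 * 0 + 0 * (CR * (sph n).real univ))) :=
    ((tK.const_mul C1).add (tH.const_mul C1)).add (tendsto_inv_atTop_zero.mul_const _)
  have hI : ∫ v : sphere (0 : E n) 1, (D0 v ^ 2 + 2 * D1 v ^ 2) ∂(sph n) ≤ 0 := by
    have h5 : ∀ᶠ T : ℝ in atTop, ∫ v : sphere (0 : E n) 1, (D0 v ^ 2 + 2 * D1 v ^ 2) ∂(sph n) ≤
        C1 * (T⁻¹ * ∫ ξ, gK' T ξ) + C1 * (T⁻¹ * ∫ ξ, gH' T ξ) +
        T⁻¹ * (CR * (sph n).real univ) := by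
      filter_upwards [eventually_gt_atTop 0] with T hT
      exact hmain T hT
    have := ge_of_tendsto hlim h5
    simpa using this
  have hnn : ∀ v : sphere (0 : E n) 1, 0 ≤ D0 v ^ 2 + 2 * D1 v ^ 2 := fun v => by positivity
  have hI0 : ∫ v : sphere (0 : E n) 1, (D0 v ^ 2 + 2 * D1 v ^ 2) ∂(sph n) = 0 :=
    le_antisymm hI (integral_nonneg hnn)
  have hae0 := (integral_eq_zero_iff_of_nonneg hnn hPi).1 hI0
  have hfin : ∀ᵐ u : E n, D0 u = 0 ∧ D1 u = 0 := by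
    refine ae_of_sph hn ((measurableSet_eq_fun cD0 measurable_const).inter
      (measurableSet_eq_fun cD1 measurable_const)) ?_ ?_
    · filter_upwards [hae0] with v hv
      have h7 : D0 v ^ 2 + 2 * D1 v ^ 2 = 0 := hv
      have h8 : D0 v = 0 := by
        have : D0 v ^ 2 = 0 := by nlinarith [sq_nonneg (D0 v), sq_nonneg (D1 v)]
        simpa using this
      have h9 : D1 v = 0 := by
        have : D1 v ^ 2 = 0 := by nlinarith [sq_nonneg (D0 v), sq_nonneg (D1 v)]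
        simpa using this
      exact ⟨h8, h9⟩
    · rintro r u hr hu ⟨h1, h2⟩
      exact ⟨(oD0 r u hr hu).trans h1, (oD1 r u hr hu).trans h2⟩
  filter_upwards [hfin, hae] with u h8 hu
  obtain ⟨h8, h9⟩ := h8
  refine ⟨sub_eq_zero.1 h8, ?_⟩
  have h10 : √(curv XK u) * √(curv XK (-u)) = √(curv XH u) * √(curv XH (-u)) :=
    sub_eq_zero.1 h9
  have hun : -u ≠ 0 := neg_ne_zero.2 hu
  have h11' := congrArg (fun x => x ^ 2) h10
  simp only [mul_pow] at h11'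
  rw [Real.sq_sqrt (pK u hu), Real.sq_sqrt (pK _ hun), Real.sq_sqrt (pH u hu),
    Real.sq_sqrt (pH _ hun)] at h11'
  exact h11'


end Pool.Agent.H878R2.Cov
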