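import Mathlib
import Pool.Agent.H878R2.Cov.Wk
import Pool.Agent.Helper890.Cov.StF
import Pool.Agent.Helper890.Cov.JG0

open MeasureTheory Set Filter Topology Metric
open scoped RealInnerProductSpace Pointwise

namespace Pool.Agent.H878R2.Cov
open Pool.Agent.Helper890.Cov Pool.Agent.Helper890.Cov.JG0

theorem cov_pos {n : ℕ} {K : Set (E n)} (hKc : IsCompact K) (hKv : Convex ℝ K)
    (hK0 : (0 : E n) ∈ interior K) (a b : E n) (ha : a ∈ K) (hb : b ∈ K) (t : ℝ) (h0 : 0 ≤ t)
    (h1 : t < 1) : 0 < covg K (t • (a - b)) := by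
  have hint : ∀ c ∈ K, t • c ∈ interior K := by
    intro c hc
    have h2 := hKv.add_smul_mem_interior hc (y := -c) (by rw [add_neg_cancel]; exact hK0)
      (t := 1 - t) ⟨by linarith, by linarith⟩
    have e : c + (1 - t) • (-c) = t • c := by
      rw [sub_smul, one_smul, smul_neg]; abel
    rwa [e] at h2
  set x := t • (a - b) with hx
  set S : Set (E n) := interior K ∩ (fun y => y + x) '' interior K with hS
  have hSo : IsOpen S := isOpen_interior.inter ((Homeomorph.addRight x).isOpenMap _ isOpen_interior)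
  have hSn : S.Nonempty := by
    refine ⟨t • a, hint a ha, t • b, hint b hb, ?_⟩
    show t • b + x = t • a
    rw [hx, smul_sub]; abel
  have hsub : S ⊆ K ∩ (fun y => y + x) '' K :=
    inter_subset_inter interior_subset (image_mono interior_subset)
  have hpos : 0 < (volume : Measure (E n)) (K ∩ (fun y => y + x) '' K) :=
    lt_of_lt_of_le (hSo.measure_pos volume hSn) (measure_mono hsub)
  have hfin : (volume : Measure (E n)) (K ∩ (fun y => y + x) '' K) ≠ ⊤ :=
    ((measure_mono inter_subset_left).trans_lt hKc.measure_lt_top).ne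
  unfold covg
  exact ENNReal.toReal_pos hpos.ne' hfin

theorem width_le {n : ℕ} {K H : Set (E n)} (hKc : IsCompact K) (hKv : Convex ℝ K)
    (hK0 : (0 : E n) ∈ interior K) (hHc : IsCompact H) (hc : ∀ x, covg K x = covg H x) (u : E n) :
    sf K u + sf K (-u) ≤ sf H u + sf H (-u) := by
  have hne : K.Nonempty := ⟨0, interior_subset hK0⟩
  obtain ⟨a, ha, hau⟩ := stG0_ex hKc hne u
  obtain ⟨b, hb, hbu⟩ := stG0_ex hKc hne (-u)
  have hw : sf K u + sf K (-u) = ⟪a - b, u⟫ := by
    rw [← hau, ← hbu, inner_sub_left, inner_neg_right]; ring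
  have key : ∀ t : ℝ, 0 ≤ t → t < 1 → t * (sf K u + sf K (-u)) ≤ sf H u + sf H (-u) := by
    intro t h0 h1
    have hpos := cov_pos hKc hKv hK0 a b ha hb t h0 h1
    rw [hc] at hpos
    have hne : (H ∩ (fun y => y + t • (a - b)) '' H).Nonempty := by
      by_contra hcon
      rw [Set.not_nonempty_iff_eq_empty] at hcon
      unfold covg at hpos
      rw [hcon] at hpos
      simp at hpos
    obtain ⟨y, hy, z, hz, hzy⟩ := hne
    have e1 : ⟪y, u⟫ ≤ sf H u := stG0_le hHc hy u
    have e2 : ⟪z, -u⟫ ≤ sf H (-u) := stG0_le hHc hz (-u)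
    have e3 : ⟪y, u⟫ = ⟪z, u⟫ + t * ⟪a - b, u⟫ := by
      rw [← hzy, inner_add_left, real_inner_smul_left]
    rw [inner_neg_right] at e2
    rw [hw]
    linarith
  have hd : 0 ≤ sf H u + sf H (-u) := by
    have := key 0 le_rfl one_pos
    linarith
  by_contra hcon
  rw [not_le] at hcon
  set c := sf K u + sf K (-u)
  set d := sf H u + sf H (-u)
  have hc0 : 0 < c := lt_of_le_of_lt hd hcon
  have h2 := key ((c + d) / (2 * c)) (by positivity) (by rw [div_lt_one (by positivity)]; linarith)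
  have e : (c + d) / (2 * c) * c = (c + d) / 2 := by field_simp
  rw [e] at h2
  linarith

theorem Wk.sf_eq {n : ℕ} {K : Set (E n)} {h : E n → ℝ} {X : E n → E n} (g : Wk K h X) (u : E n) :
    sf K u = h u := by
  have hne : K.Nonempty := ⟨0, interior_subset g.zero_mem⟩
  apply le_antisymm
  · apply csSup_le (hne.image _)
    rintro _ ⟨y, hy, rfl⟩
    exact g.le y hy u
  · by_cases hu : u = 0
    · have h0 : h 0 = 0 := by
        have := g.homog 0 0 le_rfl
        rwa [zero_smul, zero_mul] at this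
      rw [hu, h0]
      have := stG0_le g.compact (interior_subset g.zero_mem) (0 : E n)
      rwa [inner_zero_left] at this
    · rw [← g.eq u hu]
      exact stG0_le g.compact (g.mem u hu) u

theorem width_eq {n : ℕ} {K H : Set (E n)} {hK : E n → ℝ} {XK : E n → E n} (gK : Wk K hK XK)
    (hHc : IsCompact H) (hHv : Convex ℝ H) (hH0 : (0 : E n) ∈ interior H)
    (hc : ∀ x, covg K x = covg H x) (u : E n) : hK u + hK (-u) = sf H u + sf H (-u) := by
  rw [← gK.sf_eq, ← gK.sf_eq]
  exact le_antisymm (width_le gK.compact gK.convex gK.zero_mem hHc hc u)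
    (width_le hHc hHv hH0 gK.compact (fun x => (hc x).symm) u)

section
variable {n : ℕ} {K H : Set (E n)} {hK : E n → ℝ} {XK : E n → E n}

/-- the difference of opposite support points is the support point of the difference body -/
theorem diff_pt (gK : Wk K hK XK) (hHc : IsCompact H)
    (hw : ∀ u, hK u + hK (-u) = sf H u + sf H (-u)) {u : E n} (hu : u ≠ 0) {x y : E n} (hx : x ∈ H)
    (hy : y ∈ H) (hxu : ⟪x, u⟫ = sf H u) (hyu : ⟪y, -u⟫ = sf H (-u)) : x - y = XK u - XK (-u) := by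
  have h1 : HasFDerivAt (fun v => hK v + hK (-v) - ⟪x - y, v⟫)
      (innerSL ℝ (XK u) + (innerSL ℝ (XK (-u))).comp (-(ContinuousLinearMap.id ℝ (E n))) -
        innerSL ℝ (x - y)) u :=
    ((gK.grad u hu).add ((gK.grad (-u) (neg_ne_zero.2 hu)).comp u (hasFDerivAt_id u).neg)).sub
      (innerSL ℝ (x - y)).hasFDerivAt
  have h2 : IsLocalMin (fun v => hK v + hK (-v) - ⟪x - y, v⟫) u := by
    refine Filter.Eventually.of_forall fun v => ?_
    have e1 := stG0_le hHc hx v
    have e2 := stG0_le hHc hy (-v)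
    rw [inner_neg_right] at e2 hyu
    show hK u + hK (-u) - ⟪x - y, u⟫ ≤ hK v + hK (-v) - ⟪x - y, v⟫
    rw [hw, hw, inner_sub_left, inner_sub_left]
    linarith
  have h3 := h2.hasFDerivAt_eq_zero h1
  apply ext_inner_right ℝ
  intro v
  have h4 := congrArg (fun T : E n →L[ℝ] ℝ => T v) h3
  simp at h4
  rw [inner_sub_left, inner_sub_left]

  linarith

/-- quadratic upper bound -/
theorem HR_up (gK : Wk K hK XK) (hHc : IsCompact H) (hHn : H.Nonempty)
    (hw : ∀ u, hK u + hK (-u) = sf H u + sf H (-u)) :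
    ∃ C : ℝ, 0 < C ∧ ∀ u v : E n, ‖u‖ = 1 → ‖v‖ = 1 → ∀ x ∈ H, ⟪x, u⟫ = sf H u →
      sf H v - ⟪x, v⟫ ≤ C * ‖u - v‖ ^ 2 := by
  obtain ⟨c, C, hc, hq⟩ := gK.quad
  refine ⟨2 * |C| + 1, by positivity, fun u v hu hv x hx hxu => ?_⟩
  have hu0 : u ≠ 0 := by rw [← norm_pos_iff, hu]; exact one_pos
  obtain ⟨y, hy, hyu⟩ := stG0_ex hHc hHn (-u)
  have hd := diff_pt gK hHc hw hu0 hx hy hxu hyu
  have q1 := (hq u v hu hv).2.1
  have q2 := (hq (-u) (-v) (by rwa [norm_neg]) (by rwa [norm_neg])).2.1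
  have e1 : ‖-u - -v‖ = ‖u - v‖ := by rw [← norm_neg]; congr 1; abel
  rw [e1, inner_neg_right] at q2
  have e2 := stG0_le hHc hy (-v)
  rw [inner_neg_right] at e2
  have e3 := hw v
  have e4 : ⟪x, v⟫ - ⟪y, v⟫ = ⟪XK u, v⟫ - ⟪XK (-u), v⟫ := by
    rw [← inner_sub_left, ← inner_sub_left, hd]
  have e5 : C * ‖u - v‖ ^ 2 ≤ |C| * ‖u - v‖ ^ 2 := by gcongr; exact le_abs_self C
  have e6 : 0 ≤ ‖u - v‖ ^ 2 := by positivity
  nlinarith

end

end Pool.Agent.H878R2.Cov
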