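import Mathlib
import Pool.Agent.H878R2.Cov.HR1

open MeasureTheory Set Filter Topology Metric
open scoped RealInnerProductSpace Pointwise

namespace Pool.Agent.H878R2.Cov
open Pool.Agent.Helper890.Cov Pool.Agent.Helper890.Cov.JG0

theorem sf_homog {n : ℕ} {H : Set (E n)} (hHc : IsCompact H) (hHn : H.Nonempty) (r : ℝ) (u : E n)
    (hr : 0 ≤ r) : sf H (r • u) = r * sf H u := by
  obtain ⟨x, hx, hxu⟩ := stG0_ex hHc hHn u
  obtain ⟨y, hy, hyu⟩ := stG0_ex hHc hHn (r • u)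
  apply le_antisymm
  · rw [← hyu, inner_smul_right]
    exact mul_le_mul_of_nonneg_left (stG0_le hHc hy u) hr
  · rw [← hxu, ← inner_smul_right]
    exact stG0_le hHc hx _

theorem sf_charac {n : ℕ} {H : Set (E n)} (hHc : IsCompact H) (hHv : Convex ℝ H) (hHn : H.Nonempty)
    (x : E n) (hx : ∀ u, ⟪x, u⟫ ≤ sf H u) : x ∈ H := by
  by_contra hxK
  obtain ⟨f, t, hf1, hf2⟩ := geometric_hahn_banach_closed_point hHv hHc.isClosed hxK
  set g : E n := (InnerProductSpace.toDual ℝ (E n)).symm f with hg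
  have hfg : ∀ y, f y = ⟪y, g⟫ := by
    intro y
    rw [real_inner_comm, hg]
    exact (InnerProductSpace.toDual_symm_apply).symm
  obtain ⟨y, hy, hyg⟩ := stG0_ex hHc hHn g
  have h1 := hf1 y hy
  have h2 := hx g
  rw [hfg] at h1 hf2
  rw [← hyg] at h2
  linarith

/-- from two-sided quadratic bounds to the working description -/
theorem mk_wk {n : ℕ} {H : Set (E n)} (hHc : IsCompact H) (hHv : Convex ℝ H)
    (hH0 : (0 : E n) ∈ interior H) {c C : ℝ} (hc : 0 < c) (hC : 0 < C)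
    (hup : ∀ u v : E n, ‖u‖ = 1 → ‖v‖ = 1 → ∀ x ∈ H, ⟪x, u⟫ = sf H u →
      sf H v - ⟪x, v⟫ ≤ C * ‖u - v‖ ^ 2)
    (hlo : ∀ u v : E n, ‖u‖ = 1 → ‖v‖ = 1 → ∀ x ∈ H, ⟪x, u⟫ = sf H u →
      c * ‖u - v‖ ^ 2 ≤ sf H v - ⟪x, v⟫) :
    ∃ XH : E n → E n, Wk H (sf H) XH := by
  have hHn : H.Nonempty := ⟨0, interior_subset hH0⟩
  choose m hm hmu using fun u => stG0_ex hHc hHn u
  obtain ⟨X, hX⟩ : ∃ X : E n → E n, X = fun u => m (‖u‖⁻¹ • u) := ⟨_, rfl⟩
  have hXmem : ∀ u, X u ∈ H := fun u => by rw [hX]; exact hm _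
  have hXn : ∀ u, ⟪X u, ‖u‖⁻¹ • u⟫ = sf H (‖u‖⁻¹ • u) := fun u => by rw [hX]; exact hmu _
  have hX1 : ∀ u : E n, ‖u‖ = 1 → ⟪X u, u⟫ = sf H u := by
    intro u hu
    have := hXn u
    rwa [hu, inv_one, one_smul] at this
  have hXe : ∀ u, u ≠ 0 → ⟪X u, u⟫ = sf H u := by
    intro u hu
    have hun : 0 < ‖u‖ := norm_pos_iff.2 hu
    have h1 := hXn u
    rw [sf_homog hHc hHn _ _ (by positivity), real_inner_smul_right] at h1
    exact mul_left_cancel₀ (inv_pos.2 hun).ne' h1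
  have hXh : ∀ (r : ℝ) (u : E n), 0 < r → u ≠ 0 → X (r • u) = X u := by
    intro r u hr hu
    rw [hX]
    simp only
    congr 1
    rw [norm_smul, Real.norm_of_nonneg hr.le, smul_smul]
    congr 1
    have hun : ‖u‖ ≠ 0 := norm_ne_zero_iff.2 hu
    field_simp
  -- general upper bound
  have hgen : ∀ u v : E n, u ≠ 0 → v ≠ 0 →
      sf H v - ⟪X u, v⟫ ≤ ‖v‖ * (C * (2 * ‖u - v‖ / ‖u‖) ^ 2) := by
    intro u v hu hv
    have hvn : 0 < ‖v‖ := norm_pos_iff.2 hv
    have h1 := hup (‖u‖⁻¹ • u) (‖v‖⁻¹ • v) (nrm_norm hu) (nrm_norm hv) (X u) (hXmem u) (hXn u)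
    have h2 := nrm_lip hu hv
    rw [sf_homog hHc hHn _ _ (by positivity), real_inner_smul_right, ← mul_sub] at h1
    have h3 : sf H v - ⟪X u, v⟫ = ‖v‖ * (‖v‖⁻¹ * (sf H v - ⟪X u, v⟫)) := by
      rw [← mul_assoc, mul_inv_cancel₀ hvn.ne', one_mul]
    rw [h3]
    refine mul_le_mul_of_nonneg_left (h1.trans ?_) hvn.le
    gcongr
  have hgrad : ∀ u, u ≠ 0 → HasFDerivAt (sf H) (innerSL ℝ (X u)) u := by
    intro u hu
    have hun : 0 < ‖u‖ := norm_pos_iff.2 hu
    have h1 : HasFDerivAt (fun v => sf H v - ⟪X u, v⟫) (0 : E n →L[ℝ] ℝ) u := by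
      have h2 : (fun v => sf H v - ⟪X u, v⟫) =O[𝓝 u] fun v => ‖v - u‖ ^ 2 := by
        refine Asymptotics.IsBigO.of_bound (2 * ‖u‖ * (C * (2 / ‖u‖) ^ 2)) ?_
        have e1 : ∀ᶠ v in 𝓝 u, v ≠ 0 := isOpen_compl_singleton.mem_nhds hu
        have e2 : ∀ᶠ v in 𝓝 u, ‖v‖ < 2 * ‖u‖ :=
          continuous_norm.continuousAt.eventually_lt_const (by linarith)
        filter_upwards [e1, e2] with v hv hv2
        have h3 := hgen u v hu hv
        have h4 := stG0_le hHc (hXmem u) v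
        rw [Real.norm_of_nonneg (by linarith), Real.norm_of_nonneg (by positivity)]
        refine h3.trans ?_
        have e3 : 2 * ‖u - v‖ / ‖u‖ = (2 / ‖u‖) * ‖v - u‖ := by
          rw [norm_sub_rev]; ring
        rw [e3, mul_pow]
        calc ‖v‖ * (C * ((2 / ‖u‖) ^ 2 * ‖v - u‖ ^ 2)) ≤
            (2 * ‖u‖) * (C * ((2 / ‖u‖) ^ 2 * ‖v - u‖ ^ 2)) := by gcongr
          _ = _ := by ring
      exact h2.hasFDerivAt (by norm_num)
    have h2 := h1.add (innerSL ℝ (X u)).hasFDerivAt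
    rw [zero_add] at h2
    refine h2.congr_of_eventuallyEq (Eventually.of_forall fun v => ?_)
    show sf H v = (sf H v - ⟪X u, v⟫) + (innerSL ℝ (X u)) v
    rw [innerSL_apply_apply]; ring
  obtain ⟨R, hR⟩ := hHc.isBounded.exists_norm_le
  have hR0 : 0 ≤ R := (norm_nonneg _).trans (hR _ (interior_subset hH0))
  have hlip : ∀ u v : E n, ‖u‖ = 1 → ‖v‖ = 1 → ‖X u - X v‖ ≤ (32 * C + 4 * R) * ‖u - v‖ := by
    intro u v hu hv
    have hu0 : u ≠ 0 := by rw [← norm_pos_iff, hu]; exact one_pos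
    have hv0 : v ≠ 0 := by rw [← norm_pos_iff, hv]; exact one_pos
    by_cases huv : u = v
    · subst huv
      rw [show X u - X u = 0 by simp, norm_zero]
      positivity
    have hδ : 0 < ‖u - v‖ := norm_pos_iff.2 (sub_ne_zero.2 huv)
    set δ := ‖u - v‖ with hδd
    by_cases hbig : 1 / 2 < δ
    · have h1 : ‖X u - X v‖ ≤ 2 * R := by
        refine (norm_sub_le _ _).trans ?_
        have := hR _ (hXmem u)
        have := hR _ (hXmem v)
        linarith
      have h2 : 0 ≤ C * δ := by positivity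
      nlinarith
    · push Not at hbig
      by_cases hX0 : X u = X v
      · rw [hX0, sub_self, norm_zero]; positivity
      have hD : 0 < ‖X v - X u‖ := norm_pos_iff.2 (sub_ne_zero.2 (Ne.symm hX0))
      set D := ‖X v - X u‖ with hDd
      set e : E n := D⁻¹ • (X v - X u) with he
      have hen : ‖e‖ = 1 := by
        rw [he, norm_smul, norm_inv, Real.norm_of_nonneg hD.le, ← hDd, inv_mul_cancel₀ hD.ne']
      set w : E n := v + δ • e with hw
      have hwv : ‖w - v‖ = δ := by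
        rw [hw, add_sub_cancel_left, norm_smul, hen, mul_one, Real.norm_of_nonneg hδ.le]
      have hw1 : ‖w‖ ≤ 2 := by
        have := norm_add_le v (w - v)
        rw [add_sub_cancel, hv, hwv] at this
        linarith
      have hw0 : w ≠ 0 := by
        intro h0
        rw [h0, zero_sub, norm_neg, hv] at hwv
        linarith
      have hwu : ‖u - w‖ ≤ 2 * δ := by
        have e1 : u - w = (u - v) - (w - v) := by abel
        rw [e1]
        refine (norm_sub_le _ _).trans ?_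
        rw [hwv]; linarith
      have h1 := hgen u w hu0 hw0
      rw [hu, div_one] at h1
      have h2 : ‖w‖ * (C * (2 * ‖u - w‖) ^ 2) ≤ 2 * (C * (2 * (2 * δ)) ^ 2) := by gcongr
      have h3 := stG0_le hHc (hXmem v) w
      have h4 : ⟪X v - X u, w⟫ ≤ 32 * C * δ ^ 2 := by
        rw [inner_sub_left]
        calc ⟪X v, w⟫ - ⟪X u, w⟫ ≤ sf H w - ⟪X u, w⟫ := by linarith
          _ ≤ 2 * (C * (2 * (2 * δ)) ^ 2) := h1.trans h2
          _ = 32 * C * δ ^ 2 := by ring
      have h5 : 0 ≤ ⟪X v - X u, v⟫ := by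
        rw [inner_sub_left, hXe v hv0]
        have := stG0_le hHc (hXmem u) v
        linarith
      have h6 : ⟪X v - X u, w⟫ = ⟪X v - X u, v⟫ + δ * D := by
        rw [hw, inner_add_right, real_inner_smul_right, he, real_inner_smul_right,
          real_inner_self_eq_norm_sq, ← hDd]
        field_simp
      have h7 : δ * D ≤ δ * (32 * C * δ) := by nlinarith
      have h8 := le_of_mul_le_mul_left h7 hδ
      rw [norm_sub_rev, ← hDd]
      have : 0 ≤ R * δ := by positivity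
      linarith
  refine ⟨X, hHc, hHv, hH0, hgrad, fun u _ => hXmem u, fun x hx u => stG0_le hHc hx u, hXe,
    fun x hx => sf_charac hHc hHv hHn x hx, fun r u hr => sf_homog hHc hHn r u hr, hXh,
    c, max C (32 * C + 4 * R), hc, fun u v hu hv => ?_⟩
  have h1 := hlo u v hu hv (X u) (hXmem u) (hX1 u hu)
  have h2 := hup u v hu hv (X u) (hXmem u) (hX1 u hu)
  have h3 := hlo v u hv hu (X v) (hXmem v) (hX1 v hv)
  refine ⟨h1, h2.trans ?_, ?_, (hlip u v hu hv).trans ?_⟩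
  · gcongr; exact le_max_left _ _
  · have h4 : (sf H v - ⟪X u, v⟫) + (sf H u - ⟪X v, u⟫) = ⟪X u - X v, u - v⟫ := by
      rw [← hX1 u hu, ← hX1 v hv, inner_sub_left, inner_sub_right, inner_sub_right]
      ring
    have h5 := real_inner_le_norm (X u - X v) (u - v)
    rw [norm_sub_rev v u] at h3
    by_cases hδ : ‖u - v‖ = 0
    · rw [hδ, mul_zero]; positivity
    · have hδp : 0 < ‖u - v‖ := lt_of_le_of_ne (norm_nonneg _) (Ne.symm hδ)
      have h6 : (c * ‖u - v‖) * ‖u - v‖ ≤ ‖X u - X v‖ * ‖u - v‖ := by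
        have : 0 ≤ c * ‖u - v‖ ^ 2 := by positivity
        nlinarith
      exact le_of_mul_le_mul_right h6 hδp
  · gcongr; exact le_max_right _ _

end Pool.Agent.H878R2.Cov
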