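import Mathlib
import Pool.Agent.H878R2.Cov.G7

open MeasureTheory Set Filter Topology Metric
open scoped RealInnerProductSpace Pointwise

namespace Pool.Agent.H878R2.Cov
open Pool.Agent.Helper890.Cov

/-- continuity of a parametric integral on the sphere -/
theorem cont_sph {n : ℕ} (w : sphere (0 : E n) 1 → ℝ) (hw : Measurable w) (C : ℝ) (hC : ∀ v, |w v| ≤ C)
    (G : ℝ → sphere (0 : E n) 1 → ℝ) (hG : Continuous (fun p : ℝ × sphere (0 : E n) 1 => G p.1 p.2)) :
    Continuous (fun s => ∫ v, w v * G s v ∂(sph n)) := by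
  rw [continuous_iff_continuousAt]
  intro s₀
  obtain ⟨M, hM⟩ := ((isCompact_closedBall s₀ (1 : ℝ)).prod
    (isCompact_univ (X := sphere (0 : E n) 1))).exists_bound_of_continuousOn hG.continuousOn
  refine continuousAt_of_dominated (bound := fun _ => C * M) ?_ ?_ (integrable_const _) ?_
  · refine Eventually.of_forall fun s => ?_
    exact (hw.mul (hG.comp (Continuous.prodMk_right s)).measurable).aestronglyMeasurable
  · filter_upwards [closedBall_mem_nhds s₀ one_pos] with s hs
    refine ae_of_all _ fun v => ?_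
    have h1 := hM (s, v) ⟨hs, mem_univ v⟩
    rw [norm_mul]
    exact mul_le_mul (hC v) h1 (norm_nonneg _) ((abs_nonneg _).trans (hC v))
  · refine ae_of_all _ fun v => ?_
    exact ((hG.comp (Continuous.prodMk_left v)).const_mul _).continuousAt

section
variable {n : ℕ} {K : Set (E n)} {h : E n → ℝ} {X : E n → E n}

/-- real form of the divergence theorem for `C¹` functions -/
theorem wG7r (hn : 2 ≤ n) (hG : Wk K h X) (g : E n → ℝ) (e : E n) (hg : ContDiff ℝ 1 g) :
    ∫ x in K, fderiv ℝ g x e = ∫ v : sphere (0 : E n) 1, (⟪(v : E n), e⟫ * curv X v) * g (X v) ∂(sph n) := by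
  have h1 := wG7 hn hG (fun x => ((g x : ℝ) : ℂ)) e (Complex.ofRealCLM.contDiff.comp hg)
  have h2 : ∀ x, fderiv ℝ (fun x => ((g x : ℝ) : ℂ)) x e = ((fderiv ℝ g x e : ℝ) : ℂ) := by
    intro x
    have h3 : HasFDerivAt g (fderiv ℝ g x) x := (hg.differentiable one_ne_zero x).hasFDerivAt
    have h4 := (Complex.ofRealCLM.hasFDerivAt (x := g x)).comp x h3
    have h5 : fderiv ℝ (fun x => ((g x : ℝ) : ℂ)) x = _ := h4.fderiv
    rw [h5]
    rfl
  simp only [h2] at h1
  rw [integral_complex_ofReal] at h1
  have h3 : ∀ v : sphere (0 : E n) 1, (⟪(v : E n), e⟫ * curv X v) • ((g (X v) : ℝ) : ℂ) =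
      (((⟪(v : E n), e⟫ * curv X v) * g (X v) : ℝ) : ℂ) := by
    intro v
    rw [Complex.real_smul]
    push_cast
    ring
  simp only [h3] at h1
  rw [integral_complex_ofReal] at h1
  exact Complex.ofReal_injective h1

/-- derivative of the integral over a translated body, smooth case -/
theorem ld_smooth (hn : 2 ≤ n) (hG : Wk K h X) (g : E n → ℝ) (e : E n) (hg : ContDiff ℝ 1 g) (s₀ : ℝ) :
    HasDerivAt (fun s : ℝ => ∫ x in K, g (x + s • e))
      (∫ v : sphere (0 : E n) 1, (⟪(v : E n), e⟫ * curv X v) * g (X v + s₀ • e) ∂(sph n)) s₀ := by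
  have hfin : IsFiniteMeasure ((volume : Measure (E n)).restrict K) :=
    ⟨by rw [Measure.restrict_apply_univ]; exact hG.compact.measure_lt_top⟩
  have hgs : ContDiff ℝ 1 (fun x => g (x + s₀ • e)) := hg.comp (contDiff_id.add contDiff_const)
  have h1 := wG7r hn hG _ e hgs
  rw [← h1]
  have hdc : Continuous (fderiv ℝ g) := hg.continuous_fderiv one_ne_zero
  have hfd2 : ∀ x, fderiv ℝ (fun x => g (x + s₀ • e)) x = fderiv ℝ g (x + s₀ • e) := by
    intro x
    exact fderiv_comp_add_right (s₀ • e)
  simp only [hfd2]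
  have hcomp : IsCompact ((fun p : E n × ℝ => p.1 + p.2 • e) '' (K ×ˢ closedBall s₀ 1)) :=
    (hG.compact.prod (isCompact_closedBall s₀ 1)).image (by fun_prop)
  obtain ⟨M, hM⟩ := hcomp.exists_bound_of_continuousOn (f := fun x => fderiv ℝ g x e)
    (hdc.clm_apply continuous_const).continuousOn
  have hKm : MeasurableSet K := hG.compact.isClosed.measurableSet
  refine (hasDerivAt_integral_of_dominated_loc_of_deriv_le (μ := volume.restrict K)
    (F := fun s x => g (x + s • e)) (F' := fun s x => fderiv ℝ g (x + s • e) e) (x₀ := s₀)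
    (s := ball s₀ 1) (bound := fun _ => M) (ball_mem_nhds s₀ one_pos) ?_ ?_ ?_ ?_ (integrable_const _) ?_).2
  · refine Eventually.of_forall fun s => ?_
    exact (hg.continuous.comp (continuous_id.add continuous_const)).aestronglyMeasurable
  · exact ((hg.continuous.comp (continuous_id.add continuous_const)).continuousOn.integrableOn_compact
      hG.compact)
  · exact ((hdc.comp (continuous_id.add continuous_const)).clm_apply
      continuous_const).aestronglyMeasurable
  · rw [ae_restrict_iff' hKm]
    refine ae_of_all _ fun x hx s hs => ?_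
    exact hM _ ⟨(x, s), ⟨hx, ball_subset_closedBall hs⟩, rfl⟩
  · refine ae_of_all _ fun x s _ => ?_
    have h3 : HasDerivAt (fun s : ℝ => x + s • e) e s := by
      simpa using ((hasDerivAt_id s).smul_const e).const_add x
    exact (hg.differentiable one_ne_zero _).hasFDerivAt.comp_hasDerivAt s h3

/-- bound for the density -/
theorem ld_w (hn : 2 ≤ n) (hG : Wk K h X) (e : E n) :
    Measurable (fun v : sphere (0 : E n) 1 => (⟪(v : E n), e⟫ * curv X v)) ∧
      ∃ C : ℝ, 0 ≤ C ∧ ∀ v : sphere (0 : E n) 1, |⟪(v : E n), e⟫ * curv X v| ≤ C := by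
  obtain ⟨c1, c2, hc1, hc2, -, hcb⟩ := curv_bounds hn hG
  refine ⟨(Continuous.measurable (by fun_prop)).mul (curv_meas_sph X), ‖e‖ * c2, by positivity, fun v => ?_⟩
  have hv : ‖(v : E n)‖ = 1 := norm_eq_of_mem_sphere v
  have h1 := abs_real_inner_le_norm (v : E n) e
  rw [hv, one_mul] at h1
  have h2 := hcb v (sph_ne v)
  rw [abs_mul, abs_of_nonneg h2.1]
  exact mul_le_mul h1 h2.2 h2.1 (norm_nonneg _)

/-- integrated form, uniformly continuous case -/
theorem ld_int (hn : 2 ≤ n) (hG : Wk K h X) (g : E n → ℝ) (e : E n) (hg : UniformContinuous g) (t : ℝ) :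
    (∫ x in K, g (x + t • e)) - ∫ x in K, g x =
      ∫ s in (0 : ℝ)..t, ∫ v : sphere (0 : E n) 1, (⟪(v : E n), e⟫ * curv X v) * g (X v + s • e) ∂(sph n) := by
  obtain ⟨hwm, C, hC0, hC⟩ := ld_w hn hG e
  have hXs : Continuous (fun v : sphere (0 : E n) 1 => X v) :=
    hG.contX.comp_continuous continuous_subtype_val fun v => sph_ne v
  have hjc : ∀ f : E n → ℝ, Continuous f → Continuous (fun s : ℝ => ∫ v : sphere (0 : E n) 1,
      (⟪(v : E n), e⟫ * curv X v) * f (X v + s • e) ∂(sph n)) := by
    intro f hf
    exact cont_sph _ hwm C hC (fun s v => f (X v + s • e))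
      (hf.comp ((hXs.comp continuous_snd).add (continuous_fst.smul continuous_const)))
  set V : ℝ := (volume : Measure (E n)).real K with hV
  set S : ℝ := (sph n).real univ with hS
  have hfin : IsFiniteMeasure ((volume : Measure (E n)).restrict K) :=
    ⟨by rw [Measure.restrict_apply_univ]; exact hG.compact.measure_lt_top⟩
  have key : ∀ ε : ℝ, 0 < ε → |((∫ x in K, g (x + t • e)) - ∫ x in K, g x) -
      ∫ s in (0 : ℝ)..t, ∫ v : sphere (0 : E n) 1, (⟪(v : E n), e⟫ * curv X v) * g (X v + s • e) ∂(sph n)| ≤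
      ε * (2 * V + |t| * (C * S)) := by
    intro ε hε
    obtain ⟨f, hf, hfg⟩ := hg.exists_contDiff_dist_le hε
    have hf1 : ContDiff ℝ 1 f := hf.of_le (by exact_mod_cast le_top)
    have h1 : (∫ x in K, f (x + t • e)) - ∫ x in K, f x =
      ∫ s in (0 : ℝ)..t, ∫ v : sphere (0 : E n) 1, (⟪(v : E n), e⟫ * curv X v) * f (X v + s • e) ∂(sph n) := by
      rw [intervalIntegral.integral_eq_sub_of_hasDerivAt (fun s _ => ld_smooth hn hG f e hf1 s)
        ((hjc f hf.continuous).intervalIntegrable _ _)]
      simp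
    have hd : ∀ a, |g a - f a| ≤ ε := fun a => by
      have := hfg a
      rw [dist_comm, Real.dist_eq] at this
      exact this.le
    have hK : ∀ y : E n, |(∫ x in K, g (x + y)) - ∫ x in K, f (x + y)| ≤ ε * V := by
      intro y
      rw [← integral_sub]
      · have := norm_setIntegral_le_of_norm_le_const (μ := volume) (s := K)
          (f := fun x => g (x + y) - f (x + y)) (C := ε) hG.compact.measure_lt_top
          (fun x _ => hd _)
        exact this
      · exact (hg.continuous.comp (continuous_id.add continuous_const)).continuousOn.integrableOn_compact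
          hG.compact
      · exact (hf.continuous.comp (continuous_id.add continuous_const)).continuousOn.integrableOn_compact
          hG.compact
    have hA : ∀ s : ℝ, ‖(∫ v : sphere (0 : E n) 1, (⟪(v : E n), e⟫ * curv X v) * g (X v + s • e) ∂(sph n)) -
        ∫ v : sphere (0 : E n) 1, (⟪(v : E n), e⟫ * curv X v) * f (X v + s • e) ∂(sph n)‖ ≤ ε * (C * S) := by
      intro s
      have hint : ∀ f : E n → ℝ, Continuous f → Integrable (fun v : sphere (0 : E n) 1 =>
          (⟪(v : E n), e⟫ * curv X v) * f (X v + s • e)) (sph n) := by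
        intro f hf
        have hfc : Continuous (fun v : sphere (0 : E n) 1 => f (X v + s • e)) :=
          hf.comp (hXs.add continuous_const)
        obtain ⟨B, hB⟩ := isCompact_univ.exists_bound_of_continuousOn (hfc.continuousOn (s := univ))
        refine integrable_sph (hwm.mul hfc.measurable).aestronglyMeasurable (C * B) fun v => ?_
        rw [norm_mul]
        exact mul_le_mul (hC v) (hB v (mem_univ v)) (norm_nonneg _) hC0
      rw [← integral_sub (hint g hg.continuous) (hint f hf.continuous)]
      have h2 := norm_integral_le_of_norm_le_const (μ := sph n) (C := C * ε)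
        (f := fun v : sphere (0 : E n) 1 => (⟪(v : E n), e⟫ * curv X v) * g (X v + s • e) -
          (⟪(v : E n), e⟫ * curv X v) * f (X v + s • e)) (ae_of_all _ fun v => by
            rw [← mul_sub, norm_mul]
            exact mul_le_mul (hC v) (hd _) (norm_nonneg _) hC0)
      refine h2.trans (le_of_eq ?_)
      rw [hS]
      ring
    have hI := intervalIntegral.norm_integral_le_of_norm_le_const (a := 0) (b := t)
      (f := fun s : ℝ => (∫ v : sphere (0 : E n) 1, (⟪(v : E n), e⟫ * curv X v) * g (X v + s • e) ∂(sph n)) -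
        ∫ v : sphere (0 : E n) 1, (⟪(v : E n), e⟫ * curv X v) * f (X v + s • e) ∂(sph n))
      (fun s _ => hA s)
    rw [intervalIntegral.integral_sub ((hjc g hg.continuous).intervalIntegrable _ _)
      ((hjc f hf.continuous).intervalIntegrable _ _), ← h1, sub_zero, Real.norm_eq_abs] at hI
    have hK1 := hK (t • e)
    have hK0 := hK 0
    simp only [add_zero] at hK0
    rw [abs_le] at hK1 hK0 hI ⊢
    constructor <;> nlinarith [hK1.1, hK1.2, hK0.1, hK0.2, hI.1, hI.2]
  have h0 : ∀ a : ℝ, 0 ≤ a → (∀ ε : ℝ, 0 < ε → a ≤ ε * (2 * V + |t| * (C * S))) → a = 0 := by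
    intro a ha hle
    have hV0 : 0 ≤ V := measureReal_nonneg
    have hS0 : 0 ≤ S := measureReal_nonneg
    by_contra hne
    have hapos : 0 < a := lt_of_le_of_ne ha (Ne.symm hne)
    have hD : 0 ≤ 2 * V + |t| * (C * S) := by positivity
    have := hle (a / (2 * (2 * V + |t| * (C * S) + 1))) (by positivity)
    have h2 : a / (2 * (2 * V + |t| * (C * S) + 1)) * (2 * V + |t| * (C * S)) ≤ a / 2 := by
      rw [div_mul_eq_mul_div, div_le_div_iff₀ (by positivity) (by norm_num)]
      nlinarith
    linarith
  have := h0 _ (abs_nonneg _) key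
  rw [abs_eq_zero] at this
  linarith

/-- divergence theorem for Lipschitz functions -/
theorem lipdiv (hn : 2 ≤ n) (hG : Wk K h X) (g : E n → ℝ) {L : NNReal} (hg : LipschitzWith L g) (e : E n) :
    ∫ x in K, fderiv ℝ g x e =
      ∫ v : sphere (0 : E n) 1, (⟪(v : E n), e⟫ * curv X v) * g (X v) ∂(sph n) := by
  obtain ⟨hwm, C, hC0, hC⟩ := ld_w hn hG e
  have hfin : IsFiniteMeasure ((volume : Measure (E n)).restrict K) :=
    ⟨by rw [Measure.restrict_apply_univ]; exact hG.compact.measure_lt_top⟩
  have hXs : Continuous (fun v : sphere (0 : E n) 1 => X v) :=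
    hG.contX.comp_continuous continuous_subtype_val fun v => sph_ne v
  have hA : Continuous (fun s : ℝ => ∫ v : sphere (0 : E n) 1,
      (⟪(v : E n), e⟫ * curv X v) * g (X v + s • e) ∂(sph n)) :=
    cont_sph _ hwm C hC (fun s v => g (X v + s • e))
      (hg.continuous.comp ((hXs.comp continuous_snd).add (continuous_fst.smul continuous_const)))
  have h1 : HasDerivAt (fun t : ℝ => ∫ x in K, g (x + t • e)) (∫ x in K, fderiv ℝ g x e) 0 := by
    have hae : ∀ᵐ x ∂(volume.restrict K), DifferentiableAt ℝ g x := ae_restrict_of_ae hg.ae_differentiableAt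
    refine (hasDerivAt_integral_of_dominated_loc_of_lip (μ := volume.restrict K)
      (F := fun s x => g (x + s • e)) (F' := fun x => fderiv ℝ g x e) (x₀ := (0 : ℝ)) (s := ball 0 1)
      (bound := fun _ => (L : ℝ) * ‖e‖) (ball_mem_nhds 0 one_pos) ?_ ?_ ?_ ?_ (integrable_const _) ?_).2
    · refine Eventually.of_forall fun s => ?_
      exact (hg.continuous.comp (continuous_id.add continuous_const)).aestronglyMeasurable
    · exact (hg.continuous.comp (continuous_id.add continuous_const)).continuousOn.integrableOn_compact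
        hG.compact
    · exact (measurable_fderiv_apply_const ℝ g e).aestronglyMeasurable
    · refine ae_of_all _ fun x => LipschitzOnWith.of_dist_le_mul fun s _ s' _ => ?_
      refine (hg.dist_le_mul _ _).trans ?_
      rw [dist_add_left, dist_eq_norm, ← sub_smul, norm_smul, Real.coe_nnabs,
        abs_of_nonneg (by positivity), dist_eq_norm]
      apply le_of_eq
      ring
    · filter_upwards [hae] with x hx
      have h3 : HasDerivAt (fun s : ℝ => x + s • e) e 0 := by
        simpa using ((hasDerivAt_id (0 : ℝ)).smul_const e).const_add x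
      have h4 : HasFDerivAt g (fderiv ℝ g x) (x + (0 : ℝ) • e) := by
        simpa using hx.hasFDerivAt
      exact h4.comp_hasDerivAt (0 : ℝ) h3
  have h2 : HasDerivAt (fun t : ℝ => ∫ x in K, g (x + t • e))
      (∫ v : sphere (0 : E n) 1, (⟪(v : E n), e⟫ * curv X v) * g (X v + (0 : ℝ) • e) ∂(sph n)) 0 := by
    have h3 := (hA.integral_hasStrictDerivAt 0 0).hasDerivAt.const_add (∫ x in K, g x)
    refine h3.congr_of_eventuallyEq (Eventually.of_forall fun t => ?_)
    have := ld_int hn hG g e hg.uniformContinuous t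
    beta_reduce
    linarith
  have h3 := h1.unique h2
  simpa using h3

end

end Pool.Agent.H878R2.Cov
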