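import Mathlib
import Pool.Agent.H878R2.Cov.LD

open MeasureTheory Set Filter Topology Metric
open scoped RealInnerProductSpace Pointwise

namespace Pool.Agent.H878R2.Cov
open Pool.Agent.Helper890.Cov Pool.Agent.Helper890.Cov.JG6

section
variable {n : ℕ} {K : Set (E n)} {h : E n → ℝ} {X : E n → E n}

/-- the parametrisation of space -/
noncomputable def Ps (X : E n → E n) (η : E n) : E n := ‖η‖ • X η

theorem Ps_zero (X : E n → E n) : Ps X 0 = 0 := by simp [Ps]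

theorem Ps_smul (g : Wk K h X) {r : ℝ} (hr : 0 < r) (η : E n) : Ps X (r • η) = r • Ps X η := by
  by_cases h0 : η = 0
  · rw [h0, smul_zero, Ps_zero, smul_zero]
  · unfold Ps
    rw [g.homogX r η hr h0, norm_smul, Real.norm_of_nonneg hr.le, smul_smul]

theorem Wk.Rbd (g : Wk K h X) : ∃ R : ℝ, 0 < R ∧ ∀ u, u ≠ 0 → ‖X u‖ ≤ R := by
  obtain ⟨R, hR⟩ := g.compact.isBounded.exists_norm_le
  exact ⟨|R| + 1, by positivity, fun u hu => (hR _ (g.mem u hu)).trans (by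
    have := le_abs_self R; linarith)⟩

theorem Wk.hlow (hn : 1 ≤ n) (g : Wk K h X) : ∃ m : ℝ, 0 < m ∧ ∀ u : E n, ‖u‖ = 1 → m ≤ h u := by
  haveI : Nonempty (Fin n) := ⟨⟨0, by omega⟩⟩
  have hne : (sphere (0 : E n) 1).Nonempty := NormedSpace.sphere_nonempty.2 zero_le_one
  obtain ⟨v₀, hv₀, hmin⟩ := (isCompact_sphere (0 : E n) 1).exists_isMinOn hne g.conth.continuousOn
  have hv0 : v₀ ≠ 0 := by rintro rfl; simp at hv₀
  refine ⟨h v₀, g.hpos hv0, fun u hu => ?_⟩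
  exact hmin (show u ∈ sphere (0 : E n) 1 by simpa using hu)

theorem Ps_lip (g : Wk K h X) : ∃ C : NNReal, LipschitzWith C (Ps X) := by
  obtain ⟨C, hC⟩ := w6_lip g
  obtain ⟨R, hR0, hR⟩ := g.Rbd
  refine ⟨max C (Real.toNNReal R), LipschitzWith.of_dist_le_mul fun x y => ?_⟩
  have hz : ∀ y : E n, ‖Ps X y‖ ≤ R * ‖y‖ := by
    intro y
    by_cases hy : y = 0
    · rw [hy, Ps_zero]; simp
    · unfold Ps
      rw [norm_smul, norm_norm, mul_comm]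
      exact mul_le_mul_of_nonneg_right (hR y hy) (norm_nonneg _)
  have hm2 : R ≤ ((max C (Real.toNNReal R) : NNReal) : ℝ) := by
    rw [NNReal.coe_max, Real.coe_toNNReal _ hR0.le]; exact le_max_right _ _
  have hm1 : (C : ℝ) ≤ ((max C (Real.toNNReal R) : NNReal) : ℝ) := by
    rw [NNReal.coe_max]; exact le_max_left _ _
  by_cases hx : x = 0
  · subst hx
    rw [Ps_zero, dist_zero_left, dist_zero_left]
    exact (hz y).trans (by gcongr)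
  · by_cases hy : y = 0
    · subst hy
      rw [Ps_zero, dist_zero_right, dist_zero_right]
      exact (hz x).trans (by gcongr)
    · exact (hC.dist_le_mul x hx y hy).trans (by gcongr)

theorem Ps_anti (hn : 1 ≤ n) (g : Wk K h X) : ∃ κ : NNReal, AntilipschitzWith κ (Ps X) := by
  obtain ⟨R, hR0, hR⟩ := g.Rbd
  obtain ⟨m, hm, hml⟩ := g.hlow hn
  obtain ⟨c, C, hc, hq⟩ := g.quad
  obtain ⟨κ, hκ⟩ : ∃ κ : ℝ, κ = (1 / c) * (1 + R / m) + 1 / m := ⟨_, rfl⟩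
  have hκ0 : 0 < κ := by rw [hκ]; positivity
  refine ⟨Real.toNNReal κ, AntilipschitzWith.of_le_mul_dist fun x y => ?_⟩
  rw [Real.coe_toNNReal _ hκ0.le]
  have hn1 : ∀ u : E n, u ≠ 0 → m ≤ ‖X u‖ := by
    intro u hu
    have h1 := hml _ (nrm_norm hu)
    rw [← g.X_nrm hu]
    have hv : ‖u‖⁻¹ • u ≠ 0 := by
      rw [← norm_pos_iff, nrm_norm hu]; exact one_pos
    rw [← g.eq _ hv] at h1
    refine h1.trans ((real_inner_le_norm _ _).trans ?_)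
    rw [nrm_norm hu, mul_one]
  have hz : ∀ y : E n, ‖y‖ ≤ κ * ‖Ps X y‖ := by
    intro y
    by_cases hy : y = 0
    · rw [hy]; simp [Ps_zero]
    · have h1 := hn1 y hy
      have e1 : ‖Ps X y‖ = ‖y‖ * ‖X y‖ := by
        unfold Ps; rw [norm_smul, norm_norm]
      rw [e1]
      have h2 : 1 / m ≤ κ := by
        rw [hκ]
        have : 0 ≤ (1 / c) * (1 + R / m) := by positivity
        linarith
      calc ‖y‖ = (1 / m) * (‖y‖ * m) := by field_simp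
        _ ≤ κ * (‖y‖ * ‖X y‖) := by gcongr
  by_cases hx : x = 0
  · subst hx
    rw [Ps_zero, dist_zero_left, dist_zero_left]
    exact hz y
  by_cases hy : y = 0
  · subst hy
    rw [Ps_zero, dist_zero_right, dist_zero_right]
    exact hz x
  rw [dist_eq_norm, dist_eq_norm]
  set D : ℝ := ‖Ps X x - Ps X y‖ with hD
  have hD0 : 0 ≤ D := norm_nonneg _
  have hxn : 0 < ‖x‖ := norm_pos_iff.2 hx
  have hyn : 0 < ‖y‖ := norm_pos_iff.2 hy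
  have key : ∀ a b : E n, a ≠ 0 → b ≠ 0 → (‖a‖ - ‖b‖) * m ≤ ‖Ps X a - Ps X b‖ := by
    intro a b ha hb
    have han : 0 < ‖a‖ := norm_pos_iff.2 ha
    have h1 := real_inner_le_norm (Ps X a - Ps X b) (‖a‖⁻¹ • a)
    rw [nrm_norm ha, mul_one] at h1
    have hu0 : ‖a‖⁻¹ • a ≠ 0 := by
      rw [← norm_pos_iff, nrm_norm ha]; exact one_pos
    have e1 : ⟪Ps X a, ‖a‖⁻¹ • a⟫ = ‖a‖ * h (‖a‖⁻¹ • a) := by
      unfold Ps
      rw [real_inner_smul_left, ← g.X_nrm ha, g.eq _ hu0]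
    have e2 : ⟪Ps X b, ‖a‖⁻¹ • a⟫ ≤ ‖b‖ * h (‖a‖⁻¹ • a) := by
      unfold Ps
      rw [real_inner_smul_left]
      exact mul_le_mul_of_nonneg_left (g.le _ (g.mem b hb) _) (norm_nonneg _)
    rw [inner_sub_left] at h1
    have h2 := hml _ (nrm_norm ha)
    by_cases hab : ‖a‖ ≤ ‖b‖
    · have : (‖a‖ - ‖b‖) * m ≤ 0 := mul_nonpos_of_nonpos_of_nonneg (by linarith) hm.le
      exact this.trans (norm_nonneg _)
    · have h3 : (‖a‖ - ‖b‖) * m ≤ (‖a‖ - ‖b‖) * h (‖a‖⁻¹ • a) :=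
        mul_le_mul_of_nonneg_left h2 (by linarith)
      linarith
  have hr : |‖x‖ - ‖y‖| ≤ D / m := by
    rw [le_div_iff₀ hm, abs_sub_comm]
    rcases abs_cases (‖y‖ - ‖x‖) with ⟨h1, -⟩ | ⟨h1, -⟩
    · rw [h1, hD, norm_sub_rev]
      exact key y x hy hx
    · rw [h1, neg_sub, hD]
      exact key x y hx hy
  have h2 : ‖x‖ * ‖X x - X y‖ ≤ D + |‖x‖ - ‖y‖| * R := by
    have e : ‖x‖ • (X x - X y) = (Ps X x - Ps X y) + (‖y‖ - ‖x‖) • X y := by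
      unfold Ps; module
    have e2 : ‖x‖ * ‖X x - X y‖ = ‖‖x‖ • (X x - X y)‖ := by rw [norm_smul, norm_norm]
    rw [e2, e]
    refine (norm_add_le _ _).trans ?_
    rw [norm_smul, Real.norm_eq_abs, abs_sub_comm]
    gcongr
    exact hR y hy
  have h3 : c * ‖‖x‖⁻¹ • x - ‖y‖⁻¹ • y‖ ≤ ‖X x - X y‖ := by
    have := (hq _ _ (nrm_norm hx) (nrm_norm hy)).2.2.1
    rwa [g.X_nrm hx, g.X_nrm hy] at this
  have h4 : ‖x - y‖ ≤ ‖x‖ * ‖‖x‖⁻¹ • x - ‖y‖⁻¹ • y‖ + |‖x‖ - ‖y‖| := by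
    have e : x - y = ‖x‖ • (‖x‖⁻¹ • x - ‖y‖⁻¹ • y) + (‖x‖ - ‖y‖) • (‖y‖⁻¹ • y) := by
      have e1 : x = ‖x‖ • (‖x‖⁻¹ • x) := by rw [smul_smul, mul_inv_cancel₀ hxn.ne', one_smul]
      have e2 : y = ‖y‖ • (‖y‖⁻¹ • y) := by rw [smul_smul, mul_inv_cancel₀ hyn.ne', one_smul]
      have e3 : ‖x‖ • (‖x‖⁻¹ • x - ‖y‖⁻¹ • y) + (‖x‖ - ‖y‖) • (‖y‖⁻¹ • y) =
          ‖x‖ • (‖x‖⁻¹ • x) - ‖y‖ • (‖y‖⁻¹ • y) := by module
      rw [e3, ← e1, ← e2]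
    calc ‖x - y‖ = ‖‖x‖ • (‖x‖⁻¹ • x - ‖y‖⁻¹ • y) + (‖x‖ - ‖y‖) • (‖y‖⁻¹ • y)‖ := by rw [← e]
      _ ≤ _ := by
        refine (norm_add_le _ _).trans ?_
        rw [norm_smul, norm_smul, norm_norm, nrm_norm hy, mul_one, Real.norm_eq_abs]
  have h5 : ‖x‖ * ‖‖x‖⁻¹ • x - ‖y‖⁻¹ • y‖ ≤ (1 / c) * (D + D / m * R) := by
    have h6 : ‖x‖ * (c * ‖‖x‖⁻¹ • x - ‖y‖⁻¹ • y‖) ≤ D + D / m * R := by
      calc ‖x‖ * (c * ‖‖x‖⁻¹ • x - ‖y‖⁻¹ • y‖) ≤ ‖x‖ * ‖X x - X y‖ := by gcongr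
        _ ≤ D + |‖x‖ - ‖y‖| * R := h2
        _ ≤ D + D / m * R := by gcongr
    calc ‖x‖ * ‖‖x‖⁻¹ • x - ‖y‖⁻¹ • y‖ = (1 / c) * (‖x‖ * (c * ‖‖x‖⁻¹ • x - ‖y‖⁻¹ • y‖)) := by
          field_simp
      _ ≤ _ := by gcongr
  calc ‖x - y‖ ≤ (1 / c) * (D + D / m * R) + D / m := h4.trans (add_le_add h5 hr)
    _ = κ * D := by rw [hκ]; ring

theorem Ps_surj (g : Wk K h X) : Function.Surjective (Ps X) := by
  intro x
  by_cases hx : x = 0
  · exact ⟨0, by rw [Ps_zero, hx]⟩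
  · have hc : Continuous (fun s : ℝ => s • x) := by fun_prop
    have h1 : ∀ᶠ s : ℝ in 𝓝 0, s • x ∈ interior K := by
      refine hc.continuousAt.eventually_mem (isOpen_interior.mem_nhds ?_)
      simpa using g.zero_mem
    obtain ⟨s, hs, hs0⟩ := ((h1.filter_mono nhdsWithin_le_nhds).and
      (self_mem_nhdsWithin (s := Ioi (0 : ℝ)))).exists
    have hs0' : 0 < s := hs0
    obtain ⟨η, -, hη⟩ := w6_surj g ⟨hs, smul_ne_zero hs0'.ne' hx⟩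
    refine ⟨s⁻¹ • η, ?_⟩
    rw [Ps_smul g (inv_pos.2 hs0')]
    have : Ps X η = s • x := hη
    rw [this, smul_smul, inv_mul_cancel₀ hs0'.ne', one_smul]

end

end Pool.Agent.H878R2.Cov
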