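import Mathlib
import Pool.Agent.H878R2.Cov.HR2
import Pool.Agent.H878R2.Cov.Box
import Pool.Agent.H878R2.Cov.Psi

open MeasureTheory Set Filter Topology Metric
open scoped RealInnerProductSpace Pointwise

namespace Pool.Agent.H878R2.Cov
open Pool.Agent.Helper890.Cov Pool.Agent.Helper890.Cov.JG0

section
variable {n : ℕ} {K : Set (E n)} {h : E n → ℝ} {X : E n → E n}

/-- balls touching the boundary from inside -/
theorem inner_ball (g : Wk K h X) : ∃ ρ : ℝ, 0 < ρ ∧ ∀ u : E n, ‖u‖ = 1 → ∀ w : E n, ‖w‖ ≤ ρ →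
    X u - ρ • u + w ∈ K := by
  obtain ⟨c, C, hc, hq⟩ := g.quad
  refine ⟨2 * c, by positivity, fun u hu w hw => g.charac _ fun v => ?_⟩
  by_cases hv : v = 0
  · have h0 : h 0 = 0 := by
      have := g.homog 0 0 le_rfl
      rwa [zero_smul, zero_mul] at this
    rw [hv, inner_zero_right, h0]
  · have hvn : 0 < ‖v‖ := norm_pos_iff.2 hv
    obtain ⟨v', hv'⟩ : ∃ v' : E n, v' = ‖v‖⁻¹ • v := ⟨_, rfl⟩
    have hv'n : ‖v'‖ = 1 := by rw [hv']; exact nrm_norm hv
    have e1 : v = ‖v‖ • v' := by rw [hv', smul_smul, mul_inv_cancel₀ hvn.ne', one_smul]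
    have h1 := (hq u v' hu hv'n).1
    have h2 : ‖u - v'‖ ^ 2 = 2 - 2 * ⟪u, v'⟫ := by
      rw [norm_sub_sq_real, hu, hv'n]; ring
    have h3 : ⟪w, v'⟫ ≤ 2 * c := by
      refine (real_inner_le_norm _ _).trans ?_
      rw [hv'n, mul_one]; exact hw
    have h4 : ⟪X u - (2 * c) • u + w, v'⟫ ≤ h v' := by
      rw [inner_add_left, inner_sub_left, real_inner_smul_left]
      rw [h2] at h1
      linarith
    rw [e1, real_inner_smul_right, g.homog _ _ hvn.le]
    exact mul_le_mul_of_nonneg_left h4 hvn.le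

/-- lower bound for the covariogram near the boundary of its support -/
theorem cov_low (hn : 1 ≤ n) (g : Wk K h X) : ∃ κ s₀ : ℝ, 0 < κ ∧ 0 < s₀ ∧ ∀ u : E n, ‖u‖ = 1 →
    ∀ s : ℝ, 0 < s → s ≤ s₀ → κ * s ^ (n + 1) ≤ covg K ((1 - s ^ 2) • (X u - X (-u))) := by
  obtain ⟨ρ, hρ, hball⟩ := inner_ball g
  obtain ⟨R, hR0, hR⟩ := g.Rbd
  obtain ⟨m₀, hm₀, hml⟩ := g.hlow hn
  have hn0 : (0 : ℝ) < n := by exact_mod_cast hn
  obtain ⟨A, hA⟩ : ∃ A : ℝ, A = ρ * m₀ := ⟨_, rfl⟩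
  have hA0 : 0 < A := by rw [hA]; positivity
  obtain ⟨q₀, hq₀⟩ : ∃ q₀ : ℝ, q₀ = Real.sqrt (A / 2) := ⟨_, rfl⟩
  have hq₀0 : 0 < q₀ := by rw [hq₀]; exact Real.sqrt_pos.2 (by positivity)
  have hq₀2 : q₀ ^ 2 = A / 2 := by rw [hq₀]; exact Real.sq_sqrt (by positivity)
  obtain ⟨s₀, hs₀⟩ : ∃ s₀ : ℝ, s₀ = min (min 1 (ρ * m₀ / R ^ 2)) (min (ρ / (2 * R)) (4 * ρ * q₀ / (n * A))) :=
    ⟨_, rfl⟩
  have hs₀0 : 0 < s₀ := by
    rw [hs₀]
    exact lt_min (lt_min one_pos (by positivity)) (lt_min (by positivity) (by positivity))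
  refine ⟨(A / (2 * ρ)) * (2 * (q₀ / n)) ^ (n - 1), s₀, by positivity, hs₀0, fun u hu s hs hss => ?_⟩
  have hs1 : s ≤ 1 := hss.trans (by rw [hs₀]; exact (min_le_left _ _).trans (min_le_left _ _))
  have hs2 : s ≤ ρ * m₀ / R ^ 2 := hss.trans (by rw [hs₀]; exact (min_le_left _ _).trans (min_le_right _ _))
  have hs3 : s ≤ ρ / (2 * R) := hss.trans (by rw [hs₀]; exact (min_le_right _ _).trans (min_le_left _ _))
  have hs4 : s ≤ 4 * ρ * q₀ / (n * A) :=
    hss.trans (by rw [hs₀]; exact (min_le_right _ _).trans (min_le_right _ _))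
  have hu0 : u ≠ 0 := by rw [← norm_pos_iff, hu]; exact one_pos
  have hnu0 : -u ≠ 0 := neg_ne_zero.2 hu0
  have hnu : ‖-u‖ = 1 := by rw [norm_neg, hu]
  set d : E n := X u - X (-u) with hd
  set t : ℝ := s ^ 2 with ht
  have ht0 : 0 < t := by positivity
  have hts : t ≤ s := by rw [ht]; nlinarith
  have hdn : ‖d‖ ≤ 2 * R := by
    refine (norm_sub_le _ _).trans ?_
    linarith [hR u hu0, hR (-u) hnu0]
  obtain ⟨w, hw⟩ : ∃ w : ℝ, w = h u + h (-u) := ⟨_, rfl⟩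
  have hdu : ⟪d, u⟫ = w := by
    rw [hd, inner_sub_left, hw, ← g.eq u hu0, ← g.eq (-u) hnu0, inner_neg_right]; ring
  have hw1 : 2 * m₀ ≤ w := by
    have := hml u hu
    have := hml (-u) hnu
    linarith
  have hw2 : w ≤ 2 * R := by
    rw [← hdu]
    refine (real_inner_le_norm _ _).trans ?_
    rw [hu, mul_one]; exact hdn
  set q : E n := (t / 2) • d - ρ • u with hq
  have hqn : ‖q‖ ^ 2 ≤ ρ ^ 2 - A * t := by
    rw [hq, norm_sub_sq_real, norm_smul, norm_smul, hu, real_inner_smul_left, real_inner_smul_right,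
      hdu, Real.norm_of_nonneg (by positivity), Real.norm_of_nonneg hρ.le, mul_one]
    have h1 : ‖d‖ ^ 2 ≤ 4 * R ^ 2 := by
      have := norm_nonneg d
      nlinarith
    have h2 : t * R ^ 2 ≤ ρ * m₀ := by
      have := hts.trans hs2
      rwa [le_div_iff₀ (by positivity)] at this
    have h3 : (t / 2 * ‖d‖) ^ 2 ≤ t * (t * R ^ 2) := by
      have : (t / 2 * ‖d‖) ^ 2 = t ^ 2 / 4 * ‖d‖ ^ 2 := by ring
      rw [this]
      nlinarith [sq_nonneg t]
    have h4 : t * (t * R ^ 2) ≤ t * (ρ * m₀) := by gcongr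
    have h5 : t * ρ * (2 * m₀) ≤ t * ρ * w := by gcongr
    rw [hA]
    nlinarith
  have hq1 : ‖q‖ ≤ ρ := by
    have : ‖q‖ ^ 2 ≤ ρ ^ 2 := by
      have : 0 ≤ A * t := by positivity
      linarith
    exact le_of_sq_le_sq this hρ.le
  have hq0 : q ≠ 0 := by
    intro h0
    have h1 : ⟪q, u⟫ = t / 2 * w - ρ := by
      rw [hq, inner_sub_left, real_inner_smul_left, real_inner_smul_left, hdu,
        real_inner_self_eq_norm_sq, hu]; ring
    rw [h0, inner_zero_left] at h1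
    have h2 : t * (2 * R) ≤ ρ := by
      have := hts.trans hs3
      rwa [le_div_iff₀ (by positivity)] at this
    nlinarith
  have hqp : 0 < ‖q‖ := norm_pos_iff.2 hq0
  set x : E n := (1 - t) • d with hx
  have hS : ∀ z : E n, |⟪‖q‖⁻¹ • q, z⟫| ≤ A * t / (4 * ρ) → ‖z‖ ≤ q₀ * s →
      (X u - ρ • u - q) + z ∈ K ∩ (fun y => y + x) '' K := by
    intro z hz1 hz2
    have h1 : |⟪q, z⟫| ≤ A * t / 4 := by
      have e1 : ⟪q, z⟫ = ‖q‖ * ⟪‖q‖⁻¹ • q, z⟫ := by
        rw [real_inner_smul_left, ← mul_assoc, mul_inv_cancel₀ hqp.ne', one_mul]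
      rw [e1, abs_mul, abs_of_pos hqp]
      calc ‖q‖ * |⟪‖q‖⁻¹ • q, z⟫| ≤ ρ * (A * t / (4 * ρ)) := by gcongr
        _ = A * t / 4 := by field_simp
    have h2 : ‖z‖ ^ 2 ≤ A * t / 2 := by
      calc ‖z‖ ^ 2 ≤ (q₀ * s) ^ 2 := by gcongr
        _ = A * t / 2 := by rw [mul_pow, hq₀2, ht]; ring
    rw [abs_le] at h1
    constructor
    · have h3 : ‖z - q‖ ≤ ρ := by
        refine le_of_sq_le_sq ?_ hρ.le
        rw [norm_sub_sq_real, real_inner_comm]
        nlinarith [h1.1, h1.2]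
      have := hball u hu (z - q) h3
      have e1 : X u - ρ • u - q + z = X u - ρ • u + (z - q) := by abel
      rw [e1]; exact this
    · have h3 : ‖z + q‖ ≤ ρ := by
        refine le_of_sq_le_sq ?_ hρ.le
        rw [norm_add_sq_real, real_inner_comm]
        nlinarith [h1.1, h1.2]
      have := hball (-u) hnu (z + q) h3
      refine ⟨_, this, ?_⟩
      show X (-u) - ρ • (-u) + (z + q) + x = _
      rw [hx, hq, hd]
      module
  have hfin : volume (K ∩ (fun y => y + x) '' K) ≠ ⊤ :=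
    ((measure_mono inter_subset_left).trans_lt g.compact.measure_lt_top).ne
  have hen : ‖‖q‖⁻¹ • q‖ = 1 := nrm_norm hq0
  have har : A * t / (4 * ρ) ≤ q₀ * s / n := by
    rw [div_le_div_iff₀ (by positivity) hn0]
    have h1 : s * (n * A) ≤ 4 * ρ * q₀ := by rwa [le_div_iff₀ (by positivity)] at hs4
    have e1 : A * t * n = s * (s * (n * A)) := by rw [ht]; ring
    have e2 : q₀ * s * (4 * ρ) = s * (4 * ρ * q₀) := by ring
    rw [e1, e2]
    gcongr
  have hv := vol_low hn hen (a := A * t / (4 * ρ)) (r := q₀ * s) (by positivity) har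
    (X u - ρ • u - q) hfin hS
  have e3 : (A / (2 * ρ)) * (2 * (q₀ / n)) ^ (n - 1) * s ^ (n + 1) =
      (2 * (A * t / (4 * ρ))) * (2 * (q₀ * s / n)) ^ (n - 1) := by
    have e4 : 2 * (q₀ * s / n) = (2 * (q₀ / n)) * s := by ring
    have e5 : s ^ (n + 1) = s ^ (n - 1) * s ^ 2 := by rw [← pow_add]; congr 1; omega
    rw [e4, mul_pow, e5, ht]
    ring
  rw [e3]
  exact hv

end

section
variable {n : ℕ} {K H : Set (E n)} {hK : E n → ℝ} {XK : E n → E n}

/-- the body lies in a ball touching at the support point -/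
theorem outer_ball {C : ℝ} (hHc : IsCompact H) (hHn : H.Nonempty)
    (hup : ∀ u v : E n, ‖u‖ = 1 → ‖v‖ = 1 → ∀ x ∈ H, ⟪x, u⟫ = sf H u →
      sf H v - ⟪x, v⟫ ≤ C * ‖u - v‖ ^ 2) (hC : 0 < C) {u : E n} (hu : ‖u‖ = 1) {p : E n} (hp : p ∈ H)
    (hpu : ⟪p, u⟫ = sf H u) {y : E n} (hy : y ∈ H) {τ : ℝ} (hτ : sf H u - τ ≤ ⟪y, u⟫) :
    ‖y - p‖ ^ 2 ≤ 4 * C * τ := by
  set z : E n := y - p + (2 * C) • u with hz
  have hzn : ‖z‖ ≤ 2 * C := by
    by_cases h0 : z = 0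
    · rw [h0, norm_zero]; positivity
    · have hzp : 0 < ‖z‖ := norm_pos_iff.2 h0
      set v : E n := ‖z‖⁻¹ • z with hv
      have hvn : ‖v‖ = 1 := nrm_norm h0
      have h1 := hup u v hu hvn p hp hpu
      have h2 := stG0_le hHc hy v
      have h3 : ‖u - v‖ ^ 2 = 2 - 2 * ⟪u, v⟫ := by
        rw [norm_sub_sq_real, hu, hvn]; ring
      have h4 : ⟪z, v⟫ = ‖z‖ := by
        rw [hv, real_inner_smul_right, real_inner_self_eq_norm_sq]
        field_simp
      rw [← h4, hz, inner_add_left, inner_sub_left, real_inner_smul_left]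
      rw [h3] at h1
      linarith
  have h5 : ‖z‖ ^ 2 ≤ (2 * C) ^ 2 := by gcongr
  rw [hz, norm_add_sq_real, norm_smul, hu, real_inner_smul_right, Real.norm_of_nonneg (by positivity),
    inner_sub_left, hpu] at h5
  nlinarith

/-- quadratic lower bound -/
theorem HR_low (hn : 2 ≤ n) (gK : Wk K hK XK) (hHc : IsCompact H) (hHn : H.Nonempty)
    (hw : ∀ u, hK u + hK (-u) = sf H u + sf H (-u)) (hcov : ∀ x, covg K x = covg H x) :
    ∃ c : ℝ, 0 < c ∧ ∀ u v : E n, ‖u‖ = 1 → ‖v‖ = 1 → ∀ x ∈ H, ⟪x, u⟫ = sf H u →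
      c * ‖u - v‖ ^ 2 ≤ sf H v - ⟪x, v⟫ := by
  obtain ⟨C, hC, hup⟩ := HR_up gK hHc hHn hw
  obtain ⟨κ, s₀, hκ, hs₀, hcl⟩ := cov_low (by omega) gK
  obtain ⟨R, hR0, hR⟩ := gK.Rbd
  obtain ⟨m₀, hm₀, hml⟩ := gK.hlow (by omega)
  obtain ⟨W, hW⟩ : ∃ W : ℝ, W = 2 * R := ⟨_, rfl⟩
  have hW0 : 0 < W := by rw [hW]; positivity
  have hwW : ∀ u : E n, ‖u‖ = 1 → hK u + hK (-u) ≤ W := by
    have h1 : ∀ u : E n, ‖u‖ = 1 → hK u ≤ R := by
      intro u hu
      have hu0 : u ≠ 0 := by rw [← norm_pos_iff, hu]; exact one_pos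
      rw [← gK.eq u hu0]
      refine (real_inner_le_norm _ _).trans ?_
      rw [hu, mul_one]; exact hR u hu0
    intro u hu
    have := h1 u hu
    have := h1 (-u) (by rwa [norm_neg])
    rw [hW]; linarith
  obtain ⟨B, hB⟩ : ∃ B : ℝ, B = Real.sqrt (4 * C * W) := ⟨_, rfl⟩
  have hB0 : 0 < B := by rw [hB]; exact Real.sqrt_pos.2 (by positivity)
  have hB2 : B ^ 2 = 4 * C * W := by rw [hB]; exact Real.sq_sqrt (by positivity)
  obtain ⟨M, hM⟩ : ∃ M : ℝ, M = 4 * W * (2 * B) ^ (n - 2) := ⟨_, rfl⟩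
  have hM0 : 0 < M := by rw [hM]; positivity
  obtain ⟨μ, hμ⟩ : ∃ μ : ℝ, μ = min (s₀ / 2) (κ / (4 * W * M)) := ⟨_, rfl⟩
  have hμ0 : 0 < μ := by rw [hμ]; exact lt_min (by positivity) (by positivity)
  have hμ1 : μ ≤ s₀ / 2 := by rw [hμ]; exact min_le_left _ _
  have hμ2 : μ ≤ κ / (4 * W * M) := by rw [hμ]; exact min_le_right _ _
  refine ⟨min (m₀ / 2) (κ * μ / (2 * M)), lt_min (by positivity) (by positivity),
    fun u v hu hv x hx hxu => ?_⟩
  have hu0 : u ≠ 0 := by rw [← norm_pos_iff, hu]; exact one_pos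
  obtain ⟨f, hf⟩ : ∃ f : ℝ, f = sf H v - ⟪x, v⟫ := ⟨_, rfl⟩
  have hf0 : 0 ≤ f := by rw [hf]; linarith [stG0_le hHc hx v]
  rw [← hf]
  by_cases hδ0 : u = v
  · rw [hδ0, sub_self, norm_zero]; simpa using hf0
  have hδ : 0 < ‖u - v‖ := norm_pos_iff.2 (sub_ne_zero.2 hδ0)
  obtain ⟨δ, hδd⟩ : ∃ δ : ℝ, δ = ‖u - v‖ := ⟨_, rfl⟩
  rw [← hδd] at hδ ⊢
  have hδ2 : δ ≤ 2 := by
    rw [hδd]
    refine (norm_sub_le _ _).trans ?_
    rw [hu, hv]; norm_num
  by_cases huv : u + v = 0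
  · have hvu : v = -u := (neg_eq_of_add_eq_zero_right huv).symm
    have h1 : f = hK u + hK (-u) := by
      rw [hf, hvu, inner_neg_right, hxu, hw]; ring
    have h2 := hml u hu
    have h3 := hml (-u) (by rwa [norm_neg])
    have h4 : min (m₀ / 2) (κ * μ / (2 * M)) * δ ^ 2 ≤ (m₀ / 2) * 2 ^ 2 := by
      gcongr
      exact min_le_left _ _
    rw [h1]; linarith
  · have hσ : 0 < ‖u + v‖ := norm_pos_iff.2 huv
    obtain ⟨σ, hσd⟩ : ∃ σ : ℝ, σ = ‖u + v‖ := ⟨_, rfl⟩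
    rw [← hσd] at hσ
    have hσ2 : σ ≤ 2 := by
      rw [hσd]
      refine (norm_add_le _ _).trans ?_
      rw [hu, hv]; norm_num
    obtain ⟨u', hu'd⟩ : ∃ u' : E n, u' = σ⁻¹ • (u + v) := ⟨_, rfl⟩
    obtain ⟨e, hed⟩ : ∃ e : E n, e = δ⁻¹ • (v - u) := ⟨_, rfl⟩
    have hu' : ‖u'‖ = 1 := by rw [hu'd, hσd]; exact nrm_norm huv
    have he : ‖e‖ = 1 := by
      rw [hed, norm_smul, norm_inv, norm_sub_rev, ← hδd, Real.norm_of_nonneg hδ.le, inv_mul_cancel₀ hδ.ne']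
    have hue : ⟪u', e⟫ = 0 := by
      rw [hu'd, hed, real_inner_smul_left, real_inner_smul_right, inner_add_left, inner_sub_right,
        inner_sub_right, real_inner_self_eq_norm_sq, real_inner_self_eq_norm_sq, hu, hv,
        real_inner_comm v u]
      ring
    have huv' : u + v = σ • u' := by rw [hu'd, smul_smul, mul_inv_cancel₀ hσ.ne', one_smul]
    obtain ⟨p, hp, hpu'⟩ := stG0_ex hHc hHn u'
    obtain ⟨s, hs⟩ : ∃ s : ℝ, s = μ * δ := ⟨_, rfl⟩
    have hs0 : 0 < s := by rw [hs]; positivity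
    have hss : s ≤ s₀ := by
      rw [hs]
      calc μ * δ ≤ (s₀ / 2) * 2 := by gcongr
        _ = s₀ := by ring
    have h1 := hcl u' hu' s hs0 hss
    rw [hcov] at h1
    obtain ⟨w, hwd⟩ : ∃ w : ℝ, w = hK u' + hK (-u') := ⟨_, rfl⟩
    have hwW' : w ≤ W := by rw [hwd]; exact hwW u' hu'
    have hu'0 : u' ≠ 0 := by rw [← norm_pos_iff, hu']; exact one_pos
    have hdu : ⟪XK u' - XK (-u'), u'⟫ = w := by
      rw [inner_sub_left, hwd, ← gK.eq u' hu'0, ← gK.eq (-u') (neg_ne_zero.2 hu'0), inner_neg_right]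
      ring
    have h2 : covg H ((1 - s ^ 2) • (XK u' - XK (-u'))) ≤
        (2 * (s ^ 2 * W)) * ((2 * ((f + 2 * (s ^ 2 * W)) / δ)) * (2 * (B * s)) ^ (n - 2)) := by
      unfold covg
      refine vol_up hn hu' he hue (β := (sf H v - sf H u) / δ) (by positivity) (by positivity)
        (by positivity) p ?_
      rintro y ⟨hy, y', hy', hyy'⟩
      have hyu' : ⟪y, u'⟫ ≤ sf H u' := stG0_le hHc hy u'
      have hcap : sf H u' - s ^ 2 * w ≤ ⟪y, u'⟫ := by
        have h3 := stG0_le hHc hy' (-u')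
        rw [inner_neg_right] at h3
        have h4 : ⟪y, u'⟫ = ⟪y', u'⟫ + (1 - s ^ 2) * w := by
          rw [← hyy', inner_add_left, real_inner_smul_left, hdu]
        have h5 := hw u'
        rw [h4]
        rw [hwd] at *
        nlinarith
      have hcap' : sf H u' - s ^ 2 * W ≤ ⟪y, u'⟫ := by
        have : s ^ 2 * w ≤ s ^ 2 * W := by gcongr
        linarith
      refine ⟨?_, ?_, ?_⟩
      · rw [inner_sub_right, real_inner_comm y u', real_inner_comm p u', hpu', abs_le]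
        constructor
        · linarith
        · have : 0 ≤ s ^ 2 * W := by positivity
          linarith
      · have h3 : ⟪y, u⟫ ≤ sf H u := stG0_le hHc hy u
        have h4 : ⟪y, v⟫ ≤ sf H v := stG0_le hHc hy v
        have h5 : sf H u + sf H v - f - 2 * (s ^ 2 * W) ≤ ⟪y, u⟫ + ⟪y, v⟫ := by
          have e1 : ⟪y, u⟫ + ⟪y, v⟫ = σ * ⟪y, u'⟫ := by
            rw [← inner_add_right, huv', real_inner_smul_right]
          have e2 : sf H u + sf H v - f = ⟪x, u + v⟫ := by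
            rw [hf, inner_add_right, hxu]; ring
          have e3 : ⟪x, u + v⟫ ≤ σ * sf H u' := by
            rw [huv', real_inner_smul_right]
            exact mul_le_mul_of_nonneg_left (stG0_le hHc hx u') hσ.le
          rw [e2, e1]
          have e4 : σ * (sf H u' - s ^ 2 * W) ≤ σ * ⟪y, u'⟫ := by gcongr
          have e5 : σ * (s ^ 2 * W) ≤ 2 * (s ^ 2 * W) := by gcongr
          nlinarith
        have e6 : ⟪e, y⟫ - (sf H v - sf H u) / δ =
            ((⟪y, v⟫ - ⟪y, u⟫) - (sf H v - sf H u)) / δ := by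
          rw [hed, real_inner_smul_left, inner_sub_left, real_inner_comm v y, real_inner_comm u y]
          field_simp
        rw [e6, abs_div, abs_of_pos hδ]
        gcongr
        rw [abs_le]
        constructor <;> linarith
      · have h3 := outer_ball hHc hHn hup hC hu' hp hpu' hy hcap'
        have h4 : ‖y - p‖ ^ 2 ≤ (B * s) ^ 2 := by
          rw [mul_pow, hB2]
          linarith
        exact le_of_sq_le_sq h4 (by positivity)
    have h3 := h1.trans h2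
    have e1 : (2 * (s ^ 2 * W)) * ((2 * ((f + 2 * (s ^ 2 * W)) / δ)) * (2 * (B * s)) ^ (n - 2)) =
        s ^ n * (M * ((f + 2 * (s ^ 2 * W)) / δ)) := by
      have e2 : 2 * (B * s) = (2 * B) * s := by ring
      have e3 : s ^ n = s ^ 2 * s ^ (n - 2) := by rw [← pow_add]; congr 1; omega
      rw [e2, mul_pow, e3, hM]
      ring
    have e2 : κ * s ^ (n + 1) = s ^ n * (κ * s) := by rw [pow_succ]; ring
    rw [e1, e2] at h3
    have h4 := le_of_mul_le_mul_left h3 (by positivity)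
    have h5 : κ * s * δ ≤ M * (f + 2 * (s ^ 2 * W)) := by
      rw [← mul_div_assoc, le_div_iff₀ hδ] at h4
      exact h4
    have h6 : 2 * (s ^ 2 * W) * M ≤ κ * s * δ / 2 := by
      have h7 : μ * (4 * W * M) ≤ κ := by rwa [le_div_iff₀ (by positivity)] at hμ2
      have h8 : s * δ * (μ * (4 * W * M)) ≤ s * δ * κ := by gcongr
      have h9 : 2 * (s ^ 2 * W) * M = s * δ * (μ * (4 * W * M)) / 2 := by
        rw [hs]; ring
      rw [h9]
      linarith
    have h7 : κ * μ * δ ^ 2 / 2 ≤ M * f := by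
      have : κ * s * δ = κ * μ * δ ^ 2 := by rw [hs]; ring
      rw [← this]
      linarith
    calc min (m₀ / 2) (κ * μ / (2 * M)) * δ ^ 2 ≤ (κ * μ / (2 * M)) * δ ^ 2 := by
          gcongr; exact min_le_right _ _
      _ = (κ * μ * δ ^ 2 / 2) / M := by field_simp
      _ ≤ f := by rw [div_le_iff₀ hM0]; linarith

/-- a convex body with the covariogram of a regular body is regular -/
theorem HR (hn : 2 ≤ n) (gK : Wk K hK XK) (hHc : IsCompact H) (hHv : Convex ℝ H)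
    (hH0 : (0 : E n) ∈ interior H) (hcov : ∀ x, covg K x = covg H x) :
    (∃ XH : E n → E n, Wk H (sf H) XH) ∧ ∀ u, hK u + hK (-u) = sf H u + sf H (-u) := by
  have hHn : H.Nonempty := ⟨0, interior_subset hH0⟩
  have hw := width_eq gK hHc hHv hH0 hcov
  obtain ⟨C, hC, hup⟩ := HR_up gK hHc hHn hw
  obtain ⟨c, hc, hlo⟩ := HR_low hn gK hHc hHn hw hcov
  exact ⟨mk_wk hHc hHv hH0 hc hC hup hlo, hw⟩

end

end Pool.Agent.H878R2.Cov
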