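import Mathlib
import Pool.Agent.Helper890.Cov.StG

open MeasureTheory Set Filter Topology Metric
open scoped RealInnerProductSpace Pointwise

namespace Pool.Agent.H878R2.Cov
open Pool.Agent.Helper890.Cov

/-- a Lipschitz function whose derivative vanishes almost everywhere is constant on segments -/
theorem lconst {n : ℕ} {f : E n → E n} {U : Set (E n)} (hU : IsOpen U) {C : NNReal}
    (hf : LipschitzOnWith C f U)
    (hd : ∀ᵐ x : E n, x ∈ U → HasFDerivAt f (0 : E n →L[ℝ] E n) x) {x₀ e : E n}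
    (hxy : ∀ s ∈ Icc (0 : ℝ) 1, x₀ + s • e ∈ U) : f (x₀ + e) = f x₀ := by
  -- a neighbourhood of the segment
  have hcomp : IsCompact ((fun s : ℝ => x₀ + s • e) '' Icc 0 1) := isCompact_Icc.image (by fun_prop)
  have hsub : ((fun s : ℝ => x₀ + s • e) '' Icc 0 1) ⊆ U := by
    rintro _ ⟨s, hs, rfl⟩; exact hxy s hs
  obtain ⟨δ', hδ', hthick⟩ := hcomp.exists_thickening_subset_open hU hsub
  obtain ⟨δ, hδ⟩ : ∃ δ : ℝ, δ = δ' / 2 := ⟨_, rfl⟩
  have hδ0 : 0 < δ := by rw [hδ]; positivity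
  have hin : ∀ s₀ ∈ Icc (0 : ℝ) 1, ∀ s : ℝ, |s - s₀| * ‖e‖ < δ → ∀ z : E n, ‖z‖ < δ →
      x₀ + s • e + z ∈ U := by
    intro s₀ hs₀ s hs z hz
    apply hthick
    rw [mem_thickening_iff]
    refine ⟨x₀ + s₀ • e, ⟨s₀, hs₀, rfl⟩, ?_⟩
    rw [dist_eq_norm]
    have e1 : x₀ + s • e + z - (x₀ + s₀ • e) = (s - s₀) • e + z := by module
    rw [e1]
    refine (norm_add_le _ _).trans_lt ?_
    rw [norm_smul, Real.norm_eq_abs]
    linarith
  obtain ⟨ε, hε⟩ : ∃ ε : ℝ, ε = δ / (‖e‖ + 1) := ⟨_, rfl⟩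
  have hε0 : 0 < ε := by rw [hε]; positivity
  have hεe : ε * ‖e‖ < δ := by
    rw [hε, div_mul_eq_mul_div, div_lt_iff₀ (by positivity)]
    nlinarith [norm_nonneg e]
  have hin2 : ∀ s₀ ∈ Icc (0 : ℝ) 1, ∀ s ∈ ball s₀ ε, ∀ z : E n, ‖z‖ < δ → x₀ + s • e + z ∈ U := by
    intro s₀ hs₀ s hs z hz
    refine hin s₀ hs₀ s ?_ z hz
    rw [mem_ball, Real.dist_eq] at hs
    exact lt_of_le_of_lt (mul_le_mul_of_nonneg_right hs.le (norm_nonneg _)) hεe
  have key : ∀ ρ : ℝ, 0 < ρ → ρ < δ → ‖f (x₀ + e) - f x₀‖ ≤ 2 * (C * ρ) := by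
    intro ρ hρ hρδ
    have hfinB : volume (ball (0 : E n) ρ) < ⊤ := measure_ball_lt_top
    have hBpos : 0 < (volume : Measure (E n)).real (ball 0 ρ) :=
      ENNReal.toReal_pos (measure_ball_pos _ _ hρ).ne' hfinB.ne
    have hfinm : IsFiniteMeasure ((volume : Measure (E n)).restrict (ball 0 ρ)) :=
      ⟨by rw [Measure.restrict_apply_univ]; exact hfinB⟩
    have hcontf : ContinuousOn f U := hf.continuousOn
    have hcz : ∀ s₀ ∈ Icc (0 : ℝ) 1, ∀ s ∈ ball s₀ ε,
        ContinuousOn (fun z => f (x₀ + s • e + z)) (ball 0 δ) := by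
      intro s₀ hs₀ s hs
      refine hcontf.comp (by fun_prop) ?_
      intro z hz
      exact hin2 s₀ hs₀ s hs z (by simpa using hz)
    have hiz : ∀ s₀ ∈ Icc (0 : ℝ) 1, ∀ s ∈ ball s₀ ε,
        IntegrableOn (fun z => f (x₀ + s • e + z)) (ball 0 ρ) := by
      intro s₀ hs₀ s hs
      have h1 : ContinuousOn (fun z => f (x₀ + s • e + z)) (closedBall 0 ρ) :=
        (hcz s₀ hs₀ s hs).mono (closedBall_subset_ball hρδ)
      exact (h1.integrableOn_compact (isCompact_closedBall _ _)).mono_set ball_subset_closedBall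
    have hder : ∀ s₀ ∈ Icc (0 : ℝ) 1, HasDerivAt (fun s : ℝ => ∫ z in ball (0 : E n) ρ,
        f (x₀ + s • e + z)) 0 s₀ := by
      intro s₀ hs₀
      refine HasDerivAt.congr_deriv (f' := ∫ z in ball (0 : E n) ρ, (0 : E n)) ?_ (by simp)
      refine (hasDerivAt_integral_of_dominated_loc_of_lip (μ := volume.restrict (ball (0 : E n) ρ))
        (F := fun s z => f (x₀ + s • e + z)) (F' := fun _ => (0 : E n)) (x₀ := s₀) (s := ball s₀ ε)
        (bound := fun _ => (C : ℝ) * ‖e‖) (ball_mem_nhds s₀ hε0) ?_ ?_ ?_ ?_ (integrable_const _) ?_).2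
      · filter_upwards [ball_mem_nhds s₀ hε0] with s hs
        exact (hiz s₀ hs₀ s hs).aestronglyMeasurable
      · exact hiz s₀ hs₀ s₀ (mem_ball_self hε0)
      · exact aestronglyMeasurable_const
      · rw [ae_restrict_iff' measurableSet_ball]
        refine ae_of_all _ fun z hz => LipschitzOnWith.of_dist_le_mul fun s hs s' hs' => ?_
        have hzδ : ‖z‖ < δ := by
          have : ‖z‖ < ρ := by simpa using hz
          linarith
        refine (hf.dist_le_mul _ (hin2 s₀ hs₀ s hs z hzδ) _ (hin2 s₀ hs₀ s' hs' z hzδ)).trans ?_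
        have e1 : x₀ + s • e + z - (x₀ + s' • e + z) = (s - s') • e := by module
        rw [dist_eq_norm, e1, norm_smul, Real.coe_nnabs, abs_of_nonneg (by positivity), dist_eq_norm]
        apply le_of_eq
        ring
      · rw [ae_restrict_iff' measurableSet_ball]
        have h1 : ∀ᵐ z : E n, x₀ + s₀ • e + z ∈ U → HasFDerivAt f (0 : E n →L[ℝ] E n) (x₀ + s₀ • e + z) :=
          (measurePreserving_add_left (volume : Measure (E n)) (x₀ + s₀ • e)).quasiMeasurePreserving.ae hd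
        filter_upwards [h1] with z hz hzb
        have hzδ : ‖z‖ < δ := by
          have : ‖z‖ < ρ := by simpa using hzb
          linarith
        have h2 := hz (hin2 s₀ hs₀ s₀ (mem_ball_self hε0) z hzδ)
        have h3 : HasDerivAt (fun s : ℝ => x₀ + s • e + z) e s₀ := by
          simpa using (((hasDerivAt_id s₀).smul_const e).const_add x₀).add_const z
        exact h2.comp_hasDerivAt s₀ h3
    have hconst := constant_of_has_deriv_right_zero (a := (0 : ℝ)) (b := 1)
      (f := fun s : ℝ => ∫ z in ball (0 : E n) ρ, f (x₀ + s • e + z))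
      (fun s hs => (hder s hs).continuousAt.continuousWithinAt)
      (fun s hs => (hder s (Ico_subset_Icc_self hs)).hasDerivWithinAt) 1 (by norm_num)
    simp only [one_smul, zero_smul, add_zero] at hconst
    have h00 : (0 : ℝ) ∈ Icc (0 : ℝ) 1 := by norm_num
    have h11 : (1 : ℝ) ∈ Icc (0 : ℝ) 1 := by norm_num
    have i1 := hiz 1 h11 1 (mem_ball_self hε0)
    have i0 := hiz 0 h00 0 (mem_ball_self hε0)
    simp only [one_smul, zero_smul, add_zero] at i1 i0
    have hsame : ∀ x : E n, (∀ z : E n, ‖z‖ < δ → x + z ∈ U) →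
        IntegrableOn (fun z => f (x + z)) (ball 0 ρ) →
        ‖(∫ z in ball (0 : E n) ρ, f (x + z)) - (volume : Measure (E n)).real (ball 0 ρ) • f x‖ ≤
        C * ρ * (volume : Measure (E n)).real (ball 0 ρ) := by
      intro x hx hi
      have e1 : (∫ z in ball (0 : E n) ρ, f (x + z)) - (volume : Measure (E n)).real (ball 0 ρ) • f x =
          ∫ z in ball (0 : E n) ρ, (f (x + z) - f x) := by
        rw [integral_sub hi (integrable_const _), setIntegral_const]
      rw [e1]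
      refine norm_setIntegral_le_of_norm_le_const hfinB fun z hz => ?_
      have hzρ : ‖z‖ < ρ := by simpa using hz
      have h1 := hf.dist_le_mul _ (hx z (by linarith)) _ (hx 0 (by simpa using hδ0))
      rw [add_zero, dist_eq_norm, dist_eq_norm, add_sub_cancel_left] at h1
      refine h1.trans ?_
      gcongr
    have b1 := hsame (x₀ + e) (fun z hz => by
      have := hin2 1 h11 1 (mem_ball_self hε0) z hz
      rwa [one_smul] at this) i1
    have b0 := hsame x₀ (fun z hz => by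
      have := hin2 0 h00 0 (mem_ball_self hε0) z hz
      rwa [zero_smul, add_zero] at this) i0
    rw [hconst] at b1
    set V : ℝ := (volume : Measure (E n)).real (ball 0 ρ) with hV
    set I : E n := ∫ z in ball (0 : E n) ρ, f (x₀ + z) with hI
    have h5 : ‖V • (f (x₀ + e) - f x₀)‖ ≤ 2 * (C * ρ * V) := by
      have e2 : V • (f (x₀ + e) - f x₀) = (I - V • f x₀) - (I - V • f (x₀ + e)) := by
        rw [smul_sub]; abel
      rw [e2]
      refine (norm_sub_le _ _).trans ?_
      linarith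
    rw [norm_smul, Real.norm_of_nonneg hBpos.le] at h5
    have h6 : V * ‖f (x₀ + e) - f x₀‖ ≤ V * (2 * (C * ρ)) := by linarith
    exact le_of_mul_le_mul_left h6 hBpos
  by_contra hne
  have hpos : 0 < ‖f (x₀ + e) - f x₀‖ := norm_pos_iff.2 (sub_ne_zero.2 hne)
  set A := ‖f (x₀ + e) - f x₀‖ with hA
  obtain ⟨ρ, hρ⟩ : ∃ ρ : ℝ, ρ = min (δ / 2) (A / (4 * ((C : ℝ) + 1))) := ⟨_, rfl⟩
  have hρ0 : 0 < ρ := by rw [hρ]; exact lt_min (by positivity) (by positivity)
  have hρ1 : ρ < δ := by rw [hρ]; exact (min_le_left _ _).trans_lt (by linarith)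
  have hρ2 : ρ ≤ A / (4 * ((C : ℝ) + 1)) := by rw [hρ]; exact min_le_right _ _
  have h1 := key ρ hρ0 hρ1
  have h2 : ρ * (4 * ((C : ℝ) + 1)) ≤ A := by rwa [le_div_iff₀ (by positivity)] at hρ2
  nlinarith [C.coe_nonneg]

end Pool.Agent.H878R2.Cov
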