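import Mathlib
import Pool.Agent.H878R2.Cov.Psi
import Pool.Agent.Helper890.Cov.JM1

open MeasureTheory Set Filter Topology Metric
open scoped RealInnerProductSpace Pointwise

namespace Pool.Agent.H878R2.Cov
open Pool.Agent.Helper890.Cov Pool.Agent.Helper890.Cov.JG6

/-- the mixed trace -/
noncomputable def MT {n : ℕ} (X' X : E n → E n) (v : E n) : ℝ :=
  LinearMap.trace ℝ (E n)
    (((BB X' v).comp (ContinuousLinearMap.inverse (BB X v)) : E n →L[ℝ] E n) : E n →ₗ[ℝ] E n)

section
variable {n : ℕ} {K : Set (E n)} {h : E n → ℝ} {X : E n → E n}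

theorem BB1 {v : E n} (hv : ‖v‖ = 1) (w : E n) :
    BB X v w = fderiv ℝ X v w + ⟪v, w⟫ • v := by
  simp [BB, hv]

theorem BBv (G : Wk K h X) {v : E n} (hv : ‖v‖ = 1) (hr : Reg X v) : BB X v v = v := by
  rw [BB1 hv, G.radial hr]
  simp [hv]

theorem BBsymm (G : Wk K h X) {v : E n} (hv : ‖v‖ = 1) (hr : Reg X v) (w w' : E n) :
    ⟪BB X v w, w'⟫ = ⟪w, BB X v w'⟫ := by
  rw [BB1 hv, BB1 hv, inner_add_left, inner_add_right, G.symm hr, inner_smul_left,
    inner_smul_right]
  simp only [RCLike.conj_to_real]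
  rw [real_inner_comm v w]
  ring

theorem BBpos (G : Wk K h X) {v : E n} (hr : Reg X v) {w : E n} (hw : w ≠ 0) :
    0 < ⟪BB X v w, w⟫ := by
  obtain ⟨m, M, hm, hM, h1, h2⟩ := BB_bounds G
  have := h2 v hr w
  have hwn : 0 < ‖w‖ := norm_pos_iff.2 hw
  have : 0 < m * ‖w‖ ^ 2 := by positivity
  linarith

theorem BBinj (G : Wk K h X) {v : E n} (hr : Reg X v) :
    Function.Injective (BB X v : E n →ₗ[ℝ] E n) := by
  rw [← LinearMap.ker_eq_bot, LinearMap.ker_eq_bot']
  intro w hw
  by_contra hw0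
  have h1 := BBpos G hr hw0
  rw [ContinuousLinearMap.coe_coe] at hw
  rw [hw, inner_zero_left] at h1
  exact lt_irrefl _ h1

theorem BBinv (G : Wk K h X) {v : E n} (hr : Reg X v) (w : E n) :
    BB X v ((BB X v).inverse w) = w := by
  obtain ⟨e, he⟩ := JM1.a_equiv (BB X v) (BBinj G hr)
  rw [← he, ContinuousLinearMap.inverse_equiv]
  simp

end

theorem wM1 {n : ℕ} (hn : 2 ≤ n) {K' : Set (E n)} {h' : E n → ℝ} {X' : E n → E n} (G' : Wk K' h' X')
    {K : Set (E n)} {h : E n → ℝ} {X : E n → E n} (G : Wk K h X) :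
    Integrable (fun v : sphere (0 : E n) 1 => (h' v + h v * (MT X' X v - 1)) * curv X v) (sph n) ∧
    (n : ℝ) * ∫ v : sphere (0 : E n) 1, h' v * curv X v ∂(sph n) =
      ∫ v : sphere (0 : E n) 1, (h' v + h v * (MT X' X v - 1)) * curv X v ∂(sph n) := by
  haveI : Nonempty (Fin n) := ⟨⟨0, by omega⟩⟩
  haveI : Nontrivial (E n) := inferInstance
  obtain ⟨κ, hanti⟩ := Ps_anti (by omega) G
  obtain ⟨C', hlip'⟩ := Ps_lip G'
  obtain ⟨C₁, hlip1⟩ := Ps_lip G
  obtain ⟨N, hN⟩ : ∃ N : E n → E n, Function.RightInverse N (Ps X) := (Ps_surj G).hasRightInverse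
  have hNl : LipschitzWith κ N := hanti.to_rightInverse hN
  have hNP : ∀ η, N (Ps X η) = η := fun η => hanti.injective (hN (Ps X η))
  have hNs : ∀ (r : ℝ) (x : E n), 0 < r → N (r • x) = r • N x := by
    intro r x hr
    apply hanti.injective
    rw [hN, Ps_smul G hr, hN]
  obtain ⟨Z, hZ⟩ : ∃ Z : E n → E n, Z = fun x => Ps X' (N x) := ⟨_, rfl⟩
  have hZl : LipschitzWith (C' * κ) Z := by rw [hZ]; exact hlip'.comp hNl
  have hZP : ∀ η, Z (Ps X η) = Ps X' η := fun η => by rw [hZ]; simp only; rw [hNP]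
  have hZs : ∀ (r : ℝ) (x : E n), 0 < r → Z (r • x) = r • Z x := by
    intro r x hr
    rw [hZ]; simp only
    rw [hNs r x hr, Ps_smul G' hr]
  obtain ⟨L, hL⟩ : ∃ L : ℝ, L = ((C' * κ : NNReal) : ℝ) := ⟨_, rfl⟩
  have hfb : ∀ x, ‖fderiv ℝ Z x‖ ≤ L := fun x => by
    rw [hL]; exact norm_fderiv_le_of_lipschitz ℝ hZl
  have hfs : ∀ (r : ℝ) (x : E n), 0 < r → fderiv ℝ Z (r • x) = fderiv ℝ Z x := by
    intro r x hr
    have h1 : fderiv ℝ (fun y => Z (r • y)) x = r • fderiv ℝ Z (r • x) := by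
      rw [fderiv_comp_smul]
    have h2 : (fun y => Z (r • y)) = fun y => r • Z y := by
      funext y; exact hZs r y hr
    rw [h2] at h1
    have h3 : fderiv ℝ (fun y => r • Z y) x = r • fderiv ℝ Z x := by
      rcases em (DifferentiableAt ℝ Z x) with hd | hd
      · exact fderiv_fun_const_smul hd r
      · have hnd : ¬ DifferentiableAt ℝ (fun y => r • Z y) x := ?_
        · rw [fderiv_zero_of_not_differentiableAt hd, fderiv_zero_of_not_differentiableAt hnd]
          ext1 w
          simp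
        intro hd2
        apply hd
        have h4 := hd2.const_smul r⁻¹
        refine h4.congr_of_eventuallyEq (Eventually.of_forall fun y => ?_)
        show Z y = r⁻¹ • r • Z y
        rw [smul_smul, inv_mul_cancel₀ hr.ne', one_smul]
    rw [h3] at h1
    exact (smul_right_injective _ hr.ne' h1).symm
  -- the divergence
  obtain ⟨D, hD⟩ : ∃ D : E n → ℝ, D = fun x =>
    LinearMap.trace ℝ (E n) ((fderiv ℝ Z x : E n →L[ℝ] E n) : E n →ₗ[ℝ] E n) := ⟨_, rfl⟩
  obtain ⟨b, hb⟩ : ∃ b, b = EuclideanSpace.basisFun (Fin n) ℝ := ⟨_, rfl⟩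
  have hDs : ∀ x, D x = ∑ i, ⟪b i, fderiv ℝ Z x (b i)⟫ := by
    intro x
    rw [hD]
    simp only [LinearMap.trace_eq_sum_inner _ b, ContinuousLinearMap.coe_coe]
  have hterm : ∀ i, Measurable (fun x => ⟪b i, fderiv ℝ Z x (b i)⟫) := fun i =>
    (measurable_fderiv_apply_const ℝ Z (b i)).const_inner
  have hDm : Measurable D := by
    have : D = fun x => ∑ i, ⟪b i, fderiv ℝ Z x (b i)⟫ := funext hDs
    rw [this]
    exact Finset.measurable_sum _ fun i _ => hterm i
  have htb : ∀ i x, |⟪b i, fderiv ℝ Z x (b i)⟫| ≤ L := by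
    intro i x
    refine (abs_real_inner_le_norm _ _).trans ?_
    rw [b.orthonormal.1 i, one_mul]
    refine ((fderiv ℝ Z x).le_opNorm _).trans ?_
    rw [b.orthonormal.1 i, mul_one]
    exact hfb x
  have hDb : ∀ x, |D x| ≤ n * L := by
    intro x
    rw [hDs]
    refine (Finset.abs_sum_le_sum_abs _ _).trans ?_
    refine (Finset.sum_le_sum fun i _ => htb i x).trans ?_
    simp
  -- divergence theorem
  have hfin : IsFiniteMeasure ((volume : Measure (E n)).restrict K) :=
    ⟨by rw [Measure.restrict_apply_univ]; exact G.compact.measure_lt_top⟩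
  obtain ⟨c1, c2, hc1, hc2, -, hcb⟩ := curv_bounds hn G
  have hXs : Continuous (fun v : sphere (0 : E n) 1 => X v) :=
    G.contX.comp_continuous continuous_subtype_val fun v => sph_ne v
  have hXs' : Continuous (fun v : sphere (0 : E n) 1 => X' v) :=
    G'.contX.comp_continuous continuous_subtype_val fun v => sph_ne v
  have hcs := curv_meas_sph X
  have hint : ∀ φ : sphere (0 : E n) 1 → ℝ, Continuous φ →
      Integrable (fun v : sphere (0 : E n) 1 => φ v * curv X v) (sph n) := by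
    intro φ hφ
    obtain ⟨B1, hB1⟩ := isCompact_univ.exists_bound_of_continuousOn (hφ.continuousOn (s := univ))
    refine integrable_sph (hφ.measurable.mul hcs).aestronglyMeasurable (B1 * c2) fun v => ?_
    have b3 := hcb v (sph_ne v)
    rw [norm_mul, Real.norm_of_nonneg b3.1]
    exact mul_le_mul (hB1 v (mem_univ v)) b3.2 b3.1 ((norm_nonneg _).trans (hB1 v (mem_univ v)))
  have hdiv : ∫ x in K, D x = ∫ v : sphere (0 : E n) 1, h' v * curv X v ∂(sph n) := by
    have h1 : ∀ i, ∫ x in K, ⟪b i, fderiv ℝ Z x (b i)⟫ =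
        ∫ v : sphere (0 : E n) 1, (⟪(v : E n), b i⟫ * ⟪b i, X' v⟫) * curv X v ∂(sph n) := by
      intro i
      have hg : LipschitzWith (‖innerSL ℝ (b i)‖₊ * (C' * κ)) (fun x => (innerSL ℝ (b i)) (Z x)) :=
        (innerSL ℝ (b i)).lipschitz.comp hZl
      have h2 := lipdiv hn G _ hg (b i)
      have h3 : ∫ x in K, fderiv ℝ (fun x => (innerSL ℝ (b i)) (Z x)) x (b i) =
          ∫ x in K, ⟪b i, fderiv ℝ Z x (b i)⟫ := by
        refine integral_congr_ae ?_
        filter_upwards [ae_restrict_of_ae hZl.ae_differentiableAt] with x hx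
        have h5 : fderiv ℝ (fun x => (innerSL ℝ (b i)) (Z x)) x = _ :=
          ((innerSL ℝ (b i)).hasFDerivAt.comp x hx.hasFDerivAt).fderiv
        rw [h5]
        rfl
      rw [← h3, h2]
      refine integral_congr_ae (ae_of_all _ fun v => ?_)
      have hv : ‖(v : E n)‖ = 1 := norm_eq_of_mem_sphere v
      have h6 : Z (X v) = X' v := by
        have := hZP (v : E n)
        unfold Ps at this
        rwa [hv, one_smul, one_smul] at this
      show ⟪(v : E n), b i⟫ * curv X v * ⟪b i, Z (X v)⟫ = _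
      rw [h6]
      ring
    simp only [hDs]
    rw [integral_finsetSum]
    · simp only [h1]
      rw [← integral_finsetSum]
      · refine integral_congr_ae (ae_of_all _ fun v => ?_)
        beta_reduce
        rw [← Finset.sum_mul, b.sum_inner_mul_inner, real_inner_comm, G'.eq _ (sph_ne v)]
      · intro i _
        exact hint _ ((Continuous.mul (by fun_prop) (continuous_const.inner hXs')))
    · intro i _
      refine Integrable.mono' (integrable_const L) (hterm i).aestronglyMeasurable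
        (ae_of_all _ fun x => htb i x)
  -- the integrand in polar form
  obtain ⟨F, hF⟩ : ∃ F : E n → ℝ, F = fun η => h η / ‖η‖ * curv X η * D (Ps X η) := ⟨_, rfl⟩
  have hFm : Measurable F := by
    rw [hF]
    exact ((G.conth.measurable.div measurable_norm).mul (curv_meas X)).mul
      (hDm.comp hlip1.continuous.measurable)
  have hFs : ∀ (r : ℝ) (v : E n), 0 < r → v ≠ 0 → F (r • v) = F v := by
    intro r v hr hv
    rw [hF]
    simp only
    have hvn : 0 < ‖v‖ := norm_pos_iff.2 hv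
    rw [Ps_smul G hr, curv_smul G hr hv, G.homog r v hr.le, norm_smul, Real.norm_of_nonneg hr.le,
      mul_div_mul_left _ _ hr.ne']
    congr 1
    rw [hD]
    simp only
    rw [hfs r _ hr]
  obtain ⟨Mh, hMh⟩ := (isCompact_sphere (0 : E n) 1).exists_bound_of_continuousOn G.conth.continuousOn
  have hMh0 : 0 ≤ Mh := by
    obtain ⟨v, hv⟩ : (sphere (0 : E n) 1).Nonempty := NormedSpace.sphere_nonempty.2 zero_le_one
    exact (norm_nonneg _).trans (hMh v hv)
  have hL0 : 0 ≤ L := by rw [hL]; positivity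
  have hFbs : ∀ v : E n, ‖v‖ = 1 → |F v| ≤ Mh * c2 * (n * L) := by
    intro v hv
    have hv0 : v ≠ 0 := by rw [← norm_pos_iff, hv]; exact one_pos
    rw [hF]
    simp only
    rw [hv, div_one, abs_mul, abs_mul, abs_of_nonneg (hcb v hv0).1]
    have e1 : |h v| ≤ Mh := hMh v (by simpa using hv)
    gcongr
    · exact (hcb v hv0).1
    · exact (hcb v hv0).2
    · exact hDb _
  have hFb : ∀ η : E n, η ≠ 0 → |F η| ≤ Mh * c2 * (n * L) := by
    intro η hη
    have h1 := hFs (‖η‖⁻¹) η (inv_pos.2 (norm_pos_iff.2 hη)) hη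
    rw [← h1]
    exact hFbs _ (nrm_norm hη)
  have hF0 : F 0 = 0 := by rw [hF]; simp
  have hFb' : ∀ η : E n, |F η| ≤ Mh * c2 * (n * L) := by
    intro η
    by_cases hη : η = 0
    · rw [hη, hF0, abs_zero]; positivity
    · exact hFb η hη
  -- change of variables
  have hcv : ∫ x in K, D x = ∫ η in ball (0 : E n) 1, F η := by
    have e1 := wG6 hn G (fun x => ((D x : ℝ) : ℂ))
    have e2 : ∀ η : E n, (h η / ‖η‖ * curv X η) • ((D (‖η‖ • X η) : ℝ) : ℂ) = ((F η : ℝ) : ℂ) := by
      intro η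
      rw [hF, Complex.real_smul]
      unfold Ps
      push_cast
      ring
    simp only [e2] at e1
    rw [integral_complex_ofReal, integral_complex_ofReal] at e1
    exact Complex.ofReal_injective e1
  have hFi : IntegrableOn F (ball (0 : E n) 1) :=
    Integrable.mono' (integrableOn_const (C := Mh * c2 * (n * L)) measure_ball_lt_top.ne)
      hFm.aestronglyMeasurable (ae_of_all _ fun η => hFb' η)
  have hpolar := (JP.stP n hn).1 ((ball (0 : E n) 1).indicator F)
    (hFi.integrable_indicator measurableSet_ball)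
  rw [integral_indicator measurableSet_ball] at hpolar
  have hinner : ∀ v : sphere (0 : E n) 1,
      ∫ r in Ioi (0 : ℝ), r ^ (n - 1) * (ball (0 : E n) 1).indicator F (r • (v : E n)) =
      (n : ℝ)⁻¹ * F v := by
    intro v
    have hv : ‖(v : E n)‖ = 1 := norm_eq_of_mem_sphere v
    have e1 : ∀ r ∈ Ioi (0 : ℝ), r ^ (n - 1) * (ball (0 : E n) 1).indicator F (r • (v : E n)) =
        (Ioo (0 : ℝ) 1).indicator (fun r => r ^ (n - 1) * F v) r := by
      intro r hr
      have hr0 : 0 < r := hr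
      by_cases hr1 : r < 1
      · rw [indicator_of_mem (show r ∈ Ioo (0 : ℝ) 1 from ⟨hr0, hr1⟩), indicator_of_mem,
          hFs r _ hr0 (sph_ne v)]
        rw [mem_ball_zero_iff, norm_smul, hv, mul_one, Real.norm_of_nonneg hr0.le]; exact hr1
      · rw [indicator_of_notMem (fun hh : r ∈ Ioo (0 : ℝ) 1 => hr1 hh.2), indicator_of_notMem, mul_zero]
        rw [mem_ball_zero_iff, norm_smul, hv, mul_one, Real.norm_of_nonneg hr0.le]; exact hr1
    rw [setIntegral_congr_fun measurableSet_Ioi e1, setIntegral_indicator measurableSet_Ioo]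
    have e2 : Ioi (0 : ℝ) ∩ Ioo 0 1 = Ioo 0 1 := by
      ext r
      simp only [mem_inter_iff, mem_Ioi, mem_Ioo]
      tauto
    rw [e2, ← integral_Ioc_eq_integral_Ioo, ← intervalIntegral.integral_of_le zero_le_one,
      intervalIntegral.integral_mul_const, integral_pow]
    have e3 : n - 1 + 1 = n := by omega
    rw [e3, one_pow, zero_pow (by omega), sub_zero]
    have e4 : ((n - 1 : ℕ) : ℝ) + 1 = n := by
      have : ((n - 1 : ℕ) : ℝ) + 1 = ((n - 1 + 1 : ℕ) : ℝ) := by push_cast; ring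
      rw [this, e3]
    rw [e4]
    ring
  simp only [hinner] at hpolar
  rw [integral_const_mul] at hpolar
  -- the trace formula almost everywhere
  have hgood : ∀ᵐ η : E n, Reg X η ∧ Reg X' η ∧ DifferentiableAt ℝ Z (Ps X η) := by
    have h1 : ∀ᵐ η : E n, DifferentiableAt ℝ Z (Ps X η) := by
      rw [ae_iff]
      have h2 : volume {x : E n | ¬ DifferentiableAt ℝ Z x} = 0 := ae_iff.1 hZl.ae_differentiableAt
      have h3 := lip_null (hNl.lipschitzOnWith (s := {x : E n | ¬ DifferentiableAt ℝ Z x})) h2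
      refine measure_mono_null ?_ h3
      intro η hη
      exact ⟨Ps X η, hη, hNP η⟩
    filter_upwards [ae_reg (by omega) G, ae_reg (by omega) G', h1] with η a1 a2 a3
    exact ⟨a1, a2, a3⟩
  have hgs : ∀ᵐ v : sphere (0 : E n) 1 ∂(sph n), Reg X (v : E n) ∧ Reg X' (v : E n) ∧
      DifferentiableAt ℝ Z (Ps X (v : E n)) := by
    refine ae_sph (p := fun η => Reg X η ∧ Reg X' η ∧ DifferentiableAt ℝ Z (Ps X η)) hn hgood ?_
    rintro r u hr hu ⟨a1, a2, a3⟩
    refine ⟨?_, ?_, ?_⟩
    · have := G.reg_smul a1 (inv_pos.2 hr)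
      rwa [smul_smul, inv_mul_cancel₀ hr.ne', one_smul] at this
    · have := G'.reg_smul a2 (inv_pos.2 hr)
      rwa [smul_smul, inv_mul_cancel₀ hr.ne', one_smul] at this
    · rw [Ps_smul G hr] at a3
      have h4 : DifferentiableAt ℝ (fun y => r⁻¹ • Z (r • y)) (Ps X u) := by
        refine DifferentiableAt.fun_const_smul ?_ _
        exact a3.comp (f := fun y : E n => r • y) (Ps X u) (differentiableAt_id.const_smul r)
      refine h4.congr_of_eventuallyEq (Eventually.of_forall fun y => ?_)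
      show Z y = r⁻¹ • Z (r • y)
      rw [hZs r y hr, smul_smul, inv_mul_cancel₀ hr.ne', one_smul]
  have htr : ∀ᵐ v : sphere (0 : E n) 1 ∂(sph n), F v =
      (h' v + h v * (MT X' X v - 1)) * curv X v := by
    filter_upwards [hgs] with v hv
    obtain ⟨r1, r2, r3⟩ := hv
    have hv1 : ‖(v : E n)‖ = 1 := norm_eq_of_mem_sphere v
    have hv0 : (v : E n) ≠ 0 := sph_ne v
    have hhv := G.hpos hv0
    have hDv : D (Ps X v) = 1 * h' v / h v + 1 * (MT X' X v - 1) := by
      rw [hD]
      refine JM1.a_trace (BB X' v) (BB X v) (BB X v).inverse _ v (X v) (X' v) 1 1 (h v) (h' v)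
        hv1 (BBsymm G' hv1 r2) (BBsymm G hv1 r1) (BBv G' hv1 r2) (BBv G hv1 r1) (BBinv G r1) hhv.ne'
        (G.eq v hv0) (G'.eq v hv0) ?_
      intro w
      have d1 : HasFDerivAt (Ps X) (DP X v) v := w6_deriv r1
      have d2 : HasFDerivAt (Ps X') (DP X' v) v := w6_deriv r2
      have d3 := (r3.hasFDerivAt).comp (v : E n) d1
      have d4 : Z ∘ Ps X = Ps X' := funext hZP
      rw [d4] at d3
      have d5 := DFunLike.congr_fun (d3.unique d2) w
      have e1 : ∀ Y : E n → E n, DP Y v w = fderiv ℝ Y v w + ⟪(v : E n), w⟫ • Y v := by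
        intro Y
        simp [DP, hv1]
      rw [ContinuousLinearMap.comp_apply, e1, e1] at d5
      rw [BB1 hv1, BB1 hv1]
      have d7 : fderiv ℝ X v w + ⟪(v : E n), w⟫ • (v : E n) + ⟪(v : E n), w⟫ • (X v - v) =
          fderiv ℝ X v w + ⟪(v : E n), w⟫ • X v := by
        rw [smul_sub]; abel
      rw [d7, d5, add_sub_cancel_right, add_comm, one_mul, one_smul]
    rw [hF]
    simp only
    rw [hDv, hv1]
    field_simp
  have hFis : Integrable (fun v : sphere (0 : E n) 1 => F v) (sph n) :=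
    integrable_sph (hFm.comp measurable_subtype_coe).aestronglyMeasurable _ fun v => hFb' v
  refine ⟨hFis.congr htr, ?_⟩
  rw [← integral_congr_ae htr, ← hdiv, hcv, hpolar, ← mul_assoc,
    mul_inv_cancel₀ (by positivity : (n : ℝ) ≠ 0), one_mul]

end Pool.Agent.H878R2.Cov
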