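import Mathlib
import Pool.Agent.H878R2.Cov.M1
import Pool.Agent.H878R2.Cov.LC
import Pool.Agent.H878R2.Cov.F3
import Pool.Agent.Helper890.Cov.JM2

open MeasureTheory Set Filter Topology Metric
open scoped RealInnerProductSpace Pointwise

namespace Pool.Agent.H878R2.Cov
open Pool.Agent.Helper890.Cov

theorem BB_meas {n : ℕ} (X : E n → E n) : Measurable (fun u => BB X u) := by
  have h2 : Measurable (fderiv ℝ X) := measurable_fderiv ℝ X
  have h3 : Measurable (fun u : E n => (innerSL ℝ u).smulRight u) := by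
    have : Continuous (fun u : E n => (innerSL ℝ u).smulRight u) := by fun_prop
    exact this.measurable
  unfold BB
  exact (measurable_norm.smul h2).add (((measurable_norm.pow_const 2).inv).smul h3)

section
variable {n : ℕ} {K H : Set (E n)} {hK hH : E n → ℝ} {XK XH : E n → E n}

theorem MT_ge (hn : 2 ≤ n) (GK : Wk K hK XK) (GH : Wk H hH XH) {v : E n} (hv : ‖v‖ = 1)
    (rK : Reg XK v) (rH : Reg XH v) (hc : curv XK v = curv XH v) :
    (n : ℝ) ≤ MT XK XH v ∧ (MT XK XH v = n → BB XK v = BB XH v) := by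
  refine JM2.stM2 n (by omega) (BB XK v) (BB XH v) _ (BBsymm GK hv rK) (BBsymm GH hv rH)
    (fun w hw => BBpos GK rK hw) (fun w hw => BBpos GH rH hw) hc ?_
  obtain ⟨e, he⟩ := JM1.a_equiv (BB XH v) (BBinj GH rH)
  rw [← he, ContinuousLinearMap.inverse_equiv]
  ext1 w
  simp

theorem int_hc (hn : 2 ≤ n) (GH : Wk H hH XH) {φ : E n → ℝ} (hφ : Continuous φ) :
    Integrable (fun v : sphere (0 : E n) 1 => φ v * curv XH v) (sph n) := by
  obtain ⟨c1, c2, hc1, hc2, -, hcb⟩ := curv_bounds hn GH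
  have hφ' : Continuous (fun v : sphere (0 : E n) 1 => φ v) := hφ.comp continuous_subtype_val
  obtain ⟨B1, hB1⟩ := isCompact_univ.exists_bound_of_continuousOn (hφ'.continuousOn (s := univ))
  refine integrable_sph (hφ'.measurable.mul (curv_meas_sph XH)).aestronglyMeasurable (B1 * c2) fun v => ?_
  have b3 := hcb v (sph_ne v)
  rw [norm_mul, Real.norm_of_nonneg b3.1]
  exact mul_le_mul (hB1 v (mem_univ v)) b3.2 b3.1 ((norm_nonneg _).trans (hB1 v (mem_univ v)))

/-- one half of the comparison -/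
theorem M_half (hn : 2 ≤ n) (GK : Wk K hK XK) (GH : Wk H hH XH)
    (hc : ∀ᵐ v : sphere (0 : E n) 1 ∂(sph n), curv XK v = curv XH v) :
    (∀ᵐ v : sphere (0 : E n) 1 ∂(sph n), 0 ≤ hH v * curv XH v * (MT XK XH v - n) ∧
      0 < hH v * curv XH v ∧ (MT XK XH v = n → BB XK v = BB XH v)) ∧
    Integrable (fun v : sphere (0 : E n) 1 => hH v * curv XH v * (MT XK XH v - n)) (sph n) ∧
    ∫ v : sphere (0 : E n) 1, hH v * curv XH v * (MT XK XH v - n) ∂(sph n) =
      ((n : ℝ) - 1) * ((∫ v : sphere (0 : E n) 1, hK v * curv XH v ∂(sph n)) -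
      ∫ v : sphere (0 : E n) 1, hH v * curv XH v ∂(sph n)) := by
  obtain ⟨hi, hI⟩ := wM1 hn GK GH
  have i1 := int_hc hn GH GK.conth
  have i2 := int_hc hn GH GH.conth
  have e1 : ∀ v : sphere (0 : E n) 1, hH v * curv XH v * (MT XK XH v - n) =
      (hK v + hH v * (MT XK XH v - 1)) * curv XH v - hK v * curv XH v -
        ((n : ℝ) - 1) * (hH v * curv XH v) := by
    intro v; ring
  refine ⟨?_, ?_, ?_⟩
  · filter_upwards [hc, ae_reg_sph hn GK, ae_reg_sph hn GH] with v h1 h2 h3
    have hv : ‖(v : E n)‖ = 1 := norm_eq_of_mem_sphere v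
    obtain ⟨h4, h5⟩ := MT_ge hn GK GH hv h2 h3 h1
    have h6 : 0 < hH v * curv XH v := mul_pos (GH.hpos (sph_ne v)) (curv_pos hn GH h3)
    exact ⟨mul_nonneg h6.le (by linarith), h6, h5⟩
  · simp only [e1]
    exact (hi.sub i1).sub (i2.const_mul _)
  · simp only [e1]
    have s1 : ∫ v : sphere (0 : E n) 1, ((hK v + hH v * (MT XK XH v - 1)) * curv XH v - hK v * curv XH v -
        ((n : ℝ) - 1) * (hH v * curv XH v)) ∂(sph n) =
        (∫ v : sphere (0 : E n) 1, (hK v + hH v * (MT XK XH v - 1)) * curv XH v ∂(sph n)) -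
        (∫ v : sphere (0 : E n) 1, hK v * curv XH v ∂(sph n)) -
        ((n : ℝ) - 1) * ∫ v : sphere (0 : E n) 1, hH v * curv XH v ∂(sph n) := by
      have s2 : Integrable (fun v : sphere (0 : E n) 1 =>
          (hK v + hH v * (MT XK XH v - 1)) * curv XH v - hK v * curv XH v) (sph n) := hi.sub i1
      rw [← integral_const_mul, ← integral_sub hi i1]
      exact integral_sub s2 (i2.const_mul _)
    rw [s1, ← hI]
    ring

theorem M_BB (hn : 2 ≤ n) (GK : Wk K hK XK) (GH : Wk H hH XH)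
    (hc : ∀ᵐ v : sphere (0 : E n) 1 ∂(sph n), curv XK v = curv XH v) :
    ∀ᵐ v : sphere (0 : E n) 1 ∂(sph n), BB XK v = BB XH v := by
  obtain ⟨a1, a2, a3⟩ := M_half hn GK GH hc
  obtain ⟨b1, b2, b3⟩ := M_half hn GH GK (hc.mono fun v hv => hv.symm)
  have p1 : 0 ≤ ∫ v : sphere (0 : E n) 1, hH v * curv XH v * (MT XK XH v - n) ∂(sph n) :=
    integral_nonneg_of_ae (a1.mono fun v hv => hv.1)
  have p2 : 0 ≤ ∫ v : sphere (0 : E n) 1, hK v * curv XK v * (MT XH XK v - n) ∂(sph n) :=
    integral_nonneg_of_ae (b1.mono fun v hv => hv.1)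
  have c1 : ∫ v : sphere (0 : E n) 1, hK v * curv XK v ∂(sph n) =
      ∫ v : sphere (0 : E n) 1, hK v * curv XH v ∂(sph n) := by
    refine integral_congr_ae (hc.mono fun v hv => ?_)
    beta_reduce; rw [hv]
  have c2 : ∫ v : sphere (0 : E n) 1, hH v * curv XK v ∂(sph n) =
      ∫ v : sphere (0 : E n) 1, hH v * curv XH v ∂(sph n) := by
    refine integral_congr_ae (hc.mono fun v hv => ?_)
    beta_reduce; rw [hv]
  rw [c1, c2] at b3
  have hn1 : (0 : ℝ) < (n : ℝ) - 1 := by
    have : (2 : ℝ) ≤ n := by exact_mod_cast hn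
    linarith
  have hz : ∫ v : sphere (0 : E n) 1, hH v * curv XH v * (MT XK XH v - n) ∂(sph n) = 0 := by
    rw [a3] at p1 ⊢
    rw [b3] at p2
    have q1 := nonneg_of_mul_nonneg_right p1 hn1
    have q2 := nonneg_of_mul_nonneg_right p2 hn1
    have : (∫ v : sphere (0 : E n) 1, hK v * curv XH v ∂(sph n)) -
      ∫ v : sphere (0 : E n) 1, hH v * curv XH v ∂(sph n) = 0 := by linarith
    rw [this, mul_zero]
  have hz2 := (integral_eq_zero_iff_of_nonneg_ae (a1.mono fun v hv => hv.1) a2).1 hz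
  filter_upwards [hz2, a1] with v h1 h2
  obtain ⟨-, h3, h4⟩ := h2
  apply h4
  have h5 : hH v * curv XH v * (MT XK XH v - n) = 0 := h1
  rcases mul_eq_zero.1 h5 with h6 | h6
  · exact absurd h6 h3.ne'
  · linarith

theorem wM (hn : 2 ≤ n) (GK : Wk K hK XK) (GH : Wk H hH XH)
    (hc : ∀ᵐ u : E n, curv XK u = curv XH u) : ∃ z : E n, H = (fun x => x + z) '' K := by
  have hcs : ∀ᵐ v : sphere (0 : E n) 1 ∂(sph n), curv XK v = curv XH v := by
    refine ae_sph (p := fun u => curv XK u = curv XH u) hn hc fun r u hr hu h1 => ?_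
    rwa [curv_smul GK hr hu, curv_smul GH hr hu] at h1
  have hBB := M_BB hn GK GH hcs
  have hBB' : ∀ᵐ u : E n, BB XK u = BB XH u := by
    refine ae_of_sph hn (p := fun u => BB XK u = BB XH u)
      (measurableSet_eq_fun (BB_meas XK) (BB_meas XH)) hBB fun r u hr hu h1 => ?_
    rw [BB_smul GK hr hu, BB_smul GH hr hu]
    exact h1
  have hfd : ∀ᵐ u : E n, u ∈ ({0}ᶜ : Set (E n)) →
      HasFDerivAt (fun u => XH u - XK u) (0 : E n →L[ℝ] E n) u := by
    filter_upwards [hBB', ae_reg (by omega) GK, ae_reg (by omega) GH] with u h1 h2 h3 hu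
    have hun : ‖u‖ ≠ 0 := norm_ne_zero_iff.2 hu
    have h4 : fderiv ℝ XH u = fderiv ℝ XK u := by
      unfold BB at h1
      have h5 := add_right_cancel h1
      exact (smul_right_injective _ hun h5).symm
    have h6 := (h3.diff.hasFDerivAt).sub (h2.diff.hasFDerivAt)
    rw [h4, sub_self] at h6
    exact h6
  -- the difference is locally constant
  obtain ⟨CK, hCK0, hCK⟩ := GK.lipOn
  obtain ⟨CH, hCH0, hCH⟩ := GH.lipOn
  have hloc : ∀ x₀ : E n, x₀ ≠ 0 → ∀ e : E n, ‖e‖ < ‖x₀‖ / 2 → XH (x₀ + e) - XK (x₀ + e) = XH x₀ - XK x₀ := by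
    intro x₀ hx₀ e he
    have hxn : 0 < ‖x₀‖ := norm_pos_iff.2 hx₀
    set r : ℝ := ‖x₀‖ / 2 with hr
    have hr0 : 0 < r := by positivity
    have hUo : IsOpen {u : E n | r < ‖u‖} := isOpen_lt continuous_const continuous_norm
    refine lconst (f := fun u => XH u - XK u) hUo ((hCH r hr0).sub (hCK r hr0)) ?_ ?_
    · filter_upwards [hfd] with x hx hxU
      apply hx
      intro h0
      have h0' : x = 0 := h0
      rw [h0'] at hxU
      have : r < ‖(0 : E n)‖ := hxU
      rw [norm_zero] at this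
      linarith
    · intro s hs
      show r < ‖x₀ + s • e‖
      have h1 : ‖x₀‖ ≤ ‖x₀ + s • e‖ + ‖s • e‖ := by
        have := norm_sub_le (x₀ + s • e) (s • e)
        rwa [add_sub_cancel_right] at this
      have h2 : ‖s • e‖ ≤ ‖e‖ := by
        rw [norm_smul, Real.norm_of_nonneg hs.1]
        have := norm_nonneg e
        nlinarith [hs.2]
      have : ‖x₀‖ = 2 * r := by rw [hr]; ring
      linarith
  have hrank : 1 < Module.rank ℝ (E n) := by
    rw [← Module.finrank_eq_rank, finrank_euclideanSpace_fin]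
    exact_mod_cast hn
  have hconn : IsPreconnected ({0}ᶜ : Set (E n)) :=
    (isConnected_compl_singleton_of_one_lt_rank hrank 0).isPreconnected
  have hev : ∀ u : E n, u ≠ 0 → ∀ᶠ y in 𝓝 u, XH y - XK y = XH u - XK u := by
    intro u hu
    have hun : 0 < ‖u‖ := norm_pos_iff.2 hu
    filter_upwards [ball_mem_nhds u (show 0 < ‖u‖ / 2 by positivity)] with y hy
    have := hloc u hu (y - u) (by rwa [mem_ball, dist_eq_norm] at hy)
    rwa [add_sub_cancel] at this
  have hd0 : ∀ u : E n, u ≠ 0 → HasFDerivAt (fun u => XH u - XK u) (0 : E n →L[ℝ] E n) u := by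
    intro u hu
    exact (hasFDerivAt_const (XH u - XK u) u).congr_of_eventuallyEq (hev u hu)
  obtain ⟨z, hz⟩ : ∃ z : E n, ∀ u : E n, u ≠ 0 → XH u - XK u = z := by
    obtain ⟨a, ha⟩ := isOpen_compl_singleton.exists_eq_add_of_fderiv_eq hconn
      (f := fun u => XH u - XK u) (g := fun _ : E n => (0 : E n))
      (fun u hu => ((hd0 u hu).differentiableAt).differentiableWithinAt)
      (differentiableOn_const _)
      (fun u hu => by
        rw [(hd0 u hu).fderiv]
        simp)
    refine ⟨a, fun u hu => ?_⟩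
    have := ha hu
    simpa using this
  have hh : ∀ u, hH u = hK u + ⟪z, u⟫ := by
    intro u
    by_cases hu : u = 0
    · have h1 : ∀ {K : Set (E n)} {h : E n → ℝ} {X : E n → E n}, Wk K h X → h 0 = 0 := by
        intro K h X G
        have := G.homog 0 0 le_rfl
        rwa [zero_smul, zero_mul] at this
      rw [hu, h1 GK, h1 GH, inner_zero_right, add_zero]
    · have h1 : XH u = XK u + z := by
        rw [← hz u hu]; abel
      rw [← GH.eq u hu, ← GK.eq u hu, h1, inner_add_left]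
  refine ⟨z, ?_⟩
  ext x
  constructor
  · intro hx
    refine ⟨x - z, ?_, by simp⟩
    apply GK.charac
    intro u
    have h1 := GH.le x hx u
    rw [hh] at h1
    rw [inner_sub_left]
    linarith
  · rintro ⟨y, hy, rfl⟩
    apply GH.charac
    intro u
    have h1 := GK.le y hy u
    rw [hh]
    show ⟪y + z, u⟫ ≤ _
    rw [inner_add_left]
    linarith

end

end Pool.Agent.H878R2.Cov
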