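import Mathlib
import Pool.Agent.Helper890.Cov.All

open MeasureTheory Set Filter Topology Metric
open scoped RealInnerProductSpace Pointwise

namespace Pool.Agent.H878R2.Cov
open Pool.Agent.Helper890.Cov Pool.Agent.Helper890.Cov.JA8 Pool.Agent.Helper890.Cov.JA

/-- a function with the property `Loc` everywhere has a continuous regularisation, with which it
agrees almost everywhere on the unit circle -/
theorem A8_u' (a : ℂ → ℝ) (ha : ∀ v, Loc a v) :
    ∃ u : ℂ → ℝ, Continuous u ∧ (∀ v, ∀ᶠ r in 𝓝[>] (0 : ℝ), u v ≤ Real.circleAverage u v r) ∧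
      (∀ v, a v ≤ u v) ∧ ∀ᵐ θ : ℝ, a (circleMap 0 1 θ) = u (circleMap 0 1 θ) := by
  choose b hb1 hb2 hb3 hb4 using ha
  have hi : ∀ v₀, ∀ᶠ v in 𝓝 v₀, b v v = b v₀ v := by
    intro v₀
    have h1 := (eventually_nhdsWithin_iff.1 (hb2 v₀)).eventually_nhds
    filter_upwards [hb1 v₀, h1] with v hcont hv
    by_cases hvv : v = v₀
    · rw [hvv]
    · refine A8_b_eq (hb1 v).self_of_nhds hcont ?_
      have h2 : ∀ᶠ v' in 𝓝 v, v' ≠ v₀ := isOpen_ne.mem_nhds hvv
      have h3 : ∀ᶠ v' in 𝓝[≠] v, a v' = b v₀ v' :=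
        (hv.and h2).filter_mono nhdsWithin_le_nhds |>.mono fun v' h => h.1 h.2
      filter_upwards [h3, hb2 v] with v' h4 h5
      rw [← h5, h4]
  have hcontAt : ∀ v, ContinuousAt (fun v => b v v) v := fun v =>
    (hb1 v).self_of_nhds.congr ((hi v).mono fun v' h => h.symm)
  refine ⟨fun v => b v v, continuous_iff_continuousAt.2 hcontAt, ?_, hb3, ?_⟩
  · intro v
    obtain ⟨ε, hε, hball⟩ := Metric.eventually_nhds_iff_ball.1 (hi v)
    filter_upwards [(hb4 v).self_of_nhds, Ioo_mem_nhdsGT hε] with r hr hrε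
    have h1 : Real.circleAverage (fun v => b v v) v r = Real.circleAverage (b v) v r := by
      refine Real.circleAverage_congr_sphere fun z hz => ?_
      refine hball z ?_
      rw [mem_sphere, abs_of_pos hrε.1] at hz
      rw [mem_ball, hz]
      exact hrε.2
    rw [h1]
    exact hr
  · rw [ae_iff]
    refine measure_null_of_locally_null _ fun θ₀ _ => ?_
    have hd := (hasDerivAt_circleMap 0 1 θ₀).tendsto_nhdsNE
      (mul_ne_zero (circleMap_ne_center one_ne_zero) Complex.I_ne_zero)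
    have h1 : ∀ᶠ θ in 𝓝[≠] θ₀, a (circleMap 0 1 θ) =
        b (circleMap 0 1 θ₀) (circleMap 0 1 θ) := hd.eventually (hb2 (circleMap 0 1 θ₀))
    have h2 : ∀ᶠ θ in 𝓝[≠] θ₀, b (circleMap 0 1 θ) (circleMap 0 1 θ) =
        b (circleMap 0 1 θ₀) (circleMap 0 1 θ) :=
      hd.eventually ((hi (circleMap 0 1 θ₀)).filter_mono nhdsWithin_le_nhds)
    have h3 : ∀ᶠ θ in 𝓝[≠] θ₀, a (circleMap 0 1 θ) = b (circleMap 0 1 θ) (circleMap 0 1 θ) := by
      filter_upwards [h1, h2] with θ h3 h4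
      rw [h3, h4]
    rw [eventually_nhdsWithin_iff] at h3
    obtain ⟨ε, hε, hball⟩ := Metric.eventually_nhds_iff_ball.1 h3
    refine ⟨{θ₀}, ?_, measure_singleton _⟩
    rw [mem_nhdsWithin]
    refine ⟨ball θ₀ ε, isOpen_ball, mem_ball_self hε, ?_⟩
    rintro θ ⟨hθ1, hθ2⟩
    by_contra hne
    exact hθ2 (hball θ hθ1 hne)

/-- general form of the sub-mean value property -/
theorem A8' (a B : ℂ → ℝ) (ha : ∀ v, Loc a v) (hB : CircleIntegrable B 0 1)
    (hle : ∀ᵐ θ ∂(volume.restrict (Ioc 0 (2 * Real.pi))), a (circleMap 0 1 θ) ≤ B (circleMap 0 1 θ)) :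
    a 0 ≤ Real.circleAverage B 0 1 := by
  obtain ⟨u, hu, hs, hau, huB⟩ := A8_u' a ha
  have h1 : a 0 ≤ Real.circleAverage u 0 1 := by
    have key : ∀ v, Loc u v := fun v =>
      ⟨u, Eventually.of_forall fun w => hu.continuousAt, Eventually.of_forall fun _ => rfl, le_rfl,
        Eventually.of_forall fun w => hs w⟩
    exact (hau 0).trans (stA8 u u key hu.continuousOn fun v _ => le_rfl)
  refine h1.trans ?_
  unfold Real.circleAverage
  rw [smul_eq_mul, smul_eq_mul]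
  refine mul_le_mul_of_nonneg_left ?_ (by positivity)
  rw [intervalIntegral.integral_of_le Real.two_pi_pos.le, intervalIntegral.integral_of_le Real.two_pi_pos.le]
  have hui : CircleIntegrable u 0 1 := hu.continuousOn.circleIntegrable'
  refine integral_mono_ae ?_ ?_ ?_
  · exact (intervalIntegrable_iff_integrableOn_Ioc_of_le Real.two_pi_pos.le).1 hui
  · exact (intervalIntegrable_iff_integrableOn_Ioc_of_le Real.two_pi_pos.le).1 hB
  · filter_upwards [hle, ae_restrict_of_ae huB] with θ h2 h3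
    rw [← h3]; exact h2

/-- Proposition A for a bound which is only integrable and holds almost everywhere -/
theorem propA' (f g : ℂ × ℂ → ℂ) (R : ℝ) (B : ℂ → ℝ) (hf : Differentiable ℂ f)
    (hg : Differentiable ℂ g) (hR : 0 < R) (hf0 : ∀ v, f (v, 0) ≠ 0) (hB : CircleIntegrable B 0 1)
    (hS : ∀ᵐ θ ∂(volume.restrict (Ioc 0 (2 * Real.pi))), ∀ S : Finset ℂ,
      (∀ t ∈ S, ‖t‖ < R ∧ f (circleMap 0 1 θ, t) = 0 ∧ g (circleMap 0 1 θ, t) = 0) →
      ∑ t ∈ S, Real.log (R / ‖t‖) ≤ B (circleMap 0 1 θ)) :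
    ∀ S : Finset ℂ, (∀ t ∈ S, ‖t‖ < R ∧ f (0, t) = 0 ∧
      ∀ᶠ q in 𝓝 ((0 : ℂ), t), f q = 0 → g q = 0) →
      ∑ t ∈ S, Real.log (R / ‖t‖) ≤ Real.circleAverage B 0 1 := by
  intro S hS0
  have hAf : ∀ v, Afun f g R v = ∑ t ∈ (stA_finPP f g hf hf0 R v).toFinset, Real.log (R / ‖t‖) := by
    intro v
    unfold Afun
    exact finsum_mem_eq_finite_toFinset_sum _ (stA_finPP f g hf hf0 R v)
  have hle : ∀ᵐ θ ∂(volume.restrict (Ioc 0 (2 * Real.pi))),
      Afun f g R (circleMap 0 1 θ) ≤ B (circleMap 0 1 θ) := by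
    filter_upwards [hS] with θ hθ
    rw [hAf]
    apply hθ
    intro t ht
    rw [Set.Finite.mem_toFinset] at ht
    exact ⟨ht.1, ht.2.1, ht.2.2.self_of_nhds ht.2.1⟩
  have h1 := A8' (Afun f g R) B (a7 f g R hf hg hR hf0) hB hle
  refine le_trans ?_ h1
  rw [hAf]
  apply Finset.sum_le_sum_of_subset_of_nonneg
  · intro t ht
    rw [Set.Finite.mem_toFinset]
    obtain ⟨h2, h3, h4⟩ := hS0 t ht
    exact ⟨h2, h3, h4⟩
  · intro t ht _
    rw [Set.Finite.mem_toFinset] at ht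
    have ht0 : t ≠ 0 := by
      intro h
      apply hf0 0
      rw [← h]
      have h5 := ht.2.1
      rw [h] at h5 ⊢
      exact h5
    have htp : 0 < ‖t‖ := norm_pos_iff.mpr ht0
    apply Real.log_nonneg
    rw [le_div_iff₀ htp, one_mul]
    exact ht.1.le

end Pool.Agent.H878R2.Cov
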