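import Mathlib
import Pool.Agent.Helper890.Cov.JA8

open MeasureTheory Set Filter Topology Metric

namespace Pool.Agent.H878R2.Cov
open Pool.Agent.Helper890.Cov Pool.Agent.Helper890.Cov.JA8

/-- an entire function whose real part is very negative on the circle outside a set of positive
measure, and which vanishes at the centre -/
theorem weight (A : Set ℂ) (hA : MeasurableSet A)
    (hpos : 0 < (volume.restrict (Ioc 0 (2 * Real.pi))) (circleMap 0 1 ⁻¹' A)) {ε : ℝ} (hε : 0 < ε) :
    ∃ g : ℂ → ℂ, Differentiable ℂ g ∧ g 0 = 0 ∧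
      (2 * Real.pi)⁻¹ * ∫ θ in Ioc 0 (2 * Real.pi),
        Aᶜ.indicator (fun v => Real.exp (g v).re) (circleMap 0 1 θ) ≤ ε := by
  have hpi := Real.pi_pos
  set μ0 : Measure ℝ := volume.restrict (Ioc 0 (2 * Real.pi)) with hμ0
  have hcm : Continuous (circleMap 0 1) := continuous_circleMap 0 1
  set μ : Measure ℂ := μ0.map (circleMap 0 1) with hμ
  haveI : IsFiniteMeasure μ0 := by
    constructor
    rw [hμ0, Measure.restrict_apply_univ]
    exact measure_Ioc_lt_top
  haveI : IsFiniteMeasure μ := Measure.isFiniteMeasure_map μ0 _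
  have hμu : μ.real univ = 2 * Real.pi := by
    rw [Measure.real, hμ, Measure.map_apply hcm.measurable MeasurableSet.univ, preimage_univ, hμ0,
      Measure.restrict_apply_univ, Real.volume_Ioc, sub_zero, ENNReal.toReal_ofReal (by positivity)]
  have hμA : 0 < μ.real A := by
    rw [Measure.real, hμ, Measure.map_apply hcm.measurable hA]
    exact ENNReal.toReal_pos hpos.ne' (measure_ne_top _ _)
  set α : ℝ := μ.real A / (2 * Real.pi) with hα
  have hα0 : 0 < α := by positivity
  have hαA : μ.real A = α * (2 * Real.pi) := by rw [hα]; field_simp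
  set m : ℝ := |3 - Real.log (ε / 2)| + 1 with hm
  have hm0 : 0 < m := by positivity
  have hme : Real.exp (3 - m) ≤ ε / 2 := by
    calc Real.exp (3 - m) ≤ Real.exp (Real.log (ε / 2)) := by
          apply Real.exp_le_exp.2
          have := le_abs_self (3 - Real.log (ε / 2))
          linarith
      _ = ε / 2 := Real.exp_log (by positivity)
  set M' : ℝ := -m + m / α with hM'
  set η : ℝ := min 1 (Real.pi * ε / Real.exp (M' + 3)) with hη
  have hη0 : 0 < η := lt_min one_pos (by positivity)
  have hη1 : η ≤ 1 := min_le_left _ _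
  have hη2 : η * Real.exp (M' + 3) ≤ Real.pi * ε := by
    have : η ≤ Real.pi * ε / Real.exp (M' + 3) := min_le_right _ _
    rwa [le_div_iff₀ (Real.exp_pos _)] at this
  set φ : ℂ → ℝ := fun v => -m + A.indicator (fun _ => m / α) v with hφ
  have hφi : Integrable φ μ :=
    (integrable_const _).add ((integrable_const (m / α)).indicator hA)
  have hφ1 : ∀ v, -m ≤ φ v := by
    intro v
    have : 0 ≤ A.indicator (fun _ => m / α) v := indicator_nonneg (fun _ _ => by positivity) v
    simp only [hφ]
    linarith
  have hφ2 : ∀ v, φ v ≤ M' := by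
    intro v
    have : A.indicator (fun _ => m / α) v ≤ m / α := indicator_le_self' (fun _ _ => by positivity) v
    simp only [hφ, hM']
    linarith
  have hφA : ∀ v ∈ Aᶜ, φ v = -m := by
    intro v hv
    simp only [hφ]
    rw [indicator_of_notMem hv, add_zero]
  have hφint : ∫ v, φ v ∂μ = 0 := by
    simp only [hφ]
    rw [integral_add (integrable_const _) ((integrable_const (m / α)).indicator hA), integral_const,
      integral_indicator_const _ hA, hμu, hαA, smul_eq_mul, smul_eq_mul]
    field_simp
    ring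
  obtain ⟨ψ, hψ, hψi⟩ := hφi.exists_boundedContinuous_integral_sub_le hη0
  set ψ' : ℂ → ℝ := fun v => max (-m) (min M' (ψ v)) with hψ'
  have hψ'c : Continuous ψ' := by
    simp only [hψ']
    fun_prop
  have hmM : -m ≤ M' := by
    rw [hM']
    have : 0 < m / α := by positivity
    linarith
  have hψ'1 : ∀ v, -m ≤ ψ' v := fun v => le_max_left _ _
  have hψ'2 : ∀ v, ψ' v ≤ M' := fun v => max_le hmM (min_le_left _ _)
  have hψ'φ : ∀ v, |φ v - ψ' v| ≤ |φ v - ψ v| := by
    intro v
    have h1 := hφ1 v
    have h2 := hφ2 v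
    simp only [hψ']
    rcases le_total (ψ v) M' with h | h
    · rw [min_eq_right h]
      rcases le_total (-m) (ψ v) with h' | h'
      · rw [max_eq_right h']
      · rw [max_eq_left h', abs_of_nonneg (by linarith), abs_of_nonneg (by linarith)]
        linarith
    · rw [min_eq_left h, max_eq_right hmM, abs_of_nonpos (by linarith), abs_of_nonpos (by linarith)]
      linarith
  have hψ'i : Integrable ψ' μ := by
    refine Integrable.mono' (integrable_const (|m| + |M'|)) hψ'c.aestronglyMeasurable
      (ae_of_all _ fun v => ?_)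
    rw [Real.norm_eq_abs, abs_le]
    have h1 := hψ'1 v
    have h2 := hψ'2 v
    have h3 := le_abs_self m
    have h4 := le_abs_self M'
    have h5 := abs_nonneg m
    have h6 := abs_nonneg M'
    constructor <;> linarith
  have hdi : Integrable (fun v => |φ v - ψ' v|) μ := (hφi.sub hψ'i).abs
  have hdiff : ∫ v, |φ v - ψ' v| ∂μ ≤ η := by
    refine le_trans (integral_mono hdi ?_ hψ'φ) ?_
    · exact (hφi.sub hψi).abs
    · simpa [Real.norm_eq_abs] using hψ
  obtain ⟨F, hF, hF'⟩ := A8_approx ψ' hψ'c 1 one_pos
  have hFc : Continuous (fun v => (F v).re) := Complex.continuous_re.comp hF.continuous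
  have hsph : ∀ᵐ v ∂μ, v ∈ sphere (0 : ℂ) 1 := by
    rw [hμ]
    refine (ae_map_iff (p := fun v => v ∈ sphere (0 : ℂ) 1) hcm.aemeasurable
      (isClosed_sphere.measurableSet)).2 ?_
    exact ae_of_all _ fun θ => circleMap_mem_sphere _ zero_le_one θ
  have hFv : ∀ v ∈ sphere (0 : ℂ) 1, |ψ' v - (F v).re| < 1 := by
    intro v hv
    obtain ⟨θ, rfl⟩ : v ∈ Set.range (circleMap 0 1) := by
      rw [range_circleMap, abs_one]; exact hv
    exact hF' θ
  have hFi : Integrable (fun v => (F v).re) μ := by
    refine Integrable.mono' ((hψ'i.abs).add (integrable_const 1)) hFc.aestronglyMeasurable ?_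
    filter_upwards [hsph] with v hv
    have h1 := hFv v hv
    have h2 : (F v).re = ψ' v - (ψ' v - (F v).re) := by ring
    rw [Real.norm_eq_abs, h2]
    refine (abs_sub _ _).trans ?_
    simp only [Pi.add_apply]
    linarith
  have hF0 : (F 0).re = (2 * Real.pi)⁻¹ * ∫ v, (F v).re ∂μ := by
    rw [← A8_mv F hF 0 1, Real.circleAverage_def, smul_eq_mul,
      intervalIntegral.integral_of_le (by positivity), hμ, integral_map hcm.aemeasurable
        hFc.aestronglyMeasurable]
  have hF0' : -2 ≤ (F 0).re := by
    have h1 : ∫ v, (ψ' v - 1) ∂μ ≤ ∫ v, (F v).re ∂μ := by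
      refine integral_mono_ae (hψ'i.sub (integrable_const _)) hFi ?_
      filter_upwards [hsph] with v hv
      have := (abs_lt.1 (hFv v hv)).2
      show ψ' v - 1 ≤ (F v).re
      linarith
    have h2 : ∫ v, (φ v - |φ v - ψ' v|) ∂μ ≤ ∫ v, ψ' v ∂μ := by
      refine integral_mono (hφi.sub hdi) hψ'i fun v => ?_
      have := le_abs_self (φ v - ψ' v)
      show φ v - |φ v - ψ' v| ≤ ψ' v
      linarith
    rw [integral_sub hφi hdi, hφint] at h2
    rw [integral_sub hψ'i (integrable_const _), integral_const, hμu, smul_eq_mul] at h1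
    rw [hF0, le_inv_mul_iff₀ (by positivity)]
    have hpi3 := Real.pi_gt_three
    linarith
  refine ⟨fun v => F v - F 0, hF.sub_const _, by simp, ?_⟩
  have hm1 : Measurable (Aᶜ.indicator (fun v => Real.exp (F v - F 0).re)) := by
    refine Measurable.indicator ?_ hA.compl
    exact (Real.continuous_exp.comp (Complex.continuous_re.comp (hF.continuous.sub continuous_const))).measurable
  rw [← integral_map (μ := μ0) (φ := circleMap 0 1) hcm.aemeasurable
    (f := Aᶜ.indicator (fun v => Real.exp (F v - F 0).re)) hm1.aestronglyMeasurable, ← hμ]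
  have h5 : ∫ v, Aᶜ.indicator (fun v => Real.exp (F v - F 0).re) v ∂μ ≤
      ∫ v, (Real.exp (3 - m) + Real.exp (M' + 3) * |φ v - ψ' v|) ∂μ := by
    refine integral_mono_of_nonneg (ae_of_all _ fun v => indicator_nonneg
      (fun _ _ => (Real.exp_pos _).le) v) ((integrable_const _).add (hdi.const_mul _)) ?_
    filter_upwards [hsph] with v hv
    have h6 : 0 ≤ Real.exp (3 - m) + Real.exp (M' + 3) * |φ v - ψ' v| := by positivity
    by_cases hvA : v ∈ Aᶜ
    · rw [indicator_of_mem hvA]
      have h7 : (F v - F 0).re ≤ ψ' v + 3 := by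
        rw [Complex.sub_re]
        have := (abs_lt.1 (hFv v hv)).1
        linarith
      have h8 : |φ v - ψ' v| = ψ' v + m := by
        rw [hφA v hvA, abs_of_nonpos (by linarith [hψ'1 v])]
        ring
      rw [h8]
      have h9 : Real.exp (ψ' v) * (1 + (-m - ψ' v)) ≤ Real.exp (-m) := by
        have : Real.exp (-m) = Real.exp (ψ' v) * Real.exp (-m - ψ' v) := by
          rw [← Real.exp_add]; congr 1; ring
        rw [this]
        gcongr
        have := Real.add_one_le_exp (-m - ψ' v)
        linarith
      have h10 : Real.exp (ψ' v) * (ψ' v + m) ≤ Real.exp M' * (ψ' v + m) := by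
        apply mul_le_mul_of_nonneg_right (Real.exp_le_exp.2 (hψ'2 v))
        linarith [hψ'1 v]
      have h11 : Real.exp (ψ' v) ≤ Real.exp (-m) + Real.exp M' * (ψ' v + m) := by
        have : Real.exp (ψ' v) * (1 + (-m - ψ' v)) = Real.exp (ψ' v) - Real.exp (ψ' v) * (ψ' v + m) := by
          ring
        linarith
      calc Real.exp (F v - F 0).re ≤ Real.exp (ψ' v + 3) := Real.exp_le_exp.2 h7
        _ = Real.exp (ψ' v) * Real.exp 3 := Real.exp_add _ _
        _ ≤ (Real.exp (-m) + Real.exp M' * (ψ' v + m)) * Real.exp 3 := by gcongr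
        _ = Real.exp (-m) * Real.exp 3 + (Real.exp M' * Real.exp 3) * (ψ' v + m) := by ring
        _ = Real.exp (3 - m) + Real.exp (M' + 3) * (ψ' v + m) := by
            rw [← Real.exp_add, ← Real.exp_add]
            congr 2
            ring
    · rw [indicator_of_notMem hvA]
      exact h6
  rw [integral_add (integrable_const _) (hdi.const_mul _), integral_const, hμu, integral_const_mul,
    smul_eq_mul] at h5
  rw [inv_mul_le_iff₀ (by positivity)]
  refine h5.trans ?_
  have h12 : Real.exp (M' + 3) * ∫ v, |φ v - ψ' v| ∂μ ≤ Real.pi * ε := by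
    refine le_trans ?_ hη2
    rw [mul_comm]
    gcongr
  have h13 : 2 * Real.pi * Real.exp (3 - m) ≤ 2 * Real.pi * (ε / 2) := by gcongr
  linarith

end Pool.Agent.H878R2.Cov
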