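import Mathlib
import Pool.Agent.Helper890.Cov.JZ1

open MeasureTheory Set Filter Topology Metric

namespace Pool.Agent.H878R2.Cov
open Pool.Agent.Helper890.Cov Pool.Agent.Helper890.Cov.JZ1

/-- the scaled radial integral -/
noncomputable def Wr {n : ℕ} (G : E n → ℝ) (z : E n) (r : ℝ) : ENNReal :=
  ∫⁻ t in Ioc 0 (2 * r), ENNReal.ofReal (t ^ (n + 1)) * ENNReal.ofReal (G (t • z))

theorem Wr_mono {n : ℕ} (G : E n → ℝ) (z : E n) {r r' : ℝ} (h : r ≤ r') : Wr G z r ≤ Wr G z r' := by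
  unfold Wr
  exact lintegral_mono_set (Ioc_subset_Ioc_right (by linarith))

theorem Wr_meas {n : ℕ} {G : E n → ℝ} (hG : Measurable G) (r : ℝ) : Measurable fun z => Wr G z r := by
  have hm1 : Measurable (fun p : E n × ℝ => ENNReal.ofReal (p.2 ^ (n + 1)) *
      ENNReal.ofReal (G (p.2 • p.1))) :=
    ((measurable_snd.pow_const _).ennreal_ofReal).mul
      (hG.ennreal_ofReal.comp (measurable_snd.smul measurable_fst))
  exact hm1.lintegral_prod_right'

/-- along a suitable sequence of radii, for almost every direction, the scaled errors tend to `0` -/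
theorem wZ1 (n : ℕ) (G : E n → ℝ) (hG0 : ∀ ξ, 0 ≤ G ξ) (hGm : Measurable G)
    (hGi : ∀ T : ℝ, 0 < T → Integrable (fun ξ : E n => Real.exp (-(‖ξ‖ / T)) * (‖ξ‖ ^ 2 * G ξ)))
    (hGt : Tendsto (fun T : ℝ => T⁻¹ * ∫ ξ : E n, Real.exp (-(‖ξ‖ / T)) * (‖ξ‖ ^ 2 * G ξ)) atTop (𝓝 0)) :
    ∃ R : ℕ → ℝ, (∀ k, 0 < R k) ∧ Tendsto R atTop atTop ∧ ∀ᵐ z : E n, z ≠ 0 → ∀ Λ : ℝ,
      Tendsto (fun k => ENNReal.ofReal (R k)⁻¹ * Wr G z (Λ * R k)) atTop (𝓝 0) := by
  -- annuli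
  set D : ℕ → Set (E n) := fun k => {z | ((k : ℝ) + 1)⁻¹ ≤ ‖z‖} ∩ {z | ‖z‖ ≤ (k : ℝ) + 1} with hD
  have hDm : ∀ k, MeasurableSet (D k) := fun k =>
    (measurableSet_le measurable_const measurable_norm).inter
      (measurableSet_le measurable_norm measurable_const)
  have hDz : ∀ z : E n, z ≠ 0 → ∀ᶠ k in atTop, z ∈ D k := by
    intro z hz
    have hzn : 0 < ‖z‖ := norm_pos_iff.2 hz
    obtain ⟨N, hN⟩ := exists_nat_ge (max ‖z‖ ‖z‖⁻¹)
    filter_upwards [eventually_ge_atTop N] with k hk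
    have hk' : (N : ℝ) ≤ k := by exact_mod_cast hk
    have h1 : ‖z‖ ≤ (k : ℝ) + 1 := by
      have := (le_max_left _ _).trans hN
      linarith
    have h2 : ‖z‖⁻¹ ≤ (k : ℝ) + 1 := by
      have := (le_max_right _ _).trans hN
      linarith
    exact ⟨inv_le_of_inv_le₀ hzn h2, h1⟩
  -- choice of the radii
  have hex : ∀ k : ℕ, ∃ R' : ℝ, ((k : ℝ) + 1) ^ 2 ≤ R' ∧
      ∫⁻ z in D k, Wr G z R' ≤ ENNReal.ofReal (R' / ((k : ℝ) + 1) * (1 / 2) ^ k) := by
    intro k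
    set m : ℝ := ((k : ℝ) + 1)⁻¹ with hm
    set M : ℝ := (k : ℝ) + 1 with hM
    have hM0 : 0 < M := by positivity
    have hm0 : 0 < m := by positivity
    set C : ℝ := Real.exp (2 * M) / m ^ 2 with hC
    have hC0 : 0 < C := by positivity
    have h1 : Tendsto (fun T : ℝ => C * (T⁻¹ * ∫ ξ : E n, Real.exp (-(‖ξ‖ / T)) * (‖ξ‖ ^ 2 * G ξ)))
        atTop (𝓝 (C * 0)) := hGt.const_mul C
    rw [mul_zero] at h1
    have h2 : (0 : ℝ) < 1 / M * (1 / 2) ^ k := by positivity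
    obtain ⟨R', hR'1, hR'2⟩ := ((h1.eventually_lt_const h2).and (eventually_ge_atTop (M ^ 2))).exists
    refine ⟨R', hR'2, ?_⟩
    have hR0 : 0 < R' := lt_of_lt_of_le (by positivity) hR'2
    have h3 := z1_key n (fun ξ => ENNReal.ofReal (G ξ)) hGm.ennreal_ofReal (D k) (hDm k) hm0 hM0.le
      (fun z hz => hz) hR0
    refine h3.trans ?_
    have h4 : ∫⁻ ξ, ENNReal.ofReal (Real.exp (-(‖ξ‖ / R')) * ‖ξ‖ ^ 2) * ENNReal.ofReal (G ξ) =
        ENNReal.ofReal (∫ ξ : E n, Real.exp (-(‖ξ‖ / R')) * (‖ξ‖ ^ 2 * G ξ)) := by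
      rw [ofReal_integral_eq_lintegral_ofReal (hGi R' hR0)
        (ae_of_all _ fun ξ => mul_nonneg (Real.exp_pos _).le (mul_nonneg (by positivity) (hG0 ξ)))]
      refine lintegral_congr fun ξ => ?_
      rw [← ENNReal.ofReal_mul (by positivity), mul_assoc]
    rw [h4, ← ENNReal.ofReal_mul (by positivity)]
    apply ENNReal.ofReal_le_ofReal
    set I : ℝ := ∫ ξ : E n, Real.exp (-(‖ξ‖ / R')) * (‖ξ‖ ^ 2 * G ξ) with hI
    calc C * I = (C * (R'⁻¹ * I)) * R' := by field_simp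
      _ ≤ (1 / M * (1 / 2) ^ k) * R' := by gcongr
      _ = R' / M * (1 / 2) ^ k := by ring
  choose R' hR'1 hR'2 using hex
  have hk1 : ∀ k : ℕ, 0 < (k : ℝ) + 1 := fun k => by positivity
  have hR'0 : ∀ k, 0 < R' k := fun k => lt_of_lt_of_le (by have := hk1 k; positivity) (hR'1 k)
  set R : ℕ → ℝ := fun k => R' k / ((k : ℝ) + 1) with hR
  have hR0 : ∀ k, 0 < R k := fun k => div_pos (hR'0 k) (hk1 k)
  have hRk : ∀ k : ℕ, (k : ℝ) + 1 ≤ R k := by
    intro k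
    rw [hR]
    simp only
    rw [le_div_iff₀ (hk1 k)]
    have := hR'1 k
    nlinarith
  have hRt : Tendsto R atTop atTop := by
    refine tendsto_atTop_mono (fun k => ?_) tendsto_natCast_atTop_atTop
    have := hRk k
    linarith
  refine ⟨R, hR0, hRt, ?_⟩
  -- summability
  set Φ : ℕ → E n → ENNReal := fun k => (D k).indicator
    (fun z => ENNReal.ofReal (R k)⁻¹ * Wr G z (R' k)) with hΦ
  have hΦm : ∀ k, Measurable (Φ k) := fun k =>
    ((Wr_meas hGm _).const_mul _).indicator (hDm k)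
  have hsum : ∑' k, ∫⁻ z, Φ k z ≤ 2 := by
    have h1 : ∀ k, ∫⁻ z, Φ k z ≤ (2 : ENNReal)⁻¹ ^ k := by
      intro k
      simp only [hΦ]
      rw [lintegral_indicator (hDm k), lintegral_const_mul _ (Wr_meas hGm _)]
      refine (mul_le_mul' le_rfl (hR'2 k)).trans ?_
      rw [← ENNReal.ofReal_mul (by have := hR0 k; positivity)]
      have e1 : (R k)⁻¹ * (R' k / ((k : ℝ) + 1) * (1 / 2) ^ k) = (1 / 2) ^ k := by
        have e2 : R' k / ((k : ℝ) + 1) = R k := rfl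
        rw [e2, ← mul_assoc, inv_mul_cancel₀ (hR0 k).ne', one_mul]
      rw [e1, ENNReal.ofReal_pow (by norm_num)]
      apply le_of_eq
      congr 1
      rw [one_div, ENNReal.ofReal_inv_of_pos (by norm_num)]
      norm_num
    refine (ENNReal.tsum_le_tsum h1).trans ?_
    rw [ENNReal.tsum_geometric]
    simp
  have hint : ∫⁻ z, ∑' k, Φ k z ≠ ⊤ := by
    rw [lintegral_tsum fun k => (hΦm k).aemeasurable]
    exact ne_top_of_le_ne_top (by norm_num) hsum
  have hae := ae_lt_top (Measurable.tsum hΦm) hint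
  filter_upwards [hae] with z hz hz0 Λ
  have ht : Tendsto (fun k => Φ k z) atTop (𝓝 0) := by
    have := ENNReal.tendsto_atTop_zero_of_tsum_ne_top hz.ne
    exact this
  refine tendsto_of_tendsto_of_tendsto_of_le_of_le' tendsto_const_nhds ht
    (Eventually.of_forall fun _ => zero_le) ?_
  obtain ⟨N, hN⟩ := exists_nat_ge Λ
  filter_upwards [hDz z hz0, eventually_ge_atTop N] with k hk hkN
  simp only [hΦ]
  rw [indicator_of_mem hk]
  refine mul_le_mul' le_rfl (Wr_mono G z ?_)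
  have h1 : Λ ≤ (k : ℝ) + 1 := by
    have : (N : ℝ) ≤ k := by exact_mod_cast hkN
    linarith
  calc Λ * R k ≤ ((k : ℝ) + 1) * R k := mul_le_mul_of_nonneg_right h1 (hR0 k).le
    _ = R' k := by
      simp only [hR]
      field_simp

end Pool.Agent.H878R2.Cov
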