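import Mathlib
import Pool.Agent.H878R2.Cov.F3
import Pool.Agent.Helper890.Cov.JL2

open MeasureTheory Set Filter Topology Metric
open scoped RealInnerProductSpace Pointwise

namespace Pool.Agent.H878R2.Cov
open Pool.Agent.Helper890.Cov

section
variable {n : ℕ} {K : Set (E n)} {h : E n → ℝ} {X : E n → E n}

theorem Wk.vol_pos (hG : Wk K h X) : 0 < (volume : Measure (E n)).real K := by
  have hKfin : (volume : Measure (E n)) K < ⊤ := hG.compact.measure_lt_top
  have hKpos : 0 < (volume : Measure (E n)) K :=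
    lt_of_lt_of_le (isOpen_interior.measure_pos volume ⟨0, hG.zero_mem⟩)
      (measure_mono interior_subset)
  rw [Measure.real, ENNReal.toReal_pos_iff]
  exact ⟨hKpos, hKfin⟩

theorem nuz_mass (K : Set (E n)) (z : E n) : (nuz K z).real univ = (volume : Measure (E n)).real K := by
  have hmeas : Measurable (fun x : E n => ⟪z, x⟫) :=
    (continuous_const.inner continuous_id).measurable
  unfold nuz
  rw [Measure.real, Measure.map_apply hmeas MeasurableSet.univ, preimage_univ,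
    Measure.restrict_apply_univ, Measure.real]

theorem nuz_fin (hK : IsCompact K) (z : E n) : IsFiniteMeasure (nuz K z) := by
  have hmeas : Measurable (fun x : E n => ⟪z, x⟫) :=
    (continuous_const.inner continuous_id).measurable
  constructor
  unfold nuz
  rw [Measure.map_apply hmeas MeasurableSet.univ, preimage_univ, Measure.restrict_apply_univ]
  exact hK.measure_lt_top

theorem nuz_supp (hG : Wk K h X) (z : E n) : nuz K z (Icc (-h (-z)) (h z))ᶜ = 0 := by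
  have hmeas : Measurable (fun x : E n => ⟪z, x⟫) :=
    (continuous_const.inner continuous_id).measurable
  unfold nuz
  rw [Measure.map_apply hmeas measurableSet_Icc.compl]
  rw [Measure.restrict_apply (hmeas measurableSet_Icc.compl)]
  have : (fun x : E n => ⟪z, x⟫) ⁻¹' (Icc (-h (-z)) (h z))ᶜ ∩ K = ∅ := by
    rw [eq_empty_iff_forall_notMem]
    rintro x ⟨hx1, hx2⟩
    apply hx1
    have e1 := hG.le x hx2 z
    have e2 := hG.le x hx2 (-z)
    rw [inner_neg_right] at e2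
    have e3 : ⟪z, x⟫ = ⟪x, z⟫ := real_inner_comm _ _
    show ⟪z, x⟫ ∈ Icc (-h (-z)) (h z)
    rw [e3]
    constructor <;> linarith
  rw [this, measure_empty]

/-- the line data are uniformly controlled in annuli, at regular directions -/
theorem wL1 (hn : 2 ≤ n) (hG : Wk K h X) {m M : ℝ} (hm : 0 < m) :
    ∃ p P : ℝ, 0 < p ∧ ∀ z : E n, m ≤ ‖z‖ → ‖z‖ ≤ M → Reg X z → Reg X (-z) →
    LineData p P (nuz K z) (h z) (h (-z)) (amp X z) (amp X (-z)) := by
  obtain ⟨c1, c2, hc1, hc2, hcl, hcb⟩ := curv_bounds hn hG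
  set C : Set (E n) := closedBall 0 M ∩ {z | m ≤ ‖z‖} with hC
  have hCc : IsCompact C := (isCompact_closedBall _ _).inter_right (isClosed_le continuous_const continuous_norm)
  have hCne : ∀ z ∈ C, z ≠ 0 := by
    rintro z ⟨-, hz⟩ rfl
    have : m ≤ ‖(0 : E n)‖ := hz
    rw [norm_zero] at this
    linarith
  have key : ∀ f : E n → ℝ, ContinuousOn f C → (∀ z ∈ C, 0 < f z) →
      ∃ p P : ℝ, 0 < p ∧ ∀ z ∈ C, p ≤ f z ∧ f z ≤ P := by
    intro f hf hpos
    rcases C.eq_empty_or_nonempty with hE | hne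
    · exact ⟨1, 1, one_pos, fun z hz => by simp [hE] at hz⟩
    · obtain ⟨x, hx, hxm⟩ := hCc.exists_isMinOn hne hf
      obtain ⟨y, hy, hyM⟩ := hCc.exists_isMaxOn hne hf
      exact ⟨f x, f y, hpos x hx, fun z hz => ⟨hxm hz, hyM hz⟩⟩
  have hcc : 0 < cc n := by unfold cc; positivity
  have ampc : ContinuousOn (fun z : E n => cc n * ‖z‖ ^ (-kap n)) C := by
    refine ContinuousOn.mul continuousOn_const ?_
    exact ContinuousOn.rpow_const (continuous_norm.continuousOn)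
      (fun z hz => Or.inl (norm_ne_zero_iff.mpr (hCne z hz)))
  obtain ⟨p1, P1, hp1, H1⟩ := key h hG.conth.continuousOn (fun z hz => hG.hpos (hCne z hz))
  obtain ⟨p2, P2, hp2, H2⟩ := key (fun z => h (-z)) (hG.conth.comp continuous_neg).continuousOn
    (fun z hz => hG.hpos (neg_ne_zero.mpr (hCne z hz)))
  obtain ⟨p3, P3, hp3, H3⟩ := key (fun z : E n => cc n * ‖z‖ ^ (-kap n)) ampc
    (fun z hz => mul_pos hcc (Real.rpow_pos_of_pos (norm_pos_iff.mpr (hCne z hz)) _))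
  have hvol := hG.vol_pos
  have hamp : ∀ z : E n, cc n * ‖z‖ ^ (-kap n) * Real.sqrt (curv X z) = amp X z := fun z => rfl
  refine ⟨min (min p1 p2) (min (p3 * Real.sqrt c1) ((volume : Measure (E n)).real K)),
    max (max P1 P2) (max (P3 * Real.sqrt c2) ((volume : Measure (E n)).real K)), ?_, ?_⟩
  · exact lt_min (lt_min hp1 hp2) (lt_min (mul_pos hp3 (Real.sqrt_pos.2 hc1)) hvol)
  · intro z hz1 hz2 hr hr'
    have hzC : z ∈ C := ⟨by simpa using hz2, hz1⟩
    have hzC' : -z ∈ C := ⟨by simpa using hz2, by simpa using hz1⟩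
    obtain ⟨a1, b1⟩ := H1 z hzC
    obtain ⟨a2, b2⟩ := H2 z hzC
    have ka : ∀ y : E n, y ∈ C → Reg X y → p3 * Real.sqrt c1 ≤ amp X y ∧ amp X y ≤ P3 * Real.sqrt c2 := by
      intro y hy hry
      obtain ⟨a3, b3⟩ := H3 y hy
      have s1 := Real.sqrt_le_sqrt (hcl y hry)
      have s2 := Real.sqrt_le_sqrt (hcb y hry.ne).2
      rw [← hamp]
      constructor
      · exact mul_le_mul a3 s1 (Real.sqrt_nonneg _) (hp3.le.trans a3)
      · exact mul_le_mul b3 s2 (Real.sqrt_nonneg _) ((hp3.le.trans a3).trans b3)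
    obtain ⟨a3, b3⟩ := ka z hzC hr
    obtain ⟨a4, b4⟩ := ka (-z) hzC' hr'
    refine ⟨nuz_fin hG.compact z, nuz_supp hG z, ?_, ?_, ?_, ?_, ?_, ?_, ?_, ?_, ?_, ?_⟩
    · rw [nuz_mass]; exact (min_le_right _ _).trans (min_le_right _ _)
    · rw [nuz_mass]; exact (le_max_right _ _).trans (le_max_right _ _)
    · exact ((min_le_left _ _).trans (min_le_left _ _)).trans a1
    · exact b1.trans ((le_max_left _ _).trans (le_max_left _ _))
    · exact ((min_le_left _ _).trans (min_le_right _ _)).trans a2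
    · exact b2.trans ((le_max_right _ _).trans (le_max_left _ _))
    · exact ((min_le_right _ _).trans (min_le_left _ _)).trans a3
    · exact b3.trans ((le_max_left _ _).trans (le_max_right _ _))
    · exact ((min_le_right _ _).trans (min_le_left _ _)).trans a4
    · exact b4.trans ((le_max_left _ _).trans (le_max_right _ _))

theorem wL2 (hG : Wk K h X) (z : E n) (hz : z ≠ 0) (R : ℝ) (hR : 0 ≤ R) :
    errI (kap n) (ph n) (nuz K z) (h z) (h (-z)) (amp X z) (amp X (-z)) R =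
      ∫ t in (0 : ℝ)..(2 * R), t ^ (n + 1) * ‖FK K (t • z) - Mhat h X (t • z)‖ ^ 2 := by
  unfold errI
  apply intervalIntegral.integral_congr_ae
  refine Filter.Eventually.of_forall fun t ht => ?_
  rw [uIoc_of_le (by linarith)] at ht
  have ht0 : 0 < t := ht.1
  have hzn : 0 < ‖z‖ := norm_pos_iff.2 hz
  have e1 : FT (nuz K z) (t : ℂ) = FK K (t • z) := by
    rw [JL2.FT_nuz761]
    unfold FK
    simp only [real_inner_smul_left, Complex.ofReal_mul]
  have e2 : Mn (h z) (h (-z)) (amp X z) (amp X (-z)) (ph n) (t : ℂ) =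
      ((t ^ kap n : ℝ) : ℂ) * Mhat h X (t • z) := by
    have c1 : curv X (t • z) = curv X z := curv_smul hG ht0 hz
    have c2 : curv X (-(t • z)) = curv X (-z) := by
      rw [← smul_neg]
      exact curv_smul hG ht0 (neg_ne_zero.2 hz)
    have c3 : h (t • z) = t * h z := hG.homog t z ht0.le
    have c4 : h (-(t • z)) = t * h (-z) := by
      rw [← smul_neg]
      exact hG.homog t (-z) ht0.le
    have c5 : t ^ kap n * ‖t • z‖ ^ (-kap n) = ‖z‖ ^ (-kap n) := by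
      rw [norm_smul, Real.norm_eq_abs, abs_of_pos ht0, Real.mul_rpow ht0.le hzn.le, ← mul_assoc,
        ← Real.rpow_add ht0, add_neg_cancel, Real.rpow_zero, one_mul]
    unfold Mn Mhat amp
    rw [c1, c2, c3, c4, norm_neg]
    have c6 : ((t ^ kap n : ℝ) : ℂ) * ((cc n * ‖t • z‖ ^ (-kap n) : ℝ) : ℂ) =
        ((cc n * ‖z‖ ^ (-kap n) : ℝ) : ℂ) := by
      rw [← Complex.ofReal_mul, ← c5]
      congr 1
      ring
    rw [← mul_assoc, c6]
    push_cast
    ring
  have e3 : ((t ^ kap n) ^ 2 : ℝ) = t ^ (n + 1) := by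
    rw [← Real.rpow_natCast, ← Real.rpow_mul ht0.le, ← Real.rpow_natCast]
    congr 1
    unfold kap
    push_cast
    ring
  show ‖((t ^ kap n : ℝ) : ℂ) * FT (nuz K z) (t : ℂ) -
    Mn (h z) (h (-z)) (amp X z) (amp X (-z)) (ph n) (t : ℂ)‖ ^ 2 =
    t ^ (n + 1) * ‖FK K (t • z) - Mhat h X (t • z)‖ ^ 2
  rw [e1, e2, ← mul_sub, norm_mul, mul_pow, Complex.norm_real, Real.norm_eq_abs,
    abs_of_pos (Real.rpow_pos_of_pos ht0 _), e3]

/-- the error function -/
noncomputable def Gf (K : Set (E n)) (h : E n → ℝ) (X : E n → E n) (ξ : E n) : ℝ :=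
  ‖FK K ξ - Mhat h X ξ‖ ^ 2

theorem Gf_nonneg (K : Set (E n)) (h : E n → ℝ) (X : E n → E n) (ξ : E n) : 0 ≤ Gf K h X ξ := by
  unfold Gf; positivity

theorem Gf_meas (hG : Wk K h X) : Measurable (Gf K h X) := by
  have h1 : Measurable (FK K) := (JG11.g11_FK K hG.compact).1.measurable
  have hh := hG.conth
  have h2 : Measurable (Mhat h X) := by
    unfold Mhat
    refine Measurable.mul ?_ (Measurable.add (Measurable.mul ?_ ?_) (Measurable.mul ?_ ?_))
    · exact Complex.measurable_ofReal.comp ((measurable_norm.pow_const _).const_mul _)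
    · exact Complex.measurable_ofReal.comp (curv_meas X).sqrt
    · exact (by fun_prop : Continuous fun ξ : E n => Complex.exp (Complex.I * (((h ξ + ph n : ℝ)) : ℂ))).measurable
    · exact Complex.measurable_ofReal.comp ((curv_meas X).comp measurable_neg).sqrt
    · exact (by fun_prop : Continuous fun ξ : E n =>
        Complex.exp (-(Complex.I * (((h (-ξ) + ph n : ℝ)) : ℂ)))).measurable
  exact (h1.sub h2).norm.pow_const 2

theorem Gf_bd (hn : 2 ≤ n) (hG : Wk K h X) :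
    ∃ C : ℝ, ∀ ξ : E n, ξ ≠ 0 → ‖ξ‖ ^ (n + 1) * Gf K h X ξ ≤ C * (1 + ‖ξ‖ ^ (n + 1)) := by
  obtain ⟨hp, B, hB0, hB⟩ := w11_bd hn hG
  obtain ⟨-, ⟨V, hV0', hV⟩, -⟩ := JG11.g11_FK K hG.compact
  have hsq : ∀ ξ : E n, ξ ≠ 0 → Real.sqrt (curv X ξ) ≤ Real.sqrt B := fun ξ hξ =>
    Real.sqrt_le_sqrt (hB ξ hξ)
  have hMb : ∀ ξ : E n, ξ ≠ 0 → ‖Mhat h X ξ‖ ≤ |cc n| * ‖ξ‖ ^ (-kap n) * (2 * Real.sqrt B) := by
    intro ξ hξ
    have hr : 0 ≤ ‖ξ‖ ^ (-kap n) := Real.rpow_nonneg (norm_nonneg _) _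
    unfold Mhat
    rw [norm_mul, Complex.norm_real, Real.norm_eq_abs, abs_mul, abs_of_nonneg hr]
    refine mul_le_mul_of_nonneg_left ?_ (by positivity)
    refine (norm_add_le _ _).trans ?_
    rw [norm_mul, norm_mul, Complex.norm_real, Complex.norm_real,
      Real.norm_of_nonneg (Real.sqrt_nonneg _), Real.norm_of_nonneg (Real.sqrt_nonneg _)]
    have e1 : ‖Complex.exp (Complex.I * (((h ξ + ph n : ℝ)) : ℂ))‖ = 1 := by
      rw [mul_comm, Complex.norm_exp_ofReal_mul_I]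
    have e2 : ‖Complex.exp (-(Complex.I * (((h (-ξ) + ph n : ℝ)) : ℂ)))‖ = 1 := by
      have : -(Complex.I * (((h (-ξ) + ph n : ℝ)) : ℂ)) =
          ((-(h (-ξ) + ph n) : ℝ) : ℂ) * Complex.I := by
        push_cast; ring
      rw [this, Complex.norm_exp_ofReal_mul_I]
    rw [e1, e2, mul_one, mul_one]
    have e3 := hsq ξ hξ
    have e4 := hsq (-ξ) (neg_ne_zero.2 hξ)
    linarith
  refine ⟨2 * V ^ 2 + 2 * (|cc n| * (2 * Real.sqrt B)) ^ 2, ?_⟩
  intro ξ hξ
  have hn0 : 0 < ‖ξ‖ := norm_pos_iff.2 hξ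
  have hr : 0 ≤ ‖ξ‖ ^ (-kap n) := Real.rpow_nonneg (norm_nonneg _) _
  have hk : ‖ξ‖ ^ (n + 1) * (‖ξ‖ ^ (-kap n)) ^ 2 = 1 := by
    rw [← Real.rpow_natCast (‖ξ‖ ^ (-kap n)) 2, ← Real.rpow_mul hn0.le, ← Real.rpow_natCast ‖ξ‖ (n + 1),
      ← Real.rpow_add hn0]
    have : (((n + 1 : ℕ) : ℝ)) + -kap n * ((2 : ℕ) : ℝ) = 0 := by
      unfold kap
      push_cast
      ring
    rw [this, Real.rpow_zero]
  have hF := hV ξ
  have hM := hMb ξ hξ
  have h1 : Gf K h X ξ ≤ 2 * ‖FK K ξ‖ ^ 2 + 2 * ‖Mhat h X ξ‖ ^ 2 := by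
    unfold Gf
    have e1 := norm_sub_le (FK K ξ) (Mhat h X ξ)
    have e2 : 0 ≤ ‖FK K ξ - Mhat h X ξ‖ := norm_nonneg _
    nlinarith [sq_nonneg (‖FK K ξ‖ - ‖Mhat h X ξ‖)]
  have h2 : ‖FK K ξ‖ ^ 2 ≤ V ^ 2 :=
    pow_le_pow_left₀ (norm_nonneg _) hF 2
  have h3' : ‖Mhat h X ξ‖ ^ 2 ≤ (|cc n| * ‖ξ‖ ^ (-kap n) * (2 * Real.sqrt B)) ^ 2 :=
    pow_le_pow_left₀ (norm_nonneg _) hM 2
  have h4 : ‖ξ‖ ^ (n + 1) * (|cc n| * ‖ξ‖ ^ (-kap n) * (2 * Real.sqrt B)) ^ 2 =
      (|cc n| * (2 * Real.sqrt B)) ^ 2 := by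
    linear_combination (|cc n| * (2 * Real.sqrt B)) ^ 2 * hk
  have hp : 0 ≤ ‖ξ‖ ^ (n + 1) := by positivity
  set D := (|cc n| * (2 * Real.sqrt B)) ^ 2 with hD
  have hD0 : 0 ≤ D := by positivity
  have hV0 : 0 ≤ V ^ 2 := by positivity
  calc ‖ξ‖ ^ (n + 1) * Gf K h X ξ
      ≤ ‖ξ‖ ^ (n + 1) * (2 * V ^ 2 + 2 * (|cc n| * ‖ξ‖ ^ (-kap n) * (2 * Real.sqrt B)) ^ 2) := by
        apply mul_le_mul_of_nonneg_left _ hp
        linarith
    _ = 2 * V ^ 2 * ‖ξ‖ ^ (n + 1) + 2 * D := by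
        linear_combination 2 * h4
    _ ≤ (2 * V ^ 2 + 2 * D) * (1 + ‖ξ‖ ^ (n + 1)) := by nlinarith

/-- interval integrability of the error on lines -/
theorem Gf_int (hn : 2 ≤ n) (hG : Wk K h X) {z : E n} (hz : z ≠ 0) {R : ℝ} (hR : 0 ≤ R) :
    IntervalIntegrable (fun t : ℝ => t ^ (n + 1) * Gf K h X (t • z)) volume 0 (2 * R) := by
  obtain ⟨C, hC⟩ := Gf_bd hn hG
  rw [intervalIntegrable_iff_integrableOn_Ioc_of_le (by positivity)]
  have hzn : 0 < ‖z‖ := norm_pos_iff.2 hz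
  have hmeas : Measurable (fun t : ℝ => t ^ (n + 1) * Gf K h X (t • z)) :=
    (measurable_id.pow_const _).mul ((Gf_meas hG).comp
      (by fun_prop : Continuous fun t : ℝ => t • z).measurable)
  refine Integrable.mono' (integrable_const (|C| * (1 + (2 * R * ‖z‖) ^ (n + 1)) / ‖z‖ ^ (n + 1)))
    hmeas.aestronglyMeasurable ?_
  rw [ae_restrict_iff' measurableSet_Ioc]
  refine Eventually.of_forall fun t ht => ?_
  have ht0 : 0 < t := ht.1
  rw [Real.norm_of_nonneg (mul_nonneg (by positivity) (Gf_nonneg _ _ _ _))]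
  rw [le_div_iff₀ (by positivity)]
  have h1 := hC (t • z) (smul_ne_zero ht0.ne' hz)
  rw [norm_smul, Real.norm_of_nonneg ht0.le] at h1
  calc t ^ (n + 1) * Gf K h X (t • z) * ‖z‖ ^ (n + 1) = (t * ‖z‖) ^ (n + 1) * Gf K h X (t • z) := by
        rw [mul_pow]; ring
    _ ≤ C * (1 + (t * ‖z‖) ^ (n + 1)) := h1
    _ ≤ |C| * (1 + (t * ‖z‖) ^ (n + 1)) := by gcongr; exact le_abs_self C
    _ ≤ |C| * (1 + (2 * R * ‖z‖) ^ (n + 1)) := by
        have := ht.2
        gcongr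

end

end Pool.Agent.H878R2.Cov
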