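import Mathlib
import Pool.Agent.H878R2.Cov.L

open MeasureTheory Set Filter Topology Metric
open scoped RealInnerProductSpace

namespace Pool.Agent.H878R2.Cov
open Pool.Agent.Helper890.Cov

/-- selection of a good plane -/
theorem wsel {n : ℕ} (hn : 2 ≤ n) {P : E n → Prop} (hP : ∀ᵐ z : E n, P z) {M₂ : Set (E n)}
    (hM₂ : MeasurableSet M₂) (hM₂0 : volume M₂ ≠ 0) (b : E n) :
    ∃ a : E n, (∀ s : ℝ, a + s • b ≠ 0) ∧
      (∀ᵐ θ ∂(volume.restrict (Ioc 0 (2 * Real.pi))), P (a + Real.cos θ • b)) ∧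
      volume.restrict (Ioc 0 (2 * Real.pi)) {θ : ℝ | a + Real.cos θ • b ∈ M₂} ≠ 0 := by
  have hpi := Real.pi_pos
  set μ0 : Measure ℝ := volume.restrict (Ioc 0 (2 * Real.pi)) with hμ0
  have hmm : Measurable (fun p : E n × ℝ => p.1 + Real.cos p.2 • b) :=
    measurable_fst.add ((Real.measurable_cos.comp measurable_snd).smul_const b)
  -- exceptional null set
  obtain ⟨S, hPS, hSm, hS0⟩ := exists_measurable_superset_of_null (ae_iff.1 hP)
  have hpre : ∀ (T : Set (E n)) (θ : ℝ), MeasurableSet T →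
      volume ((fun a : E n => a + Real.cos θ • b) ⁻¹' T) = volume T := by
    intro T θ hT
    exact measure_preimage_add_right volume (Real.cos θ • b) T
  have h1 : (volume.prod μ0) ((fun p : E n × ℝ => p.1 + Real.cos p.2 • b) ⁻¹' S) = 0 := by
    rw [Measure.prod_apply_symm (hmm hSm)]
    have : ∀ θ : ℝ, volume ((fun x : E n => (x, θ)) ⁻¹'
        ((fun p : E n × ℝ => p.1 + Real.cos p.2 • b) ⁻¹' S)) = 0 := by
      intro θ
      have := hpre S θ hSm
      rw [hS0] at this
      exact this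
    simp only [this, lintegral_zero]
  have h2 : ∀ᵐ a : E n, ∀ᵐ θ ∂μ0, P (a + Real.cos θ • b) := by
    have h3 : ∀ᵐ p ∂((volume : Measure (E n)).prod μ0), P (p.1 + Real.cos p.2 • b) := by
      rw [ae_iff]
      refine measure_mono_null ?_ h1
      intro p hp
      exact hPS hp
    exact Measure.ae_ae_of_ae_prod h3
  -- positive measure
  have h4 : ¬ ∀ᵐ a : E n, μ0 {θ : ℝ | a + Real.cos θ • b ∈ M₂} = 0 := by
    intro h
    have h5 : (volume.prod μ0) ((fun p : E n × ℝ => p.1 + Real.cos p.2 • b) ⁻¹' M₂) = 0 := by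
      rw [Measure.prod_apply (hmm hM₂)]
      rw [lintegral_eq_zero_of_ae_eq_zero]
      filter_upwards [h] with a ha
      exact ha
    rw [Measure.prod_apply_symm (hmm hM₂)] at h5
    have h6 : ∀ θ : ℝ, volume ((fun x : E n => (x, θ)) ⁻¹'
        ((fun p : E n × ℝ => p.1 + Real.cos p.2 • b) ⁻¹' M₂)) = volume M₂ := fun θ => hpre M₂ θ hM₂
    simp only [h6] at h5
    rw [lintegral_const, hμ0, Measure.restrict_apply_univ, Real.volume_Ioc, sub_zero] at h5
    rcases mul_eq_zero.1 h5 with h7 | h7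
    · exact hM₂0 h7
    · rw [ENNReal.ofReal_eq_zero] at h7
      linarith
  -- `a` is not a multiple of `b`
  have h8 : ∀ᵐ a : E n, a ∉ (Submodule.span ℝ {b} : Submodule ℝ (E n)) := by
    have h9 : (Submodule.span ℝ {b} : Submodule ℝ (E n)) ≠ ⊤ := by
      intro h
      have h10 : Module.finrank ℝ (Submodule.span ℝ {b} : Submodule ℝ (E n)) ≤ 1 := by
        have := finrank_span_le_card (R := ℝ) ({b} : Set (E n))
        simpa using this
      rw [h, finrank_top, finrank_euclideanSpace_fin] at h10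
      omega
    have := Measure.addHaar_submodule (volume : Measure (E n)) _ h9
    rw [ae_iff]
    simpa using this
  obtain ⟨a, ⟨ha1, ha2⟩, ha3⟩ :=
    (((Filter.not_eventually.1 h4).and_eventually h2).and_eventually h8).exists
  refine ⟨a, fun s hs => ha3 ?_, ha2, ha1⟩
  have : a = (-s) • b := by
    rw [neg_smul]
    exact eq_neg_of_add_eq_zero_left hs
  rw [this]
  exact Submodule.smul_mem _ _ (Submodule.mem_span_singleton_self b)

end Pool.Agent.H878R2.Cov
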