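import Mathlib
import Pool.Agent.H878R2.Cov.Z1
import Pool.Agent.H878R2.Cov.Z2
import Pool.Agent.Helper890.Cov.JZ

open MeasureTheory Set Filter Topology Metric
open scoped RealInnerProductSpace

namespace Pool.Agent.H878R2.Cov
open Pool.Agent.Helper890.Cov

theorem wF2half {n : ℕ} (K : Set (E n)) (a b : E n) (t : ℂ) :
    F2 K a b (0, t) = FT (nuz K ((1 / 2 : ℝ) • b)) t := by
  rw [JL2.FT_nuz761]
  unfold F2
  congr 1
  funext x
  congr 1
  simp only [real_inner_smul_left]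
  push_cast
  ring

theorem wF2circ {n : ℕ} (K : Set (E n)) (a b : E n) (v t : ℂ) (hv : ‖v‖ = 1) :
    F2 K a b (v, t) = FT (nuz K (a + v.re • b)) (t * v) := by
  have hv2 : 1 + v ^ 2 = 2 * v * (v.re : ℂ) := by
    have h1 : v * (starRingEnd ℂ) v = 1 := by
      rw [Complex.mul_conj, Complex.normSq_eq_norm_sq, hv]; norm_num
    have h2 : v + (starRingEnd ℂ) v = 2 * (v.re : ℂ) := by
      rw [Complex.add_conj]; push_cast; ring
    linear_combination v * h2 - h1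
  rw [JL2.FT_nuz761]
  unfold F2
  congr 1
  funext x
  congr 1
  simp only [inner_add_left, real_inner_smul_left]
  push_cast
  linear_combination (Complex.I * t / 2 * ((⟪b, x⟫ : ℝ) : ℂ)) * hv2

/-- the errors on a line are bounded by the radial integral -/
theorem werr {n : ℕ} {K H : Set (E n)} {hK hH : E n → ℝ} {XK XH : E n → E n} (hn : 2 ≤ n)
    (gK : Wk K hK XK) (gH : Wk H hH XH) {z : E n} (hz : z ≠ 0) {R : ℝ} (hR : 0 < R) :
    ENNReal.ofReal (errI (kap n) (ph n) (nuz K z) (hK z) (hK (-z)) (amp XK z) (amp XK (-z)) R +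
      errI (kap n) (ph n) (nuz H z) (hH z) (hH (-z)) (amp XH z) (amp XH (-z)) R) ≤
      Wr (fun ξ => Gf K hK XK ξ + Gf H hH XH ξ) z R := by
  have h1 := (JZ1.z1_int2 (G := fun ξ => Gf K hK XK ξ + Gf H hH XH ξ)
    (fun ξ => add_nonneg (Gf_nonneg _ _ _ _) (Gf_nonneg _ _ _ _)) hR z).2
  refine le_trans (le_of_eq ?_) h1
  congr 1
  rw [wL2 gK z hz R hR.le, wL2 gH z hz R hR.le]
  have e1 : ∀ t : ℝ, t ^ (n + 1) * (Gf K hK XK (t • z) + Gf H hH XH (t • z)) =
      t ^ (n + 1) * Gf K hK XK (t • z) + t ^ (n + 1) * Gf H hH XH (t • z) := fun t => by ring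
  simp only [e1]
  rw [intervalIntegral.integral_add (Gf_int hn gK hz hR.le) (Gf_int hn gH hz hR.le)]
  rfl

/-- change of scale in the sums over zeros -/
theorem wscale {n : ℕ} (K H : Set (E n)) (a b : E n) {v C : ℂ} (hv : ‖v‖ = 1) (hC : C ≠ 0) {R : ℝ}
    (S : Finset ℂ) (hS : ∀ t ∈ S, ‖t‖ < R ∧ F2 K a b (v, C * t) = 0 ∧ F2 H a b (v, C * t) = 0) :
    ∃ S' : Finset ℂ, (∀ s ∈ S', ‖s‖ < ‖C‖ * R ∧ FT (nuz K (a + v.re • b)) s = 0 ∧
      FT (nuz H (a + v.re • b)) s = 0) ∧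
      ∑ t ∈ S, Real.log (R / ‖t‖) = ∑ s ∈ S', Real.log (‖C‖ * R / ‖s‖) := by
  have hv0 : v ≠ 0 := by rw [← norm_pos_iff, hv]; exact one_pos
  have hCn : 0 < ‖C‖ := norm_pos_iff.2 hC
  have hinj : Function.Injective fun t : ℂ => C * t * v := fun t t' h =>
    mul_left_cancel₀ hC (mul_right_cancel₀ hv0 h)
  refine ⟨S.map ⟨fun t => C * t * v, hinj⟩, ?_, ?_⟩
  · intro s hs
    rw [Finset.mem_map] at hs
    obtain ⟨t, ht, rfl⟩ := hs
    obtain ⟨w1, w2, w3⟩ := hS t ht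
    rw [wF2circ K a b v _ hv] at w2
    rw [wF2circ H a b v _ hv] at w3
    refine ⟨?_, w2, w3⟩
    show ‖C * t * v‖ < _
    rw [norm_mul, norm_mul, hv, mul_one]
    gcongr
  · rw [Finset.sum_map]
    refine Finset.sum_congr rfl fun t _ => ?_
    show _ = Real.log (‖C‖ * R / ‖C * t * v‖)
    rw [norm_mul, norm_mul, hv, mul_one, mul_div_mul_left _ _ hCn.ne']

theorem amp_meas {n : ℕ} (X : E n → E n) : Measurable (amp X) := by
  unfold amp
  exact (measurable_norm.pow_const _).const_mul _ |>.mul (curv_meas X).sqrt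

end Pool.Agent.H878R2.Cov
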