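import Mathlib
import Pool.Agent.H878R2.Cov.PA
import Pool.Agent.H878R2.Cov.Wt
import Pool.Agent.H878R2.Cov.Z3

open MeasureTheory Set Filter Topology Metric
open scoped RealInnerProductSpace

namespace Pool.Agent.H878R2.Cov
open Pool.Agent.Helper890.Cov

/-- matched and swapped directions do not both occur with positive measure -/
theorem wZ {n : ℕ} (hn : 2 ≤ n) {K H : Set (E n)} {hK hH : E n → ℝ} {XK XH : E n → E n}
    (gK : Wk K hK XK) (gH : Wk H hH XH) (hcov : ∀ x, covg K x = covg H x)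
    (hw : ∀ u, u ≠ 0 → hK u + hK (-u) = hH u + hH (-u)) :
    volume {u : E n | curv XH u = curv XK u ∧ curv XH (-u) = curv XK (-u) ∧
      curv XK u ≠ curv XK (-u)} = 0 ∨
    volume {u : E n | curv XH u = curv XK (-u) ∧ curv XH (-u) = curv XK u ∧
      curv XK u ≠ curv XK (-u)} = 0 := by
  by_contra hcon
  rw [not_or] at hcon
  obtain ⟨hM1, hM2⟩ := hcon
  have hpi := Real.pi_pos
  haveI : Nonempty (Fin n) := ⟨⟨0, by omega⟩⟩
  obtain ⟨μ0, hμ0⟩ : ∃ μ0 : Measure ℝ, μ0 = volume.restrict (Ioc 0 (2 * Real.pi)) := ⟨_, rfl⟩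
  haveI : IsFiniteMeasure μ0 := by
    constructor
    rw [hμ0, Measure.restrict_apply_univ]
    exact measure_Ioc_lt_top
  set M₁ : Set (E n) := {u : E n | curv XH u = curv XK u ∧ curv XH (-u) = curv XK (-u) ∧
      curv XK u ≠ curv XK (-u)} with hM₁
  set M₂ : Set (E n) := {u : E n | curv XH u = curv XK (-u) ∧ curv XH (-u) = curv XK u ∧
      curv XK u ≠ curv XK (-u)} with hM₂
  have cK := curv_meas XK
  have cH := curv_meas XH
  have cKn : Measurable (fun v => curv XK (-v)) := cK.comp measurable_neg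
  have cHn : Measurable (fun v => curv XH (-v)) := cH.comp measurable_neg
  have hM₂m : MeasurableSet M₂ :=
    (measurableSet_eq_fun cH cKn).inter ((measurableSet_eq_fun cHn cK).inter
      (measurableSet_eq_fun cK cKn).compl)
  -- the error function
  obtain ⟨G, hG⟩ : ∃ G : E n → ℝ, G = fun ξ => Gf K hK XK ξ + Gf H hH XH ξ := ⟨_, rfl⟩
  have G0 : ∀ ξ, 0 ≤ G ξ := fun ξ => by
    rw [hG]; exact add_nonneg (Gf_nonneg _ _ _ _) (Gf_nonneg _ _ _ _)
  have Gm : Measurable G := by rw [hG]; exact (Gf_meas gK).add (Gf_meas gH)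
  obtain ⟨iK, tK⟩ := wG11 hn gK
  obtain ⟨iH, tH⟩ := wG11 hn gH
  have iG : ∀ T : ℝ, 0 < T → Integrable (fun ξ : E n => Real.exp (-(‖ξ‖ / T)) * (‖ξ‖ ^ 2 * G ξ)) := by
    intro T hT
    have := (iK T hT).add (iH T hT)
    refine this.congr (Eventually.of_forall fun ξ => ?_)
    simp only [Pi.add_apply, hG, Gf]
    ring
  have tG : Tendsto (fun T : ℝ => T⁻¹ * ∫ ξ : E n, Real.exp (-(‖ξ‖ / T)) * (‖ξ‖ ^ 2 * G ξ)) atTop (𝓝 0) := by
    have := tK.add tH
    rw [add_zero] at this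
    refine this.congr' ?_
    filter_upwards [eventually_gt_atTop 0] with T hT
    rw [← mul_add, ← integral_add (iK T hT) (iH T hT)]
    congr 1
    refine integral_congr_ae (Eventually.of_forall fun ξ => ?_)
    simp only [hG, Gf]
    ring
  obtain ⟨R, hR0, hRt, hRae⟩ := wZ1 n G G0 Gm iG tG
  -- good points
  obtain ⟨P, hPdef⟩ : ∃ P : E n → Prop, P = fun z => z ≠ 0 ∧ Reg XK z ∧ Reg XK (-z) ∧ Reg XH z ∧
    Reg XH (-z) ∧ ∀ Λ : ℝ, Tendsto (fun k => ENNReal.ofReal (R k)⁻¹ * Wr G z (Λ * R k)) atTop (𝓝 0) :=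
    ⟨_, rfl⟩
  have hP : ∀ᵐ z : E n, P z := by
    filter_upwards [ae_reg (by omega) gK, ae_neg (ae_reg (by omega) gK), ae_reg (by omega) gH,
      ae_neg (ae_reg (by omega) gH), hRae] with z h1 h2 h3 h4 h5
    rw [hPdef]
    exact ⟨h1.ne, h1, h2, h3, h4, h5 h1.ne⟩
  -- the centre
  obtain ⟨z₁, hz₁M, hz₁P⟩ : ∃ z₁ ∈ M₁, P z₁ := by
    by_contra hc
    push Not at hc
    apply hM1
    refine measure_mono_null (fun z hz => ?_) (ae_iff.1 hP)
    exact hc z hz
  obtain ⟨b, hb⟩ : ∃ b : E n, b = (2 : ℝ) • z₁ := ⟨_, rfl⟩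
  have hb2 : (1 / 2 : ℝ) • b = z₁ := by
    rw [hb, smul_smul]; norm_num
  obtain ⟨a, ha0, haP, haM⟩ := wsel hn hP hM₂m hM2 b
  rw [← hμ0] at haP haM
  rw [hPdef] at hz₁P
  obtain ⟨z10, rK1, rK1', rH1, rH1', z1t⟩ := hz₁P
  -- bounds
  obtain ⟨m, M, hm, hbd, hbd1⟩ : ∃ m M : ℝ, 0 < m ∧ (∀ s ∈ Icc (-1 : ℝ) 1, m ≤ ‖a + s • b‖ ∧
      ‖a + s • b‖ ≤ M) ∧ m ≤ ‖z₁‖ ∧ ‖z₁‖ ≤ M := by
    have hcf : Continuous (fun s : ℝ => ‖a + s • b‖) := by fun_prop
    obtain ⟨m₁, hm₁, hm₁'⟩ := (isCompact_Icc (a := (-1 : ℝ)) (b := 1)).exists_forall_le' (a := (0 : ℝ))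
      hcf.continuousOn (fun s _ => norm_pos_iff.2 (ha0 s))
    obtain ⟨M₀, hM₀⟩ := (isCompact_Icc (a := (-1 : ℝ)) (b := 1)).bddAbove_image hcf.continuousOn
    refine ⟨min m₁ ‖z₁‖, max M₀ ‖z₁‖, lt_min hm₁ (norm_pos_iff.2 z10), fun s hs => ⟨?_, ?_⟩,
      min_le_right _ _, le_max_right _ _⟩
    · exact (min_le_left _ _).trans (hm₁' s hs)
    · exact (hM₀ (mem_image_of_mem _ hs)).trans (le_max_left _ _)
  obtain ⟨pK, PK, hpK, LK⟩ := wL1 hn gK (m := m) (M := M) hm
  obtain ⟨pH, PH, hpH, LH⟩ := wL1 hn gH (m := m) (M := M) hm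
  set p : ℝ := min pK pH with hp
  set P' : ℝ := max PK PH with hP'
  have hppos : 0 < p := lt_min hpK hpH
  have LK' : ∀ z : E n, m ≤ ‖z‖ → ‖z‖ ≤ M → Reg XK z → Reg XK (-z) →
      LineData p P' (nuz K z) (hK z) (hK (-z)) (amp XK z) (amp XK (-z)) := fun z h1 h2 h3 h4 =>
    (LK z h1 h2 h3 h4).mono508 (min_le_left _ _) (le_max_left _ _)
  have LH' : ∀ z : E n, m ≤ ‖z‖ → ‖z‖ ≤ M → Reg XH z → Reg XH (-z) →
      LineData p P' (nuz H z) (hH z) (hH (-z)) (amp XH z) (amp XH (-z)) := fun z h1 h2 h3 h4 =>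
    (LH z h1 h2 h3 h4).mono508 (min_le_right _ _) (le_max_right _ _)
  have hPpos : 0 < P' := by
    have := LK' z₁ hbd1.1 hbd1.2 rK1 rK1'
    linarith [this.h1, this.h2]
  have hkap : 1 ≤ kap n := by
    unfold kap
    have : (2 : ℝ) ≤ n := by exact_mod_cast hn
    linarith
  -- the gap at the centre
  obtain ⟨δ₁, hδ₁⟩ : ∃ δ₁ : ℝ, δ₁ = |amp XK z₁ - amp XK (-z₁)| := ⟨_, rfl⟩
  have hδ₁pos : 0 < δ₁ := by
    rw [hδ₁, abs_pos, sub_ne_zero]
    exact JZ.amp508_ne z10 (curv_pos hn gK rK1) (curv_pos hn gK rK1') hz₁M.2.2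
  obtain ⟨c₀, εa, Ra, hc₀, hεa, hRa, H3a⟩ := s3a (kap n) (ph n) p P' δ₁ hkap hppos hδ₁pos
  set W : ℝ := 2 * P' / Real.pi with hW
  have hWpos : 0 < W := by positivity
  -- the good part of the circle
  have hcos : ∀ θ : ℝ, (circleMap 0 1 θ).re = Real.cos θ := by
    intro θ
    rw [circleMap_zero, Complex.ofReal_one, one_mul, Complex.exp_ofReal_mul_I_re]
  have hmz : Measurable (fun v : ℂ => a + v.re • b) :=
    (by fun_prop : Continuous fun v : ℂ => a + v.re • b).measurable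
  have ampm := amp_meas XK
  have hDm : Measurable (fun v : ℂ => |amp XK (a + v.re • b) - amp XK (-(a + v.re • b))|) :=
    ((ampm.comp hmz).sub ((ampm.comp measurable_neg).comp hmz)).abs
  obtain ⟨j, hj⟩ : ∃ j : ℕ, μ0 (circleMap 0 1 ⁻¹' {v : ℂ | a + v.re • b ∈ M₂ ∧
      1 / ((j : ℝ) + 1) ≤ |amp XK (a + v.re • b) - amp XK (-(a + v.re • b))|}) ≠ 0 := by
    by_contra hc
    push Not at hc
    apply haM
    have h1 := measure_iUnion_null hc
    have h2 := ae_iff.1 haP
    refine measure_mono_null ?_ (measure_union_null h1 h2)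
    intro θ hθ
    by_cases hPθ : P (a + Real.cos θ • b)
    · left
      rw [mem_iUnion]
      rw [hPdef] at hPθ
      obtain ⟨y0, y1, y2, -, -, -⟩ := hPθ
      have hθ' : a + Real.cos θ • b ∈ M₂ := hθ
      have h3 : 0 < |amp XK (a + Real.cos θ • b) - amp XK (-(a + Real.cos θ • b))| := by
        rw [abs_pos, sub_ne_zero]
        exact JZ.amp508_ne y0 (curv_pos hn gK y1) (curv_pos hn gK y2) hθ'.2.2
      obtain ⟨j, hj⟩ := exists_nat_one_div_lt h3
      refine ⟨j, ?_⟩
      show a + (circleMap 0 1 θ).re • b ∈ M₂ ∧ _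
      rw [hcos]
      exact ⟨hθ', hj.le⟩
    · right
      exact hPθ
  obtain ⟨δ₂, hδ₂⟩ : ∃ δ₂ : ℝ, δ₂ = 1 / ((j : ℝ) + 1) := ⟨_, rfl⟩
  have hδ₂pos : 0 < δ₂ := by rw [hδ₂]; positivity
  rw [← hδ₂] at hj
  obtain ⟨A, hA⟩ : ∃ A : Set ℂ, A = {v : ℂ | a + v.re • b ∈ M₂ ∧
      δ₂ ≤ |amp XK (a + v.re • b) - amp XK (-(a + v.re • b))|} := ⟨_, rfl⟩
  rw [← hA] at hj
  have hAm : MeasurableSet A := by
    rw [hA]
    exact (hmz hM₂m).inter (measurableSet_le measurable_const hDm)
  -- the weight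
  obtain ⟨g, hgd, hg0, hgw⟩ := weight A hAm (by rw [← hμ0]; exact pos_iff_ne_zero.2 hj)
    (ε := c₀ / (4 * W)) (by positivity)
  rw [← hμ0] at hgw
  have hgc : Continuous (fun v => Real.exp (g v).re) :=
    Real.continuous_exp.comp (Complex.continuous_re.comp hgd.continuous)
  have hgn : ∀ v, ‖Complex.exp (g v)‖ = Real.exp (g v).re := fun v => Complex.norm_exp _
  obtain ⟨cm, hcm0, hcm⟩ := (isCompact_sphere (0 : ℂ) 1).exists_forall_le' (a := (0 : ℝ))
    hgc.continuousOn (fun v _ => Real.exp_pos _)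
  obtain ⟨L, hL0, hL⟩ : ∃ L : ℝ, 0 < L ∧ ∀ v ∈ sphere (0 : ℂ) 1, Real.exp (g v).re ≤ L := by
    obtain ⟨L, hL⟩ := (isCompact_sphere (0 : ℂ) 1).bddAbove_image hgc.continuousOn
    refine ⟨max L 1, lt_max_of_lt_right one_pos, fun v hv => (hL (mem_image_of_mem _ hv)).trans
      (le_max_left _ _)⟩
  obtain ⟨εb, Rb, hεb, hRb, H3b⟩ := s3b (kap n) (ph n) p P' δ₂ (c₀ / (4 * L)) hkap hppos hδ₂pos
    (by positivity)
  -- the sets of good points for a given radius
  obtain ⟨Gd, hGd⟩ : ∃ Gd : ℕ → Set ℂ, Gd = fun k => {v : ℂ | v ∈ A ∧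
    Wr G (a + v.re • b) (L * R k) ≤ ENNReal.ofReal (εb * (cm * R k))} := ⟨_, rfl⟩
  have hGdm : ∀ k, MeasurableSet (Gd k) := by
    intro k
    rw [hGd]
    exact hAm.inter (measurableSet_le ((Wr_meas Gm _).comp hmz) measurable_const)
  obtain ⟨B, hB⟩ : ∃ B : ℕ → ℂ → ℝ, B = fun k v => c₀ / 4 * R k + W * R k *
    (Gd k)ᶜ.indicator (fun v => Real.exp (g v).re) v := ⟨_, rfl⟩
  have hIm : ∀ k, Measurable ((Gd k)ᶜ.indicator (fun v => Real.exp (g v).re)) := fun k =>
    hgc.measurable.indicator (hGdm k).compl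
  have hIb : ∀ (S : Set ℂ) (θ : ℝ), ‖S.indicator (fun v => Real.exp (g v).re) (circleMap 0 1 θ)‖ ≤ L := by
    intro S θ
    rw [Real.norm_of_nonneg (indicator_nonneg (fun _ _ => (Real.exp_pos _).le) _)]
    by_cases h : circleMap 0 1 θ ∈ S
    · rw [indicator_of_mem h]
      exact hL _ (circleMap_mem_sphere _ zero_le_one θ)
    · rw [indicator_of_notMem h]
      exact hL0.le
  have hIi : ∀ k, Integrable (fun θ => (Gd k)ᶜ.indicator (fun v => Real.exp (g v).re)
      (circleMap 0 1 θ)) μ0 := fun k =>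
    Integrable.mono' (integrable_const L)
      ((hIm k).comp (continuous_circleMap 0 1).measurable).aestronglyMeasurable
      (ae_of_all _ fun θ => hIb _ θ)
  obtain ⟨J, hJ⟩ : ∃ J : ℕ → ℝ, J = fun k => (2 * Real.pi)⁻¹ * ∫ θ,
    (Gd k)ᶜ.indicator (fun v => Real.exp (g v).re) (circleMap 0 1 θ) ∂μ0 := ⟨_, rfl⟩
  have hBi : ∀ k, CircleIntegrable (B k) 0 1 := by
    intro k
    unfold CircleIntegrable
    rw [intervalIntegrable_iff_integrableOn_Ioc_of_le (by positivity), IntegrableOn, ← hμ0, hB]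
    exact (integrable_const _).add ((hIi k).const_mul _)
  have hBavg : ∀ k, Real.circleAverage (B k) 0 1 = c₀ / 4 * R k + W * R k * J k := by
    intro k
    rw [Real.circleAverage_def, smul_eq_mul, intervalIntegral.integral_of_le (by positivity), ← hμ0,
      hB, hJ]
    have e1 : ∫ θ, (c₀ / 4 * R k + W * R k * (Gd k)ᶜ.indicator (fun v => Real.exp (g v).re)
        (circleMap 0 1 θ)) ∂μ0 = (∫ θ, c₀ / 4 * R k ∂μ0) + ∫ θ, W * R k * (Gd k)ᶜ.indicator
        (fun v => Real.exp (g v).re) (circleMap 0 1 θ) ∂μ0 :=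
      integral_add (integrable_const _) ((hIi k).const_mul _)
    show (2 * Real.pi)⁻¹ * ∫ θ, (c₀ / 4 * R k + W * R k * (Gd k)ᶜ.indicator
      (fun v => Real.exp (g v).re) (circleMap 0 1 θ)) ∂μ0 = _
    rw [e1, integral_const, integral_const_mul, Measure.real, hμ0, Measure.restrict_apply_univ,
      Real.volume_Ioc, sub_zero, ENNReal.toReal_ofReal (by positivity), smul_eq_mul]
    field_simp
  -- the key inequality
  have key : ∀ k, Ra ≤ R k → Rb ≤ cm * R k → Wr G z₁ (R k) ≤ ENNReal.ofReal (εa * R k) →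
      c₀ * R k ≤ Real.circleAverage (B k) 0 1 := by
    intro k hk1 hk2 hk3
    have hRk := hR0 k
    have am1 : amp XH z₁ = amp XK z₁ := JZ.amp508_eq rfl hz₁M.1
    have am2 : amp XH (-z₁) = amp XK (-z₁) := JZ.amp508_eq rfl hz₁M.2.1
    have LH1 := LH' z₁ hbd1.1 hbd1.2 rH1 rH1'
    have hs1 := werr hn gK gH z10 hRk
    rw [← hG] at hs1
    have hs1' := (ENNReal.ofReal_le_ofReal_iff (by positivity)).1 (hs1.trans hk3)
    rw [am1, am2] at LH1 hs1'
    obtain ⟨S₀, hS₀, hS₀sum⟩ := H3a (nuz K z₁) (nuz H z₁) (hK z₁) (hK (-z₁)) (hH z₁) (hH (-z₁))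
      (amp XK z₁) (amp XK (-z₁)) (hK z₁ + hK (-z₁)) (LK' z₁ hbd1.1 hbd1.2 rK1 rK1') LH1 rfl
      (hw z₁ z10) (le_of_eq hδ₁) (R k) hk1 hs1'
    have hfd := JF2.stF2 n K a b gK.compact
    have hgdd := JF2.stF2 n H a b gH.compact
    have hcd : Differentiable ℂ (fun q : ℂ × ℂ => (q.1, Complex.exp (g q.1) * q.2)) :=
      differentiable_fst.prodMk (((Complex.differentiable_exp.comp (hgd.comp differentiable_fst))).mul
        differentiable_snd)
    refine le_trans hS₀sum (propA' (fun q => F2 K a b (q.1, Complex.exp (g q.1) * q.2))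
      (fun q => F2 H a b (q.1, Complex.exp (g q.1) * q.2)) (R k) (B k) (hfd.comp hcd) (hgdd.comp hcd)
      hRk ?_ (hBi k) ?_ S₀ ?_)
    · intro v
      show F2 K a b (v, Complex.exp (g v) * 0) ≠ 0
      rw [mul_zero]
      exact JZ.F2zero508 K gK.compact gK.zero_mem a b v
    · rw [← hμ0]
      filter_upwards [haP] with θ hθ
      intro S hS
      rw [hPdef] at hθ
      rw [← hcos θ] at hθ
      set v := circleMap 0 1 θ with hv
      obtain ⟨y0, rK, rK', rH, rH', -⟩ := hθ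
      have hvs : v ∈ sphere (0 : ℂ) 1 := circleMap_mem_sphere _ zero_le_one θ
      have hv1 : ‖v‖ = 1 := by simpa using hvs
      have hvre : v.re ∈ Icc (-1 : ℝ) 1 := by
        have := Complex.abs_re_le_norm v
        rw [hv1, abs_le] at this
        exact this
      obtain ⟨S', hS'1, hS'2⟩ := wscale K H a b hv1 (Complex.exp_ne_zero (g v)) S hS
      rw [hS'2]
      set z : E n := a + v.re • b with hz
      obtain ⟨hzm, hzM⟩ := hbd v.re hvre
      have LKz := LK' z hzm hzM rK rK'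
      have LHz := LH' z hzm hzM rH rH'
      have hCv : ‖Complex.exp (g v)‖ = Real.exp (g v).re := hgn v
      have hCpos : 0 < ‖Complex.exp (g v)‖ := by rw [hCv]; exact Real.exp_pos _
      have hCL : ‖Complex.exp (g v)‖ ≤ L := by rw [hCv]; exact hL v hvs
      have hCm : cm ≤ ‖Complex.exp (g v)‖ := by rw [hCv]; exact hcm v hvs
      have hR'pos : 0 < ‖Complex.exp (g v)‖ * R k := by positivity
      by_cases hvG : v ∈ Gd k
      · have hBv : B k v = c₀ / 4 * R k := by
          rw [hB]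
          simp only
          rw [indicator_of_notMem (by simpa using hvG), mul_zero, add_zero]
        rw [hBv]
        rw [hGd] at hvG
        obtain ⟨hvA, hvE⟩ := hvG
        rw [hA] at hvA
        obtain ⟨hzM₂, hgap⟩ := hvA
        have am3 : amp XH z = amp XK (-z) := JZ.amp508_eq (norm_neg z).symm hzM₂.1
        have am4 : amp XH (-z) = amp XK z := JZ.amp508_eq (norm_neg z) hzM₂.2.1
        have hs2 := werr hn gK gH y0 hR'pos
        rw [← hG] at hs2
        have h5 : Wr G z (‖Complex.exp (g v)‖ * R k) ≤ ENNReal.ofReal (εb * (cm * R k)) :=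
          (Wr_mono G z (by gcongr)).trans hvE
        have hs2' := (ENNReal.ofReal_le_ofReal_iff (by positivity)).1 (hs2.trans h5)
        rw [am3, am4] at LHz hs2'
        have h6 : εb * (cm * R k) ≤ εb * (‖Complex.exp (g v)‖ * R k) := by gcongr
        have h7 : Rb ≤ ‖Complex.exp (g v)‖ * R k := hk2.trans (by gcongr)
        have h8 := H3b (nuz K z) (nuz H z) (hK z) (hK (-z)) (hH z) (hH (-z))
          (amp XK z) (amp XK (-z)) (hK z + hK (-z)) LKz LHz rfl
          (hw z y0) hgap (‖Complex.exp (g v)‖ * R k) h7 (hs2'.trans h6) S' hS'1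
        refine h8.trans ?_
        calc c₀ / (4 * L) * (‖Complex.exp (g v)‖ * R k) ≤ c₀ / (4 * L) * (L * R k) := by gcongr
          _ = c₀ / 4 * R k := by field_simp
      · have hBv : B k v = c₀ / 4 * R k + W * R k * ‖Complex.exp (g v)‖ := by
          rw [hB]
          simp only
          rw [indicator_of_mem (by simpa using hvG), hCv]
        rw [hBv]
        have h6 := JC3.stC3 (nuz K z) (hK z) (hK (-z)) LKz.fin LKz.supp (hppos.trans_le LKz.mass)
          (hppos.le.trans LKz.h1) (hppos.le.trans LKz.h3) _ hR'pos S'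
          (fun t ht => ⟨(hS'1 t ht).1, (hS'1 t ht).2.1⟩)
        have h7 : (hK z + hK (-z)) * (‖Complex.exp (g v)‖ * R k) / Real.pi ≤
            W * R k * ‖Complex.exp (g v)‖ := by
          have e1 := LKz.h2
          have e2 := LKz.h4
          have e3 : W * R k * ‖Complex.exp (g v)‖ =
              (2 * P') * (‖Complex.exp (g v)‖ * R k) / Real.pi := by
            rw [hW]; ring
          rw [e3]
          gcongr
          linarith
        have h9 : 0 ≤ c₀ / 4 * R k := by positivity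
        linarith
    · intro t ht
      obtain ⟨w1, w2, w3⟩ := hS₀ t ht
      have e0 : Complex.exp (g 0) = 1 := by rw [hg0, Complex.exp_zero]
      refine ⟨w1, ?_, ?_⟩
      · show F2 K a b (0, Complex.exp (g 0) * t) = 0
        rw [e0, one_mul, wF2half K a b t, hb2]
        exact w2
      · have hne0 : F2 H a b (0, -(Complex.exp (g 0) * t)) ≠ 0 := by
          rw [e0, one_mul, wF2half H a b (-t), hb2]
          exact w3
        have hcont : ContinuousAt (fun q : ℂ × ℂ => F2 H a b (q.1, -(Complex.exp (g q.1) * q.2))) (0, t) := by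
          have h1 : Continuous (fun q : ℂ × ℂ => (q.1, -(Complex.exp (g q.1) * q.2))) := by
            have := hcd.continuous
            exact continuous_fst.prodMk ((continuous_snd.comp this).neg)
          exact (hgdd.continuous.comp h1).continuousAt
        have := hcont.eventually_ne hne0
        filter_upwards [this] with q hq hfq
        have hpr := JZ.F2prod508 JF0.stF0 (by omega) gK.compact gH.compact hcov a b q.1
          (Complex.exp (g q.1) * q.2)
        rw [hfq, zero_mul] at hpr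
        exact (mul_eq_zero.1 hpr.symm).resolve_right hq
  -- limits
  have hJt : Tendsto J atTop (𝓝 ((2 * Real.pi)⁻¹ * ∫ θ, Aᶜ.indicator (fun v => Real.exp (g v).re)
      (circleMap 0 1 θ) ∂μ0)) := by
    rw [hJ]
    refine Tendsto.const_mul _ ?_
    refine tendsto_integral_of_dominated_convergence (fun _ => L)
      (fun k => (hIi k).aestronglyMeasurable) (integrable_const _)
      (fun k => ae_of_all _ fun θ => hIb _ θ) ?_
    filter_upwards [haP] with θ hθ
    rw [hPdef] at hθ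
    rw [← hcos θ] at hθ
    set v := circleMap 0 1 θ with hv
    obtain ⟨y0, -, -, -, -, ht⟩ := hθ
    by_cases hvA : v ∈ A
    · rw [indicator_of_notMem (by simpa using hvA)]
      refine tendsto_const_nhds.congr' ?_
      have h1 := ht L
      have h2 : (0 : ENNReal) < ENNReal.ofReal (εb * cm) := by
        rw [ENNReal.ofReal_pos]; positivity
      filter_upwards [h1.eventually_lt_const h2] with k hk
      have hRk := hR0 k
      have hvG : v ∈ Gd k := by
        rw [hGd]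
        refine ⟨hvA, ?_⟩
        have h3 : ENNReal.ofReal (R k) * (ENNReal.ofReal (R k)⁻¹ * Wr G (a + v.re • b) (L * R k)) ≤
            ENNReal.ofReal (R k) * ENNReal.ofReal (εb * cm) := mul_le_mul' le_rfl hk.le
        rw [← mul_assoc, ← ENNReal.ofReal_mul hRk.le, ← ENNReal.ofReal_mul hRk.le,
          mul_inv_cancel₀ hRk.ne', ENNReal.ofReal_one, one_mul] at h3
        refine h3.trans (le_of_eq ?_)
        congr 1
        ring
      beta_reduce
      rw [indicator_of_notMem (by simpa using hvG)]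
    · rw [indicator_of_mem (by simpa using hvA)]
      refine tendsto_const_nhds.congr' (Eventually.of_forall fun k => ?_)
      have hvG : v ∉ Gd k := by
        rw [hGd]
        exact fun h => hvA h.1
      beta_reduce
      rw [indicator_of_mem (by simpa using hvG)]
  have hev : ∀ᶠ k in atTop, c₀ ≤ c₀ / 4 + W * J k := by
    have h1 := z1t 1
    have h2 : (0 : ENNReal) < ENNReal.ofReal εa := by
      rw [ENNReal.ofReal_pos]; exact hεa
    have h4 : Tendsto (fun k => cm * R k) atTop atTop := hRt.const_mul_atTop hcm0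
    filter_upwards [h1.eventually_lt_const h2, hRt.eventually_ge_atTop Ra, h4.eventually_ge_atTop Rb]
      with k hk1 hk2 hk3
    have hRk := hR0 k
    have h5 : Wr G z₁ (R k) ≤ ENNReal.ofReal (εa * R k) := by
      rw [one_mul] at hk1
      have h3 : ENNReal.ofReal (R k) * (ENNReal.ofReal (R k)⁻¹ * Wr G z₁ (R k)) ≤
          ENNReal.ofReal (R k) * ENNReal.ofReal εa := mul_le_mul' le_rfl hk1.le
      rw [← mul_assoc, ← ENNReal.ofReal_mul hRk.le, ← ENNReal.ofReal_mul hRk.le,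
        mul_inv_cancel₀ hRk.ne', ENNReal.ofReal_one, one_mul] at h3
      refine h3.trans (le_of_eq ?_)
      congr 1
      ring
    have h6 := key k hk2 hk3 h5
    rw [hBavg] at h6
    have h7 : c₀ * R k ≤ (c₀ / 4 + W * J k) * R k := by
      calc c₀ * R k ≤ c₀ / 4 * R k + W * R k * J k := h6
        _ = (c₀ / 4 + W * J k) * R k := by ring
    exact le_of_mul_le_mul_right h7 hRk
  have hfin := ge_of_tendsto ((hJt.const_mul W).const_add (c₀ / 4)) hev
  have h8 : W * ((2 * Real.pi)⁻¹ * ∫ θ, Aᶜ.indicator (fun v => Real.exp (g v).re)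
      (circleMap 0 1 θ) ∂μ0) ≤ c₀ / 4 := by
    calc W * ((2 * Real.pi)⁻¹ * ∫ θ, Aᶜ.indicator (fun v => Real.exp (g v).re)
      (circleMap 0 1 θ) ∂μ0) ≤ W * (c₀ / (4 * W)) := by gcongr
      _ = c₀ / 4 := by field_simp
  linarith

end Pool.Agent.H878R2.Cov
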