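import Mathlib
import Pool.Agent.H878R2.Cov.Z
import Pool.Agent.H878R2.Cov.M

open MeasureTheory Set Filter Topology Metric
open scoped RealInnerProductSpace Pointwise

namespace Pool.Agent.H878R2.Cov
open Pool.Agent.Helper890.Cov

section
variable {n : ℕ} {K : Set (E n)} {h : E n → ℝ} {X : E n → E n}

theorem Wk.neg (G : Wk K h X) :
    Wk ((fun x : E n => -x) '' K) (fun u => h (-u)) (fun u => -X (-u)) := by
  refine ⟨?_, ?_, ?_, ?_, ?_, ?_, ?_, ?_, ?_, ?_, ?_⟩
  · exact G.compact.image continuous_neg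
  · have := G.convex.neg
    rwa [← Set.image_neg_eq_neg] at this
  · have h1 := (Homeomorph.neg (E n)).image_interior K
    have h2 : (0 : E n) ∈ (Homeomorph.neg (E n)) '' interior K := ⟨0, G.zero_mem, by simp⟩
    rw [h1] at h2
    exact h2
  · intro u hu
    have h1 := (G.grad (-u) (neg_ne_zero.2 hu)).comp u (hasFDerivAt_id u).neg
    have e : (innerSL ℝ (X (-u))).comp (-(ContinuousLinearMap.id ℝ (E n))) =
        innerSL ℝ (-X (-u)) := by
      ext w
      simp
    rw [e] at h1
    exact h1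
  · intro u hu
    exact ⟨X (-u), G.mem (-u) (neg_ne_zero.2 hu), rfl⟩
  · rintro _ ⟨y, hy, rfl⟩ u
    have := G.le y hy (-u)
    simp only [inner_neg_left, inner_neg_right] at this ⊢
    exact this
  · intro u hu
    have := G.eq (-u) (neg_ne_zero.2 hu)
    simp only [inner_neg_left, inner_neg_right] at this ⊢
    exact this
  · intro x hx
    refine ⟨-x, G.charac (-x) ?_, neg_neg x⟩
    intro u
    have := hx (-u)
    rw [neg_neg] at this
    simp only [inner_neg_left, inner_neg_right] at this ⊢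
    exact this
  · intro r u hr
    have := G.homog r (-u) hr
    rw [smul_neg] at this
    exact this
  · intro r u hr hu
    have := G.homogX r (-u) hr (neg_ne_zero.2 hu)
    rw [smul_neg] at this
    show -X (-(r • u)) = -X (-u)
    rw [this]
  · obtain ⟨c, C, hc, hq⟩ := G.quad
    refine ⟨c, C, hc, fun u v hu hv => ?_⟩
    obtain ⟨q1, q2, q3, q4⟩ := hq (-u) (-v) (by rwa [norm_neg]) (by rwa [norm_neg])
    have e1 : ‖-u - -v‖ = ‖u - v‖ := by rw [← norm_neg]; congr 1; abel
    have e2 : ‖X (-u) - X (-v)‖ = ‖-X (-u) - -X (-v)‖ := by rw [← norm_neg]; congr 1; abel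
    have e3 : ⟪X (-u), -v⟫ = ⟪-X (-u), v⟫ := by rw [inner_neg_left, inner_neg_right]
    rw [e1, e3] at q1 q2
    rw [e1, e2] at q3 q4
    exact ⟨q1, q2, q3, q4⟩

theorem curv_neg (X : E n → E n) (u : E n) : curv (fun u => -X (-u)) u = curv X (-u) := by
  have hfd : fderiv ℝ (fun u => -X (-u)) u = fderiv ℝ X (-u) := by
    have h1 : fderiv ℝ (fun u => X (-u)) u = -fderiv ℝ X (-u) := by
      have h0 : (fun u => X (-u)) = fun u => X ((-1 : ℝ) • u) := by
        funext v; rw [neg_one_smul]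
      rw [h0, fderiv_comp_smul, neg_one_smul]
      ext1 w
      simp
    have h2 : fderiv ℝ (fun u => -X (-u)) u = -fderiv ℝ (fun u => X (-u)) u := fderiv_fun_neg
    rw [h2, h1, neg_neg]
  unfold curv
  congr 1
  unfold BB
  rw [hfd, norm_neg]
  congr 2
  ext w
  simp

end

/-- the theorem for two bodies with Lipschitz gradients -/
theorem wT {n : ℕ} (hn : 2 ≤ n) {K H : Set (E n)} {hK hH : E n → ℝ} {XK XH : E n → E n}
    (gK : Wk K hK XK) (gH : Wk H hH XH) (hcov : ∀ x, covg K x = covg H x)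
    (hw : ∀ u, u ≠ 0 → hK u + hK (-u) = hH u + hH (-u)) :
    ∃ z : E n, H = (fun x => x + z) '' K ∨ H = (fun x => -x + z) '' K := by
  have hq : ∀ᵐ u : E n, (curv XH u = curv XK u ∧ curv XH (-u) = curv XK (-u)) ∨
      (curv XH u = curv XK (-u) ∧ curv XH (-u) = curv XK u) := by
    filter_upwards [wF3 hn gK gH hcov hw] with u hu
    exact JZ.quad508 hu.1 hu.2
  rcases wZ hn gK gH hcov hw with h1 | h1
  · -- always swapped
    have h2 : ∀ᵐ u : E n, ¬ (curv XH u = curv XK u ∧ curv XH (-u) = curv XK (-u) ∧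
        curv XK u ≠ curv XK (-u)) := by
      rw [ae_iff]
      simpa using h1
    have h3 : ∀ᵐ u : E n, curv (fun u => -XK (-u)) u = curv XH u := by
      filter_upwards [hq, h2] with u h4 h5
      rw [curv_neg]
      rcases h4 with h6 | h6
      · by_cases h7 : curv XK u = curv XK (-u)
        · rw [h6.1, h7]
        · exact absurd ⟨h6.1, h6.2, h7⟩ h5
      · exact h6.1.symm
    obtain ⟨z, hz⟩ := wM hn gK.neg gH h3
    refine ⟨z, Or.inr ?_⟩
    rw [hz, Set.image_image]
  · have h2 : ∀ᵐ u : E n, ¬ (curv XH u = curv XK (-u) ∧ curv XH (-u) = curv XK u ∧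
        curv XK u ≠ curv XK (-u)) := by
      rw [ae_iff]
      simpa using h1
    have h3 : ∀ᵐ u : E n, curv XK u = curv XH u := by
      filter_upwards [hq, h2] with u h4 h5
      rcases h4 with h6 | h6
      · exact h6.1.symm
      · by_cases h7 : curv XK u = curv XK (-u)
        · rw [h6.1, ← h7]
        · exact absurd ⟨h6.1, h6.2, h7⟩ h5
    obtain ⟨z, hz⟩ := wM hn gK gH h3
    exact ⟨z, Or.inl hz⟩

end Pool.Agent.H878R2.Cov
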