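import Mathlib
import Pool.Agent.H878R2.Cov.T
import Pool.Agent.H878R2.Cov.HR3
import Pool.Agent.Helper890.Cov.JFin
import Pool.Agent.Helper890.Cov.All

open MeasureTheory Set Filter Topology Metric
open scoped RealInnerProductSpace Pointwise

namespace Pool.Agent.H878R2.Cov
open Pool.Agent.Helper890.Cov Pool.Agent.Helper890.Cov.JFin

/-- the working description of a translate -/
def RegBody {n : ℕ} (K : Set (E n)) : Prop :=
  ∃ (a : E n) (h : E n → ℝ) (X : E n → E n), Wk (stFin_tr K a) h X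

/-- a regular convex body is determined by its covariogram among all convex bodies -/
theorem fin_all {n : ℕ} (hn : 2 ≤ n) {K H : Set (E n)} (hK : RegBody K)
    (hH1 : IsCompact H) (hH2 : Convex ℝ H) (hH3 : (interior H).Nonempty)
    (hcov : ∀ x, covg K x = covg H x) :
    ∃ z : E n, H = (fun x => x + z) '' K ∨ H = (fun x => -x + z) '' K := by
  obtain ⟨a, hK', XK, gK⟩ := hK
  obtain ⟨b, hb⟩ := hH3
  have h1 : IsCompact (stFin_tr H b) := (Homeomorph.addRight b).isCompact_preimage.2 hH1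
  have h2 : Convex ℝ (stFin_tr H b) := hH2.translate_preimage_left b
  have h3 : (0 : E n) ∈ interior (stFin_tr H b) := by
    have h : interior (stFin_tr H b) = (Homeomorph.addRight b) ⁻¹' (interior H) :=
      ((Homeomorph.addRight b).preimage_interior H).symm
    rw [h]
    show (0 : E n) + b ∈ interior H
    rw [zero_add]
    exact hb
  have hc : ∀ x, covg (stFin_tr K a) x = covg (stFin_tr H b) x := by
    intro x
    rw [stFin_covg, stFin_covg, hcov]
  obtain ⟨⟨XH, gH⟩, hw⟩ := HR hn gK h1 h2 h3 hc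
  obtain ⟨z, hz⟩ := wT hn gK gH hc (fun u _ => hw u)
  have hmH : ∀ x, x ∈ H ↔ x - b ∈ stFin_tr H b := by
    intro x
    show x ∈ H ↔ x - b + b ∈ H
    rw [sub_add_cancel]
  have hmK : ∀ x, x ∈ stFin_tr K a ↔ x + a ∈ K := fun x => Iff.rfl
  rcases hz with hz | hz
  · refine ⟨z + b - a, Or.inl ?_⟩
    ext x
    rw [hmH, hz]
    simp only [mem_image]
    constructor
    · rintro ⟨y, hy, hyx⟩
      refine ⟨y + a, (hmK y).1 hy, ?_⟩
      have : y + a + (z + b - a) = (y + z) + b := by abel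
      rw [this, hyx, sub_add_cancel]
    · rintro ⟨y, hy, rfl⟩
      refine ⟨y - a, (hmK _).2 (by rw [sub_add_cancel]; exact hy), ?_⟩
      abel
  · refine ⟨a + z + b, Or.inr ?_⟩
    ext x
    rw [hmH, hz]
    simp only [mem_image]
    constructor
    · rintro ⟨y, hy, hyx⟩
      refine ⟨y + a, (hmK y).1 hy, ?_⟩
      have : -(y + a) + (a + z + b) = (-y + z) + b := by abel
      rw [this, hyx, sub_add_cancel]
    · rintro ⟨y, hy, rfl⟩
      refine ⟨y - a, (hmK _).2 (by rw [sub_add_cancel]; exact hy), ?_⟩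
      abel

/-- bodies of class `C^2_+` are regular -/
theorem reg_c2 {n : ℕ} (hn : 2 ≤ n) {K : Set (E n)} (hK1 : IsCompact K) (hK2 : Convex ℝ K)
    (hK3 : (interior K).Nonempty) (hK4 : IsC2Plus K) : RegBody K := by
  obtain ⟨a, ha⟩ := hK3
  exact ⟨a, _, _, Wk.of_good hn (stFin_good JS0.stS0 JS.stS JG0.stG0 hn hK1 hK2 ha hK4)⟩

end Pool.Agent.H878R2.Cov
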