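import Mathlib
import Pool.Agent.H878R2.Cov.Fin

open MeasureTheory Set Filter Topology Metric
open scoped RealInnerProductSpace Pointwise

namespace Pool.Agent.H878R2.Cov
open Pool.Agent.Helper890.Cov Pool.Agent.Helper890.Cov.JFin Pool.Agent.Helper890.Cov.JG0

/-- a ball of radius `r` rolls freely inside `K` -/
def BallRollsIn {n : ℕ} (r : ℝ) (K : Set (E n)) : Prop :=
  ∀ p ∈ frontier K, ∃ c : E n, dist p c = r ∧ closedBall c r ⊆ K

/-- `K` rolls freely inside a ball of radius `R` -/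
def RollsInBall {n : ℕ} (R : ℝ) (K : Set (E n)) : Prop :=
  ∀ p ∈ frontier K, ∃ c : E n, dist p c = R ∧ K ⊆ closedBall c R

section
variable {n : ℕ} {K : Set (E n)}

theorem max_frontier (hKc : IsCompact K) {x u : E n} (hu : u ≠ 0) (hx : x ∈ K)
    (hxu : ⟪x, u⟫ = sf K u) : x ∈ frontier K := by
  rw [hKc.isClosed.frontier_eq]
  refine ⟨hx, fun hi => ?_⟩
  have h1 : Tendsto (fun t : ℝ => x + t • u) (𝓝 0) (𝓝 x) := by
    have : Continuous (fun t : ℝ => x + t • u) := by fun_prop
    have h := this.tendsto 0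
    simpa using h
  have h3 : ∀ᶠ t : ℝ in 𝓝 0, x + t • u ∈ K := h1 (mem_interior_iff_mem_nhds.mp hi)
  have h4 : ∀ᶠ t : ℝ in 𝓝[>] 0, x + t • u ∈ K := h3.filter_mono nhdsWithin_le_nhds
  obtain ⟨t, ht1, ht2⟩ := (h4.and self_mem_nhdsWithin).exists
  have h5 := stG0_le hKc ht1 u
  rw [inner_add_left, real_inner_smul_left, hxu, real_inner_self_eq_norm_sq] at h5
  have h6 : 0 < ‖u‖ ^ 2 := by positivity
  have h7 : 0 < t := ht2
  nlinarith [mul_pos h7 h6]

/-- the centre of a touching inner ball -/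
theorem inner_centre (hKc : IsCompact K) {r : ℝ} (hr : 0 < r) {x c u : E n} (hu : ‖u‖ = 1)
    (hxu : ∀ y ∈ K, ⟪y, u⟫ ≤ ⟪x, u⟫) (hd : dist x c = r) (hb : closedBall c r ⊆ K) :
    c = x - r • u := by
  have h1 : c + r • u ∈ K := by
    apply hb
    rw [mem_closedBall, dist_eq_norm, add_sub_cancel_left, norm_smul, hu, mul_one,
      Real.norm_of_nonneg hr.le]
  have h2 := hxu _ h1
  rw [inner_add_left, real_inner_smul_left, real_inner_self_eq_norm_sq, hu] at h2
  have h3 : ‖x - c‖ = r := by rw [← dist_eq_norm]; exact hd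
  have h4 : ‖(x - c) - r • u‖ ^ 2 ≤ 0 := by
    rw [norm_sub_sq_real, h3, norm_smul, hu, real_inner_smul_right, inner_sub_left,
      Real.norm_of_nonneg hr.le]
    nlinarith
  have h5 : (x - c) - r • u = 0 := by
    rw [← norm_eq_zero]
    have := norm_nonneg ((x - c) - r • u)
    nlinarith
  have h6 : x - c = r • u := sub_eq_zero.1 h5
  rw [← h6]; abel

theorem roll_reg (hKc : IsCompact K) (hKv : Convex ℝ K)
    (hKi : (interior K).Nonempty) {r R : ℝ} (hr : 0 < r) (hR : 0 < R) (h1 : BallRollsIn r K)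
    (h2 : RollsInBall R K) : RegBody K := by
  obtain ⟨a, ha⟩ := hKi
  set K' := stFin_tr K a with hK'
  have hc' : IsCompact K' := (Homeomorph.addRight a).isCompact_preimage.2 hKc
  have hv' : Convex ℝ K' := hKv.translate_preimage_left a
  have h0' : (0 : E n) ∈ interior K' := by
    have h : interior K' = (Homeomorph.addRight a) ⁻¹' (interior K) :=
      ((Homeomorph.addRight a).preimage_interior K).symm
    rw [h]
    show (0 : E n) + a ∈ interior K
    rw [zero_add]
    exact ha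
  have hfr : ∀ x, x ∈ frontier K' → x + a ∈ frontier K := by
    intro x hx
    have h : frontier K' = (Homeomorph.addRight a) ⁻¹' (frontier K) :=
      ((Homeomorph.addRight a).preimage_frontier K).symm
    rw [h] at hx
    exact hx
  have hin : ∀ p ∈ frontier K', ∃ c : E n, dist p c = r ∧ closedBall c r ⊆ K' := by
    intro p hp
    obtain ⟨c, hc1, hc2⟩ := h1 (p + a) (hfr p hp)
    refine ⟨c - a, ?_, ?_⟩
    · rw [dist_eq_norm] at hc1 ⊢
      rw [← hc1]; congr 1; abel
    · intro y hy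
      apply hc2
      rw [mem_closedBall, dist_eq_norm] at hy ⊢
      have : y + a - c = y - (c - a) := by abel
      rw [this]; exact hy
  have hout : ∀ p ∈ frontier K', ∃ c : E n, dist p c = R ∧ K' ⊆ closedBall c R := by
    intro p hp
    obtain ⟨c, hc1, hc2⟩ := h2 (p + a) (hfr p hp)
    refine ⟨c - a, ?_, ?_⟩
    · rw [dist_eq_norm] at hc1 ⊢
      rw [← hc1]; congr 1; abel
    · intro y hy
      have hy' : y + a ∈ K := hy
      have := hc2 hy'
      rw [mem_closedBall, dist_eq_norm] at this ⊢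
      have e : y + a - c = y - (c - a) := by abel
      rwa [e] at this
  -- inner bound
  have hlow : ∀ u v : E n, ‖u‖ = 1 → ‖v‖ = 1 → ∀ x ∈ K', ⟪x, u⟫ = sf K' u →
      (r / 2) * ‖u - v‖ ^ 2 ≤ sf K' v - ⟪x, v⟫ := by
    intro u v hu hv x hx hxu
    have hu0 : u ≠ 0 := by rw [← norm_pos_iff, hu]; exact one_pos
    have hmax : ∀ y ∈ K', ⟪y, u⟫ ≤ ⟪x, u⟫ := fun y hy => by rw [hxu]; exact stG0_le hc' hy u
    obtain ⟨c, hc1, hc2⟩ := hin x (max_frontier hc' hu0 hx hxu)
    have hcx := inner_centre hc' hr hu hmax hc1 hc2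
    have h3 : c + r • v ∈ K' := by
      apply hc2
      rw [mem_closedBall, dist_eq_norm, add_sub_cancel_left, norm_smul, hv, mul_one,
        Real.norm_of_nonneg hr.le]
    have h4 := stG0_le hc' h3 v
    rw [hcx, inner_add_left, inner_sub_left, real_inner_smul_left, real_inner_smul_left,
      real_inner_self_eq_norm_sq, hv] at h4
    rw [norm_sub_sq_real, hu, hv]
    linarith
  have hup : ∀ u v : E n, ‖u‖ = 1 → ‖v‖ = 1 → ∀ x ∈ K', ⟪x, u⟫ = sf K' u →
      sf K' v - ⟪x, v⟫ ≤ (R / 2) * ‖u - v‖ ^ 2 := by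
    intro u v hu hv x hx hxu
    have hu0 : u ≠ 0 := by rw [← norm_pos_iff, hu]; exact one_pos
    have hmax : ∀ y ∈ K', ⟪y, u⟫ ≤ ⟪x, u⟫ := fun y hy => by rw [hxu]; exact stG0_le hc' hy u
    have hxf := max_frontier hc' hu0 hx hxu
    obtain ⟨c, hc1, hc2⟩ := hin x hxf
    have hcx := inner_centre hc' hr hu hmax hc1 hc2
    obtain ⟨d, hd1, hd2⟩ := hout x hxf
    -- the outer ball has the same normal
    have hxd : ‖x - d‖ = R := by rw [← dist_eq_norm]; exact hd1
    set w : E n := R⁻¹ • (x - d) with hw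
    have hwn : ‖w‖ = 1 := by
      rw [hw, norm_smul, hxd, norm_inv, Real.norm_of_nonneg hR.le, inv_mul_cancel₀ hR.ne']
    have hxw : x - d = R • w := by rw [hw, smul_smul, mul_inv_cancel₀ hR.ne', one_smul]
    have hmaxw : ∀ y ∈ K', ⟪y, w⟫ ≤ ⟪x, w⟫ := by
      intro y hy
      have h3 := hd2 hy
      rw [mem_closedBall, dist_eq_norm] at h3
      have h4 : ⟪y - d, w⟫ ≤ R := by
        refine (real_inner_le_norm _ _).trans ?_
        rw [hwn, mul_one]; exact h3
      have h5 : ⟪x - d, w⟫ = R := by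
        rw [hxw, real_inner_smul_left, real_inner_self_eq_norm_sq, hwn]; ring
      rw [inner_sub_left] at h4 h5
      linarith
    have hcx' := inner_centre hc' hr hwn hmaxw hc1 hc2
    have huw : u = w := by
      rw [hcx] at hcx'
      have h3 : r • u = r • w := by
        have := sub_right_injective hcx'
        exact this
      exact smul_right_injective _ hr.ne' h3
    have hdx : d = x - R • u := by
      rw [huw, ← hxw]; abel
    obtain ⟨y, hy, hyv⟩ := stG0_ex hc' ⟨x, hx⟩ v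
    have h3 := hd2 hy
    rw [mem_closedBall, dist_eq_norm] at h3
    have h4 : ⟪y - d, v⟫ ≤ R := by
      refine (real_inner_le_norm _ _).trans ?_
      rw [hv, mul_one]; exact h3
    rw [inner_sub_left, hyv, hdx, inner_sub_left, real_inner_smul_left] at h4
    rw [norm_sub_sq_real, hu, hv]
    linarith
  obtain ⟨X, hX⟩ := mk_wk hc' hv' h0' (c := r / 2) (C := R / 2) (by positivity) (by positivity) hup hlow
  exact ⟨a, sf K', X, hX⟩

theorem Wk.uniq {h : E n → ℝ} {X : E n → E n} (g : Wk K h X) {u : E n} (hu : u ≠ 0) {x : E n}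
    (hx : x ∈ K) (hxu : ⟪x, u⟫ = h u) : x = X u := by
  have h1 : HasFDerivAt (fun v => h v - ⟪x, v⟫) (innerSL ℝ (X u) - innerSL ℝ x) u :=
    (g.grad u hu).sub (innerSL ℝ x).hasFDerivAt
  have h2 : IsLocalMin (fun v => h v - ⟪x, v⟫) u := by
    refine Filter.Eventually.of_forall ?_
    intro v
    have := g.le x hx v
    show h u - ⟪x, u⟫ ≤ h v - ⟪x, v⟫
    rw [hxu, sub_self]
    linarith
  have h3 := h2.hasFDerivAt_eq_zero h1
  have h4 : innerSL ℝ (X u) = innerSL ℝ x := sub_eq_zero.mp h3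
  apply ext_inner_right ℝ
  intro v
  exact (congrArg (fun T : E n →L[ℝ] ℝ => T v) h4).symm

/-- regular bodies are directly indecomposable -/
theorem reg_indec (hK : RegBody K) : ∀ (U W : Submodule ℝ (E n)), IsCompl U W →
    ∀ (L M : Set (E n)), IsCompact L → Convex ℝ L → IsCompact M → Convex ℝ M →
      L ⊆ (U : Set (E n)) → M ⊆ (W : Set (E n)) → K = L + M → L.Subsingleton ∨ M.Subsingleton := by
  obtain ⟨a, h, X, g⟩ := hK
  intro U W hUW L M hLc hLconv hMc hMconv hLU hMW hKe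
  by_contra hcon
  rw [not_or, Set.not_subsingleton_iff, Set.not_subsingleton_iff] at hcon
  obtain ⟨⟨l1, hl1, l2, hl2, hl⟩, ⟨m1, hm1, m2, hm2, hm⟩⟩ := hcon
  have hv : m1 - m2 ∉ U := by
    intro h
    have hU : m1 - m2 ∈ W := W.sub_mem (hMW hm1) (hMW hm2)
    have := (Submodule.disjoint_def.mp hUW.disjoint) _ h hU
    exact hm (sub_eq_zero.mp this)
  obtain ⟨u, huU, hu⟩ : ∃ u ∈ Uᗮ, u ≠ 0 := by
    by_contra hno
    push Not at hno
    have h1 : Uᗮ = ⊥ := by rw [Submodule.eq_bot_iff]; exact hno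
    have h2 : U = ⊤ := (Submodule.orthogonal_eq_bot_iff).mp h1
    exact hv (h2 ▸ Submodule.mem_top)
  have hφU : ∀ x ∈ U, ⟪x, u⟫ = 0 := fun x hx =>
    Submodule.inner_right_of_mem_orthogonal hx huU
  obtain ⟨m, hmM, hmmax⟩ := hMc.exists_isMaxOn ⟨m1, hm1⟩ (f := fun x => ⟪x, u⟫) (by fun_prop)
  have hmem : ∀ l ∈ L, l + m - a ∈ stFin_tr K a := by
    intro l hl
    show l + m - a + a ∈ K
    rw [sub_add_cancel, hKe]
    exact Set.add_mem_add hl hmM
  have hmax : ∀ y ∈ stFin_tr K a, ⟪y, u⟫ ≤ ⟪m, u⟫ - ⟪a, u⟫ := by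
    intro y hy
    have hy' : y + a ∈ K := hy
    rw [hKe] at hy'
    obtain ⟨l', hl', m', hm', he⟩ := Set.mem_add.mp hy'
    have h1 : ⟪m', u⟫ ≤ ⟪m, u⟫ := hmmax hm'
    have h2 : ⟪y, u⟫ = ⟪l' + m', u⟫ - ⟪a, u⟫ := by
      rw [he, inner_add_left]; ring
    rw [h2, inner_add_left, hφU l' (hLU hl')]
    linarith
  have hval : ∀ l ∈ L, ⟪l + m - a, u⟫ = h u := by
    intro l hl
    apply le_antisymm (g.le _ (hmem l hl) u)
    rw [← g.eq u hu]
    refine (hmax _ (g.mem u hu)).trans (le_of_eq ?_)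
    rw [inner_sub_left, inner_add_left, hφU l (hLU hl)]
    ring
  have e1 := g.uniq hu (hmem l1 hl1) (hval l1 hl1)
  have e2 := g.uniq hu (hmem l2 hl2) (hval l2 hl2)
  apply hl
  have e3 : l1 + m - a = l2 + m - a := by rw [e1, e2]
  exact add_right_cancel (sub_left_injective e3)

/-- a compact convex set with the covariogram of a body has nonempty interior -/
theorem cov_int {H : Set (E n)} (hK : RegBody K) (hHc : IsCompact H) (hHv : Convex ℝ H)
    (hcov : ∀ x, covg K x = covg H x) : (interior H).Nonempty := by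
  obtain ⟨a, h, X, g⟩ := hK
  by_contra hcon
  rw [Set.not_nonempty_iff_eq_empty] at hcon
  have h1 : volume H = 0 := by
    have h2 := hHv.addHaar_frontier (volume : Measure (E n))
    rwa [hHc.isClosed.frontier_eq, hcon, diff_empty] at h2
  have h3 : covg H 0 = 0 := by
    unfold covg Measure.real
    have : volume (H ∩ (fun y => y + 0) '' H) = 0 := measure_mono_null inter_subset_left h1
    rw [this]; rfl
  have h4 : covg (stFin_tr K a) 0 = 0 := by rw [stFin_covg, hcov, h3]
  have h5 : covg (stFin_tr K a) 0 = (volume : Measure (E n)).real (stFin_tr K a) := by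
    unfold covg
    have : (fun y : E n => y + 0) '' (stFin_tr K a) = stFin_tr K a := by simp
    rw [this, inter_self]
  rw [h5] at h4
  exact g.vol_pos.ne' h4

end

end Pool.Agent.H878R2.Cov
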