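import Mathlib
import Pool.Agent.H878R2.Cov.Roll

open MeasureTheory Set Filter Topology Metric
open scoped RealInnerProductSpace Pointwise

namespace Pool.Agent.H878R2.Cov
open Pool.Agent.Helper890.Cov Pool.Agent.Helper890.Cov.JFin Pool.Agent.Helper890.Cov.JG0

/-- regular bodies have the two rolling properties -/
theorem reg_roll {n : ℕ} {K : Set (E n)} (hK : RegBody K) :
    ∃ r R : ℝ, 0 < r ∧ 0 < R ∧ BallRollsIn r K ∧ RollsInBall R K := by
  obtain ⟨a, h, X, g⟩ := hK
  obtain ⟨ρ, hρ, hin⟩ := inner_ball g
  obtain ⟨c, C, hc, hq⟩ := g.quad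
  have hsup : ∀ p ∈ frontier K, ∃ u : E n, ‖u‖ = 1 ∧ p - a = X u := by
    intro p hp
    have hKconv : Convex ℝ K := by
      have h1 : K = (fun x => x + a) '' (stFin_tr K a) := by
        ext x
        constructor
        · intro hx
          refine ⟨x - a, ?_, by simp⟩
          show x - a + a ∈ K
          rwa [sub_add_cancel]
        · rintro ⟨y, hy, rfl⟩
          exact hy
      rw [h1]
      have h0 : (fun x : E n => x + a) '' (stFin_tr K a) = (fun x => a + x) '' (stFin_tr K a) :=
        Set.image_congr (fun x _ => add_comm x a)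
      rw [h0]
      exact g.convex.translate a
    have hpi : p ∉ interior K := hp.2
    obtain ⟨f, hf⟩ := geometric_hahn_banach_open_point hKconv.interior isOpen_interior hpi
    set w : E n := (InnerProductSpace.toDual ℝ (E n)).symm f with hw
    have hfw : ∀ y, f y = ⟪y, w⟫ := by
      intro y
      rw [real_inner_comm, hw]
      exact (InnerProductSpace.toDual_symm_apply).symm
    have hai : a ∈ interior K := by
      have h1 : interior (stFin_tr K a) = (Homeomorph.addRight a) ⁻¹' (interior K) :=
        ((Homeomorph.addRight a).preimage_interior K).symm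
      have h2 := g.zero_mem
      rw [h1] at h2
      have h3 : (0 : E n) + a ∈ interior K := h2
      rwa [zero_add] at h3
    have hw0 : w ≠ 0 := by
      intro h0
      have := hf a hai
      rw [hfw, hfw, h0, inner_zero_right, inner_zero_right] at this
      exact lt_irrefl _ this
    have hle : ∀ y ∈ K, ⟪y, w⟫ ≤ ⟪p, w⟫ := by
      intro y hy
      have h1 : y ∈ closure (interior K) := by
        rw [hKconv.closure_interior_eq_closure_of_nonempty_interior ⟨a, hai⟩]
        exact subset_closure hy
      have h2 : closure (interior K) ⊆ {z : E n | ⟪z, w⟫ ≤ ⟪p, w⟫} := by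
        refine closure_minimal ?_ (isClosed_le (by fun_prop) continuous_const)
        intro z hz
        have := hf z hz
        rw [hfw, hfw] at this
        exact this.le
      exact h2 h1
    have hKcl : IsClosed K := by
      have h1 : K = (Homeomorph.addRight a) '' (stFin_tr K a) := by
        ext x
        constructor
        · intro hx
          refine ⟨x - a, ?_, by simp⟩
          show x - a + a ∈ K
          rwa [sub_add_cancel]
        · rintro ⟨y, hy, rfl⟩
          exact hy
      rw [h1]
      exact (g.compact.image (Homeomorph.addRight a).continuous).isClosed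
    have hpK : p ∈ K := hKcl.frontier_subset hp
    refine ⟨‖w‖⁻¹ • w, nrm_norm hw0, ?_⟩
    rw [g.X_nrm hw0]
    refine g.uniq hw0 (show p - a + a ∈ K by rwa [sub_add_cancel]) ?_
    have hmem : p - a ∈ stFin_tr K a := by
      show p - a + a ∈ K
      rwa [sub_add_cancel]
    apply le_antisymm (g.le _ hmem w)
    rw [← g.eq w hw0]
    have h1 : X w + a ∈ K := g.mem w hw0
    have h2 := hle _ h1
    rw [inner_add_left] at h2
    rw [inner_sub_left]
    linarith
  refine ⟨ρ, 2 * |C| + 1, hρ, by positivity, ?_, ?_⟩
  · intro p hp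
    obtain ⟨u, hu, hpu⟩ := hsup p hp
    refine ⟨p - ρ • u, ?_, ?_⟩
    · rw [dist_eq_norm, sub_sub_cancel, norm_smul, hu, mul_one, Real.norm_of_nonneg hρ.le]
    · intro y hy
      rw [mem_closedBall, dist_eq_norm] at hy
      have h1 := hin u hu (y - (p - ρ • u)) hy
      have e1 : X u - ρ • u + (y - (p - ρ • u)) = y - a := by
        rw [← hpu]; abel
      rw [e1] at h1
      have h2 : y - a + a ∈ K := h1
      rwa [sub_add_cancel] at h2
  · intro p hp
    obtain ⟨u, hu, hpu⟩ := hsup p hp
    have hR0 : 0 < 2 * |C| + 1 := by positivity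
    refine ⟨p - (2 * |C| + 1) • u, ?_, ?_⟩
    · rw [dist_eq_norm, sub_sub_cancel, norm_smul, hu, mul_one, Real.norm_of_nonneg hR0.le]
    · intro y hy
      rw [mem_closedBall, dist_eq_norm]
      set z : E n := y - (p - (2 * |C| + 1) • u) with hz
      by_cases h0 : z = 0
      · rw [h0, norm_zero]; positivity
      · set v : E n := ‖z‖⁻¹ • z with hv
        have hvn : ‖v‖ = 1 := nrm_norm h0
        have h1 := (hq u v hu hvn).2.1
        have hmem : y - a ∈ stFin_tr K a := by
          show y - a + a ∈ K
          rwa [sub_add_cancel]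
        have h2 := g.le _ hmem v
        have h3 : ‖u - v‖ ^ 2 = 2 - 2 * ⟪u, v⟫ := by
          rw [norm_sub_sq_real, hu, hvn]; ring
        have h4 : ⟪z, v⟫ = ‖z‖ := by
          rw [hv, real_inner_smul_right, real_inner_self_eq_norm_sq]
          have : ‖z‖ ≠ 0 := norm_ne_zero_iff.2 h0
          field_simp
        have h5 : z = (y - a) - X u + (2 * |C| + 1) • u := by
          rw [hz, ← hpu]; abel
        rw [← h4, h5, inner_add_left, inner_sub_left, real_inner_smul_left]
        rw [h3] at h1
        have h6 : ⟪u, v⟫ ≤ 1 := by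
          refine (real_inner_le_norm _ _).trans ?_
          rw [hu, hvn]; norm_num
        have h7 : C * (2 - 2 * ⟪u, v⟫) ≤ |C| * (2 - 2 * ⟪u, v⟫) :=
          mul_le_mul_of_nonneg_right (le_abs_self C) (by linarith)
        nlinarith

end Pool.Agent.H878R2.Cov
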